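import Pool.Agent.UCP.CellPath

/-!
[UCP-S5] a cell path which leaves the window `Nr 4` at height `hi` crosses a full column or row of the grid of height `hi`.
-/

namespace UCP

/-- first exit of a path from a set -/
theorem Annulus_exit {S P : ℕ × Pt → Prop} {p q : ℕ × Pt} (h : ReachC S p q) (hp : P p)
    (hq : ¬ P q) :
    ∃ r r', ReachC (fun x => S x ∧ P x) p r ∧ AdjC r r' ∧ S r' ∧ ¬ P r' := by
  obtain ⟨h1, h2⟩ := h
  have key : ∀ y, Relation.ReflTransGen (fun x y => AdjC x y ∧ S y) p y →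
      (∃ r r', ReachC (fun x => S x ∧ P x) p r ∧ AdjC r r' ∧ S r' ∧ ¬ P r') ∨
        ReachC (fun x => S x ∧ P x) p y := by
    intro y hy
    induction hy with
    | refl => exact Or.inr (ReachC.refl ⟨h1, hp⟩)
    | @tail b c _ hbc ih =>
      rcases ih with ih | ih
      · exact Or.inl ih
      · by_cases hc : P c
        · exact Or.inr (ih.tail hbc.1 ⟨hbc.2, hc⟩)
        · exact Or.inl ⟨b, c, ih, hbc.1, hbc.2, hc⟩
  rcases key q h2 with h | h
  · exact h
  · exact absurd h.right.2 hq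

/-- a path along which an integer function moves by steps at most one crosses every level -/
theorem Annulus_cross {S : ℕ × Pt → Prop} {u v : ℕ × Pt} (h : ReachC S u v) (φ : ℕ × Pt → ℕ)
    (hφ : ∀ x y, S x → S y → AdjC x y → φ y ≤ φ x + 1) {c : ℕ} (hu : φ u < c) (hv : c < φ v) :
    ∃ x0 x1 y1 y0, S x0 ∧ S y0 ∧ AdjC x0 x1 ∧ φ x0 < c ∧ ReachC (fun x => S x ∧ φ x = c) x1 y1 ∧
      AdjC y1 y0 ∧ c < φ y0 := by
  obtain ⟨h1, h2⟩ := h
  have key : ∀ y, Relation.ReflTransGen (fun x y => AdjC x y ∧ S y) u y → S y ∧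
      ((∃ x0 x1 y1 y0, S x0 ∧ S y0 ∧ AdjC x0 x1 ∧ φ x0 < c ∧
        ReachC (fun x => S x ∧ φ x = c) x1 y1 ∧ AdjC y1 y0 ∧ c < φ y0) ∨ φ y < c ∨
      (∃ x0 x1, S x0 ∧ AdjC x0 x1 ∧ φ x0 < c ∧ ReachC (fun x => S x ∧ φ x = c) x1 y)) := by
    intro y hy
    induction hy with
    | refl => exact ⟨h1, Or.inr (Or.inl hu)⟩
    | @tail b d _ hbd ih =>
      refine ⟨hbd.2, ?_⟩
      obtain ⟨hSb, ih⟩ := ih
      have hst := hφ b d hSb hbd.2 hbd.1
      rcases ih with ih | ih | ⟨x0, x1, hx0, hx01, hlt, hr⟩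
      · exact Or.inl ih
      · by_cases hd : φ d < c
        · exact Or.inr (Or.inl hd)
        · have hd' : φ d = c := by omega
          exact Or.inr (Or.inr ⟨b, d, hSb, hbd.1, ih, ReachC.refl ⟨hbd.2, hd'⟩⟩)
      · rcases lt_trichotomy (φ d) c with hd | hd | hd
        · exact Or.inr (Or.inl hd)
        · exact Or.inr (Or.inr ⟨x0, x1, hx0, hx01, hlt, hr.tail hbd.1 ⟨hbd.2, hd⟩⟩)
        · exact Or.inl ⟨x0, x1, b, d, hx0, hbd.2, hx01, hlt, hr, hbd.1, hd⟩
  obtain ⟨_, h | h | ⟨x0, x1, _, _, _, hr⟩⟩ := key v h2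
  · exact h
  · omega
  · have := hr.right.2
    omega

theorem Annulus_swp_anc (sw : Bool) (k : ℕ) (A : Pt) :
    (swp sw (anc k A)).1 = (swp sw A).1 / 3 ^ k := by
  cases sw <;> rfl

theorem Annulus_swp_sd {sw : Bool} {a b : Pt} (h : Sd a b) :
    (swp sw a).1 = (swp sw b).1 ∨ (swp sw a).1 = (swp sw b).1 + 1 ∨
      (swp sw b).1 = (swp sw a).1 + 1 := by
  cases sw <;> simp only [swp, Sd] at * <;> simp <;> omega

/-- the effect of an `AdjC`-step on the ancestor of height `hi` -/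
theorem Annulus_step {hi : ℕ} {x y : ℕ × Pt} (hx : x.1 ≤ hi) (hy : y.1 ≤ hi) (h : AdjC x y) :
    anc (hi - y.1) y.2 = anc (hi - x.1) x.2 ∨ (x.1 = y.1 ∧ Sd x.2 y.2) := by
  rcases h with h | ⟨h1, h2⟩ | ⟨h1, h2⟩
  · exact Or.inr h
  · left
    rw [h2, h1]
    have : hi - x.1 = (hi - (x.1 + 1)) + 1 := by omega
    rw [this]
    simp only [anc, pow_succ', Nat.div_div_eq_div_mul]
    simp
  · left
    rw [h2, h1]
    have : hi - y.1 = (hi - (y.1 + 1)) + 1 := by omega
    rw [this]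
    simp only [anc, pow_succ', Nat.div_div_eq_div_mul]
    simp

theorem Annulus_div_succ {a b P : ℕ} (hP : 0 < P) (h : b = a + 1) :
    b / P ≤ a / P + 1 ∧ a / P ≤ b / P ∧ (a / P < b / P → b = (b / P) * P) := by
  subst h
  refine ⟨?_, Nat.div_le_div_right (Nat.le_succ a), ?_⟩
  · have : (a + 1) / P ≤ (a + P) / P := Nat.div_le_div_right (by omega)
    rwa [Nat.add_div_right _ hP] at this
  · intro hlt
    have h1 := Nat.div_add_mod a P
    have h2 := Nat.div_add_mod (a + 1) P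
    have h3 := Nat.mod_lt a hP
    have h4 := Nat.mod_lt (a + 1) hP
    by_contra hne
    have h5 : 0 < (a + 1) % P := by
      rcases Nat.eq_zero_or_pos ((a + 1) % P) with h0 | h0
      · exfalso; apply hne
        rw [h0, add_zero] at h2
        rw [mul_comm]; exact h2.symm
      · exact h0
    have h6 : a / P + 1 ≤ (a + 1) / P := hlt
    have h7 : P * (a / P) + P ≤ P * ((a + 1) / P) := by
      calc P * (a / P) + P = P * (a / P + 1) := by ring
        _ ≤ _ := Nat.mul_le_mul_left _ h6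
    omega

theorem Annulus_phi_step {sw : Bool} {hi : ℕ} {x y : ℕ × Pt} (hx : x.1 ≤ hi) (hy : y.1 ≤ hi)
    (h : AdjC x y) :
    (swp sw (anc (hi - y.1) y.2)).1 ≤ (swp sw (anc (hi - x.1) x.2)).1 + 1 := by
  rcases Annulus_step hx hy h with h | ⟨h1, h2⟩
  · rw [h]; omega
  · rw [Annulus_swp_anc, Annulus_swp_anc, h1]
    have hP : 0 < 3 ^ (hi - y.1) := by positivity
    rcases Annulus_swp_sd (sw := sw) h2 with h | h | h
    · rw [h]; omega
    · have := Annulus_div_succ hP h
      omega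
    · have := Annulus_div_succ hP h
      omega

/-- a step which increases the column: the new cell touches the left side, the old cell the right side
of its column -/
theorem Annulus_enter {sw : Bool} {hi : ℕ} {x y : ℕ × Pt} (hx : x.1 ≤ hi) (hy : y.1 ≤ hi)
    (h : AdjC x y)
    (hlt : (swp sw (anc (hi - x.1) x.2)).1 < (swp sw (anc (hi - y.1) y.2)).1) :
    (swp sw y.2).1 = (swp sw (anc (hi - y.1) y.2)).1 * 3 ^ (hi - y.1) ∧
      (swp sw x.2).1 + 1 = ((swp sw (anc (hi - x.1) x.2)).1 + 1) * 3 ^ (hi - x.1) := by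
  rcases Annulus_step hx hy h with h | ⟨h1, h2⟩
  · rw [h] at hlt; omega
  · rw [Annulus_swp_anc, Annulus_swp_anc, h1] at hlt
    rw [Annulus_swp_anc, Annulus_swp_anc, h1]
    have hP : 0 < 3 ^ (hi - y.1) := by positivity
    rcases Annulus_swp_sd (sw := sw) h2 with h | h | h
    · rw [h] at hlt; omega
    · have := Annulus_div_succ hP h
      omega
    · obtain ⟨h3, h4, h5⟩ := Annulus_div_succ hP h
      have h6 := h5 hlt
      have h7 : (swp sw y.2).1 / 3 ^ (hi - y.1) = (swp sw x.2).1 / 3 ^ (hi - y.1) + 1 := by omega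
      refine ⟨h6, ?_⟩
      rw [← h7, ← h6, h]

/-- The unit index of a cell `p` (height `< hi`) is `X p = anc (hi - p.1) p.2`. Along `AdjC`-steps inside the
window heights stay `≤ hi - 1`, and `X` stays the same or moves to a side neighbour. Start: `X` within 1 of `C`; let
`q1` be the first cell outside of the window (`X` not within 4; it is within 5), so one coordinate of
`X q1` differs from that of `C` by exactly 5, say the first coordinate is `C.1 + 5` (others: `C.1 - 5`, or second coordinate,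
`sw = true`). Column number `C.1 + 3` (resp. `C.1 - 3`): take the part of the path between the last time the offset is
`2` and the next time it is `4`; it stays in offset `3`. The steps entering/leaving the column are `Sd`-steps (parent/child
steps do not change `X`), so the first and last cell touch the two sides of the column. If the column is left of `C` the
path runs from its right side to its left side; reverse it (`ReachC.symm`). -/
theorem annulus {W : Finset (ℕ × Pt)} {hi : ℕ} {C : Pt} {p q : ℕ × Pt}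
    (hpq : ReachC (· ∈ W) p q)
    (hsmall : ∀ r ∈ W, r.1 ≤ hi → Nr 4 (anc (hi - r.1) r.2) C → r.1 + 2 ≤ hi)
    (hp : p.1 ≤ hi) (hp1 : Nr 1 (anc (hi - p.1) p.2) C)
    (hq : ¬ (q.1 ≤ hi ∧ Nr 4 (anc (hi - q.1) q.2) C)) :
    ∃ (sw : Bool) (X : ℕ) (p' q' : ℕ × Pt),
      ReachC (fun r => r ∈ W ∧ r.1 < hi ∧ Nr 4 (anc (hi - r.1) r.2) C ∧
        ¬ Nr 2 (anc (hi - r.1) r.2) C ∧ (swp sw (anc (hi - r.1) r.2)).1 = X) p' q' ∧
      (swp sw p'.2).1 = X * 3 ^ (hi - p'.1) ∧ (swp sw q'.2).1 + 1 = (X + 1) * 3 ^ (hi - q'.1) := by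
  obtain ⟨r, r', hr, hrr, hr'W, hr'⟩ := Annulus_exit
    (P := fun x => x.1 ≤ hi ∧ Nr 4 (anc (hi - x.1) x.2) C) hpq ⟨hp, hp1.mono (by norm_num)⟩ hq
  have hrW := hr.right
  have hrs := hsmall r hrW.1 hrW.2.1 hrW.2.2
  have hr'1 : r'.1 ≤ hi := by
    rcases hrr with h | h | h <;> omega
  have hr'2 : ¬ Nr 4 (anc (hi - r'.1) r'.2) C := fun h => hr' ⟨hr'1, h⟩
  -- general crossing
  have main : ∀ (sw : Bool) (X : ℕ) (u v : ℕ × Pt),
      (X = (swp sw C).1 + 3 ∨ X + 3 = (swp sw C).1) →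
      ReachC (fun x => x ∈ W ∧ x.1 ≤ hi ∧ Nr 4 (anc (hi - x.1) x.2) C) u v →
      (swp sw (anc (hi - u.1) u.2)).1 < X → X < (swp sw (anc (hi - v.1) v.2)).1 →
      ∃ (sw : Bool) (X : ℕ) (p' q' : ℕ × Pt),
      ReachC (fun r => r ∈ W ∧ r.1 < hi ∧ Nr 4 (anc (hi - r.1) r.2) C ∧
        ¬ Nr 2 (anc (hi - r.1) r.2) C ∧ (swp sw (anc (hi - r.1) r.2)).1 = X) p' q' ∧
      (swp sw p'.2).1 = X * 3 ^ (hi - p'.1) ∧
      (swp sw q'.2).1 + 1 = (X + 1) * 3 ^ (hi - q'.1) := by
    intro sw X u v hX huv hu hv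
    obtain ⟨x0, x1, y1, y0, hx0, hy0, hx01, hx0c, hxy, hy10, hy0c⟩ :=
      Annulus_cross huv (fun r => (swp sw (anc (hi - r.1) r.2)).1)
        (fun x y hx hy hxy => Annulus_phi_step hx.2.1 hy.2.1 hxy) hu hv
    have hx1 := hxy.left
    have hy1 := hxy.right
    refine ⟨sw, X, x1, y1, hxy.mono ?_, ?_, ?_⟩
    · rintro x ⟨⟨hxW, hxhi, hx4⟩, hxX⟩
      have hxs := hsmall x hxW hxhi hx4
      refine ⟨hxW, by omega, hx4, ?_, hxX⟩
      intro h2
      rw [← hxX] at hX
      cases sw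
      · simp only [swp, Nr] at hX h2
        simp at hX
        omega
      · simp only [swp, Nr] at hX h2
        simp at hX
        omega
    · have := (Annulus_enter (sw := sw) hx0.2.1 hx1.1.2.1 hx01 (by
        have := hx1.2; rw [this]; exact hx0c)).1
      rw [this]
      have h3 := hx1.2
      rw [h3]
    · have := (Annulus_enter (sw := sw) hy1.1.2.1 hy0.2.1 hy10 (by
        have := hy1.2; rw [this]; exact hy0c)).2
      rw [this]
      have h3 := hy1.2
      rw [h3]
  -- position of the exit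
  have hs1 := Annulus_phi_step (sw := false) hrW.2.1 hr'1 hrr
  have hs2 := Annulus_phi_step (sw := true) hrW.2.1 hr'1 hrr
  have hs3 := Annulus_phi_step (sw := false) hr'1 hrW.2.1 hrr.symm
  have hs4 := Annulus_phi_step (sw := true) hr'1 hrW.2.1 hrr.symm
  simp only [swp, if_true, Bool.false_eq_true, if_false] at hs1 hs2 hs3 hs4
  have h4 := hrW.2.2
  have h5 : (anc (hi - r.1) r.2).1 = C.1 + 4 ∨ (anc (hi - r.1) r.2).1 + 4 = C.1 ∨
      (anc (hi - r.1) r.2).2 = C.2 + 4 ∨ (anc (hi - r.1) r.2).2 + 4 = C.2 := by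
    unfold Nr at h4 hr'2
    omega
  unfold Nr at hp1
  rcases h5 with h | h | h | h
  · refine main false (C.1 + 3) p r (Or.inl (by simp [swp])) hr ?_ ?_ <;>
      simp only [swp, Bool.false_eq_true, if_false] <;> omega
  · refine main false (C.1 - 3) r p (Or.inr (by simp [swp]; omega)) hr.symm ?_ ?_ <;>
      simp only [swp, Bool.false_eq_true, if_false] <;> omega
  · refine main true (C.2 + 3) p r (Or.inl (by simp [swp])) hr ?_ ?_ <;>
      simp only [swp, if_true] <;> omega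
  · refine main true (C.2 - 3) r p (Or.inr (by simp [swp]; omega)) hr.symm ?_ ?_ <;>
      simp only [swp, if_true] <;> omega

end UCP
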