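import Mathlib

/-!
[UCP] Unique continuation on the Sierpinski carpet (MP_eabe7c_an): combinatorial vocabulary.
-/

namespace UCP

/-- index of a triadic square -/
abbrev Pt := ℕ × ℕ

/-- the square with index `c` at level `n` is a cell of the carpet: no ternary digit position where
both coordinates have digit `1` -/
def Pr (n : ℕ) (c : Pt) : Prop :=
  c.1 < 3 ^ n ∧ c.2 < 3 ^ n ∧ ∀ k < n, ¬ (c.1 / 3 ^ k % 3 = 1 ∧ c.2 / 3 ^ k % 3 = 1)

/-- ancestor `k` levels up -/
def anc (k : ℕ) (c : Pt) : Pt := (c.1 / 3 ^ k, c.2 / 3 ^ k)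

/-- index distance at most `D`; `Nr 1` is touch or coincide -/
def Nr (D : ℕ) (a b : Pt) : Prop :=
  a.1 ≤ b.1 + D ∧ b.1 ≤ a.1 + D ∧ a.2 ≤ b.2 + D ∧ b.2 ≤ a.2 + D

/-- the squares share a side -/
def Sd (a b : Pt) : Prop :=
  (a.1 = b.1 ∧ (a.2 = b.2 + 1 ∨ b.2 = a.2 + 1)) ∨ (a.2 = b.2 ∧ (a.1 = b.1 + 1 ∨ b.1 = a.1 + 1))

/-- squares of level `M` at the boundary of the unit square -/
def Bd (M : ℕ) (c : Pt) : Prop := c.1 = 0 ∨ c.2 = 0 ∨ c.1 + 1 = 3 ^ M ∨ c.2 + 1 = 3 ^ M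

/-- `a` and `b` are joined by a side-path inside `S` -/
def Reach (S : Pt → Prop) (a b : Pt) : Prop :=
  S a ∧ Relation.ReflTransGen (fun x y => Sd x y ∧ S y) a b

/-- side-connected -/
def Conn (S : Pt → Prop) : Prop := ∀ a b, S a → S b → Reach S a b

/-- `x` is a fine cell (level `M`) in the block of height `H` around `c` -/
def Blk (M H : ℕ) (c x : Pt) : Prop := Pr M x ∧ Nr 1 (anc H x) (anc H c)

theorem Sd.symm {a b : Pt} (h : Sd a b) : Sd b a := by
  unfold Sd at *; omega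

theorem Nr.symm {D : ℕ} {a b : Pt} (h : Nr D a b) : Nr D b a := by
  unfold Nr at *; omega

theorem Nr.rfl {D : ℕ} {a : Pt} : Nr D a a := by
  unfold Nr; omega

theorem Nr.mono {D D' : ℕ} {a b : Pt} (h : Nr D a b) (hD : D ≤ D') : Nr D' a b := by
  unfold Nr at *; omega

theorem Nr.trans {D D' : ℕ} {a b c : Pt} (h : Nr D a b) (h' : Nr D' b c) : Nr (D + D') a c := by
  unfold Nr at *; omega

theorem Sd.nr {a b : Pt} (h : Sd a b) : Nr 1 a b := by
  unfold Nr Sd at *; omega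

theorem Sd.ne {a b : Pt} (h : Sd a b) : a ≠ b := by
  intro h'
  rw [h'] at h
  rcases h with ⟨_, h | h⟩ | ⟨_, h | h⟩ <;> omega

namespace Reach

variable {S T : Pt → Prop} {a b c : Pt}

theorem left (h : Reach S a b) : S a := h.1

theorem right (h : Reach S a b) : S b := by
  obtain ⟨h1, h2⟩ := h
  induction h2 with
  | refl => exact h1
  | tail _ h _ => exact h.2

theorem refl (h : S a) : Reach S a a := ⟨h, Relation.ReflTransGen.refl⟩

theorem trans (h : Reach S a b) (h' : Reach S b c) : Reach S a c := ⟨h.1, h.2.trans h'.2⟩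

theorem tail (h : Reach S a b) (h' : Sd b c) (hc : S c) : Reach S a c :=
  ⟨h.1, h.2.tail ⟨h', hc⟩⟩

theorem single (ha : S a) (h : Sd a b) (hb : S b) : Reach S a b := (refl ha).tail h hb

theorem symm (h : Reach S a b) : Reach S b a := by
  obtain ⟨h1, h2⟩ := h
  induction h2 with
  | refl => exact refl h1
  | tail h3 h ih =>
    have hm : S _ := right ⟨h1, h3⟩
    exact (single h.2 h.1.symm hm).trans ih

theorem mono (hST : ∀ x, S x → T x) (h : Reach S a b) : Reach T a b :=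
  ⟨hST _ h.1, Relation.ReflTransGen.mono (fun _ _ h => ⟨h.1, hST _ h.2⟩) _ _ h.2⟩

end Reach

end UCP
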