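import Pool.Agent.UCP.Geo3

/-!
Discrete form of harmonicity of `u` off the boundary: the maximum principle `mp` and the local comparison
`cmp`. Fat cells.
-/

namespace UCP

/-- `f` (values on the present cells of level `M`) satisfies the discrete consequences of harmonicity,
with range parameter `σ`, oscillation `ε` and bound `U`. -/
structure Disc (σ M : ℕ) (ε U : ℝ) (f : Pt → ℝ) : Prop where
  eps_pos : 0 < ε
  bdd : ∀ c, Pr M c → |f c| ≤ U
  osc : ∀ c c', Pr M c → Pr M c' → Nr 1 c c' → |f c - f c'| ≤ ε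
  mp : ∀ (t : ℝ) (c : Pt), Pr M c → t < f c →
    ∃ c', Bd M c' ∧ Reach (fun x => Pr M x ∧ t - ε < f x) c c'
  cmp : ∀ (η : ℕ) (cy cz : Pt), Pr M cy → Pr M cz → Nr 1 (anc η cy) (anc η cz) →
    (∀ x, Blk M (η + σ) cz x → ¬ Bd M x) →
    ∀ t T : ℝ, 12 * ε < T - t → T - 5 / 6 * (T - t) ≤ f cy →
    ∃ c', Reach (fun x => Blk M (η + σ) cz x ∧ t < f x) cy c' ∧ (T ≤ f c' ∨ Nr 1 c' cz)

/-- `f > a` on the block of height `h + s` around `c` -/
def Fat (M s : ℕ) (f : Pt → ℝ) (a : ℝ) (h : ℕ) (c : Pt) : Prop :=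
  ∀ x, Blk M (h + s) c x → a < f x

/-! ### constants depending on `σ` -/

/-- depth of the cells of a strand below its fat height -/
def j0 (σ : ℕ) : ℕ := 20 * σ
/-- Whitney constant -/
def c4 (σ : ℕ) : ℕ := 21 * σ + 2
/-- number of cells in one step -/
def m0 (σ : ℕ) : ℕ := 9 ^ (30 * σ + 20)
/-- heights lost -/
def K0 (σ N : ℕ) : ℕ := σ * (N + 60) + 30

end UCP
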