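import Pool.Agent.MP_eabe7c_an.Conn
import Pool.Agent.MP_eabe7c_an.Smp
import Pool.Agent.MP_eabe7c_an.Dir
import Pool.Agent.UCP.Disc

/-!
Self-similar Dirichlet forms on the carpet: definitions.
-/

open MeasureTheory Set Topology Filter CAR

namespace UCP

theorem Pr.isCell {n : ℕ} {c : Pt} (h : Pr n c) : IsCell n c.1 c.2 := isCell_iff.2 h

theorem isCell_iff_Pr {n : ℕ} {c : Pt} : IsCell n c.1 c.2 ↔ Pr n c := isCell_iff

theorem emb_mem_carpet {n : ℕ} {c : Pt} (h : Pr n c) (x : carpet) :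
    (((x.1.1 + c.1) / 3 ^ n, (x.1.2 + c.2) / 3 ^ n) : ℝ × ℝ) ∈ carpet :=
  (h.isCell.2.2 x.1 x.2.1.1 x.2.1.2).1 x.2

theorem emb_continuous {n : ℕ} {c : Pt} (h : Pr n c) : Continuous (fun x : carpet =>
    (⟨((x.1.1 + c.1) / 3 ^ n, (x.1.2 + c.2) / 3 ^ n), emb_mem_carpet h x⟩ : carpet)) := by
  refine Continuous.subtype_mk ?_ _
  fun_prop

/-- the similarity `x ↦ (x + c) / 3 ^ n` of the carpet onto its cell `(n, c)` -/
noncomputable def emb (n : ℕ) (c : Pt) (h : Pr n c) : C(carpet, carpet) :=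
  ⟨fun x => ⟨((x.1.1 + c.1) / 3 ^ n, (x.1.2 + c.2) / 3 ^ n), emb_mem_carpet h x⟩, emb_continuous h⟩

/-- `f ∘ ψ`, `ψ` the similarity of the carpet onto its cell `(n, c)` (`0` if `(n, c)` is not a cell) -/
noncomputable def pull (n : ℕ) (c : Pt) (f : C(carpet, ℝ)) : C(carpet, ℝ) :=
  open Classical in if h : Pr n c then f.comp (emb n c h) else 0

/-- all cells of level `n` -/
noncomputable def cells (n : ℕ) : Finset Pt :=
  open Classical in (Finset.range (3 ^ n) ×ˢ Finset.range (3 ^ n)).filter (Pr n)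

theorem mem_cells {n : ℕ} {c : Pt} : c ∈ cells n ↔ Pr n c := by
  unfold cells
  simp only [Finset.mem_filter, Finset.mem_product, Finset.mem_range]
  exact ⟨fun h => h.2, fun h => ⟨⟨h.1, h.2.1⟩, h⟩⟩

theorem swap_continuous : Continuous (fun x : carpet =>
    (⟨(x.1.2, x.1.1), swap_mem_carpet.2 x.2⟩ : carpet)) := by
  refine Continuous.subtype_mk ?_ _
  fun_prop

/-- exchange of the coordinates -/
def swapC : C(carpet, carpet) := ⟨fun x => ⟨(x.1.2, x.1.1), swap_mem_carpet.2 x.2⟩, swap_continuous⟩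

theorem flip_continuous : Continuous (fun x : carpet =>
    (⟨(1 - x.1.1, x.1.2), flip_mem_carpet.2 x.2⟩ : carpet)) := by
  refine Continuous.subtype_mk ?_ _
  fun_prop

/-- reflection of the first coordinate -/
def flipC : C(carpet, carpet) := ⟨fun x => ⟨(1 - x.1.1, x.1.2), flip_mem_carpet.2 x.2⟩, flip_continuous⟩

/-- `f` is in the domain iff all `f ∘ ψ_i` are, and `E(f,g) = ρ ∑ E(f ∘ ψ_i, g ∘ ψ_i)` -/
def SelfSimilar {μ : Measure carpet} (D : DForm carpet μ) (ρ : ℝ) : Prop :=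
  (∀ f, f ∈ D.dom ↔ ∀ c, Pr 1 c → pull 1 c f ∈ D.dom) ∧
    ∀ f ∈ D.dom, ∀ g ∈ D.dom, D.E f g = ρ * ∑ c ∈ cells 1, D.E (pull 1 c f) (pull 1 c g)

/-- the form is invariant under `s` -/
def Invariant {μ : Measure carpet} (D : DForm carpet μ) (s : C(carpet, carpet)) : Prop :=
  ∀ f ∈ D.dom, f.comp s ∈ D.dom ∧ D.E (f.comp s) (f.comp s) = D.E f f

/-- a self-similar Dirichlet form on the carpet, invariant under the symmetries of the square -/
structure CarpetForm (μ : Measure carpet) extends DForm carpet μ where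
  ρ : ℝ
  ρ_pos : 0 < ρ
  selfSimilar : SelfSimilar toDForm ρ
  swap_inv : Invariant toDForm swapC
  flip_inv : Invariant toDForm flipC

namespace CarpetForm

variable {μ : Measure carpet} (D : CarpetForm μ)

theorem dom_iff : ∀ f : C(carpet, ℝ), f ∈ D.dom ↔ ∀ c, Pr 1 c → pull 1 c f ∈ D.dom :=
  D.selfSimilar.1

theorem self_sim : ∀ f ∈ D.dom, ∀ g ∈ D.dom,
    D.E f g = D.ρ * ∑ c ∈ cells 1, D.E (pull 1 c f) (pull 1 c g) := D.selfSimilar.2

theorem swap_mem : ∀ f ∈ D.dom, f.comp swapC ∈ D.dom := fun f hf => (D.swap_inv f hf).1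

theorem swap_E : ∀ f ∈ D.dom, D.E (f.comp swapC) (f.comp swapC) = D.E f f :=
  fun f hf => (D.swap_inv f hf).2

theorem flip_mem : ∀ f ∈ D.dom, f.comp flipC ∈ D.dom := fun f hf => (D.flip_inv f hf).1

theorem flip_E : ∀ f ∈ D.dom, D.E (f.comp flipC) (f.comp flipC) = D.E f f :=
  fun f hf => (D.flip_inv f hf).2

end CarpetForm

/-- the cell `(n, c)` as a subset of the carpet -/
def cell (n : ℕ) (c : Pt) : Set carpet := {x | x.1 ∈ sq n c.1 c.2}

/-- value at the lower left corner of the cell -/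
noncomputable def val (u : C(carpet, ℝ)) (M : ℕ) (c : Pt) : ℝ :=
  open Classical in
  if h : (((c.1 : ℝ) / 3 ^ M, (c.2 : ℝ) / 3 ^ M) : ℝ × ℝ) ∈ carpet then u ⟨_, h⟩ else 0

/-- the cell contains a point with `t < u` -/
def Meet (M : ℕ) (u : C(carpet, ℝ)) (t : ℝ) (c : Pt) : Prop := ∃ x ∈ cell M c, t < u x

/-- `a` and `b` are joined by a path of touching cells inside `S` -/
def ReachT (S : Pt → Prop) (a b : Pt) : Prop :=
  S a ∧ Relation.ReflTransGen (fun x y => Nr 1 x y ∧ S y) a b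

end UCP
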