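import Pool.Agent.UCP.SymSet

/-!
[UCP-P2], [UCP-P3] counting after folding. Abstract situation: `R k` (`k : κ`) finite sets of cells (height, index) in
the window `Nr 4 · C` of the grid of height `hi`; `D k` pairwise disjoint sets of fine cells; the `s`-block of every cell of
`R k` is contained in `D k`.
-/

namespace UCP

theorem SymP_fold_lt (l : ℕ) (c : Pt) : (foldP l c).1 < 3 ^ l ∧ (foldP l c).2 < 3 ^ l :=
  ⟨fold_lt l c.1, fold_lt l c.2⟩

/-- the fine cell in the unfolding of `w` in unit `X` -/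
theorem SymP_x {M hi s' μ : ℕ} {w : Pt} (hM : hi ≤ M) (hμ : μ ≤ hi) (hw : Pr μ w)
    (g : Bool × Bool × Bool) (X : Pt) (hX : Pr (M - hi) X) :
    ∃ x, Pr M x ∧ ∀ p : ℕ × Pt, p.1 + s' ≤ hi → anc (hi - p.1) p.2 = X → hi - p.1 ≤ μ →
      Nr 1 (anc s' (act g (hi - p.1) (foldP (hi - p.1) p.2))) (anc (μ - (hi - p.1) + s') w) →
      Nr 1 (anc s' p.2) (anc (p.1 + s') x) := by
  obtain ⟨g', hg'⟩ := act_inv g
  have hwlt : w.1 < 3 ^ μ ∧ w.2 < 3 ^ μ := ⟨hw.1, hw.2.1⟩
  set w' := act g' μ w with hw'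
  have hw'lt : w'.1 < 3 ^ μ ∧ w'.2 < 3 ^ μ := act_lt hwlt
  have hgw : act g μ w' = w := (hg' μ w hwlt).2
  obtain ⟨B, hB1, hB2⟩ := exists_unfold X w' hw'lt
  have hPB : Pr (M - hi + μ) B := by
    refine Pr_of_foldP ?_ ?_
    · rw [hB1]; exact hX
    · rw [hB2]; exact Pr_act hw
  obtain ⟨x, hx1, hx2⟩ := exists_sub hPB (hi - μ)
  have hx1' : Pr M x := by
    have : M - hi + μ + (hi - μ) = M := by omega
    rwa [this] at hx1
  refine ⟨x, hx1', fun p hp1 hp2 hp3 hn => ?_⟩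
  set l := hi - p.1 with hl
  have hsl : s' ≤ l := by omega
  -- first point
  have e1 : anc s' (act g l (foldP l p.2)) = act g (l - s') (foldP (l - s') (anc s' p.2)) := by
    rw [anc_act hsl (SymP_fold_lt l p.2), anc_foldP hsl]
  -- second point
  have hk : μ - l + s' ≤ μ := by omega
  have hk2 : μ - (μ - l + s') = l - s' := by omega
  have e2 : anc (μ - l + s') w = act g (l - s') (foldP (l - s') (anc (μ - l + s') B)) := by
    rw [← hgw, anc_act hk hw'lt, ← hB2, anc_foldP hk, hk2]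
  rw [e1, e2] at hn
  have h3 := Nr_act (g := g') (act_lt (g := g) (SymP_fold_lt (l - s') (anc s' p.2)))
    (act_lt (g := g) (SymP_fold_lt (l - s') (anc (μ - l + s') B))) hn
  rw [(hg' (l - s') _ (SymP_fold_lt _ _)).1, (hg' (l - s') _ (SymP_fold_lt _ _)).1] at h3
  have h4 : anc (l - s') (anc s' p.2) = anc (l - s') (anc (μ - l + s') B) := by
    rw [anc_anc, anc_anc, show l - s' + s' = l by omega,
      show l - s' + (μ - l + s') = μ by omega, hp2, hB1]
  have h5 := Nr_of_foldP h4 h3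
  rw [← hx2, anc_anc, show μ - l + s' + (hi - μ) = p.1 + s' by omega] at h5
  exact h5

open Classical in
/-- a choice of `SymP_x` -/
noncomputable def SymP_c (M hi s' μ : ℕ) (w : Pt) (g : Bool × Bool × Bool) (X : Pt) : Pt :=
  if h : ∃ x, Pr M x ∧ ∀ p : ℕ × Pt, p.1 + s' ≤ hi → anc (hi - p.1) p.2 = X → hi - p.1 ≤ μ →
      Nr 1 (anc s' (act g (hi - p.1) (foldP (hi - p.1) p.2))) (anc (μ - (hi - p.1) + s') w) →
      Nr 1 (anc s' p.2) (anc (p.1 + s') x)
  then h.choose else (0, 0)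

/-- the data of an element of `symSet` near `(μ, w)` -/
theorem SymP_data {M hi s s' : ℕ} (hs : s' ≤ s) {C : Pt} (hM : hi ≤ M) (R : Finset (ℕ × Pt))
    (D : Pt → Prop)
    (hR : ∀ p ∈ R, p.1 + s' ≤ hi ∧ Nr 4 (anc (hi - p.1) p.2) C ∧ Pr (M - p.1) p.2 ∧
      ∀ x, Pr M x → Nr 1 (anc (p.1 + s) x) (anc s p.2) → D x)
    (μ : ℕ) (w : Pt) (hμ : μ ≤ hi) (hw : Pr μ w) (q : ℕ × Pt) (hq : q ∈ symSet hi R)
    (hqμ : q.1 ≤ μ) (hn : NearU s' q (μ, w)) :
    ∃ (g : Bool × Bool × Bool) (X : Pt), X ∈ ball 4 C ∧ ∃ p ∈ R, q.1 = hi - p.1 ∧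
      Nr 1 (anc s' p.2) (anc (p.1 + s') (SymP_c M hi s' μ w g X)) ∧
      D (SymP_c M hi s' μ w g X) := by
  unfold symSet at hq
  simp only [Finset.mem_image, Finset.mem_product, Finset.mem_univ, true_and, Prod.exists] at hq
  obtain ⟨g1, g2, g3, p1, p2, p3, hp, rfl⟩ := hq
  obtain ⟨h1, h2, h3, h4⟩ := hR _ hp
  simp only at h1 h2 h3 h4 hqμ hn
  set p : ℕ × Pt := (p1, p2, p3) with hpdef
  set g : Bool × Bool × Bool := (g1, g2, g3) with hgdef
  set X := anc (hi - p.1) p.2 with hX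
  have hPX : Pr (M - hi) X := by
    have : Pr (M - hi + (hi - p.1)) p.2 := by
      have e : M - hi + (hi - p.1) = M - p.1 := by
        have : p.1 ≤ hi := by simp only [hpdef]; omega
        omega
      rw [e]; exact h3
    exact this.anc
  have hex := SymP_x (s' := s') hM hμ hw g X hPX
  have hspec : Pr M (SymP_c M hi s' μ w g X) ∧ ∀ p : ℕ × Pt, p.1 + s' ≤ hi →
      anc (hi - p.1) p.2 = X → hi - p.1 ≤ μ →
      Nr 1 (anc s' (act g (hi - p.1) (foldP (hi - p.1) p.2))) (anc (μ - (hi - p.1) + s') w) →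
      Nr 1 (anc s' p.2) (anc (p.1 + s') (SymP_c M hi s' μ w g X)) := by
    unfold SymP_c
    rw [dif_pos hex]
    exact hex.choose_spec
  have hnear := hspec.2 p h1 rfl hqμ hn.2.2
  refine ⟨g, X, mem_ball.2 h2, p, hp, rfl, hnear, h4 _ hspec.1 ?_⟩
  have := (hnear.symm).anc (s - s')
  rw [anc_anc, anc_anc, show s - s' + (p.1 + s') = p.1 + s by omega,
    show s - s' + s' = s by omega] at this
  exact this

theorem SymP_card (C : Pt) :
    ((Finset.univ : Finset (Bool × Bool × Bool)) ×ˢ ball 4 C).card ≤ 648 := by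
  rw [Finset.card_product]
  have h1 : (Finset.univ : Finset (Bool × Bool × Bool)).card = 8 := by decide
  have h2 := card_ball_le 4 C
  rw [h1]
  omega

/-- [UCP-P2] Put `(k)` ↦ `(g, X)` where `q = (hi - p.1, act g _ (foldP _ p.2))`, `p ∈ R k`, `X` = unit index of `p`
(`8 * 81` possibilities). For given `(g, X)` let `w'` = inverse image of `w` under `act g μ`, `B` = unfolding of `w'` in
unit `X` (index of height `hi - μ`), `x` a fine cell in `B` (depends only on `g, X, μ, w`); `NearU s' q (μ,w)` gives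
`Nr 1 (anc s' p.2) (anc (p.1 + s') x)` (`Nr_of_foldP`, `anc_foldP`, `anc_act`), so `x` is in the `s'`-block hence in the `s`-block of
`p`, so `D k x`. As the `D k` are disjoint, `k ↦ (g,X)` is injective. -/
theorem sym_P2 {κ : Type} [Fintype κ] {M hi s s' : ℕ} (hs : s' ≤ s) {C : Pt}
    (hM : hi ≤ M) (R : κ → Finset (ℕ × Pt)) (D : κ → Pt → Prop)
    (hdisj : ∀ k l x, D k x → D l x → k = l)
    (hR : ∀ k, ∀ p ∈ R k, p.1 + s' ≤ hi ∧ Nr 4 (anc (hi - p.1) p.2) C ∧ Pr (M - p.1) p.2 ∧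
      ∀ x, Pr M x → Nr 1 (anc (p.1 + s) x) (anc s p.2) → D k x)
    (μ : ℕ) (w : Pt) (hμ : μ ≤ hi) (hw : Pr μ w) :
    {k | ∃ q ∈ symSet hi (R k), q.1 ≤ μ ∧ NearU s' q (μ, w)}.ncard ≤ 648 := by
  set S := {k | ∃ q ∈ symSet hi (R k), q.1 ≤ μ ∧ NearU s' q (μ, w)} with hS
  have key : ∀ k ∈ S, ∃ gX : (Bool × Bool × Bool) × Pt, gX.2 ∈ ball 4 C ∧
      D k (SymP_c M hi s' μ w gX.1 gX.2) := by
    rintro k ⟨q, hq, hqμ, hn⟩
    obtain ⟨g, X, hX, p, -, -, -, h⟩ := SymP_data hs hM (R k) (D k) (hR k) μ w hμ hw q hq hqμ hn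
    exact ⟨(g, X), hX, h⟩
  choose! f hf1 hf2 using key
  calc S.ncard ≤ (((Finset.univ : Finset (Bool × Bool × Bool)) ×ˢ ball 4 C : Finset _) :
        Set ((Bool × Bool × Bool) × Pt)).ncard := by
        refine Set.ncard_le_ncard_of_injOn f ?_ ?_ (Finset.finite_toSet _)
        · intro k hk
          simp only [Finset.coe_product, Set.mem_prod, Finset.mem_coe, Finset.mem_univ, true_and]
          exact hf1 k hk
        · intro k hk l hl hkl
          have h1 := hf2 k hk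
          rw [hkl] at h1
          exact hdisj _ _ _ h1 (hf2 l hl)
    _ ≤ 648 := by rw [Set.ncard_coe_finset]; exact SymP_card C

/-- Whitney bound used in [UCP-P3] -/
def C4 (σ : ℕ) : ℕ := 648 * (30 * σ + 30) * 9 ^ (σ + 2)

theorem SymP_levels {n : ℕ} (L : Finset ℕ) (h : ∀ a ∈ L, ∀ b ∈ L, a ≤ b + n) :
    L.card ≤ n + 1 := by
  rcases L.eq_empty_or_nonempty with rfl | hne
  · simp
  · have hm := L.min'_mem hne
    have hsub : L ⊆ Finset.Icc (L.min' hne) (L.min' hne + n) := by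
      intro a ha
      rw [Finset.mem_Icc]
      exact ⟨L.min'_le a ha, h a ha _ hm⟩
    calc L.card ≤ (Finset.Icc (L.min' hne) (L.min' hne + n)).card := Finset.card_le_card hsub
      _ = n + 1 := by rw [Nat.card_Icc]; omega

/-- [UCP-P3] As before `(g, X)` determine `k` (as the fine cell `x` in the unfolding of `q'` in unit `X` is in `D k`). For given
`(g, X, k)` the cells `p ∈ R k` with image `q` satisfy: `x` in the `s'`-block of `p`. Two such cells `p1`, `p2` have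
heights differing by at most `c4 σ + s - s'`: if `p1.1 ≥ p2.1 + c4 σ + s - s' + 1`, the point `ζ` of `hW` for `p2`
(`Nr 1` at height `p2.1 + c4 σ + s ≤ p1.1 + s'`) is within index distance 3 of `p1` at height `p1.1 + s'`
(`ζ - p2 - x - p1`), so in the `(s'+1)`-block, hence in the `s`-block of `p1` (`s' + 1 ≤ s`): `D k ζ`,
contradiction. So at most `c4 σ + s - s' + 1 ≤ 30 σ + 30` heights, and at most `9 * 9 ^ s'` indices per height. -/
theorem sym_P3 {κ : Type} [Fintype κ] {σ M hi s s' : ℕ} (hσ : 1 ≤ σ) (hs : s = σ + 4)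
    (hs' : s' = σ + 1) {C : Pt}
    (hM : hi ≤ M) (R : κ → Finset (ℕ × Pt)) (D : κ → Pt → Prop)
    (hdisj : ∀ k l x, D k x → D l x → k = l)
    (hR : ∀ k, ∀ p ∈ R k, p.1 + s' ≤ hi ∧ Nr 4 (anc (hi - p.1) p.2) C ∧ Pr (M - p.1) p.2 ∧
      ∀ x, Pr M x → Nr 1 (anc (p.1 + s) x) (anc s p.2) → D k x)
    (hW : ∀ k, ∀ p ∈ R k, ∃ ζ, Pr M ζ ∧ Nr 1 (anc (p.1 + c4 σ + s) ζ) (anc (c4 σ + s) p.2) ∧ ¬ D k ζ)
    (q' : ℕ × Pt) (hq' : q'.1 ≤ hi ∧ Pr q'.1 q'.2) :
    {kq : κ × (ℕ × Pt) | kq.2 ∈ symSet hi (R kq.1) ∧ kq.2.1 < q'.1 ∧ NearU s' kq.2 q'}.ncard ≤ C4 σ := by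
  classical
  set S := {kq : κ × (ℕ × Pt) | kq.2 ∈ symSet hi (R kq.1) ∧ kq.2.1 < q'.1 ∧ NearU s' kq.2 q'} with hS
  have hfin : S.Finite := by
    refine Set.Finite.subset (s := ((Finset.univ : Finset κ) ×ˢ
      (Finset.univ : Finset κ).biUnion fun k => symSet hi (R k) : Finset _))
      (Finset.finite_toSet _) ?_
    rintro ⟨k, q⟩ ⟨h1, -, -⟩
    simp only [Finset.coe_product, Set.mem_prod, Finset.mem_coe, Finset.mem_univ, true_and,
      Finset.mem_biUnion]
    exact ⟨k, h1⟩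
  have hss : s' ≤ s := by omega
  set x := fun gX : (Bool × Bool × Bool) × Pt => SymP_c M hi s' q'.1 q'.2 gX.1 gX.2 with hx
  have key : ∀ kq ∈ S, ∃ gX : (Bool × Bool × Bool) × Pt, gX.2 ∈ ball 4 C ∧ ∃ p ∈ R kq.1,
      kq.2.1 = hi - p.1 ∧ Nr 1 (anc s' p.2) (anc (p.1 + s') (x gX)) ∧ D kq.1 (x gX) := by
    rintro ⟨k, q⟩ ⟨h1, h2, h3⟩
    obtain ⟨g, X, hX, p, hp, h4, h5, h6⟩ := SymP_data hss hM (R k) (D k) (hR k) q'.1 q'.2 hq'.1
      hq'.2 q h1 h2.le h3
    exact ⟨(g, X), hX, p, hp, h4, h5, h6⟩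
  choose! f hf1 hf2 using key
  -- heights
  have hwhit : ∀ k, ∀ p1 ∈ R k, ∀ p2 ∈ R k, ∀ y, Nr 1 (anc s' p1.2) (anc (p1.1 + s') y) →
      Nr 1 (anc s' p2.2) (anc (p2.1 + s') y) → p1.1 ≤ p2.1 + (21 * σ + 5) := by
    intro k p1 hp1 p2 hp2 y hy1 hy2
    by_contra hcon
    push Not at hcon
    obtain ⟨ζ, hζ, hn, hnD⟩ := hW k p2 hp2
    apply hnD
    refine (hR k p1 hp1).2.2.2 ζ hζ ?_
    have hc4 : c4 σ = 21 * σ + 2 := rfl
    have a1 := hn.anc (p1.1 + s' - (p2.1 + c4 σ + s))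
    rw [anc_anc, anc_anc, show p1.1 + s' - (p2.1 + c4 σ + s) + (p2.1 + c4 σ + s) = p1.1 + s' by omega,
      show p1.1 + s' - (p2.1 + c4 σ + s) + (c4 σ + s) = p1.1 + s' - p2.1 by omega] at a1
    have a2 := hy2.anc (p1.1 - p2.1)
    rw [anc_anc, anc_anc, show p1.1 - p2.1 + s' = p1.1 + s' - p2.1 by omega,
      show p1.1 - p2.1 + (p2.1 + s') = p1.1 + s' by omega] at a2
    have a3 := ((a1.trans a2).trans hy1.symm).up
    rw [anc_anc, anc_anc] at a3
    have a4 := (a3.mono (D' := 1) (by norm_num)).anc 2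
    rw [anc_anc, anc_anc, show 2 + (1 + (p1.1 + s')) = p1.1 + s by omega,
      show 2 + (1 + s') = s by omega] at a4
    exact a4
  rw [Set.ncard_eq_toFinset_card S hfin]
  set S' := hfin.toFinset with hS'
  have hmem : ∀ kq, kq ∈ S' ↔ kq ∈ S := fun kq => hfin.mem_toFinset
  have h1 : S'.card ≤ ((30 * σ + 30) * 9 ^ (σ + 2)) *
      ((Finset.univ : Finset (Bool × Bool × Bool)) ×ˢ ball 4 C).card := by
    refine Finset.card_le_mul_card_image_of_maps_to (f := f) ?_ _ ?_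
    · intro kq hkq
      simp only [Finset.mem_product, Finset.mem_univ, true_and]
      exact hf1 kq ((hmem kq).1 hkq)
    · intro gX _
      set F := S'.filter (fun kq => f kq = gX) with hF
      have hFmem : ∀ kq ∈ F, kq ∈ S ∧ f kq = gX := by
        intro kq hkq
        rw [hF, Finset.mem_filter] at hkq
        exact ⟨(hmem kq).1 hkq.1, hkq.2⟩
      have hsame : ∀ a ∈ F, ∀ b ∈ F, a.1 = b.1 := by
        intro a ha b hb
        obtain ⟨ha1, ha2⟩ := hFmem a ha
        obtain ⟨hb1, hb2⟩ := hFmem b hb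
        obtain ⟨-, -, -, -, hDa⟩ := hf2 a ha1
        obtain ⟨-, -, -, -, hDb⟩ := hf2 b hb1
        rw [ha2] at hDa
        rw [hb2] at hDb
        exact hdisj _ _ _ hDa hDb
      have h2 : F.card ≤ 9 ^ (σ + 2) * (F.image fun kq => kq.2.1).card := by
        refine Finset.card_le_mul_card_image_of_maps_to (f := fun kq : κ × (ℕ × Pt) => kq.2.1)
          (fun kq hkq => Finset.mem_image_of_mem (fun kq : κ × (ℕ × Pt) => kq.2.1) hkq) _ ?_
        intro l _
        set F2 := F.filter (fun kq => kq.2.1 = l) with hF2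
        have hinj : Set.InjOn (fun kq : κ × (ℕ × Pt) => kq.2.2) F2 := by
          intro a ha b hb hab
          rw [Finset.mem_coe, hF2, Finset.mem_filter] at ha hb
          have e1 := hsame a ha.1 b hb.1
          exact Prod.ext e1 (Prod.ext (ha.2.trans hb.2.symm) hab)
        rw [← Finset.card_image_of_injOn hinj]
        have h3 := card_le_of_anc (k := s') (F2.image fun kq : κ × (ℕ × Pt) => kq.2.2)
          (ball 1 (anc (q'.1 - l + s') q'.2)) (by
            intro A hA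
            rw [Finset.mem_image] at hA
            obtain ⟨kq, hkq, rfl⟩ := hA
            rw [hF2, Finset.mem_filter] at hkq
            obtain ⟨hk1, hk2⟩ := hkq
            have h4 := (hFmem kq hk1).1.2.2.2.2
            rw [hk2] at h4
            exact mem_ball.2 h4)
        have h5 := card_ball_le 1 (anc (q'.1 - l + s') q'.2)
        calc (F2.image fun kq : κ × (ℕ × Pt) => kq.2.2).card
            ≤ (ball 1 (anc (q'.1 - l + s') q'.2)).card * 9 ^ s' := h3
          _ ≤ 9 * 9 ^ s' := Nat.mul_le_mul_right _ (by omega)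
          _ = 9 ^ (σ + 2) := by rw [hs']; ring
      have h3 : (F.image fun kq => kq.2.1).card ≤ 30 * σ + 30 := by
        have h4 : ∀ a ∈ F.image (fun kq => kq.2.1), ∀ b ∈ F.image (fun kq => kq.2.1),
            a ≤ b + (21 * σ + 5) := by
          intro a ha b hb
          rw [Finset.mem_image] at ha hb
          obtain ⟨ka, hka, rfl⟩ := ha
          obtain ⟨kb, hkb, rfl⟩ := hb
          have hk := hsame ka hka kb hkb
          obtain ⟨ha1, ha2⟩ := hFmem ka hka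
          obtain ⟨hb1, hb2⟩ := hFmem kb hkb
          obtain ⟨pa, hpa, la, na, -⟩ := hf2 ka ha1
          obtain ⟨pb, hpb, lb, nb, -⟩ := hf2 kb hb1
          rw [ha2] at na
          rw [hb2] at nb
          rw [← hk] at hpb
          have h5 := hwhit ka.1 pb hpb pa hpa (x gX) nb na
          have h6 := (hR ka.1 pa hpa).1
          have h7 := (hR ka.1 pb hpb).1
          rw [la, lb]
          omega
        have := SymP_levels _ h4
        omega
      calc F.card ≤ 9 ^ (σ + 2) * (F.image fun kq => kq.2.1).card := h2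
        _ ≤ 9 ^ (σ + 2) * (30 * σ + 30) := Nat.mul_le_mul_left _ h3
        _ = (30 * σ + 30) * 9 ^ (σ + 2) := by ring
  calc S'.card ≤ ((30 * σ + 30) * 9 ^ (σ + 2)) *
      ((Finset.univ : Finset (Bool × Bool × Bool)) ×ˢ ball 4 C).card := h1
    _ ≤ ((30 * σ + 30) * 9 ^ (σ + 2)) * 648 := Nat.mul_le_mul_left _ (SymP_card C)
    _ = C4 σ := by unfold C4; ring

end UCP
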