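import Pool.Agent.UCP.Strand
import Pool.Agent.UCP.Annulus
import Pool.Agent.UCP.SymP

/-!
[UCP-S6] from strands to symmetric sets of unit cells.
-/

namespace UCP

theorem Source_nr4 {H : ℕ} {c z : Pt} (h : Nr 4 (anc H c) (anc H z)) :
    Nr 2 (anc (H + 1) c) (anc (H + 1) z) ∧ Nr 1 (anc (H + 2) c) (anc (H + 2) z) := by
  have h1 := h.up
  have h2 := h1.up
  simp only [anc_anc] at h1 h2
  have e1 : 1 + H = H + 1 := by omega
  have e2 : 1 + (1 + H) = H + 2 := by omega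
  rw [e2] at h2
  rw [e1] at h1
  exact ⟨h1, h2⟩

theorem Source_nr_up {D H H' : ℕ} {c z : Pt} (h : Nr D (anc H c) (anc H z)) (hH : H ≤ H') :
    Nr D (anc H' c) (anc H' z) := by
  have h1 := h.anc (H' - H)
  simp only [anc_anc] at h1
  have e1 : H' - H + H = H' := by omega
  rw [e1] at h1
  exact h1

theorem Source_anc {r : ℕ × Pt} {c : Pt} {hi : ℕ} (h : anc r.1 c = r.2) (hr : r.1 ≤ hi) :
    anc (hi - r.1) r.2 = anc hi c := by
  rw [← h, anc_anc]
  have e1 : hi - r.1 + r.1 = hi := by omega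
  rw [e1]

/-- pigeonhole over the annuli -/
theorem Source_pigeon {κ : Type} [Fintype κ] (I T : ℕ) (hI : 10 ≤ I) (W : κ → Finset (ℕ × Pt))
    (R : ℕ → κ → Finset (ℕ × Pt)) (hsub : ∀ i k, R i k ⊆ W k)
    (hdis : ∀ i i' k r, i < i' → r ∈ R i k → r ∈ R i' k → False)
    (hT : ∀ k, (W k).card ≤ T) :
    ∃ i, 2 ≤ i ∧ i ≤ I - 3 ∧ (I - 4) * ∑ k, (R i k).card ≤ Fintype.card κ * T := by
  classical
  by_contra hcon
  push Not at hcon
  have h1 : ∑ i ∈ Finset.Icc 2 (I - 3), ∑ k, (R i k).card ≤ Fintype.card κ * T := by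
    rw [Finset.sum_comm]
    have h2 : ∀ k ∈ (Finset.univ : Finset κ),
        ∑ i ∈ Finset.Icc 2 (I - 3), (R i k).card ≤ T := by
      intro k _
      rw [← Finset.card_biUnion]
      · refine le_trans (Finset.card_le_card ?_) (hT k)
        intro r hr
        rw [Finset.mem_biUnion] at hr
        obtain ⟨i, _, hi⟩ := hr
        exact hsub i k hi
      · intro i _ i' _ hii
        rw [Function.onFun, Finset.disjoint_left]
        intro r hr hr'
        rcases lt_or_gt_of_ne hii with h | h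
        · exact hdis i i' k r h hr hr'
        · exact hdis i' i k r h hr' hr
    have h3 := Finset.sum_le_sum h2
    simpa using h3
  have h4 : ∀ i ∈ Finset.Icc 2 (I - 3), Fintype.card κ * T < (I - 4) * ∑ k, (R i k).card := by
    intro i hi
    rw [Finset.mem_Icc] at hi
    exact hcon i hi.1 hi.2
  have hne : (Finset.Icc 2 (I - 3)).Nonempty := ⟨2, by rw [Finset.mem_Icc]; omega⟩
  have h5 := Finset.sum_lt_sum_of_nonempty hne h4
  rw [Finset.sum_const, Nat.card_Icc, ← Finset.mul_sum, smul_eq_mul] at h5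
  have e : I - 3 + 1 - 2 = I - 4 := by omega
  rw [e] at h5
  have h6 := Nat.mul_le_mul_left (I - 4) h1
  omega

/-- For every `k` apply `strand` (to `F k`, `a = b`, `v = F k (x k) - b`, `hI = h0 + I`, `E0 = h0 + I - h2`): set `W k`. For
`i ∈ [2, I-3]`, `hi = h0 + i`, `C = anc hi zC`, put `R i k := {r ∈ W k | r.1 < hi, Nr 4 (X r) C, ¬ Nr 2 (X r) C}`,
`X r = anc (hi - r.1) r.2`.
* a cell is in `R i k` for at most one `i` (`Nr 4` at `hi` gives `Nr 2` at all greater heights), so some `i` has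
  `(I - 4) ∑_k |R i k| ≤ ∑_k |W k| ≤ card κ * m0 σ * N`; fix it, `Q k := symSet hi (R i k)`.
* `Nr 4` at height `hi` gives `Nr 1` at height `hi + 2`, so `not_fat` (with `zC`) gives `r.1 + s < hi + 2` for the good cells
  `r` in the window: `r.1 + σ + 3 ≤ hi`, i.e. unit level `≥ σ + 3 = s' + 2`; `E0 ≤ r.1` gives unit level `≤ h2`.
* `annulus` applies: start cell `p` (`anc p.1 (x k) = p.2`, fat, so `p.1 + s < h0 + 1`), end cell: `Nr 4` at `hi` would give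
  `Nr 1` at `hi + 2 ≤ h0 + I`. `symSet_LR` gives the crossing.
* `sym_P2`, `sym_P3` with `D k = Reach (Pr M · ∧ b < F k ·) (x k)` (`hW` from `¬ Fat (r.1 + c4 σ)`). -/
theorem source {κ : Type} [Fintype κ] {σ M h0 h2 I N : ℕ} {ε U b v : ℝ} {f : Pt → ℝ} (hσ : 1 ≤ σ)
    (hD : Disc σ M ε U f) (hD' : Disc σ M ε U (fun x => - f x)) {zC : Pt} (hzC : Pr M zC)
    (hz0 : f zC = 0) (hb : 0 ≤ b) (hv : 0 < v) (x : κ → Pt) (F : κ → Pt → ℝ)
    (hF : ∀ k, F k = f ∨ F k = fun x => - f x)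
    (hx : ∀ k, Pr M (x k) ∧ Nr 1 (anc (h0 + 1) (x k)) (anc (h0 + 1) zC) ∧ b + v ≤ F k (x k))
    (hdisj : ∀ k l y, Reach (fun w => Pr M w ∧ b < F k w) (x k) y →
      Reach (fun w => Pr M w ∧ b < F l w) (x l) y → k = l)
    (hN : 5 * U < (9 / 8 : ℝ) ^ N * v) (hε : 2 ^ (N + 20) * ε < v)
    (hdom : ∀ y, Pr M y → Nr 1 (anc (h0 + I + σ + 2) y) (anc (h0 + I + σ + 2) zC) → ¬ Bd M y)
    (hI : 10 ≤ I) (hM : h0 + I ≤ M) (hbig : K0 σ N ≤ h2) (hh : h2 ≤ h0) :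
    ∃ Q : κ → Finset (ℕ × Pt),
      (∀ k, ∀ q ∈ Q k, σ + 3 ≤ q.1 ∧ q.1 ≤ h2 ∧ Pr q.1 q.2) ∧
      (∀ k g, ∀ q ∈ Q k, (q.1, act g q.1 q.2) ∈ Q k) ∧
      (∀ μ w, μ ≤ h2 → Pr μ w → {k | ∃ q ∈ Q k, q.1 ≤ μ ∧ NearU (σ + 1) q (μ, w)}.ncard ≤ 648) ∧
      (∀ k', ∀ q' ∈ Q k',
        {kq : κ × (ℕ × Pt) | kq.2 ∈ Q kq.1 ∧ kq.2.1 < q'.1 ∧ NearU (σ + 1) kq.2 q'}.ncard ≤ C4 σ) ∧
      (∀ k, ∃ p q, ReachU (· ∈ Q k) p q ∧ p.2.1 = 0 ∧ q.2.1 + 1 = 3 ^ q.1) ∧
      (I - 4) * ∑ k, (Q k).card ≤ 8 * (Fintype.card κ * (m0 σ * N)) := by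
  classical
  have hFz : ∀ k, F k zC ≤ b := by
    intro k
    rcases hF k with h | h
    · rw [h, hz0]; exact hb
    · rw [h]; simp only [hz0, neg_zero]; exact hb
  have hDF : ∀ k, Disc σ M ε U (F k) := by
    intro k
    rcases hF k with h | h
    · rw [h]; exact hD
    · rw [h]; exact hD'
  -- the strands
  have hstr : ∀ k, ∃ W : Finset (ℕ × Pt), W.card ≤ m0 σ * N ∧
      (∀ p ∈ W, h0 + I - h2 ≤ p.1 ∧ GoodCell σ M (σ + 4) (F k) b (x k) p) ∧
      ∃ p q, ReachC (· ∈ W) p q ∧ anc p.1 (x k) = p.2 ∧ p.1 ≤ h0 + I ∧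
        ∃ c', Pr M c' ∧ anc q.1 c' = q.2 ∧ ¬ Nr 1 (anc (h0 + I) c') (anc (h0 + I) zC) := by
    intro k
    have hvk : v ≤ F k (x k) - b := by linarith [(hx k).2.2]
    refine strand (v := F k (x k) - b) hσ rfl (hDF k) (hx k).1 hzC (hFz k) hb
      (Source_nr_up (hx k).2.1 (by omega)) (by ring) (by linarith) ?_ (by linarith) hdom (by omega)
    refine lt_of_lt_of_le hN ?_
    exact mul_le_mul_of_nonneg_left hvk (by positivity)
  choose W hWc hWg pS qS hpq hpS hpS' c' hc' hqS hfar using hstr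
  -- the annuli
  obtain ⟨R, hRdef⟩ : ∃ R : ℕ → κ → Finset (ℕ × Pt), ∀ i k, R i k = (W k).filter
    (fun r => r.1 < h0 + i ∧ Nr 4 (anc (h0 + i - r.1) r.2) (anc (h0 + i) zC) ∧
      ¬ Nr 2 (anc (h0 + i - r.1) r.2) (anc (h0 + i) zC)) := ⟨_, fun _ _ => rfl⟩
  obtain ⟨i, hi2, hi3, hsum⟩ := Source_pigeon I (m0 σ * N) hI W R
    (by
      intro i k r hr
      rw [hRdef, Finset.mem_filter] at hr
      exact hr.1)
    (by
      intro i i' k r hii hr hr'
      rw [hRdef, Finset.mem_filter] at hr hr'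
      obtain ⟨hrW, h1, h2, -⟩ := hr
      obtain ⟨-, h1', -, h3'⟩ := hr'
      obtain ⟨-, c, -, hc, -⟩ := hWg k r hrW
      rw [Source_anc hc (by omega)] at h2 h3'
      exact h3' (Source_nr_up (Source_nr4 h2).1 (by omega)))
    hWc
  -- fatness bound in the window
  have hwin : ∀ k, ∀ r ∈ W k, r.1 ≤ h0 + i →
      Nr 4 (anc (h0 + i - r.1) r.2) (anc (h0 + i) zC) → r.1 + σ + 3 ≤ h0 + i := by
    intro k r hr hri hn
    obtain ⟨-, c, hPc, hc, hfat, -⟩ := hWg k r hr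
    rw [Source_anc hc hri] at hn
    by_contra hcon
    exact not_fat (s := σ + 4) (h := r.1) hzC (hFz k) (Source_nr4 hn).2.symm (by omega) hfat
  have hmem : ∀ k, ∀ r ∈ R i k, r ∈ W k ∧ r.1 < h0 + i ∧
      Nr 4 (anc (h0 + i - r.1) r.2) (anc (h0 + i) zC) ∧
      ¬ Nr 2 (anc (h0 + i - r.1) r.2) (anc (h0 + i) zC) := by
    intro k r hr
    rw [hRdef, Finset.mem_filter] at hr
    exact hr
  have hR : ∀ k, ∀ p ∈ R i k, p.1 + (σ + 1) ≤ h0 + i ∧
      Nr 4 (anc (h0 + i - p.1) p.2) (anc (h0 + i) zC) ∧ Pr (M - p.1) p.2 ∧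
      ∀ y, Pr M y → Nr 1 (anc (p.1 + (σ + 4)) y) (anc (σ + 4) p.2) →
        Reach (fun w => Pr M w ∧ b < F k w) (x k) y := by
    intro k p hp
    obtain ⟨hpW, hp1, hp2, -⟩ := hmem k p hp
    have hb1 := hwin k p hpW hp1.le hp2
    obtain ⟨-, c, hPc, hc, hfat, hnf, hblk⟩ := hWg k p hpW
    refine ⟨by omega, hp2, ?_, ?_⟩
    · rw [← hc]; exact hPc.anc'
    · intro y hy hn
      refine hblk y ⟨hy, ?_⟩
      rw [← hc, anc_anc] at hn
      have e : σ + 4 + p.1 = p.1 + (σ + 4) := by omega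
      rw [e] at hn
      exact hn
  have hWit : ∀ k, ∀ p ∈ R i k, ∃ ζ, Pr M ζ ∧
      Nr 1 (anc (p.1 + c4 σ + (σ + 4)) ζ) (anc (c4 σ + (σ + 4)) p.2) ∧
      ¬ Reach (fun w => Pr M w ∧ b < F k w) (x k) ζ := by
    intro k p hp
    obtain ⟨hpW, -⟩ := hmem k p hp
    obtain ⟨-, c, hPc, hc, hfat, hnf, hblk⟩ := hWg k p hpW
    unfold Fat at hnf
    push Not at hnf
    obtain ⟨ζ, hζ, hζ'⟩ := hnf
    refine ⟨ζ, hζ.1, ?_, ?_⟩
    · have h1 := hζ.2
      rw [← hc, anc_anc]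
      have e : c4 σ + (σ + 4) + p.1 = p.1 + c4 σ + (σ + 4) := by omega
      rw [e]
      exact h1
    · intro hr
      have := hr.right
      linarith [this.2]
  have hQ1 : ∀ k, ∀ q ∈ symSet (h0 + i) (R i k), σ + 3 ≤ q.1 ∧ q.1 ≤ h2 ∧ Pr q.1 q.2 := by
    intro k q hq
    unfold symSet at hq
    rw [Finset.mem_image] at hq
    obtain ⟨⟨g, r⟩, hgr, rfl⟩ := hq
    rw [Finset.mem_product] at hgr
    have hr := hgr.2
    simp only at hr
    obtain ⟨hrW, hr1, hr2, -⟩ := hmem k r hr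
    have hb1 := hwin k r hrW hr1.le hr2
    obtain ⟨hE, -⟩ := hWg k r hrW
    refine ⟨by simp only; omega, by simp only; omega, ?_⟩
    simp only
    refine Pr_act (Pr_foldP (hR k r hr).2.2.1 (by omega))
  refine ⟨fun k => symSet (h0 + i) (R i k), hQ1, ?_, ?_, ?_, ?_, ?_⟩
  · intro k g q hq
    exact symSet_act hq g
  · intro μ w hμ hw
    exact sym_P2 (M := M) (hi := h0 + i) (s := σ + 4) (s' := σ + 1) (by omega) (C := anc (h0 + i) zC)
      (by omega) (R i) (fun k y => Reach (fun w => Pr M w ∧ b < F k w) (x k) y) hdisj hR μ w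
      (by omega) hw
  · intro k' q' hq'
    obtain ⟨h1, h2', h3⟩ := hQ1 k' q' hq'
    exact sym_P3 (M := M) (hi := h0 + i) (s := σ + 4) (s' := σ + 1) hσ rfl rfl
      (C := anc (h0 + i) zC) (by omega) (R i)
      (fun k y => Reach (fun w => Pr M w ∧ b < F k w) (x k) y) hdisj hR hWit q' ⟨by omega, h3⟩
  · intro k
    have hpW : pS k ∈ W k := (hpq k).left
    have hp1 : (pS k).1 ≤ h0 + i := by
      obtain ⟨-, c, hPc, hc, hfat, -⟩ := hWg k (pS k) hpW
      by_contra hcon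
      have hfat' : Fat M (σ + 4) (F k) b (pS k).1 (x k) :=
        hfat.congr (by rw [hc, hpS k])
      exact not_fat (s := σ + 4) (h := (pS k).1) hzC (hFz k) (hx k).2.1.symm (by omega) hfat'
    obtain ⟨sw, X, p', q', hreach, hp', hq'⟩ := annulus (W := W k) (hi := h0 + i)
      (C := anc (h0 + i) zC) (hpq k)
      (fun r hr hri hn => by have := hwin k r hr hri hn; omega) hp1
      (by
        rw [Source_anc (hpS k) hp1]
        exact Source_nr_up (hx k).2.1 (by omega))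
      (by
        rintro ⟨h1, h2'⟩
        rw [Source_anc (hqS k) h1] at h2'
        exact hfar k (Source_nr_up (Source_nr4 h2').2 (by omega)))
    refine symSet_LR (hi := h0 + i) (R := R i k) (sw := sw) (X := X) (p' := p') (q' := q') ?_ hp' hq'
    refine hreach.mono ?_
    rintro r ⟨h1, h2', h3, h4, h5⟩
    refine ⟨?_, h2', h5⟩
    rw [hRdef, Finset.mem_filter]
    exact ⟨h1, h2', h3, h4⟩
  · have h1 : ∑ k, (symSet (h0 + i) (R i k)).card ≤ ∑ k, 8 * (R i k).card :=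
      Finset.sum_le_sum (fun k _ => card_symSet_le _ _)
    rw [← Finset.mul_sum] at h1
    calc (I - 4) * ∑ k, (symSet (h0 + i) (R i k)).card
        ≤ (I - 4) * (8 * ∑ k, (R i k).card) := Nat.mul_le_mul_left _ h1
      _ = 8 * ((I - 4) * ∑ k, (R i k).card) := by ring
      _ ≤ 8 * (Fintype.card κ * (m0 σ * N)) := Nat.mul_le_mul_left _ hsum

end UCP
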