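import Pool.Agent.UCP.Exact
import Pool.Agent.UCP.Base

/-!
[UCP-X] Crossing lemma: a left-right side-path and a bottom-top side-path of a rectangle meet.
-/

namespace UCP

/-- indicator of a point -/
def Cross_d (p : Pt) (x y : ℤ) : ZMod 2 := if x = p.1 ∧ y = p.2 then 1 else 0

/-- integer version of a set of points -/
def Cross_S (S : Pt → Prop) (x y : ℤ) : Prop := ∃ p : Pt, S p ∧ x = p.1 ∧ y = p.2

theorem Cross_S_cast {S : Pt → Prop} {p : Pt} : Cross_S S p.1 p.2 ↔ S p := by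
  constructor
  · rintro ⟨q, hq, h1, h2⟩
    have : p = q := by
      apply Prod.ext
      · exact_mod_cast h1
      · exact_mod_cast h2
    rw [this]
    exact hq
  · intro h
    exact ⟨p, h, rfl, rfl⟩

theorem Cross_d_self (p : Pt) : Cross_d p p.1 p.2 = 1 := by simp [Cross_d]

theorem Cross_d_zero {S : Pt → Prop} {p : Pt} (hp : S p) {x y : ℤ} (h : ¬ Cross_S S x y) :
    Cross_d p x y = 0 := by
  unfold Cross_d
  rw [if_neg]
  rintro ⟨h1, h2⟩
  exact h ⟨p, hp, h1, h2⟩

/-- the mod 2 chain of a path -/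
structure Cross_chain (S : Pt → Prop) (a b : Pt) (H V : ℤ → ℤ → ZMod 2) : Prop where
  zero : ∀ x y, ¬ Cross_S S x y → H x y = 0 ∧ H (x - 1) y = 0 ∧ V x y = 0 ∧ V x (y - 1) = 0
  bdry : ∀ x y, H x y + H (x - 1) y + V x y + V x (y - 1) = Cross_d a x y + Cross_d b x y

theorem Cross_two (z : ZMod 2) : z + z = 0 := CharTwo.add_self_eq_zero z

theorem Cross_vert {S : Pt → Prop} {a b c : Pt} {H V : ℤ → ℤ → ZMod 2} {p q : Pt}
    (hp : S p) (hq : S q) (hpq : q.1 = p.1 ∧ q.2 = p.2 + 1) (h : Cross_chain S a b H V)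
    (hc : ∀ x y, Cross_d b x y + Cross_d p x y + Cross_d q x y = Cross_d c x y) :
    Cross_chain S a c H (fun x y => V x y + Cross_d p x y) := by
  have hd : ∀ x y, Cross_d p x (y - 1) = Cross_d q x y := by
    intro x y
    unfold Cross_d
    rw [hpq.1, hpq.2]
    congr 1
    rw [eq_iff_iff]
    push_cast
    constructor <;> rintro ⟨h1, h2⟩ <;> exact ⟨h1, by omega⟩
  constructor
  · intro x y hxy
    obtain ⟨h1, h2, h3, h4⟩ := h.zero x y hxy
    refine ⟨h1, h2, ?_, ?_⟩
    · simp only [h3, Cross_d_zero hp hxy, add_zero]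
    · simp only [h4, hd, Cross_d_zero hq hxy, add_zero]
  · intro x y
    have h1 := h.bdry x y
    have h2 := hc x y
    simp only [hd]
    linear_combination h1 + h2

theorem Cross_horiz {S : Pt → Prop} {a b c : Pt} {H V : ℤ → ℤ → ZMod 2} {p q : Pt}
    (hp : S p) (hq : S q) (hpq : q.1 = p.1 + 1 ∧ q.2 = p.2) (h : Cross_chain S a b H V)
    (hc : ∀ x y, Cross_d b x y + Cross_d p x y + Cross_d q x y = Cross_d c x y) :
    Cross_chain S a c (fun x y => H x y + Cross_d p x y) V := by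
  have hd : ∀ x y, Cross_d p (x - 1) y = Cross_d q x y := by
    intro x y
    unfold Cross_d
    rw [hpq.1, hpq.2]
    congr 1
    rw [eq_iff_iff]
    push_cast
    constructor <;> rintro ⟨h1, h2⟩ <;> exact ⟨by omega, h2⟩
  constructor
  · intro x y hxy
    obtain ⟨h1, h2, h3, h4⟩ := h.zero x y hxy
    refine ⟨?_, ?_, h3, h4⟩
    · simp only [h1, Cross_d_zero hp hxy, add_zero]
    · simp only [h2, hd, Cross_d_zero hq hxy, add_zero]
  · intro x y
    have h1 := h.bdry x y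
    have h2 := hc x y
    simp only [hd]
    linear_combination h1 + h2

theorem Cross_exists {S : Pt → Prop} {a b : Pt} (h : Reach S a b) :
    ∃ H V : ℤ → ℤ → ZMod 2, Cross_chain S a b H V := by
  obtain ⟨h1, h2⟩ := h
  induction h2 with
  | refl =>
    refine ⟨fun _ _ => 0, fun _ _ => 0, ?_, ?_⟩
    · intro x y _
      exact ⟨rfl, rfl, rfl, rfl⟩
    · intro x y
      rw [Cross_two (Cross_d a x y)]
      norm_num
  | @tail b c h3 h4 ih =>
    obtain ⟨H, V, hHV⟩ := ih
    have hb : S b := Reach.right ⟨h1, h3⟩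
    obtain ⟨hsd, hc⟩ := h4
    have e1 : ∀ x y, Cross_d b x y + Cross_d b x y + Cross_d c x y = Cross_d c x y := by
      intro x y
      rw [Cross_two, zero_add]
    have e2 : ∀ x y, Cross_d b x y + Cross_d c x y + Cross_d b x y = Cross_d c x y := by
      intro x y
      have := Cross_two (Cross_d b x y)
      linear_combination this
    rcases hsd with ⟨hx, hy | hy⟩ | ⟨hy, hx | hx⟩
    · exact ⟨H, _, Cross_vert hc hb ⟨hx, hy⟩ hHV e2⟩
    · exact ⟨H, _, Cross_vert hb hc ⟨hx.symm, hy⟩ hHV e1⟩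
    · exact ⟨_, V, Cross_horiz hc hb ⟨hx, hy⟩ hHV e2⟩
    · exact ⟨_, V, Cross_horiz hb hc ⟨hx, hy.symm⟩ hHV e1⟩

/-- partial column sums -/
def Cross_F (H : ℤ → ℤ → ZMod 2) (x : ℤ) (n : ℕ) : ZMod 2 := ∑ t ∈ Finset.range n, H x (t : ℤ)

theorem Cross_F_succ (H : ℤ → ℤ → ZMod 2) (x : ℤ) (n : ℕ) :
    Cross_F H x (n + 1) = Cross_F H x n + H x n := by
  unfold Cross_F
  rw [Finset.sum_range_succ]

theorem Cross_ind_succ (p : Pt) (x : ℤ) (n : ℕ) :
    (if (p.1 : ℤ) = x ∧ p.2 < n + 1 then (1 : ZMod 2) else 0) =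
      (if (p.1 : ℤ) = x ∧ p.2 < n then 1 else 0) + Cross_d p x n := by
  unfold Cross_d
  by_cases h1 : (p.1 : ℤ) = x
  · by_cases h2 : p.2 < n
    · rw [if_pos ⟨h1, by omega⟩, if_pos ⟨h1, h2⟩, if_neg (by rintro ⟨_, h⟩; omega), add_zero]
    · by_cases h3 : p.2 = n
      · rw [if_pos ⟨h1, by omega⟩, if_neg (by rintro ⟨_, h⟩; omega), if_pos ⟨h1.symm, by omega⟩,
          zero_add]
      · rw [if_neg (by rintro ⟨_, h⟩; omega), if_neg (by rintro ⟨_, h⟩; omega),
          if_neg (by rintro ⟨_, h⟩; omega), zero_add]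
  · rw [if_neg (by rintro ⟨h, _⟩; exact h1 h), if_neg (by rintro ⟨h, _⟩; exact h1 h),
      if_neg (by rintro ⟨h, _⟩; exact h1 h.symm), zero_add]

theorem Cross_F_step {S : Pt → Prop} {a b : Pt} {H V : ℤ → ℤ → ZMod 2}
    (h : Cross_chain S a b H V) (x : ℤ) (n : ℕ) :
    Cross_F H x n + Cross_F H (x - 1) n = V x ((n : ℤ) - 1) +
      (if (a.1 : ℤ) = x ∧ a.2 < n then 1 else 0) +
      (if (b.1 : ℤ) = x ∧ b.2 < n then 1 else 0) := by
  induction n with
  | zero =>
    have h1 : ¬ Cross_S S x (-1) := by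
      rintro ⟨p, _, _, h2⟩
      omega
    have h2 := (h.zero x (-1) h1).2.2.1
    simp [Cross_F, h2]
  | succ n ih =>
    rw [Cross_F_succ, Cross_F_succ, Cross_ind_succ, Cross_ind_succ]
    have h1 := h.bdry x n
    have h2 := Cross_two (V x ((n : ℤ) - 1))
    have h3 := Cross_two (V x (n : ℤ))
    push_cast
    rw [show (n : ℤ) + 1 - 1 = n by ring]
    linear_combination ih + h1 - h3 + (1 : ZMod 2) * 0 * h2

/-- the side function -/
def Cross_f (b : Pt) (H : ℤ → ℤ → ZMod 2) (x : ℤ) (n : ℕ) : ZMod 2 :=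
  Cross_F H x n + (if (b.1 : ℤ) ≤ x ∧ b.2 < n then 1 else 0)

theorem Cross_f_vert {S : Pt → Prop} {a b : Pt} {H V : ℤ → ℤ → ZMod 2} (hb : S b)
    (h : Cross_chain S a b H V) {x : ℤ} {n : ℕ} (hx : x ≤ b.1) (hS : ¬ Cross_S S x n) :
    Cross_f b H x (n + 1) = Cross_f b H x n := by
  unfold Cross_f
  rw [Cross_F_succ, (h.zero x n hS).1, add_zero]
  congr 1
  have : ((b.1 : ℤ) ≤ x ∧ b.2 < n + 1) ↔ ((b.1 : ℤ) ≤ x ∧ b.2 < n) := by
    constructor
    · rintro ⟨h1, h2⟩
      refine ⟨h1, ?_⟩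
      by_contra h3
      have h4 : b.2 = n := by omega
      have h5 : x = b.1 := le_antisymm hx h1
      exact hS ⟨b, hb, h5, by exact_mod_cast h4.symm⟩
    · rintro ⟨h1, h2⟩
      exact ⟨h1, by omega⟩
  simp only [this]

theorem Cross_f_horiz {S : Pt → Prop} {a b : Pt} {H V : ℤ → ℤ → ZMod 2}
    (h : Cross_chain S a b H V) {x : ℤ} {n : ℕ} (hS : ¬ Cross_S S x n) :
    Cross_f b H x n = Cross_f b H (x - 1) n + (if (a.1 : ℤ) = x ∧ a.2 < n then 1 else 0) := by
  unfold Cross_f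
  have h1 := Cross_F_step h x n
  rw [(h.zero x n hS).2.2.2, zero_add] at h1
  have h2 : (if (b.1 : ℤ) ≤ x ∧ b.2 < n then (1 : ZMod 2) else 0) =
      (if (b.1 : ℤ) ≤ x - 1 ∧ b.2 < n then 1 else 0) +
      (if (b.1 : ℤ) = x ∧ b.2 < n then 1 else 0) := by
    by_cases hn : b.2 < n
    · rcases lt_trichotomy (b.1 : ℤ) x with h3 | h3 | h3
      · rw [if_pos ⟨h3.le, hn⟩, if_pos ⟨by omega, hn⟩, if_neg (by rintro ⟨h, _⟩; omega), add_zero]
      · rw [if_pos ⟨h3.le, hn⟩, if_neg (by rintro ⟨h, _⟩; omega), if_pos ⟨h3, hn⟩, zero_add]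
      · rw [if_neg (by rintro ⟨h, _⟩; omega), if_neg (by rintro ⟨h, _⟩; omega),
          if_neg (by rintro ⟨h, _⟩; omega), zero_add]
    · rw [if_neg (fun h => hn h.2), if_neg (fun h => hn h.2), if_neg (fun h => hn h.2), zero_add]
  rw [h2]
  have h3 := Cross_two (Cross_F H (x - 1) n)
  have h4 := Cross_two (if (b.1 : ℤ) = x ∧ b.2 < n then (1 : ZMod 2) else 0)
  linear_combination h1 - h3 + h4

/-- Proof: mod 2 chain of the first path, and the parity of the number of its edges below a point is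
constant along the second path. -/
theorem cross {x0 x1 y0 y1 : ℕ} {S T : Pt → Prop} {a b c d : Pt}
    (hS : ∀ p, S p → x0 ≤ p.1 ∧ p.1 ≤ x1 ∧ y0 ≤ p.2 ∧ p.2 ≤ y1)
    (hT : ∀ p, T p → x0 ≤ p.1 ∧ p.1 ≤ x1 ∧ y0 ≤ p.2 ∧ p.2 ≤ y1)
    (hab : Reach S a b) (ha : a.1 = x0) (hb : b.1 = x1)
    (hcd : Reach T c d) (hc : c.2 = y0) (hd : d.2 = y1) : ∃ p, S p ∧ T p := by
  by_contra hcon
  have hdis : ∀ p, T p → ¬ Cross_S S p.1 p.2 := fun p hp h => hcon ⟨p, Cross_S_cast.1 h, hp⟩
  obtain ⟨H, V, h⟩ := Cross_exists hab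
  have hSa : S a := hab.left
  have hSb : S b := hab.right
  have hTc : T c := hcd.left
  have hTd : T d := hcd.right
  -- constancy along the second path
  have key : Cross_f b H c.1 c.2 = Cross_f b H d.1 d.2 := by
    obtain ⟨h1, h2⟩ := hcd
    clear hd hTd
    induction h2 with
    | refl => rfl
    | @tail p q h3 h4 ih =>
      rw [ih]
      have hTp : T p := Reach.right ⟨h1, h3⟩
      obtain ⟨hsd, hTq⟩ := h4
      have bp := hT p hTp
      have bq := hT q hTq
      rcases hsd with ⟨hx, hy | hy⟩ | ⟨hy, hx | hx⟩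
      · rw [hy, hx]
        exact Cross_f_vert hSb h (by rw [hb]; exact_mod_cast bq.2.1) (hdis q hTq)
      · rw [hy, hx, ← hx]
        exact (Cross_f_vert hSb h (by rw [hb]; exact_mod_cast bp.2.1) (hdis p hTp)).symm
      · have h5 := Cross_f_horiz h (hdis p hTp)
        rw [if_neg (by rintro ⟨h6, _⟩; omega), add_zero] at h5
        rw [h5, hy]
        congr 1
        rw [hx]
        push_cast
        ring
      · have h5 := Cross_f_horiz h (hdis q hTq)
        rw [if_neg (by rintro ⟨h6, _⟩; omega), add_zero] at h5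
        rw [h5, hy]
        congr 1
        rw [hx]
        push_cast
        ring
  -- value at the bottom
  have hbot : Cross_f b H c.1 c.2 = 0 := by
    unfold Cross_f Cross_F
    have b2 := hS b hSb
    rw [if_neg (by rintro ⟨_, h6⟩; omega), add_zero]
    refine Finset.sum_eq_zero (fun t ht => ?_)
    rw [Finset.mem_range, hc] at ht
    refine (h.zero _ _ ?_).1
    rintro ⟨p, hp, _, h7⟩
    have := hS p hp
    omega
  -- value on the row above the rectangle
  have htop : ∀ k : ℕ, x0 + k ≤ x1 → Cross_f b H ((x0 + k : ℕ) : ℤ) (y1 + 1) = 1 := by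
    have hno : ∀ x : ℤ, ¬ Cross_S S x ((y1 + 1 : ℕ) : ℤ) := by
      rintro x ⟨p, hp, _, h7⟩
      have := hS p hp
      omega
    intro k
    induction k with
    | zero =>
      intro hk
      rw [Cross_f_horiz h (hno _)]
      have b1 := hS a hSa
      have b2 := hS b hSb
      rw [if_pos ⟨by rw [ha]; rfl, by omega⟩]
      have : Cross_f b H (((x0 + 0 : ℕ) : ℤ) - 1) (y1 + 1) = 0 := by
        unfold Cross_f Cross_F
        rw [if_neg (by rintro ⟨h6, _⟩; omega), add_zero]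
        refine Finset.sum_eq_zero (fun t _ => ?_)
        refine (h.zero _ _ ?_).1
        rintro ⟨p, hp, h7, _⟩
        have := hS p hp
        omega
      rw [this, zero_add]
    | succ k ih =>
      intro hk
      rw [Cross_f_horiz h (hno _), if_neg (by rintro ⟨h6, _⟩; omega), add_zero]
      rw [← ih (by omega)]
      congr 1
      push_cast
      ring
  have bd := hT d hTd
  have h8 : Cross_f b H d.1 (d.2 + 1) = 1 := by
    have := htop (d.1 - x0) (by omega)
    rw [show x0 + (d.1 - x0) = d.1 by omega] at this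
    rw [hd]
    exact this
  rw [Cross_f_vert hSb h (by rw [hb]; exact_mod_cast bd.2.1) (hdis d hTd)] at h8
  rw [← key, hbot] at h8
  exact zero_ne_one h8

end UCP
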