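import Pool.Agent.UCP.Lift
import Pool.Agent.UCP.Cross

/-!
[UCP-U4] the symmetric nets.
-/

namespace UCP

/-- constant of the unit lemma -/
def C5 (s' C : ℕ) : ℕ := 10000 * 9 ^ (s' + 2) * (C + 1)

theorem UnitNet_Pr_lt {n : ℕ} {c : Pt} (h : Pr n c) : c.1 < 3 ^ n ∧ c.2 < 3 ^ n := ⟨h.1, h.2.1⟩

/-- reachability inside the reachable part -/
theorem UnitNet_reach {W V : ℕ × Pt → Prop} {p x : ℕ × Pt} (hV : ∀ y, ReachU W p y → V y)
    (h : ReachU W p x) : ReachU V p x := by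
  obtain ⟨h1, h2⟩ := h
  refine ⟨hV p ⟨h1, Relation.ReflTransGen.refl⟩, ?_⟩
  induction h2 with
  | refl => exact Relation.ReflTransGen.refl
  | tail h3 h4 ih => exact ih.tail ⟨h4.1, hV _ ⟨h1, h3.tail h4⟩⟩

/-- the image of a covered set under a symmetry -/
def UnitNet_Im (h : ℕ) (L : Finset (ℕ × Pt)) (g : Bool × Bool × Bool) (y : Pt) : Prop :=
  ∃ y0, Cov h L y0 ∧ y = act g h y0

theorem UnitNet_Im_conn {h : ℕ} {L : Finset (ℕ × Pt)} (hc : Conn (Cov h L))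
    (g : Bool × Bool × Bool) : Conn (UnitNet_Im h L g) := by
  rintro a b ⟨a0, ha0, rfl⟩ ⟨b0, hb0, rfl⟩
  obtain ⟨-, h2⟩ := hc a0 b0 ha0 hb0
  refine ⟨⟨a0, ha0, rfl⟩, ?_⟩
  have key : ∀ x, Relation.ReflTransGen (fun x y => Sd x y ∧ Cov h L y) a0 x → Cov h L x ∧
      Relation.ReflTransGen (fun x y => Sd x y ∧ UnitNet_Im h L g y) (act g h a0) (act g h x) := by
    intro x hx
    induction hx with
    | refl => exact ⟨ha0, Relation.ReflTransGen.refl⟩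
    | tail h3 h4 ih =>
      refine ⟨h4.2, ih.2.tail ⟨?_, ⟨_, h4.2, rfl⟩⟩⟩
      exact Sd_act (UnitNet_Pr_lt ih.1.1) (UnitNet_Pr_lt h4.2.1) h4.1
  exact (key b0 h2).2

theorem UnitNet_Im_lt {h : ℕ} {L : Finset (ℕ × Pt)} {g : Bool × Bool × Bool} {y : Pt}
    (hy : UnitNet_Im h L g y) : y.1 < 3 ^ h ∧ y.2 < 3 ^ h := by
  obtain ⟨y0, hy0, rfl⟩ := hy
  exact act_lt (UnitNet_Pr_lt hy0.1)

/-- end points of an image of a left-right connected set -/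
theorem UnitNet_Im_ends {h : ℕ} {L : Finset (ℕ × Pt)} (hl : ∃ y, Cov h L y ∧ y.1 = 0)
    (hr : ∃ y, Cov h L y ∧ y.1 + 1 = 3 ^ h) (g : Bool × Bool × Bool) :
    (g.2.2 = false → ∃ a b, UnitNet_Im h L g a ∧ UnitNet_Im h L g b ∧ a.1 = 0 ∧ b.1 = 3 ^ h - 1) ∧
    (g.2.2 = true → ∃ a b, UnitNet_Im h L g a ∧ UnitNet_Im h L g b ∧ a.2 = 0 ∧ b.2 = 3 ^ h - 1) := by
  obtain ⟨y, hy, hy0⟩ := hl
  obtain ⟨z, hz, hz0⟩ := hr
  have hz1 : z.1 = 3 ^ h - 1 := by omega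
  obtain ⟨g1, g2, g3⟩ := g
  constructor
  · intro hg
    simp only at hg
    subst hg
    cases g1
    · exact ⟨_, _, ⟨y, hy, rfl⟩, ⟨z, hz, rfl⟩, by simp [act, hy0], by simp [act, hz1]⟩
    · exact ⟨_, _, ⟨z, hz, rfl⟩, ⟨y, hy, rfl⟩, by simp [act, hz1], by simp [act, hy0]⟩
  · intro hg
    simp only at hg
    subst hg
    cases g1
    · exact ⟨_, _, ⟨y, hy, rfl⟩, ⟨z, hz, rfl⟩, by simp [act, hy0], by simp [act, hz1]⟩
    · exact ⟨_, _, ⟨z, hz, rfl⟩, ⟨y, hy, rfl⟩, by simp [act, hz1], by simp [act, hy0]⟩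

/-- a left-right image meets a top-bottom image -/
theorem UnitNet_meet {h : ℕ} {L : Finset (ℕ × Pt)} (hc : Conn (Cov h L))
    (hl : ∃ y, Cov h L y ∧ y.1 = 0) (hr : ∃ y, Cov h L y ∧ y.1 + 1 = 3 ^ h)
    {g g' : Bool × Bool × Bool} (hg : g.2.2 = false) (hg' : g'.2.2 = true) :
    ∃ p, UnitNet_Im h L g p ∧ UnitNet_Im h L g' p := by
  obtain ⟨a, b, ha, hb, ha0, hb0⟩ := (UnitNet_Im_ends hl hr g).1 hg
  obtain ⟨c, d, hc', hd, hc0, hd0⟩ := (UnitNet_Im_ends hl hr g').2 hg'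
  refine cross (x0 := 0) (x1 := 3 ^ h - 1) (y0 := 0) (y1 := 3 ^ h - 1) ?_ ?_
    (UnitNet_Im_conn hc g a b ha hb) ha0 hb0 (UnitNet_Im_conn hc g' c d hc' hd) hc0 hd0
  · intro p hp
    have := UnitNet_Im_lt hp
    omega
  · intro p hp
    have := UnitNet_Im_lt hp
    omega

/-- the union of the images is connected -/
theorem UnitNet_union {h : ℕ} {L : Finset (ℕ × Pt)} (hc : Conn (Cov h L))
    (hl : ∃ y, Cov h L y ∧ y.1 = 0) (hr : ∃ y, Cov h L y ∧ y.1 + 1 = 3 ^ h) :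
    Conn (fun y => ∃ g, UnitNet_Im h L g y) := by
  have step : ∀ g a b, UnitNet_Im h L g a → UnitNet_Im h L g b →
      Reach (fun y => ∃ g, UnitNet_Im h L g y) a b := fun g a b ha hb =>
    (UnitNet_Im_conn hc g a b ha hb).mono (fun x hx => ⟨g, hx⟩)
  have hl' := hl
  obtain ⟨y, hy, -⟩ := hl
  have hbase : UnitNet_Im h L (false, false, false) y := ⟨y, hy, (act_id h y).symm⟩
  have key : ∀ g a, UnitNet_Im h L g a → Reach (fun y => ∃ g, UnitNet_Im h L g y) a y := by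
    intro g a ha
    cases hg : g.2.2
    · obtain ⟨z, hz1, hz2⟩ := UnitNet_meet hc hl' hr (g := g)
        (g' := (false, false, true)) hg rfl
      obtain ⟨z', hz1', hz2'⟩ := UnitNet_meet hc hl' hr
        (g := (false, false, false)) (g' := (false, false, true)) rfl rfl
      exact ((step g a z ha hz1).trans (step _ z z' hz2 hz2')).trans (step _ z' y hz1' hbase)
    · obtain ⟨z, hz1, hz2⟩ := UnitNet_meet hc hl' hr
        (g := (false, false, false)) (g' := g) rfl hg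
      exact (step g a z ha hz2).trans (step _ z y hz1 hbase)
  rintro a b ⟨g, ha⟩ ⟨g', hb⟩
  exact (key g a ha).trans (key g' b hb).symm

/-- the symmetric hull -/
noncomputable def UnitNet_hull (L : Finset (ℕ × Pt)) : Finset (ℕ × Pt) :=
  open Classical in
  ((Finset.univ : Finset (Bool × Bool × Bool)) ×ˢ L).image (fun gd => (gd.2.1, act gd.1 gd.2.1 gd.2.2))

theorem UnitNet_mem_hull {L : Finset (ℕ × Pt)} {d : ℕ × Pt} : d ∈ UnitNet_hull L ↔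
    ∃ g, ∃ d0 ∈ L, d = (d0.1, act g d0.1 d0.2) := by
  unfold UnitNet_hull
  rw [Finset.mem_image]
  constructor
  · rintro ⟨⟨g, d0⟩, hx, rfl⟩
    exact ⟨g, d0, (Finset.mem_product.1 hx).2, rfl⟩
  · rintro ⟨g, d0, hd0, rfl⟩
    exact ⟨(g, d0), Finset.mem_product.2 ⟨Finset.mem_univ _, hd0⟩, rfl⟩

theorem UnitNet_card_hull (L : Finset (ℕ × Pt)) : (UnitNet_hull L).card ≤ 8 * L.card := by
  unfold UnitNet_hull
  refine Finset.card_image_le.trans ?_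
  rw [Finset.card_product]
  simp

theorem UnitNet_Cov_hull {h : ℕ} {L : Finset (ℕ × Pt)} (hL : ∀ d ∈ L, d.1 ≤ h ∧ Pr d.1 d.2) (y : Pt) :
    Cov h (UnitNet_hull L) y ↔ ∃ g, UnitNet_Im h L g y := by
  constructor
  · rintro ⟨hy, d, hd, hdh, hanc⟩
    obtain ⟨g, d0, hd0, rfl⟩ := UnitNet_mem_hull.1 hd
    obtain ⟨hd1, hd2⟩ := hL d0 hd0
    simp only at hanc hdh
    obtain ⟨g', hg'⟩ := act_inv g
    refine ⟨g, act g' h y, ⟨Pr_act hy, d0, hd0, hd1, ?_⟩, ?_⟩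
    · rw [anc_act (Nat.sub_le _ _) (UnitNet_Pr_lt hy), hanc,
        show h - (h - d0.1) = d0.1 by omega]
      exact (hg' d0.1 d0.2 (UnitNet_Pr_lt hd2)).1
    · exact ((hg' h y (UnitNet_Pr_lt hy)).2).symm
  · rintro ⟨g, y0, ⟨hy0, d0, hd0, hd1, hanc⟩, rfl⟩
    refine ⟨Pr_act hy0, (d0.1, act g d0.1 d0.2), UnitNet_mem_hull.2 ⟨g, d0, hd0, rfl⟩, hd1, ?_⟩
    simp only
    rw [anc_act (Nat.sub_le _ _) (UnitNet_Pr_lt hy0), hanc, show h - (h - d0.1) = d0.1 by omega]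

theorem UnitNet_hull_act {L : Finset (ℕ × Pt)} (hL : ∀ d ∈ L, Pr d.1 d.2) {d : ℕ × Pt}
    (hd : d ∈ UnitNet_hull L) (g : Bool × Bool × Bool) :
    (d.1, act g d.1 d.2) ∈ UnitNet_hull L := by
  obtain ⟨g', d0, hd0, rfl⟩ := UnitNet_mem_hull.1 hd
  obtain ⟨g'', hg''⟩ := act_mul g g'
  refine UnitNet_mem_hull.2 ⟨g'', d0, hd0, ?_⟩
  simp only
  rw [hg'' d0.1 d0.2 (UnitNet_Pr_lt (hL d0 hd0))]

theorem UnitNet_mem_MR {Reg : ℕ × Pt → Prop} {h : ℕ} {q d : ℕ × Pt} (hd : d ∈ MR Reg h q) :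
    d.1 ≤ h ∧ q.1 ≤ d.1 ∧ anc (d.1 - q.1) d.2 = q.2 ∧ Pr d.1 d.2 ∧ Reg d := by
  classical
  unfold MR at hd
  rw [Finset.mem_filter, Finset.mem_product, Finset.mem_range] at hd
  exact ⟨by omega, hd.2.1, hd.2.2.1, hd.2.2.2.1, hd.2.2.2.2.1⟩

/-- double counting -/
theorem UnitNet_count {κ : Type} [Fintype κ] {s' C : ℕ} (Q : κ → Finset (ℕ × Pt))
    (Qs : Finset (ℕ × Pt)) (hQs : ∀ x, x ∈ Qs ↔ ∃ k, x ∈ Q k)
    (hP3 : ∀ k', ∀ q' ∈ Q k',
      {kq : κ × (ℕ × Pt) | kq.2 ∈ Q kq.1 ∧ kq.2.1 < q'.1 ∧ NearU s' kq.2 q'}.ncard ≤ C) :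
    ∑ k, ∑ q ∈ Q k, nfin s' Qs q ≤ C * ∑ k, (Q k).card := by
  classical
  have h1 : ∀ q' ∈ Qs, ∑ k, ∑ q ∈ Q k, (if q.1 < q'.1 ∧ NearU s' q q' then 1 else 0) ≤ C := by
    intro q' hq'
    obtain ⟨k', hk'⟩ := (hQs q').1 hq'
    refine le_trans (le_of_eq ?_) (hP3 k' q' hk')
    have h2 : {kq : κ × (ℕ × Pt) | kq.2 ∈ Q kq.1 ∧ kq.2.1 < q'.1 ∧ NearU s' kq.2 q'} =
        ((Finset.univ.sigma Q).filter (fun x => x.2.1 < q'.1 ∧ NearU s' x.2 q')).map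
          ⟨fun x => (x.1, x.2), fun x y hxy => by
            obtain ⟨x1, x2⟩ := x
            obtain ⟨y1, y2⟩ := y
            simp only [Prod.mk.injEq] at hxy
            obtain ⟨rfl, rfl⟩ := hxy
            rfl⟩ := by
      ext ⟨k, q⟩
      rw [Finset.coe_map, Set.mem_image]
      constructor
      · rintro ⟨h3, h4⟩
        exact ⟨⟨k, q⟩, Finset.mem_coe.2 (Finset.mem_filter.2
          ⟨Finset.mem_sigma.2 ⟨Finset.mem_univ _, h3⟩, h4⟩), rfl⟩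
      · rintro ⟨⟨k1, q1⟩, h3, h4⟩
        have h5 := Finset.mem_filter.1 (Finset.mem_coe.1 h3)
        have h6 := (Finset.mem_sigma.1 h5.1).2
        change (k1, q1) = (k, q) at h4
        rw [Prod.mk.injEq] at h4
        obtain ⟨rfl, rfl⟩ := h4
        exact ⟨h6, h5.2⟩
    rw [h2, Set.ncard_coe_finset, Finset.card_map, Finset.card_filter, Finset.sum_sigma]
  have h3 : ∀ q, nfin s' Qs q = ∑ q' ∈ Qs, (if q.1 < q'.1 ∧ NearU s' q q' then 1 else 0) := by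
    intro q
    unfold nfin
    rw [Finset.card_filter]
  calc ∑ k, ∑ q ∈ Q k, nfin s' Qs q
      = ∑ k, ∑ q ∈ Q k, ∑ q' ∈ Qs, (if q.1 < q'.1 ∧ NearU s' q q' then 1 else 0) :=
        Finset.sum_congr rfl fun k _ => Finset.sum_congr rfl fun q _ => h3 q
    _ = ∑ q' ∈ Qs, ∑ k, ∑ q ∈ Q k, (if q.1 < q'.1 ∧ NearU s' q q' then 1 else 0) := by
        rw [Finset.sum_comm]
        refine Finset.sum_congr rfl fun k _ => ?_
        rw [Finset.sum_comm]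
    _ ≤ ∑ q' ∈ Qs, C := Finset.sum_le_sum h1
    _ = C * Qs.card := by rw [Finset.sum_const, smul_eq_mul, mul_comm]
    _ ≤ C * ∑ k, (Q k).card := by
        refine Nat.mul_le_mul_left _ ?_
        have h4 : Qs = Finset.univ.biUnion Q := by
          ext x
          rw [hQs, Finset.mem_biUnion]
          simp
        rw [h4]
        exact Finset.card_biUnion_le

/-- [UCP-U4] For each `k` let `p, q` be as in `hLR` and `Pk := {x ∈ Q k | ReachU (· ∈ Q k) p x}` (connected, contains `q`).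
`unit_lift` with `Reg = RegU s' (⋃ Q k)`, `w q = 1 + 9^(s'+2) * nfin ..` (`weight_le`) gives `Lk`, connected, from the left to the
right side. `N k` := union of the eight images of `Lk` (`act g d.1`). Each image is regular (`RegU.act`), and
contained in a cell of `Q k` (symmetric). `Cov h (N k)` is the union of the eight images of `Cov h Lk`; an image is
left-right or top-bottom connected, and a left-right one meets a top-bottom one by `cross`; so it is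
connected and touches the left side (and by symmetry every side).
Cardinality: `card (N k) ≤ 8 * 100 * ∑_{q ∈ Q k} (1 + 9^(s'+2) nfin q)`, and
`∑_k ∑_{q ∈ Q k} nfin q ≤ C * card (⋃ Q k)` by `hP3`. -/
theorem unit_net {κ : Type} [Fintype κ] {s' h L C : ℕ} (hL : L ≤ h) (Q : κ → Finset (ℕ × Pt))
    (hlev : ∀ k, ∀ q ∈ Q k, s' + 1 ≤ q.1 ∧ q.1 ≤ L ∧ Pr q.1 q.2)
    (hsym : ∀ k g, ∀ q ∈ Q k, (q.1, act g q.1 q.2) ∈ Q k)
    (hP3 : ∀ k', ∀ q' ∈ Q k',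
      {kq : κ × (ℕ × Pt) | kq.2 ∈ Q kq.1 ∧ kq.2.1 < q'.1 ∧ NearU s' kq.2 q'}.ncard ≤ C)
    (hLR : ∀ k, ∃ p q, ReachU (· ∈ Q k) p q ∧ p.2.1 = 0 ∧ q.2.1 + 1 = 3 ^ q.1) :
    ∃ N : κ → Finset (ℕ × Pt),
      (∀ k, ∀ d ∈ N k, s' + 1 ≤ d.1 ∧ d.1 ≤ h ∧ Pr d.1 d.2 ∧
        (∃ q ∈ Q k, q.1 ≤ d.1 ∧ anc (d.1 - q.1) d.2 = q.2) ∧
        ∀ k', ∀ q' ∈ Q k', ¬ (d.1 < q'.1 ∧ NearU s' d q')) ∧
      (∀ k g, ∀ d ∈ N k, (d.1, act g d.1 d.2) ∈ N k) ∧
      (∀ k, Conn (Cov h (N k))) ∧ (∀ k, ∃ y, Cov h (N k) y ∧ y.1 = 0) ∧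
      ∑ k, (N k).card ≤ C5 s' C * ∑ k, (Q k).card := by
  classical
  set Qs : Finset (ℕ × Pt) := Finset.univ.biUnion Q with hQsdef
  have hQs : ∀ x, x ∈ Qs ↔ ∃ k, x ∈ Q k := by
    intro x
    rw [hQsdef, Finset.mem_biUnion]
    simp
  have hreg : ∀ d : ℕ × Pt, L ≤ d.1 → RegU s' Qs d := fun d hd =>
    RegU.of_level (L := L) (fun q hq => by
      obtain ⟨k, hk⟩ := (hQs q).1 hq
      exact (hlev k q hk).2.1) hd
  have hQpr : ∀ q ∈ Qs, Pr q.1 q.2 := fun q hq => by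
    obtain ⟨k, hk⟩ := (hQs q).1 hq
    exact (hlev k q hk).2.2
  have hQsym : ∀ g, ∀ q ∈ Qs, (q.1, act g q.1 q.2) ∈ Qs := fun g q hq => by
    obtain ⟨k, hk⟩ := (hQs q).1 hq
    exact (hQs _).2 ⟨k, hsym k g q hk⟩
  set w : ℕ × Pt → ℕ := fun q => 1 + 9 ^ (s' + 2) * nfin s' Qs q with hw
  -- the lifted sets
  have hlift : ∀ k, ∃ Lk : Finset (ℕ × Pt), (∀ d ∈ Lk, ∃ q ∈ Q k, d ∈ MR (RegU s' Qs) h q) ∧
      Lk.card ≤ 100 * ∑ q ∈ Q k, w q ∧ Conn (Cov h Lk) ∧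
      (∃ y, Cov h Lk y ∧ y.1 = 0) ∧ (∃ y, Cov h Lk y ∧ y.1 + 1 = 3 ^ h) := by
    intro k
    obtain ⟨p, q, hpq, hp0, hq0⟩ := hLR k
    set P : Finset (ℕ × Pt) := (Q k).filter (fun x => ReachU (· ∈ Q k) p x) with hP
    have hright : ∀ y, ReachU (· ∈ Q k) p y → y ∈ Q k := by
      rintro y ⟨h1, h2⟩
      induction h2 with
      | refl => exact h1
      | tail _ h _ => exact h.2
    have hmem : ∀ y, ReachU (· ∈ Q k) p y → y ∈ P := fun y hy =>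
      Finset.mem_filter.2 ⟨hright y hy, hy⟩
    have hPQ : P ⊆ Q k := Finset.filter_subset _ _
    have hpP : p ∈ P := hmem p ⟨hpq.1, Relation.ReflTransGen.refl⟩
    have hqP : q ∈ P := hmem q hpq
    obtain ⟨Lk, h1, h2, h3, h4, h5⟩ := unit_lift hL (RegU s' Qs) hreg P
      (fun x hx => ⟨(hlev k x (hPQ hx)).2.1, (hlev k x (hPQ hx)).2.2⟩) (p0 := p)
      (fun x hx => UnitNet_reach (V := (· ∈ P)) hmem (Finset.mem_filter.1 hx).2) w
      (fun x hx => weight_le (hlev k x (hPQ hx)).1 ((hlev k x (hPQ hx)).2.1.trans hL))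
    refine ⟨Lk, fun d hd => ?_, h2.trans ?_, h3, h4 p hpP hp0, h5 q hqP hq0⟩
    · obtain ⟨x, hx, hdx⟩ := h1 d hd
      exact ⟨x, hPQ hx, hdx⟩
    · exact Nat.mul_le_mul_left _ (Finset.sum_le_sum_of_subset hPQ)
  choose Lk hL1 hL2 hL3 hL4 hL5 using hlift
  have hLpr : ∀ k, ∀ d ∈ Lk k, d.1 ≤ h ∧ Pr d.1 d.2 := fun k d hd => by
    obtain ⟨x, -, hdx⟩ := hL1 k d hd
    have := UnitNet_mem_MR hdx
    exact ⟨this.1, this.2.2.2.1⟩
  have hcov : ∀ k y, Cov h (UnitNet_hull (Lk k)) y ↔ ∃ g, UnitNet_Im h (Lk k) g y := fun k y =>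
    UnitNet_Cov_hull (hLpr k) y
  refine ⟨fun k => UnitNet_hull (Lk k), ?_, ?_, ?_, ?_, ?_⟩
  · intro k d hd
    obtain ⟨g, d0, hd0, rfl⟩ := UnitNet_mem_hull.1 hd
    obtain ⟨q0, hq0, hdq⟩ := hL1 k d0 hd0
    obtain ⟨m1, m2, m3, m4, m5⟩ := UnitNet_mem_MR hdq
    have hq1 := hlev k q0 hq0
    refine ⟨hq1.1.trans m2, m1, Pr_act m4, ⟨(q0.1, act g q0.1 q0.2), hsym k g q0 hq0, m2, ?_⟩, ?_⟩
    · simp only
      rw [anc_act (Nat.sub_le _ _) (UnitNet_Pr_lt m4), m3, show d0.1 - (d0.1 - q0.1) = q0.1 by omega]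
    · intro k' q' hq'
      exact RegU.act hQpr hQsym m4 m5 g q' ((hQs q').2 ⟨k', hq'⟩)
  · intro k g d hd
    exact UnitNet_hull_act (fun d hd => (hLpr k d hd).2) hd g
  · intro k
    have h1 := UnitNet_union (hL3 k) (hL4 k) (hL5 k)
    intro a b ha hb
    exact (h1 a b ((hcov k a).1 ha) ((hcov k b).1 hb)).mono (fun x hx => (hcov k x).2 hx)
  · intro k
    obtain ⟨y, hy, hy0⟩ := hL4 k
    exact ⟨y, (hcov k y).2 ⟨(false, false, false), y, hy, (act_id h y).symm⟩, hy0⟩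
  · have hcount := UnitNet_count Q Qs hQs hP3
    have hpow : 1 ≤ 9 ^ (s' + 2) := Nat.one_le_pow _ _ (by norm_num)
    calc ∑ k, (UnitNet_hull (Lk k)).card
        ≤ ∑ k, 8 * (100 * ∑ q ∈ Q k, w q) := Finset.sum_le_sum fun k _ =>
          (UnitNet_card_hull _).trans (Nat.mul_le_mul_left _ (hL2 k))
      _ = 800 * ∑ k, ∑ q ∈ Q k, w q := by
          rw [Finset.mul_sum]
          refine Finset.sum_congr rfl fun k _ => ?_
          ring
      _ = 800 * (∑ k, (Q k).card + 9 ^ (s' + 2) * ∑ k, ∑ q ∈ Q k, nfin s' Qs q) := by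
          congr 1
          rw [Finset.mul_sum, ← Finset.sum_add_distrib]
          refine Finset.sum_congr rfl fun k _ => ?_
          rw [hw, Finset.sum_add_distrib, Finset.mul_sum]
          simp
      _ ≤ 800 * (∑ k, (Q k).card + 9 ^ (s' + 2) * (C * ∑ k, (Q k).card)) := by
          gcongr
      _ ≤ C5 s' C * ∑ k, (Q k).card := by
          unfold C5
          generalize ∑ k, (Q k).card = X
          generalize 9 ^ (s' + 2) = Y at hpow ⊢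
          have e1 : X ≤ Y * X := Nat.le_mul_of_pos_left _ hpow
          nlinarith [Nat.zero_le (Y * (C * X)), Nat.zero_le (Y * X)]

end UCP
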