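import Pool.Agent.UCP.ChLevels
import Pool.Agent.UCP.Source
import Pool.Agent.UCP.UnitNet

/-!
[UCP-CT] the combinatorial theorem.
-/

namespace UCP

/-- number of generations between a cell of level `n` and its units -/
def tt : ℕ := 19

def XX (σ : ℕ) : ℕ := 16 * 9 ^ (tt + 1) * C5 (σ + 1) (C4 σ) * m0 σ

def II (σ : ℕ) : ℕ := 24 * XX σ + 10

theorem XX_eq (σ : ℕ) : XX σ = 16 * 9 ^ (tt + 1) * C5 (σ + 1) (C4 σ) * m0 σ := rfl

theorem II_eq (σ : ℕ) : II σ = 24 * XX σ + 10 := rfl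

theorem one_le_XX (σ : ℕ) : 1 ≤ XX σ := by
  unfold XX C5 m0
  have : 0 < 16 * 9 ^ (tt + 1) * (10000 * 9 ^ (σ + 1 + 2) * (C4 σ + 1)) * 9 ^ (30 * σ + 20) := by
    positivity
  omega

def RR (σ : ℕ) : ℕ := II σ + σ + 3

theorem card_cidx_tt : 8 * (2 * (648 * 18) + 1) ≤ (cidx tt).card := by
  have h := card_cidx tt (by norm_num [tt])
  have h2 : 2 ^ (tt - 1) = 262144 := by norm_num [tt]
  rw [h2] at h
  omega

/-- the arithmetic at the end -/
theorem ct_arith {J K b X sN sQ N0 I m c5 t9 : ℕ} {G : ℕ} (hK : 1 ≤ K) (hb : 8 * (2 * (648 * 18) + 1) ≤ b)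
    (hJ : J = N0 + 1)
    (h1 : J * (K * b) ≤ G + b * t9 * sN)
    (h2 : G ≤ J * ((2 * (648 * 18) + 1) * (2 * (1 + K))))
    (h3 : sN ≤ c5 * sQ)
    (h4 : (I - 4) * sQ ≤ 8 * (K * (m * (N0 + 12 * J))))
    (hX : X = 16 * t9 * c5 * m) (hX1 : 1 ≤ X) (hI : I = 24 * X + 10) : False := by
  have hb0 : 0 < b := by omega
  -- G ≤ J K b / 2
  have hG : 2 * G ≤ J * (K * b) := by
    have e1 : (2 * (648 * 18) + 1) * (2 * (1 + K)) ≤ (2 * (648 * 18) + 1) * (4 * K) := by
      apply Nat.mul_le_mul_left; omega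
    have e2 : 2 * ((2 * (648 * 18) + 1) * (4 * K)) ≤ K * b := by
      calc 2 * ((2 * (648 * 18) + 1) * (4 * K)) = K * (8 * (2 * (648 * 18) + 1)) := by ring
        _ ≤ K * b := Nat.mul_le_mul_left _ hb
    calc 2 * G ≤ 2 * (J * ((2 * (648 * 18) + 1) * (2 * (1 + K)))) := by omega
      _ = J * (2 * ((2 * (648 * 18) + 1) * (2 * (1 + K)))) := by ring
      _ ≤ J * (2 * ((2 * (648 * 18) + 1) * (4 * K))) := by
        apply Nat.mul_le_mul_left
        exact Nat.mul_le_mul_left _ e1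
      _ ≤ J * (K * b) := Nat.mul_le_mul_left _ e2
  have h5 : J * (K * b) ≤ 2 * (b * t9 * sN) := by omega
  have h6 : J * K ≤ 2 * (t9 * sN) := by
    have : b * (J * K) ≤ b * (2 * (t9 * sN)) := by
      calc b * (J * K) = J * (K * b) := by ring
        _ ≤ 2 * (b * t9 * sN) := h5
        _ = b * (2 * (t9 * sN)) := by ring
    exact Nat.le_of_mul_le_mul_left this hb0
  have h7 : (I - 4) * (J * K) ≤ X * (K * (N0 + 12 * J)) := by
    calc (I - 4) * (J * K) ≤ (I - 4) * (2 * (t9 * (c5 * sQ))) := by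
          apply Nat.mul_le_mul_left
          refine h6.trans ?_
          apply Nat.mul_le_mul_left
          exact Nat.mul_le_mul_left _ h3
      _ = 2 * (t9 * (c5 * ((I - 4) * sQ))) := by ring
      _ ≤ 2 * (t9 * (c5 * (8 * (K * (m * (N0 + 12 * J)))))) := by
          apply Nat.mul_le_mul_left
          apply Nat.mul_le_mul_left
          exact Nat.mul_le_mul_left _ h4
      _ = X * (K * (N0 + 12 * J)) := by rw [hX]; ring
  have h8 : K * ((I - 4) * J) ≤ K * (X * (N0 + 12 * J)) := by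
    calc K * ((I - 4) * J) = (I - 4) * (J * K) := by ring
      _ ≤ X * (K * (N0 + 12 * J)) := h7
      _ = K * (X * (N0 + 12 * J)) := by ring
  have h9 : (I - 4) * J ≤ X * (N0 + 12 * J) := Nat.le_of_mul_le_mul_left h8 (by omega)
  have h10 : 24 * X * J ≤ (I - 4) * J := Nat.mul_le_mul_right _ (by omega)
  have h11 : X * (24 * J) ≤ X * (N0 + 12 * J) := by
    calc X * (24 * J) = 24 * X * J := by ring
      _ ≤ _ := h10.trans h9
  have h12 := Nat.le_of_mul_le_mul_left h11 (by omega)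
  omega


/-- the strand of a witness -/
theorem strands_pos {M : ℕ} {f : Pt → ℝ} {b c : ℝ} {Ω : Pt → Prop} {x : Pt} (hx : Pr M x) (hΩ : Ω x)
    (hc : c ≤ f x) (hb : b < f x) : 1 ≤ (strands M f b c Ω).ncard := by
  rw [Nat.one_le_iff_ne_zero, Ne, Set.ncard_eq_zero (strands_finite M f b c Ω)]
  intro h
  have : {y | Reach (fun y => Pr M y ∧ b < f y) x y} ∈ strands M f b c Ω := ⟨x, hx, hΩ, hc, hb, rfl⟩
  rw [h] at this
  exact this

/-- strands of the two signs, as an indexed family -/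
theorem exists_family {M : ℕ} {f : Pt → ℝ} {b c : ℝ} (hb : 0 ≤ b) (Ω : Pt → Prop) :
    ∃ (κ : Type) (_ : Fintype κ) (x : κ → Pt) (F : κ → Pt → ℝ),
      Fintype.card κ = (strands M f b c Ω).ncard + (strands M (fun x => - f x) b c Ω).ncard ∧
      (∀ k, F k = f ∨ F k = fun x => - f x) ∧
      (∀ k, Pr M (x k) ∧ Ω (x k) ∧ c ≤ F k (x k) ∧ b < F k (x k)) ∧
      ∀ k l y, Reach (fun w => Pr M w ∧ b < F k w) (x k) y →
        Reach (fun w => Pr M w ∧ b < F l w) (x l) y → k = l := by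
  classical
  set A := strands M f b c Ω with hA
  set B := strands M (fun x => - f x) b c Ω with hB
  have fA : A.Finite := strands_finite M f b c Ω
  have fB : B.Finite := strands_finite M _ b c Ω
  let iA : Fintype A := fA.fintype
  let iB : Fintype B := fB.fintype
  choose xa ha using fun S : A => S.2
  choose xb hb' using fun S : B => S.2
  refine ⟨A ⊕ B, inferInstance, Sum.elim xa xb, Sum.elim (fun _ => f) (fun _ x => - f x), ?_, ?_, ?_, ?_⟩
  · rw [Fintype.card_sum, Set.ncard_eq_toFinset_card' A, Set.ncard_eq_toFinset_card' B,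
      Set.toFinset_card, Set.toFinset_card]
  · rintro (k | k)
    · exact Or.inl rfl
    · exact Or.inr rfl
  · rintro (k | k)
    · exact ⟨(ha k).1, (ha k).2.1, (ha k).2.2.1, (ha k).2.2.2.1⟩
    · exact ⟨(hb' k).1, (hb' k).2.1, (hb' k).2.2.1, (hb' k).2.2.2.1⟩
  · have comp : ∀ (P : Pt → Prop) (u v y : Pt), Reach P u y → Reach P v y →
        {z | Reach P u z} = {z | Reach P v z} := by
      intro P u v y h1 h2
      ext z
      exact ⟨fun h => (h2.trans h1.symm).trans h, fun h => (h1.trans h2.symm).trans h⟩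
    rintro (k | k) (l | l) y h1 h2
    · congr 1
      apply Subtype.ext
      rw [(ha k).2.2.2.2, (ha l).2.2.2.2]
      exact comp _ _ _ y h1 h2
    · exfalso
      have e1 := h1.right.2
      have e2 := h2.right.2
      simp only [Sum.elim_inl, Sum.elim_inr] at e1 e2
      linarith
    · exfalso
      have e1 := h1.right.2
      have e2 := h2.right.2
      simp only [Sum.elim_inl, Sum.elim_inr] at e1 e2
      linarith
    · congr 1
      apply Subtype.ext
      rw [(hb' k).2.2.2.2, (hb' l).2.2.2.2]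
      exact comp _ _ _ y h1 h2

/-- the combinatorial theorem -/
theorem CT (σ : ℕ) (hσ : 1 ≤ σ) (U m : ℝ) (hm : 0 < m) : ∃ hh : ℕ, ∃ ε0 : ℝ, 0 < ε0 ∧
    ∀ (n h0 : ℕ) (ε : ℝ) (f : Pt → ℝ) (Cc Qc : Pt), hh ≤ h0 → ε ≤ ε0 → RR σ ≤ n →
      Disc σ (n + h0) ε U f → Disc σ (n + h0) ε U (fun x => - f x) →
      Pr n Cc → Pr n Qc → Sd Cc Qc →
      (∀ x, Pr (n + h0) x → Nr 1 (anc (h0 + RR σ) x) (anc (RR σ) Cc) → ¬ Bd (n + h0) x) →
      (∀ x, Pr (n + h0) x → anc h0 x = Cc → f x = 0) →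
      ∀ x, Pr (n + h0) x → anc h0 x = Qc → |f x| < m := by
  classical
  obtain ⟨N0, hN0⟩ : ∃ N0 : ℕ, 20 * U / m < (9 / 8 : ℝ) ^ N0 :=
    pow_unbounded_of_one_lt _ (by norm_num)
  rw [div_lt_iff₀ hm] at hN0
  set J : ℕ := N0 + 1 with hJ
  set N : ℕ := N0 + 12 * J with hN
  have hJ1 : 1 ≤ J := by omega
  refine ⟨tt + K0 σ N, m / (4 ^ (J + 2) * 2 ^ (N + 20)), by positivity, ?_⟩
  intro n h0 ε f Cc Qc hh0 hε0 hRn hD hD' hC hQ hCQ hdom hf0 xQ hxQ hxQc
  by_contra hcon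
  rw [not_lt] at hcon
  obtain ⟨h2, rfl⟩ : ∃ h2, h0 = tt + h2 := ⟨h0 - tt, by omega⟩
  have hε := hD.eps_pos
  have hbig : K0 σ N ≤ h2 := by omega
  have hassoc : n + (tt + h2) = n + tt + h2 := by omega
  rw [hassoc] at hD hD' hxQ
  simp only [hassoc] at hdom hf0
  set M := n + tt + h2 with hM
  -- the point zC
  obtain ⟨zC, hzC, hzC'⟩ := exists_sub hC (tt + h2)
  rw [hassoc] at hzC
  have hfzC : f zC = 0 := hf0 zC hzC hzC'
  -- levels
  have ha0 : ∀ j : ℕ, 0 < m / 4 ^ (j + 1) := fun j => by positivity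
  have ha1 : ∀ j < J, m / 4 ^ J ≤ m / 4 ^ (j + 1) := by
    intro j hj
    apply div_le_div_of_nonneg_left hm.le (by positivity)
    exact pow_le_pow_right₀ (by norm_num) (by omega)
  have ha2 : ∀ j : ℕ, m / 4 ^ (j + 1) ≤ m / 4 := by
    intro j
    apply div_le_div_of_nonneg_left hm.le (by norm_num)
    calc (4 : ℝ) = 4 ^ 1 := by norm_num
      _ ≤ 4 ^ (j + 1) := pow_le_pow_right₀ (by norm_num) (by omega)
  have hεs : 2 ^ (N + 20) * ε ≤ m / 4 ^ (J + 2) := by
    calc 2 ^ (N + 20) * ε ≤ 2 ^ (N + 20) * (m / (4 ^ (J + 2) * 2 ^ (N + 20))) :=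
          mul_le_mul_of_nonneg_left hε0 (by positivity)
      _ = m / 4 ^ (J + 2) := by field_simp
  have hpow : (16 : ℝ) ≤ 2 ^ (N + 20) := by
    calc (16 : ℝ) = 2 ^ 4 := by norm_num
      _ ≤ 2 ^ (N + 20) := pow_le_pow_right₀ (by norm_num) (by omega)
  have hmJ : 0 < m / 4 ^ J := by positivity
  have hJ2 : m / 4 ^ (J + 2) = m / 4 ^ J / 16 := by
    rw [pow_add, div_div]; norm_num
  have hε16 : 16 * ε ≤ m / 4 ^ J / 16 := by
    calc 16 * ε ≤ 2 ^ (N + 20) * ε := mul_le_mul_of_nonneg_right hpow hε.le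
      _ ≤ _ := hεs.trans hJ2.le
  set Ω : Pt → Prop := fun x => Nr 1 (anc (tt + h2 + 1) x) (anc 1 Cc) with hΩ
  have hzΩ : ∀ k : ℕ, anc (tt + h2 + k) zC = anc k Cc := by
    intro k
    rw [← hzC', anc_anc]
    congr 1
    omega
  have hRR : RR σ = II σ + σ + 3 := rfl
  clear_value J N
  have hdom1 : ∀ x, Pr M x → Nr 1 (anc (tt + h2 + 1) x) (anc 1 Cc) → ¬ Bd M x := by
    intro x hx hx1
    apply hdom x hx
    have h3 := hx1.anc (RR σ - 1)
    rw [anc_anc, anc_anc] at h3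
    have e1 : RR σ - 1 + (tt + h2 + 1) = tt + h2 + RR σ := by omega
    have e2 : RR σ - 1 + 1 = RR σ := by omega
    rwa [e1, e2] at h3
  -- the level with most strands
  set κn : ℕ → ℕ := fun j =>
    (strands M f (m / 4 ^ (j + 1) + ε) (3 / 2 * (m / 4 ^ (j + 1))) Ω).ncard +
      (strands M (fun x => - f x) (m / 4 ^ (j + 1) + ε) (3 / 2 * (m / 4 ^ (j + 1))) Ω).ncard with hκn
  obtain ⟨js, hjs, hjmax⟩ := Finset.exists_max_image (Finset.range J) κn ⟨0, Finset.mem_range.2 hJ1⟩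
  rw [Finset.mem_range] at hjs
  set a := m / 4 ^ (js + 1) with ha
  have hapos : 0 < a := ha0 js
  have haJ : m / 4 ^ J ≤ a := ha1 js hjs
  have ham : a ≤ m / 4 := ha2 js
  have hεa : 16 * ε ≤ a / 4 := by linarith
  obtain ⟨κ, iκ, x, F, hcard, hF, hx, hdisj⟩ := exists_family (M := M) (f := f) (b := a + ε)
    (c := 3 / 2 * a) (by linarith) Ω
  have hK : Fintype.card κ = κn js := hcard
  -- the point xQ is in Ω
  have hxQΩ : Ω xQ := by
    rw [hΩ]
    show Nr 1 (anc (tt + h2 + 1) xQ) (anc 1 Cc)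
    have e : anc (tt + h2 + 1) xQ = anc 1 Qc := by
      rw [← hxQc, anc_anc]; congr 1; omega
    rw [e]
    exact hCQ.nr.symm.anc 1
  have hK1 : 1 ≤ Fintype.card κ := by
    rw [hcard]
    rcases le_abs.1 hcon with h | h
    · have := strands_pos (f := f) (b := a + ε) (c := 3 / 2 * a) hxQ hxQΩ (by linarith) (by linarith)
      omega
    · have := strands_pos (f := fun x => - f x) (b := a + ε) (c := 3 / 2 * a) hxQ hxQΩ
        (by linarith) (by linarith)
      omega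
  -- sets of unit cells
  have hNv : 5 * U < (9 / 8 : ℝ) ^ N * (a / 4) := by
    have e1 : (4 : ℝ) ^ J ≤ (9 / 8 : ℝ) ^ (12 * J) := by
      rw [pow_mul]
      exact pow_le_pow_left₀ (by norm_num) (by norm_num) _
    have e2 : (9 / 8 : ℝ) ^ N = (9 / 8 : ℝ) ^ N0 * (9 / 8 : ℝ) ^ (12 * J) := by
      rw [hN, pow_add]
    have e3 : (9 / 8 : ℝ) ^ N0 * 4 ^ J * (m / 4 ^ J / 4) ≤ (9 / 8 : ℝ) ^ N * (a / 4) := by
      rw [e2]
      apply mul_le_mul
      · exact mul_le_mul_of_nonneg_left e1 (by positivity)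
      · linarith
      · positivity
      · positivity
    have e4 : (9 / 8 : ℝ) ^ N0 * 4 ^ J * (m / 4 ^ J / 4) = (9 / 8 : ℝ) ^ N0 * m / 4 := by
      field_simp
    linarith
  have hεv : 2 ^ (N + 20) * ε < a / 4 := by
    rw [hJ2] at hεs
    linarith
  obtain ⟨Q, q1, q2, q3, q4, q5, q6⟩ := source (σ := σ) (M := M) (h0 := tt + h2) (h2 := h2)
    (I := II σ) (N := N) (b := a + ε) (v := a / 4) hσ hD hD' hzC hfzC (by linarith) (by positivity)
    x F hF
    (by
      intro k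
      refine ⟨(hx k).1, ?_, ?_⟩
      · rw [hzΩ 1]; exact (hx k).2.1
      · have := (hx k).2.2.1
        linarith)
    hdisj hNv hεv
    (by
      intro y hy hy1
      apply hdom y hy
      have h3 := hy1.anc 1
      rw [anc_anc, anc_anc] at h3
      have e1 : 1 + (tt + h2 + II σ + σ + 2) = tt + h2 + RR σ := by omega
      rw [e1, hzΩ] at h3
      exact h3)
    (by rw [II_eq]; omega) (by omega) hbig (by omega)
  obtain ⟨Nn, n1, n2, n3, n4, n5⟩ := unit_net (s' := σ + 1) (h := h2) (L := h2) (C := C4 σ) le_rfl Q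
    (fun k q hq => ⟨by have := (q1 k q hq).1; omega, (q1 k q hq).2.1, (q1 k q hq).2.2⟩) q2 q4 q5
  have hnet : ∀ k, IsNet h2 (Nn k) := fun k =>
    ⟨fun d hd => ⟨(n1 k d hd).2.1, (n1 k d hd).2.2.1⟩, n2 k, n3 k, n4 k⟩
  -- the path
  obtain ⟨S, bb, hS, hSr, hbb⟩ : ∃ (S : Pt → Prop) (bb : Pt), (∀ x, S x → Pr M x ∧ m / 2 < |f x|) ∧
      Reach S xQ bb ∧ Bd M bb := by
    refine ⟨fun x => Pr M x ∧ m / 2 < |f x|, ?_⟩
    rcases le_abs.1 hcon with h | h
    · obtain ⟨c', hc1, hc2⟩ := hD.mp (m / 2 + ε) xQ hxQ (by linarith)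
      refine ⟨c', fun x hx => hx, hc2.mono ?_, hc1⟩
      rintro x ⟨h1, h2⟩
      exact ⟨h1, lt_of_lt_of_le (by linarith) (le_abs_self _)⟩
    · obtain ⟨c', hc1, hc2⟩ := hD'.mp (m / 2 + ε) xQ hxQ (by linarith)
      refine ⟨c', fun x hx => hx, hc2.mono ?_, hc1⟩
      rintro x ⟨h1, h2⟩
      exact ⟨h1, lt_of_lt_of_le (by linarith) (neg_le_abs _)⟩
  have hbn : ¬ Nr 1 (anc (tt + h2) bb) Qc := by
    intro h
    have h3 : Nr 2 (anc (tt + h2) bb) Cc := h.trans hCQ.nr.symm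
    have h4 := h3.up
    rw [anc_anc] at h4
    have e : 1 + (tt + h2) = tt + h2 + 1 := by omega
    rw [e] at h4
    exact hdom1 bb (hS bb hSr.right).1 (h4.mono (by norm_num)) hbb
  -- all channels
  set 𝒲 : Finset (κ × ℕ) := Finset.univ ×ˢ cidx tt with h𝒲
  have hch : ∀ w ∈ 𝒲, J ≤ ((Finset.range J).filter (fun j => Good n tt h2 Cc Qc f (m / 4 ^ (j + 1))
      (Nn w.1) w.2)).card + (Nn w.1).card * 9 ^ (tt + 1) := by
    intro w hw
    rw [h𝒲, Finset.mem_product] at hw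
    have h3 := ch_levels (hnet w.1) hC hQ hCQ (by norm_num [tt]) hw.2 hf0 hm hS hSr hxQc hbn J
    refine h3.trans (Nat.add_le_add_right ?_ _)
    rw [← Set.ncard_coe_finset]
    apply Set.ncard_le_ncard _ (Finset.finite_toSet _)
    rintro j ⟨hj1, hj2⟩
    simp only [Finset.coe_filter, Finset.mem_range, Set.mem_ofPred_eq]
    exact ⟨hj1, hj2⟩
  have hgood : ∀ j ∈ Finset.range J, (𝒲.filter (fun w => Good n tt h2 Cc Qc f (m / 4 ^ (j + 1))
      (Nn w.1) w.2)).card ≤ (2 * (648 * 18) + 1) * (2 * (1 + Fintype.card κ)) := by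
    intro j hj
    have h3 := good_level (ε := ε) (U := U) (a := m / 4 ^ (j + 1)) hD hD'
      (by
        have := ha1 j (Finset.mem_range.1 hj)
        linarith) (by norm_num [tt]) hC hQ hCQ hdom1 hf0 Q Nn
      (fun k q hq => ⟨by have := (q1 k q hq).1; omega, (q1 k q hq).2.1, (q1 k q hq).2.2⟩) q3
      (fun k d hd => n1 k d hd)
      (𝒲.filter (fun w => Good n tt h2 Cc Qc f (m / 4 ^ (j + 1)) (Nn w.1) w.2))
      (by
        intro w hw
        rw [Finset.mem_filter, h𝒲, Finset.mem_product] at hw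
        exact ⟨hw.1.2, hw.2⟩)
    refine h3.trans ?_
    apply Nat.mul_le_mul_left
    apply Nat.mul_le_mul_left
    have h4 := hjmax j hj
    rw [← hK] at h4
    simp only [hκn] at h4
    have h5 : ∀ p q r : ℕ, p + q ≤ r → 1 + p + q ≤ 1 + r := fun p q r h => by omega
    exact h5 _ _ _ h4
  -- summation
  have hsum1 : J * (Fintype.card κ * (cidx tt).card) ≤
      (∑ j ∈ Finset.range J, (𝒲.filter (fun w => Good n tt h2 Cc Qc f (m / 4 ^ (j + 1))
        (Nn w.1) w.2)).card) + (cidx tt).card * 9 ^ (tt + 1) * ∑ k, (Nn k).card := by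
    have e1 : ∑ w ∈ 𝒲, J ≤ ∑ w ∈ 𝒲, (((Finset.range J).filter (fun j => Good n tt h2 Cc Qc f
        (m / 4 ^ (j + 1)) (Nn w.1) w.2)).card + (Nn w.1).card * 9 ^ (tt + 1)) :=
      Finset.sum_le_sum hch
    rw [Finset.sum_const, smul_eq_mul, Finset.sum_add_distrib] at e1
    have e2 : 𝒲.card = Fintype.card κ * (cidx tt).card := by
      rw [h𝒲, Finset.card_product, Finset.card_univ]
    have e3 : ∑ w ∈ 𝒲, (Nn w.1).card * 9 ^ (tt + 1) =
        (cidx tt).card * 9 ^ (tt + 1) * ∑ k, (Nn k).card := by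
      rw [h𝒲, Finset.sum_product]
      simp only [Finset.sum_const, smul_eq_mul]
      rw [Finset.mul_sum]
      apply Finset.sum_congr rfl
      intro k _
      ring
    have e4 : ∑ w ∈ 𝒲, ((Finset.range J).filter (fun j => Good n tt h2 Cc Qc f
        (m / 4 ^ (j + 1)) (Nn w.1) w.2)).card =
        ∑ j ∈ Finset.range J, (𝒲.filter (fun w => Good n tt h2 Cc Qc f (m / 4 ^ (j + 1))
        (Nn w.1) w.2)).card := by
      simp only [Finset.card_filter]
      exact Finset.sum_comm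
    rw [e2, e3, e4] at e1
    calc J * (Fintype.card κ * (cidx tt).card) = Fintype.card κ * (cidx tt).card * J := by ring
      _ ≤ _ := e1
  have hsum2 : (∑ j ∈ Finset.range J, (𝒲.filter (fun w => Good n tt h2 Cc Qc f (m / 4 ^ (j + 1))
        (Nn w.1) w.2)).card) ≤ J * ((2 * (648 * 18) + 1) * (2 * (1 + Fintype.card κ))) := by
    calc _ ≤ ∑ j ∈ Finset.range J, (2 * (648 * 18) + 1) * (2 * (1 + Fintype.card κ)) :=
          Finset.sum_le_sum hgood
      _ = _ := by rw [Finset.sum_const, Finset.card_range, smul_eq_mul]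
  exact ct_arith (I := II σ) (X := XX σ) (m := m0 σ) (c5 := C5 (σ + 1) (C4 σ)) (t9 := 9 ^ (tt + 1))
    hK1 card_cidx_tt hJ hsum1 hsum2 n5 (hN ▸ q6) (XX_eq σ) (one_le_XX σ) (II_eq σ)

end UCP
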