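import Pool.Agent.UCP.Geo2

/-!
[UCP-G3] connectivity of cells and blocks.
-/

namespace UCP

theorem Geo3_child_iff {n : ℕ} {A : Pt} (hA : Pr n A) {c : Pt} :
    (Pr (n + 1) c ∧ anc 1 c = A) ↔
      ∃ i j, i < 3 ∧ j < 3 ∧ ¬ (i = 1 ∧ j = 1) ∧ c = (3 * A.1 + i, 3 * A.2 + j) := by
  constructor
  · rintro ⟨h, h'⟩
    have h1 := (Pr_iff (n := n) (k := 1)).1 h
    obtain ⟨_, _, _, h4⟩ := h1
    have h5 := h4 0 (by norm_num)
    simp only [pow_one, pow_zero, Nat.div_one, Nat.mod_mod] at h5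
    have h6 : c.1 / 3 = A.1 := by rw [← h']; simp [anc]
    have h7 : c.2 / 3 = A.2 := by rw [← h']; simp [anc]
    refine ⟨c.1 % 3, c.2 % 3, Nat.mod_lt _ (by norm_num), Nat.mod_lt _ (by norm_num), h5, ?_⟩
    ext
    · show c.1 = 3 * A.1 + c.1 % 3
      omega
    · show c.2 = 3 * A.2 + c.2 % 3
      omega
  · rintro ⟨i, j, hi, hj, hij, rfl⟩
    have h1 : anc 1 ((3 * A.1 + i, 3 * A.2 + j) : Pt) = A := by
      ext
      · show (3 * A.1 + i) / 3 ^ 1 = A.1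
        rw [pow_one]; omega
      · show (3 * A.2 + j) / 3 ^ 1 = A.2
        rw [pow_one]; omega
    refine ⟨(Pr_iff (n := n) (k := 1)).2 ⟨by rw [h1]; exact hA, ?_⟩, h1⟩
    have h2 : (3 * A.1 + i) % 3 ^ 1 = i := by rw [pow_one]; omega
    have h3 : (3 * A.2 + j) % 3 ^ 1 = j := by rw [pow_one]; omega
    show Pr 1 ((3 * A.1 + i) % 3 ^ 1, (3 * A.2 + j) % 3 ^ 1)
    rw [h2, h3]
    refine ⟨by simpa using hi, by simpa using hj, ?_⟩
    intro k hk
    have hk0 : k = 0 := by omega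
    subst hk0
    show ¬ (i / 3 ^ 0 % 3 = 1 ∧ j / 3 ^ 0 % 3 = 1)
    rw [pow_zero, Nat.div_one, Nat.div_one]
    intro h
    apply hij
    omega

theorem Geo3_ring {n : ℕ} {A : Pt} (hA : Pr n A) :
    Conn (fun c => Pr (n + 1) c ∧ anc 1 c = A) := by
  have hS : ∀ i j, i < 3 → j < 3 → ¬ (i = 1 ∧ j = 1) →
      (fun c => Pr (n + 1) c ∧ anc 1 c = A) ((3 * A.1 + i, 3 * A.2 + j) : Pt) :=
    fun i j hi hj hij => (Geo3_child_iff hA).2 ⟨i, j, hi, hj, hij, rfl⟩
  have hstep : ∀ i j i' j', i < 3 → j < 3 → ¬ (i = 1 ∧ j = 1) →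
      i' < 3 → j' < 3 → ¬ (i' = 1 ∧ j' = 1) →
      ((i = i' ∧ (j = j' + 1 ∨ j' = j + 1)) ∨ (j = j' ∧ (i = i' + 1 ∨ i' = i + 1))) →
      Reach (fun c => Pr (n + 1) c ∧ anc 1 c = A) ((3 * A.1 + i, 3 * A.2 + j) : Pt)
        ((3 * A.1 + i', 3 * A.2 + j') : Pt) := by
    intro i j i' j' h1 h2 h3 h4 h5 h6 h7
    refine Reach.single (hS i j h1 h2 h3) ?_ (hS i' j' h4 h5 h6)
    unfold Sd
    show (3 * A.1 + i = 3 * A.1 + i' ∧ (3 * A.2 + j = 3 * A.2 + j' + 1 ∨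
      3 * A.2 + j' = 3 * A.2 + j + 1)) ∨ (3 * A.2 + j = 3 * A.2 + j' ∧
      (3 * A.1 + i = 3 * A.1 + i' + 1 ∨ 3 * A.1 + i' = 3 * A.1 + i + 1))
    omega
  have h0 : ∀ c, (fun c => Pr (n + 1) c ∧ anc 1 c = A) c →
      Reach (fun c => Pr (n + 1) c ∧ anc 1 c = A) c ((3 * A.1 + 0, 3 * A.2 + 0) : Pt) := by
    intro c hc
    obtain ⟨i, j, hi, hj, hij, rfl⟩ := (Geo3_child_iff hA).1 hc
    have r10 := hstep 1 0 0 0 (by norm_num) (by norm_num) (by norm_num) (by norm_num)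
      (by norm_num) (by norm_num) (by norm_num)
    have r01 := hstep 0 1 0 0 (by norm_num) (by norm_num) (by norm_num) (by norm_num)
      (by norm_num) (by norm_num) (by norm_num)
    have r20 := (hstep 2 0 1 0 (by norm_num) (by norm_num) (by norm_num) (by norm_num)
      (by norm_num) (by norm_num) (by norm_num)).trans r10
    have r02 := (hstep 0 2 0 1 (by norm_num) (by norm_num) (by norm_num) (by norm_num)
      (by norm_num) (by norm_num) (by norm_num)).trans r01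
    have r12 := (hstep 1 2 0 2 (by norm_num) (by norm_num) (by norm_num) (by norm_num)
      (by norm_num) (by norm_num) (by norm_num)).trans r02
    have r21 := (hstep 2 1 2 0 (by norm_num) (by norm_num) (by norm_num) (by norm_num)
      (by norm_num) (by norm_num) (by norm_num)).trans r20
    have r22 := (hstep 2 2 2 1 (by norm_num) (by norm_num) (by norm_num) (by norm_num)
      (by norm_num) (by norm_num) (by norm_num)).trans r21
    have r00 : Reach (fun c => Pr (n + 1) c ∧ anc 1 c = A) ((3 * A.1 + 0, 3 * A.2 + 0) : Pt)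
        ((3 * A.1 + 0, 3 * A.2 + 0) : Pt) :=
      Reach.refl (S := fun c => Pr (n + 1) c ∧ anc 1 c = A)
        (hS 0 0 (by norm_num) (by norm_num) (by norm_num))
    interval_cases i <;> interval_cases j
    · exact r00
    · exact r01
    · exact r02
    · exact r10
    · exact absurd ⟨rfl, rfl⟩ hij
    · exact r12
    · exact r20
    · exact r21
    · exact r22
  intro a b ha hb
  exact (h0 a ha).trans (h0 b hb).symm

theorem Geo3_sub {n k : ℕ} {A : Pt} (hA : Pr n A) {r1 r2 : ℕ} (hr : Pr k (r1, r2)) :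
    Pr (n + k) (A.1 * 3 ^ k + r1, A.2 * 3 ^ k + r2) ∧
      anc k (A.1 * 3 ^ k + r1, A.2 * 3 ^ k + r2) = A := by
  have hpos : 0 < 3 ^ k := by positivity
  have h1 : r1 < 3 ^ k := hr.1
  have h2 : r2 < 3 ^ k := hr.2.1
  have e : ∀ x r : ℕ, r < 3 ^ k → (x * 3 ^ k + r) / 3 ^ k = x := by
    intro x r h
    rw [mul_comm, Nat.mul_add_div hpos, Nat.div_eq_of_lt h, add_zero]
  have e' : ∀ x r : ℕ, r < 3 ^ k → (x * 3 ^ k + r) % 3 ^ k = r := by
    intro x r h
    rw [mul_comm, Nat.mul_add_mod, Nat.mod_eq_of_lt h]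
  have h3 : anc k (A.1 * 3 ^ k + r1, A.2 * 3 ^ k + r2) = A := by
    ext
    · exact e _ _ h1
    · exact e _ _ h2
  refine ⟨Pr_iff.2 ⟨by rw [h3]; exact hA, ?_⟩, h3⟩
  show Pr k ((A.1 * 3 ^ k + r1) % 3 ^ k, (A.2 * 3 ^ k + r2) % 3 ^ k)
  rw [e' _ _ h1, e' _ _ h2]
  exact hr

theorem Geo3_left {k r : ℕ} (h : r < 3 ^ k) : Pr k (0, r) := by
  refine ⟨by positivity, h, ?_⟩
  rintro j _ ⟨h1, _⟩
  simp at h1

theorem Geo3_bot {k r : ℕ} (h : r < 3 ^ k) : Pr k (r, 0) := by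
  refine ⟨h, by positivity, ?_⟩
  rintro j _ ⟨_, h1⟩
  simp at h1

theorem Geo3_contact_aux (n k : ℕ) (A B : Pt) (hA : Pr n A) (hB : Pr n B)
    (h : (A.1 = B.1 ∧ B.2 = A.2 + 1) ∨ (A.2 = B.2 ∧ B.1 = A.1 + 1)) :
    ∃ a b, Pr (n + k) a ∧ Pr (n + k) b ∧ anc k a = A ∧ anc k b = B ∧ Sd a b := by
  have hpos : 0 < 3 ^ k := by positivity
  have hm : 3 ^ k - 1 < 3 ^ k := by omega
  rcases h with ⟨h1, h2⟩ | ⟨h1, h2⟩
  · obtain ⟨a1, a2⟩ := Geo3_sub hA (Geo3_left hm)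
    obtain ⟨b1, b2⟩ := Geo3_sub hB (Geo3_left hpos)
    refine ⟨_, _, a1, b1, a2, b2, Or.inl ⟨?_, Or.inr ?_⟩⟩
    · show A.1 * 3 ^ k + 0 = B.1 * 3 ^ k + 0
      rw [h1]
    · show B.2 * 3 ^ k + 0 = A.2 * 3 ^ k + (3 ^ k - 1) + 1
      rw [h2, add_mul]
      omega
  · obtain ⟨a1, a2⟩ := Geo3_sub hA (Geo3_bot hm)
    obtain ⟨b1, b2⟩ := Geo3_sub hB (Geo3_bot hpos)
    refine ⟨_, _, a1, b1, a2, b2, Or.inr ⟨?_, Or.inr ?_⟩⟩
    · show A.2 * 3 ^ k + 0 = B.2 * 3 ^ k + 0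
      rw [h1]
    · show B.1 * 3 ^ k + 0 = A.1 * 3 ^ k + (3 ^ k - 1) + 1
      rw [h2, add_mul]
      omega

/-- side-adjacent cells contain side-adjacent fine cells -/
theorem contact {n : ℕ} {A B : Pt} (hA : Pr n A) (hB : Pr n B) (h : Sd A B) (k : ℕ) :
    ∃ a b, Pr (n + k) a ∧ Pr (n + k) b ∧ anc k a = A ∧ anc k b = B ∧ Sd a b := by
  by_cases h1 : (A.1 = B.1 ∧ B.2 = A.2 + 1) ∨ (A.2 = B.2 ∧ B.1 = A.1 + 1)
  · exact Geo3_contact_aux n k A B hA hB h1
  · have h2 : (B.1 = A.1 ∧ A.2 = B.2 + 1) ∨ (B.2 = A.2 ∧ A.1 = B.1 + 1) := by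
      unfold Sd at h
      omega
    obtain ⟨b, a, hb, ha, hb', ha', hs⟩ := Geo3_contact_aux n k B A hB hA h2
    exact ⟨a, b, ha, hb, ha', hb', hs.symm⟩

theorem Geo3_lift {k : ℕ}
    (hcell : ∀ (n : ℕ) (A : Pt), Pr n A → Conn (fun c => Pr (n + k) c ∧ anc k c = A))
    {n : ℕ} {S : Pt → Prop} (hS : Conn S) (hP : ∀ A, S A → Pr n A) :
    Conn (fun c => Pr (n + k) c ∧ S (anc k c)) := by
  have key : ∀ A B, Reach S A B → ∀ a b, Pr (n + k) a → anc k a = A → Pr (n + k) b →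
      anc k b = B → Reach (fun c => Pr (n + k) c ∧ S (anc k c)) a b := by
    intro A B hAB
    obtain ⟨hA, hAB⟩ := hAB
    induction hAB with
    | refl =>
      intro a b ha ha' hb hb'
      exact (hcell n A (hP A hA) a b ⟨ha, ha'⟩ ⟨hb, hb'⟩).mono
        (fun x hx => ⟨hx.1, by rw [hx.2]; exact hA⟩)
    | @tail B' B h1 h2 ih =>
      intro a b ha ha' hb hb'
      have hB' : S B' := Reach.right ⟨hA, h1⟩
      have hB : S B := h2.2
      obtain ⟨p, q, hp, hq, hp', hq', hpq⟩ := contact (hP B' hB') (hP B hB) h2.1 k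
      have h3 := ih a p ha ha' hp hp'
      have h4 : Reach (fun c => Pr (n + k) c ∧ S (anc k c)) q b :=
        (hcell n B (hP B hB) q b ⟨hq, hq'⟩ ⟨hb, hb'⟩).mono
          (fun x hx => ⟨hx.1, by rw [hx.2]; exact hB⟩)
      exact (h3.tail hpq h4.left).trans h4
  intro a b ha hb
  exact key _ _ (hS _ _ ha.2 hb.2) a b ha.1 rfl hb.1 rfl

/-- the fine cells of a cell are side-connected -/
theorem conn_cell {n : ℕ} {A : Pt} (hA : Pr n A) (k : ℕ) :
    Conn (fun c => Pr (n + k) c ∧ anc k c = A) := by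
  induction k generalizing n A with
  | zero =>
    intro a b ha hb
    have h1 : a = A := by rw [← ha.2, anc_zero]
    have h2 : b = A := by rw [← hb.2, anc_zero]
    rw [h1] at ha ⊢
    rw [h2]
    exact Reach.refl ha
  | succ k ih =>
    have h1 := Geo3_lift (k := k) (fun n A hA => ih hA) (Geo3_ring hA)
      (fun B hB => hB.1)
    have h2 : (fun c => Pr (n + (k + 1)) c ∧ anc (k + 1) c = A) =
        (fun c => Pr (n + 1 + k) c ∧ (fun c => Pr (n + 1) c ∧ anc 1 c = A) (anc k c)) := by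
      funext c
      have e : n + (k + 1) = n + 1 + k := by ring
      have e' : anc 1 (anc k c) = anc (k + 1) c := by rw [anc_anc, add_comm]
      simp only [e, e', eq_iff_iff]
      constructor
      · rintro ⟨h, h'⟩
        exact ⟨h, Pr.anc h, h'⟩
      · rintro ⟨h, _, h'⟩
        exact ⟨h, h'⟩
    rw [h2]
    exact h1

/-- A side-connected set of cells of level `n` gives a side-connected set of fine cells. -/
theorem Geo3_conn_lift {n : ℕ} {S : Pt → Prop} (hS : Conn S) (hP : ∀ A, S A → Pr n A) (k : ℕ) :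
    Conn (fun c => Pr (n + k) c ∧ S (anc k c)) :=
  Geo3_lift (fun _ _ hA => conn_cell hA k) hS hP

theorem Geo3_near {n : ℕ} {A : Pt} (hA : Pr n A) : Conn (fun B => Pr n B ∧ Nr 1 B A) := by
  have h0 : ∀ B, (fun B => Pr n B ∧ Nr 1 B A) B → Reach (fun B => Pr n B ∧ Nr 1 B A) B A := by
    intro B hB
    by_cases hBA : B = A
    · subst hBA
      exact Reach.refl hB
    · by_cases hs : Sd B A
      · exact Reach.single hB hs ⟨hA, Nr.rfl⟩
      · obtain ⟨C, hC, h1, h2⟩ := vertex hB.1 hA hB.2 hBA hs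
        exact (Reach.single hB h1 ⟨hC, h2.nr⟩).tail h2 ⟨hA, Nr.rfl⟩
  intro a b ha hb
  exact (h0 a ha).trans (h0 b hb).symm

/-- blocks are side-connected (uses `vertex`, `conn_cell`, `contact`; if `H > M` the block is the
whole carpet) -/
theorem conn_block {M H : ℕ} {c : Pt} (hc : Pr M c) : Conn (Blk M H c) := by
  rcases Nat.lt_or_ge M H with hMH | hMH
  · have hz : ∀ x, Pr M x → anc H x = (0, 0) := by
      intro x hx
      have hp : (3 : ℕ) ^ M ≤ 3 ^ H := Nat.pow_le_pow_right (by norm_num) hMH.le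
      unfold anc
      rw [Nat.div_eq_of_lt (lt_of_lt_of_le hx.1 hp), Nat.div_eq_of_lt (lt_of_lt_of_le hx.2.1 hp)]
    have h0 : Pr 0 ((0, 0) : Pt) := ⟨by norm_num, by norm_num, fun k hk => absurd hk (by omega)⟩
    have h1 := conn_cell h0 M
    have h2 : Blk M H c = (fun x => Pr (0 + M) x ∧ anc M x = ((0, 0) : Pt)) := by
      funext x
      simp only [Blk, zero_add, eq_iff_iff]
      constructor
      · rintro ⟨hx, _⟩
        refine ⟨hx, ?_⟩
        unfold anc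
        rw [Nat.div_eq_of_lt hx.1, Nat.div_eq_of_lt hx.2.1]
      · rintro ⟨hx, _⟩
        refine ⟨hx, ?_⟩
        rw [hz x hx, hz c hc]
        exact Nr.rfl
    rw [h2]
    exact h1
  · obtain ⟨n, rfl⟩ : ∃ n, M = n + H := ⟨M - H, by omega⟩
    have h1 := Geo3_conn_lift (Geo3_near (Pr.anc hc)) (fun A hA => hA.1) H
    have h2 : Blk (n + H) H c =
        (fun x => Pr (n + H) x ∧ (fun B => Pr n B ∧ Nr 1 B (anc H c)) (anc H x)) := by
      funext x
      simp only [Blk, eq_iff_iff]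
      constructor
      · rintro ⟨hx, hx'⟩
        exact ⟨hx, Pr.anc hx, hx'⟩
      · rintro ⟨hx, _, hx'⟩
        exact ⟨hx, hx'⟩
    rw [h2]
    exact h1

/-- A side-connected set of cells of level `n` gives a side-connected set of fine cells. -/
theorem conn_lift {n : ℕ} {S : Pt → Prop} (hS : Conn S) (hP : ∀ A, S A → Pr n A) (k : ℕ) :
    Conn (fun c => Pr (n + k) c ∧ S (anc k c)) :=
  Geo3_conn_lift hS hP k

end UCP
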