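import Pool.Agent.UCP.SymSet
import Pool.Agent.UCP.Geo3

/-!
[UCP-U1] Cantor rows and columns; maximal regular cells; cheap rows.
-/

namespace UCP

/-- indices `< 3 ^ n` without ternary digit `1` -/
def cantor (n : ℕ) : Finset ℕ := (Finset.range (3 ^ n)).filter (fun r => ∀ k < n, r / 3 ^ k % 3 ≠ 1)

theorem Cantor_mem {n r : ℕ} : r ∈ cantor n ↔ r < 3 ^ n ∧ ∀ k < n, r / 3 ^ k % 3 ≠ 1 := by
  simp [cantor]

/-- low digits only depend on the residue -/
theorem Cantor_mod_digit {n k : ℕ} (hk : k < n) (r : ℕ) : r % 3 ^ n / 3 ^ k % 3 = r / 3 ^ k % 3 := by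
  have h1 : 3 ^ n = 3 ^ k * 3 ^ (n - k) := by rw [← pow_add]; congr 1; omega
  rw [h1, Nat.mod_mul_right_div_self, Nat.mod_mod_of_dvd]
  exact dvd_pow_self 3 (by omega)

theorem Cantor_mod_lt {n a r : ℕ} (hr : r < 3 ^ n) : (a * 3 ^ n + r) % 3 ^ n = r := by
  rw [add_comm, Nat.add_mul_mod_self_right, Nat.mod_eq_of_lt hr]

theorem Cantor_low {n k a r : ℕ} (hk : k < n) (hr : r < 3 ^ n) :
    (a * 3 ^ n + r) / 3 ^ k % 3 = r / 3 ^ k % 3 := by
  rw [← Cantor_mod_digit hk, Cantor_mod_lt hr]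

theorem Cantor_div {n a r : ℕ} (hr : r < 3 ^ n) : (a * 3 ^ n + r) / 3 ^ n = a := by
  rw [add_comm, Nat.add_mul_div_right _ _ (by positivity), Nat.div_eq_of_lt hr, zero_add]

theorem Cantor_high {n k a r : ℕ} (hk : n ≤ k) (hr : r < 3 ^ n) :
    (a * 3 ^ n + r) / 3 ^ k = a / 3 ^ (k - n) := by
  have h1 : 3 ^ k = 3 ^ n * 3 ^ (k - n) := by rw [← pow_add]; congr 1; omega
  rw [h1, ← Nat.div_div_eq_div_mul, Cantor_div hr]

theorem Cantor_lt {l n a r : ℕ} (ha : a < 3 ^ l) (hr : r < 3 ^ n) : a * 3 ^ n + r < 3 ^ (l + n) := by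
  have h1 : (a + 1) * 3 ^ n ≤ 3 ^ l * 3 ^ n := Nat.mul_le_mul_right _ ha
  rw [pow_add]
  calc a * 3 ^ n + r < a * 3 ^ n + 3 ^ n := by omega
    _ = (a + 1) * 3 ^ n := by ring
    _ ≤ _ := h1

theorem Cantor_sub_mod {n m r : ℕ} (hm : m ≤ n) (hr : r ∈ cantor n) : r % 3 ^ m ∈ cantor m := by
  rw [Cantor_mem] at hr ⊢
  refine ⟨Nat.mod_lt _ (by positivity), fun k hk => ?_⟩
  rw [Cantor_mod_digit hk]
  exact hr.2 k (by omega)

/-- `b * 3 ^ n + r` with `b ∈ {0,2}` -/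
theorem Cantor_succ' {n r b : ℕ} (hr : r ∈ cantor n) (hb : b = 0 ∨ b = 2) :
    b * 3 ^ n + r ∈ cantor (n + 1) := by
  rw [Cantor_mem] at hr ⊢
  refine ⟨?_, fun k hk => ?_⟩
  · have := Cantor_lt (l := 1) (a := b) (by rcases hb with h | h <;> simp [h]) hr.1
    rwa [add_comm 1 n] at this
  · rcases Nat.lt_succ_iff_lt_or_eq.1 hk with h | h
    · rw [Cantor_low h hr.1]; exact hr.2 k h
    · rw [h, Cantor_div hr.1]
      rcases hb with h | h <;> simp [h]

theorem Cantor_mod' {n r : ℕ} (hr : r ∈ cantor (n + 1)) :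
    r % 3 ^ n ∈ cantor n ∧ (r / 3 ^ n = 0 ∨ r / 3 ^ n = 2) := by
  refine ⟨Cantor_sub_mod (Nat.le_succ n) hr, ?_⟩
  rw [Cantor_mem] at hr
  have h1 : r / 3 ^ n < 3 := by
    rw [Nat.div_lt_iff_lt_mul (by positivity)]
    have := hr.1
    rw [pow_succ] at this
    linarith
  have h2 := hr.2 n (Nat.lt_succ_self n)
  generalize r / 3 ^ n = t at h1 h2 ⊢
  omega

theorem card_cantor (n : ℕ) : (cantor n).card = 2 ^ n := by
  induction n with
  | zero => rfl
  | succ n ih =>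
    have h : (cantor (n + 1)).card = (cantor n ×ˢ ({0, 2} : Finset ℕ)).card := by
      refine Finset.card_nbij' (fun r => (r % 3 ^ n, r / 3 ^ n)) (fun p => p.2 * 3 ^ n + p.1)
        ?_ ?_ ?_ ?_
      · intro r hr
        have := Cantor_mod' hr
        simp only [Finset.coe_product, Set.mem_prod, Finset.mem_coe, Finset.mem_insert,
          Finset.mem_singleton]
        exact this
      · intro p hp
        simp only [Finset.coe_product, Set.mem_prod, Finset.mem_coe, Finset.mem_insert,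
          Finset.mem_singleton] at hp
        exact Cantor_succ' hp.1 hp.2
      · intro r _
        exact Nat.div_add_mod' r (3 ^ n)
      · intro p hp
        simp only [Finset.coe_product, Set.mem_prod, Finset.mem_coe] at hp
        have h1 := (Cantor_mem.1 hp.1).1
        exact Prod.ext (Cantor_mod_lt h1) (Cantor_div h1)
    rw [h, Finset.card_product, ih, pow_succ]
    rfl

theorem card_prefix_le {n j p : ℕ} (hj : j ≤ n) :
    ((cantor n).filter (fun r => r / 3 ^ (n - j) = p)).card ≤ 2 ^ (n - j) := by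
  rw [← card_cantor (n - j)]
  refine Finset.card_le_card_of_injOn (fun r => r % 3 ^ (n - j)) ?_ ?_
  · intro r hr
    simp only [Finset.coe_filter, Set.mem_ofPred_eq] at hr
    exact Cantor_sub_mod (Nat.sub_le n j) hr.1
  · intro r hr s hs hrs
    simp only [Finset.coe_filter, Set.mem_ofPred_eq] at hr hs
    rw [← Nat.div_add_mod r (3 ^ (n - j)), ← Nat.div_add_mod s (3 ^ (n - j)), hr.2, hs.2]
    have hrs' : r % 3 ^ (n - j) = s % 3 ^ (n - j) := hrs
    rw [hrs']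

/-- a row with Cantor index in a cell consists of cells -/
theorem Pr_row {l n : ℕ} {z : Pt} (hz : Pr l z) {r x : ℕ} (hr : r ∈ cantor n) (hx : x < 3 ^ n) :
    Pr (l + n) (z.1 * 3 ^ n + x, z.2 * 3 ^ n + r) := by
  rw [Cantor_mem] at hr
  obtain ⟨h1, h2, h3⟩ := hz
  refine ⟨Cantor_lt h1 hx, Cantor_lt h2 hr.1, fun k hk h => ?_⟩
  by_cases hkn : k < n
  · have := h.2
    simp only [Cantor_low hkn hr.1] at this
    exact hr.2 k hkn this
  · simp only [Cantor_high (not_lt.1 hkn) hr.1, Cantor_high (not_lt.1 hkn) hx] at h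
    exact h3 (k - n) (by omega) h

theorem Pr_col {l n : ℕ} {z : Pt} (hz : Pr l z) {r x : ℕ} (hr : r ∈ cantor n) (hx : x < 3 ^ n) :
    Pr (l + n) (z.1 * 3 ^ n + r, z.2 * 3 ^ n + x) := by
  rw [Cantor_mem] at hr
  obtain ⟨h1, h2, h3⟩ := hz
  refine ⟨Cantor_lt h1 hr.1, Cantor_lt h2 hx, fun k hk h => ?_⟩
  by_cases hkn : k < n
  · have := h.1
    simp only [Cantor_low hkn hr.1] at this
    exact hr.2 k hkn this
  · simp only [Cantor_high (not_lt.1 hkn) hr.1, Cantor_high (not_lt.1 hkn) hx] at h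
    exact h3 (k - n) (by omega) h

/-- `b * 3 ^ n + r` with `b ∈ {0,2}` -/
theorem cantor_succ {n r b : ℕ} (hr : r ∈ cantor n) (hb : b = 0 ∨ b = 2) :
    b * 3 ^ n + r ∈ cantor (n + 1) :=
  Cantor_succ' hr hb

theorem cantor_mod {n r : ℕ} (hr : r ∈ cantor (n + 1)) :
    r % 3 ^ n ∈ cantor n ∧ (r / 3 ^ n = 0 ∨ r / 3 ^ n = 2) :=
  Cantor_mod' hr

theorem cantor_flip {n r : ℕ} (hr : r ∈ cantor n) : 3 ^ n - 1 - r ∈ cantor n := by
  induction n generalizing r with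
  | zero =>
    have h := (Cantor_mem.1 hr).1
    have : r = 0 := by simpa using h
    subst this
    exact hr
  | succ n ih =>
    obtain ⟨h1, h2⟩ := Cantor_mod' hr
    have h3 := ih h1
    have h4 : r % 3 ^ n < 3 ^ n := Nat.mod_lt _ (by positivity)
    have h5 := Nat.div_add_mod' r (3 ^ n)
    have h6 : 3 ^ (n + 1) - 1 - r = (2 - r / 3 ^ n) * 3 ^ n + (3 ^ n - 1 - r % 3 ^ n) := by
      rcases h2 with h | h
      · rw [h] at h5 ⊢
        rw [pow_succ]
        omega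
      · rw [h] at h5 ⊢
        rw [pow_succ]
        omega
    rw [h6]
    exact Cantor_succ' h3 (by omega)

/-- the unit cells `d` of level `≤ h` inside `q` which are maximal with the property `Reg` -/
noncomputable def MR (Reg : ℕ × Pt → Prop) (h : ℕ) (q : ℕ × Pt) : Finset (ℕ × Pt) :=
  open Classical in
  (Finset.range (h + 1) ×ˢ (Finset.range (3 ^ h) ×ˢ Finset.range (3 ^ h))).filter
    (fun d => q.1 ≤ d.1 ∧ anc (d.1 - q.1) d.2 = q.2 ∧ Pr d.1 d.2 ∧ Reg d ∧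
      (d.1 = q.1 ∨ ¬ Reg (d.1 - 1, anc 1 d.2)))

/-- number of the `d ∈ MR Reg h q` met by row `r` of `q` -/
noncomputable def rowCost (Reg : ℕ × Pt → Prop) (h : ℕ) (q : ℕ × Pt) (r : ℕ) : ℕ :=
  open Classical in
  ((MR Reg h q).filter (fun d => (q.2.2 * 3 ^ (h - q.1) + r) / 3 ^ (h - d.1) = d.2.2)).card

/-- number of the `d ∈ MR Reg h q` met by column `r` of `q` -/
noncomputable def colCost (Reg : ℕ × Pt → Prop) (h : ℕ) (q : ℕ × Pt) (r : ℕ) : ℕ :=
  open Classical in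
  ((MR Reg h q).filter (fun d => (q.2.1 * 3 ^ (h - q.1) + r) / 3 ^ (h - d.1) = d.2.1)).card

theorem Cantor_MR_lev {Reg : ℕ × Pt → Prop} {h : ℕ} {q d : ℕ × Pt} (hd : d ∈ MR Reg h q) :
    q.1 ≤ d.1 ∧ d.1 ≤ h := by
  classical
  unfold MR at hd
  rw [Finset.mem_filter, Finset.mem_product, Finset.mem_range] at hd
  exact ⟨hd.2.1, Nat.lt_succ_iff.1 hd.1.1⟩

/-- number of Cantor indices with a given quotient -/
theorem Cantor_card_fibre {n j a b : ℕ} (hj : j ≤ n) :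
    ((cantor n).filter (fun r => (a * 3 ^ n + r) / 3 ^ (n - j) = b)).card ≤ 2 ^ (n - j) := by
  refine (Finset.card_le_card ?_).trans (card_prefix_le (p := b - a * 3 ^ j) hj)
  intro r hr
  rw [Finset.mem_filter] at hr ⊢
  refine ⟨hr.1, ?_⟩
  have h1 : a * 3 ^ n = (a * 3 ^ j) * 3 ^ (n - j) := by
    rw [mul_assoc, ← pow_add]; congr 2; omega
  have h2 := hr.2
  rw [h1, add_comm, Nat.add_mul_div_right _ _ (by positivity)] at h2
  generalize a * 3 ^ j = t at h2 ⊢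
  generalize r / 3 ^ (n - j) = u at h2 ⊢
  omega

/-- double counting -/
theorem Cantor_double {ι : Type*} (S : Finset ℕ) (T : Finset ι) (P : ℕ → ι → Prop)
    [∀ r d, Decidable (P r d)] (f : ι → ℕ)
    (h : ∀ d ∈ T, (S.filter (fun r => P r d)).card ≤ f d) :
    ∑ r ∈ S, (T.filter (fun d => P r d)).card ≤ ∑ d ∈ T, f d := by
  refine le_trans (le_of_eq ?_) (Finset.sum_le_sum h)
  simp only [Finset.card_filter]
  exact Finset.sum_comm

/-- average cost of a Cantor row (double counting, `card_prefix_le` with `j = d.1 - q.1`) -/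
theorem sum_rowCost_le (Reg : ℕ × Pt → Prop) {h : ℕ} {q : ℕ × Pt} (hq : q.1 ≤ h) :
    ∑ r ∈ cantor (h - q.1), rowCost Reg h q r ≤ ∑ d ∈ MR Reg h q, 2 ^ (h - d.1) := by
  classical
  unfold rowCost
  convert Cantor_double (cantor (h - q.1)) (MR Reg h q)
    (fun r d => (q.2.2 * 3 ^ (h - q.1) + r) / 3 ^ (h - d.1) = d.2.2) (fun d => 2 ^ (h - d.1)) ?_
  intro d hd
  obtain ⟨h1, h2⟩ := Cantor_MR_lev hd
  have h3 : h - d.1 = (h - q.1) - (d.1 - q.1) := by omega
  rw [h3]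
  exact Cantor_card_fibre (by omega)

theorem sum_colCost_le (Reg : ℕ × Pt → Prop) {h : ℕ} {q : ℕ × Pt} (hq : q.1 ≤ h) :
    ∑ r ∈ cantor (h - q.1), colCost Reg h q r ≤ ∑ d ∈ MR Reg h q, 2 ^ (h - d.1) := by
  classical
  unfold colCost
  convert Cantor_double (cantor (h - q.1)) (MR Reg h q)
    (fun r d => (q.2.1 * 3 ^ (h - q.1) + r) / 3 ^ (h - d.1) = d.2.1) (fun d => 2 ^ (h - d.1)) ?_
  intro d hd
  obtain ⟨h1, h2⟩ := Cantor_MR_lev hd
  have h3 : h - d.1 = (h - q.1) - (d.1 - q.1) := by omega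
  rw [h3]
  exact Cantor_card_fibre (by omega)

end UCP
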