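import Pool.Agent.UCP.Geo3

/-!
[UCP-IN] the cells away from the boundary are side-connected.
-/

namespace UCP

/-- away from the boundary of the square (no cell at the boundary touches it) -/
def Inn (r : ℕ) (c : Pt) : Prop := Pr r c ∧ 2 ≤ c.1 ∧ c.1 + 3 ≤ 3 ^ r ∧ 2 ≤ c.2 ∧ c.2 + 3 ≤ 3 ^ r

/-- indices without digit one -/
def Interior_Cant (r x : ℕ) : Prop := x < 3 ^ r ∧ ∀ k < r, x / 3 ^ k % 3 ≠ 1

theorem Interior_cant_two {r : ℕ} (hr : 9 ≤ 3 ^ r) : Interior_Cant r 2 := by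
  refine ⟨by omega, fun k _ => ?_⟩
  rcases k with _ | k
  · norm_num
  · have : 2 / 3 ^ (k + 1) = 0 := by
      apply Nat.div_eq_of_lt
      have : 1 ≤ 3 ^ k := Nat.one_le_pow _ _ (by norm_num)
      rw [pow_succ]; omega
    rw [this]; norm_num

theorem Interior_cant_top {r : ℕ} (hr : 9 ≤ 3 ^ r) : Interior_Cant r (3 ^ r - 3) := by
  rcases r with _ | m
  · norm_num at hr
  refine ⟨by omega, fun k hk => ?_⟩
  have e0 : 3 ^ (m + 1) - 3 = 3 * (3 ^ m - 1) := by rw [pow_succ]; omega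
  rcases k with _ | j
  · rw [e0, pow_zero, Nat.div_one, Nat.mul_mod_right]; norm_num
  · have hj : j < m := by omega
    have e1 : (3 ^ (m + 1) - 3) / 3 ^ (j + 1) = (3 ^ m - 1) / 3 ^ j := by
      rw [e0, pow_succ, mul_comm (3 ^ j) 3, Nat.mul_div_mul_left _ _ (by norm_num : 0 < 3)]
    obtain ⟨i, rfl⟩ : ∃ i, m = j + (i + 1) := ⟨m - j - 1, by omega⟩
    have hp : 0 < 3 ^ j := by positivity
    have h1 : 1 ≤ 3 ^ i := Nat.one_le_pow _ _ (by norm_num)
    have e2 : (3 ^ (j + (i + 1)) - 1) / 3 ^ j = 3 ^ (i + 1) - 1 := by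
      have h3 : 1 ≤ 3 ^ (i + 1) := Nat.one_le_pow _ _ (by norm_num)
      have e3 : 3 ^ (j + (i + 1)) - 1 = (3 ^ j - 1) + (3 ^ (i + 1) - 1) * 3 ^ j := by
        have : 3 ^ (j + (i + 1)) = (3 ^ (i + 1) - 1) * 3 ^ j + 3 ^ j := by
          rw [pow_add, Nat.sub_mul, one_mul, mul_comm]
          have : 3 ^ j ≤ 3 ^ (i + 1) * 3 ^ j := Nat.le_mul_of_pos_left _ h3
          omega
        omega
      rw [e3, Nat.add_mul_div_right _ _ hp, Nat.div_eq_of_lt (by omega), zero_add]
    rw [e1, e2, pow_succ]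
    omega

theorem Interior_pr_left {r x y : ℕ} (hx : Interior_Cant r x) (hy : y < 3 ^ r) : Pr r (x, y) :=
  ⟨hx.1, hy, fun k hk h => hx.2 k hk h.1⟩

theorem Interior_pr_right {r x y : ℕ} (hy : Interior_Cant r y) (hx : x < 3 ^ r) : Pr r (x, y) :=
  ⟨hx, hy.1, fun k hk h => hy.2 k hk h.2⟩

theorem Interior_vert {r x : ℕ} (hx : Interior_Cant r x) (h1 : 2 ≤ x) (h2 : x + 3 ≤ 3 ^ r) :
    ∀ y, 2 ≤ y → y + 3 ≤ 3 ^ r → Reach (Inn r) (x, 2) (x, y) := by
  intro y hy
  induction y, hy using Nat.le_induction with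
  | base =>
    intro h
    exact Reach.refl ⟨Interior_pr_left hx (by omega), h1, h2, le_rfl, h⟩
  | succ y hy ih =>
    intro h
    refine (ih (by omega)).tail ?_ ⟨Interior_pr_left hx (by omega), h1, h2, by simp only; omega, h⟩
    exact Or.inl ⟨rfl, Or.inr rfl⟩

theorem Interior_horiz {r y : ℕ} (hy : Interior_Cant r y) (h1 : 2 ≤ y) (h2 : y + 3 ≤ 3 ^ r) :
    ∀ x, 2 ≤ x → x + 3 ≤ 3 ^ r → Reach (Inn r) (2, y) (x, y) := by
  intro x hx
  induction x, hx using Nat.le_induction with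
  | base =>
    intro h
    exact Reach.refl ⟨Interior_pr_right hy (by omega), le_rfl, h, h1, h2⟩
  | succ x hx ih =>
    intro h
    refine (ih (by omega)).tail ?_ ⟨Interior_pr_right hy (by omega), by simp only; omega, h, h1, h2⟩
    exact Or.inr ⟨rfl, Or.inr rfl⟩

theorem Interior_frame {r : ℕ} {c : Pt} (hc : Inn r c)
    (h : c.1 = 2 ∨ c.1 + 3 = 3 ^ r ∨ c.2 = 2 ∨ c.2 + 3 = 3 ^ r) : Reach (Inn r) (2, 2) c := by
  obtain ⟨x, y⟩ := c
  obtain ⟨-, h1, h2, h3, h4⟩ := hc
  simp only at h h1 h2 h3 h4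
  have hr : 9 ≤ 3 ^ r := by
    rcases r with _ | _ | r
    · norm_num at h2; omega
    · norm_num at h2; omega
    · have : 1 ≤ 3 ^ r := Nat.one_le_pow _ _ (by norm_num)
      rw [pow_succ, pow_succ]; omega
  have c2 := Interior_cant_two hr
  have ct := Interior_cant_top hr
  rcases h with h | h | h | h
  · subst h
    exact Interior_vert c2 le_rfl (by omega) y h3 h4
  · have e : x = 3 ^ r - 3 := by omega
    rw [e]
    exact (Interior_horiz c2 le_rfl (by omega) _ (by omega) (by omega)).trans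
      (Interior_vert ct (by omega) (by omega) y h3 h4)
  · subst h
    exact Interior_horiz c2 le_rfl (by omega) x h1 h2
  · have e : y = 3 ^ r - 3 := by omega
    rw [e]
    exact (Interior_vert c2 le_rfl (by omega) _ (by omega) (by omega)).trans
      (Interior_horiz ct (by omega) (by omega) x h1 h2)

/-- [UCP-IN] The frame (`Inn` cells with a coordinate equal to `2` or to `3^r - 3`) consists of all squares of the frame
(Cantor indices) and is connected. Any cell `c` is joined to `(0,0)` in the carpet (`conn_cell` with `n = 0`); cut the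
path before it leaves the box: it ends in the frame. -/
theorem conn_Inn (r : ℕ) : Conn (Inn r) := by
  have key : ∀ c, Inn r c → Reach (Inn r) c (2, 2) := by
    intro c hc
    have h00 : Pr 0 (0, 0) := ⟨by norm_num, by norm_num, fun k hk => absurd hk (Nat.not_lt_zero k)⟩
    have hR : 0 < 3 ^ r := by positivity
    have hz : Pr (0 + r) (0, 0) ∧ anc r (0, 0) = (0, 0) := by
      refine ⟨⟨by simpa using hR, by simpa using hR, fun k _ => by simp⟩, by simp [anc]⟩
    have hcc : Pr (0 + r) c ∧ anc r c = (0, 0) := by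
      refine ⟨by rw [zero_add]; exact hc.1, ?_⟩
      simp only [anc, Nat.div_eq_of_lt hc.1.1, Nat.div_eq_of_lt hc.1.2.1]
    have hreach := conn_cell h00 r c (0, 0) hcc hz
    have hind : ∀ z, Reach (fun c => Pr (0 + r) c ∧ anc r c = (0, 0)) c z →
        Reach (Inn r) c z ∨ ∃ f, Reach (Inn r) c f ∧
          (f.1 = 2 ∨ f.1 + 3 = 3 ^ r ∨ f.2 = 2 ∨ f.2 + 3 = 3 ^ r) := by
      rintro z ⟨-, hz⟩
      induction hz with
      | refl => exact Or.inl (Reach.refl hc)
      | @tail b b' _ hstep ih =>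
        rcases ih with ih | ih
        · by_cases hb' : Inn r b'
          · exact Or.inl (ih.tail hstep.1 hb')
          · right
            refine ⟨b, ih, ?_⟩
            have hb := ih.right
            have hP : Pr r b' := by have := hstep.2.1; rwa [zero_add] at this
            obtain ⟨hsd, -⟩ := hstep
            by_contra hcon
            apply hb'
            obtain ⟨-, b1, b2, b3, b4⟩ := hb
            unfold Sd at hsd
            refine ⟨hP, ?_, ?_, ?_, ?_⟩ <;> omega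
        · exact Or.inr ih
    rcases hind _ hreach with h | ⟨f, hf, hf'⟩
    · exact absurd h.right.2.1 (by simp)
    · exact hf.trans (Interior_frame hf.right hf').symm
  intro a b ha hb
  exact (key a ha).trans (key b hb).symm

theorem Inn.not_touch {r : ℕ} {c b : Pt} (h : Inn r c) (hb : Bd r b) : ¬ Nr 1 b c := by
  obtain ⟨-, h1, h2, h3, h4⟩ := h
  unfold Bd at hb
  unfold Nr
  generalize 3 ^ r = R at *
  omega

theorem Interior_arith {x k r : ℕ} (h1 : 2 ≤ x / 3 ^ k) (h2 : x / 3 ^ k + 3 ≤ 3 ^ r) :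
    2 ≤ x ∧ x + 3 ≤ 3 ^ (r + k) := by
  have hp : 1 ≤ 3 ^ k := Nat.one_le_pow _ _ (by norm_num)
  have h3 : x / 3 ^ k * 3 ^ k ≤ x := Nat.div_mul_le_self x _
  have h4 : x < (x / 3 ^ k + 1) * 3 ^ k := by
    have := Nat.lt_mul_div_succ x (Nat.lt_of_lt_of_le Nat.zero_lt_one hp)
    rw [mul_comm]; exact this
  have h5 : (x / 3 ^ k + 3) * 3 ^ k ≤ 3 ^ r * 3 ^ k := Nat.mul_le_mul_right _ h2
  have h6 : 2 * 3 ^ k ≤ x / 3 ^ k * 3 ^ k := Nat.mul_le_mul_right _ h1
  rw [pow_add]
  rw [add_mul] at h4 h5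
  omega

/-- descendants -/
theorem Inn.sub {r k : ℕ} {c : Pt} (hc : Pr (r + k) c) (h : Inn r (anc k c)) : Inn (r + k) c := by
  obtain ⟨-, h1, h2, h3, h4⟩ := h
  obtain ⟨a1, a2⟩ := Interior_arith h1 h2
  obtain ⟨a3, a4⟩ := Interior_arith h3 h4
  exact ⟨hc, a1, a2, a3, a4⟩

theorem conn_Inn_sub (r k : ℕ) : Conn (fun c => Pr (r + k) c ∧ Inn r (anc k c)) :=
  conn_lift (conn_Inn r) (fun _ h => h.1) k

end UCP
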