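import Pool.Agent.UCP.CForm
import Pool.Agent.UCP.Interior

/-!
[UCP-A0] cells of the carpet as subsets. (`CAR.exists_cell`, `CAR.exists_cell_subset`, `CAR.mem_sq`, `CAR.mem_carpet_iff`,
`CAR.isCell_iff` in `Pool/Agent/MP_eabe7c_an/Cells.lean` are useful.)
-/

open MeasureTheory Set Topology Filter CAR

namespace UCP

theorem CellFacts_mem {n : ℕ} {c : Pt} {x : carpet} : x ∈ cell n c ↔
    (((c.1 : ℕ) : ℝ) ≤ 3 ^ n * x.1.1 ∧ 3 ^ n * x.1.1 ≤ c.1 + 1) ∧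
      (((c.2 : ℕ) : ℝ) ≤ 3 ^ n * x.1.2 ∧ 3 ^ n * x.1.2 ≤ c.2 + 1) := mem_sq

theorem isClosed_cell (n : ℕ) (c : Pt) : IsClosed (cell n c) :=
  (isClosed_Icc.prod isClosed_Icc).preimage continuous_subtype_val

theorem exists_cell' (x : carpet) (n : ℕ) : ∃ c, Pr n c ∧ x ∈ cell n c := by
  obtain ⟨i, j, h1, h2⟩ := exists_cell x.2 n
  exact ⟨(i, j), (isCell_iff_Pr (c := (i, j))).1 h1, h2⟩

theorem emb_mem {n : ℕ} {c : Pt} (h : Pr n c) (x : carpet) : emb n c h x ∈ cell n c := by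
  have h3 : (3 : ℝ) ^ n ≠ 0 := by positivity
  rw [CellFacts_mem]
  have e1 : (3 : ℝ) ^ n * (emb n c h x).1.1 = x.1.1 + c.1 := by
    change (3 : ℝ) ^ n * ((x.1.1 + c.1) / 3 ^ n) = _
    field_simp
  have e2 : (3 : ℝ) ^ n * (emb n c h x).1.2 = x.1.2 + c.2 := by
    change (3 : ℝ) ^ n * ((x.1.2 + c.2) / 3 ^ n) = _
    field_simp
  rw [e1, e2]
  obtain ⟨⟨h1, h2⟩, h4, h5⟩ := x.2.1
  refine ⟨⟨?_, ?_⟩, ?_, ?_⟩ <;> linarith

theorem exists_emb {n : ℕ} {c : Pt} (h : Pr n c) {x : carpet} (hx : x ∈ cell n c) :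
    ∃ y, emb n c h y = x := by
  have h3 : (3 : ℝ) ^ n ≠ 0 := by positivity
  have h1 := (h.isCell.mem_of (q := x.1) hx).1 x.2
  refine ⟨⟨_, h1⟩, Subtype.ext (Prod.ext ?_ ?_)⟩
  · change (3 ^ n * x.1.1 - c.1 + c.1) / 3 ^ n = x.1.1
    rw [sub_add_cancel, mul_div_cancel_left₀ _ h3]
  · change (3 ^ n * x.1.2 - c.2 + c.2) / 3 ^ n = x.1.2
    rw [sub_add_cancel, mul_div_cancel_left₀ _ h3]

theorem CellFacts_anc (n k i : ℕ) (x : ℝ) (h1 : (i : ℝ) ≤ 3 ^ (n + k) * x)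
    (h2 : 3 ^ (n + k) * x ≤ i + 1) :
    ((i / 3 ^ k : ℕ) : ℝ) ≤ 3 ^ n * x ∧ 3 ^ n * x ≤ ((i / 3 ^ k : ℕ) : ℝ) + 1 := by
  have hk : (0 : ℝ) < 3 ^ k := by positivity
  have hkn : 0 < 3 ^ k := by positivity
  have h3 : 3 ^ k * (i / 3 ^ k) ≤ i := Nat.mul_div_le i (3 ^ k)
  have h4 : i + 1 ≤ 3 ^ k * (i / 3 ^ k + 1) := by
    have := Nat.lt_mul_div_succ i hkn
    omega
  have h3' : (3 ^ k * ((i / 3 ^ k : ℕ) : ℝ)) ≤ i := by exact_mod_cast h3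
  have h4' : (i : ℝ) + 1 ≤ 3 ^ k * (((i / 3 ^ k : ℕ) : ℝ) + 1) := by exact_mod_cast h4
  rw [pow_add] at h1 h2
  constructor
  · refine le_of_mul_le_mul_left ?_ hk
    linarith
  · refine le_of_mul_le_mul_left ?_ hk
    linarith

theorem cell_subset_anc (n k : ℕ) (c : Pt) : cell (n + k) c ⊆ cell n (anc k c) := by
  intro x hx
  rw [CellFacts_mem] at hx ⊢
  exact ⟨CellFacts_anc n k c.1 _ hx.1.1 hx.1.2, CellFacts_anc n k c.2 _ hx.2.1 hx.2.2⟩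

/-- a point of a cell lies in a cell of higher level in it -/
theorem exists_sub_cell {n : ℕ} {A : Pt} (hA : Pr n A) (k : ℕ) {x : carpet} (hx : x ∈ cell n A) :
    ∃ c, Pr (n + k) c ∧ anc k c = A ∧ x ∈ cell (n + k) c := by
  induction k with
  | zero =>
    refine ⟨A, hA, ?_, hx⟩
    unfold anc
    simp
  | succ k ih =>
    obtain ⟨c, h1, h2, h3⟩ := ih
    obtain ⟨a, b, ha, hb, hab, h4⟩ := h1.isCell.cover h3 x.2
    refine ⟨(3 * c.1 + a, 3 * c.2 + b), ?_, ?_, h4⟩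
    · exact (isCell_iff_Pr (c := (3 * c.1 + a, 3 * c.2 + b))).1 (h1.isCell.child ha hb hab)
    · rw [← h2]
      unfold anc
      have e1 : (3 * c.1 + a) / 3 = c.1 := by omega
      have e2 : (3 * c.2 + b) / 3 = c.2 := by omega
      simp only
      rw [pow_succ', ← Nat.div_div_eq_div_mul, ← Nat.div_div_eq_div_mul, e1, e2]

/-- cells with a common point touch -/
theorem touch_of_mem {n : ℕ} {a b : Pt} {x : carpet} (ha : x ∈ cell n a) (hb : x ∈ cell n b) :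
    Nr 1 a b := by
  rw [CellFacts_mem] at ha hb
  have h1 : (a.1 : ℝ) ≤ (b.1 : ℝ) + 1 := by linarith [ha.1.1, hb.1.2]
  have h2 : (b.1 : ℝ) ≤ (a.1 : ℝ) + 1 := by linarith [hb.1.1, ha.1.2]
  have h3 : (a.2 : ℝ) ≤ (b.2 : ℝ) + 1 := by linarith [ha.2.1, hb.2.2]
  have h4 : (b.2 : ℝ) ≤ (a.2 : ℝ) + 1 := by linarith [hb.2.1, ha.2.2]
  exact ⟨by exact_mod_cast h1, by exact_mod_cast h2, by exact_mod_cast h3, by exact_mod_cast h4⟩

/-- touching cells have a common point -/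
theorem exists_common {n : ℕ} {a b : Pt} (ha : Pr n a) (hb : Pr n b) (h : Nr 1 a b) :
    ∃ x, x ∈ cell n a ∧ x ∈ cell n b := by
  obtain ⟨h1, h2, h3, h4⟩ := h
  have key : ∀ i j : ℕ, i ≤ j + 1 → j ≤ i + 1 → ∃ e : ℝ, (e = 0 ∨ e = 1) ∧
      ((i : ℝ) ≤ e + i ∧ e + i ≤ (i : ℝ) + 1) ∧ ((j : ℝ) ≤ e + i ∧ e + i ≤ (j : ℝ) + 1) := by
    intro i j hij hji
    rcases le_or_gt j i with hh | hh
    · refine ⟨0, Or.inl rfl, ⟨by linarith, by linarith⟩, ?_, ?_⟩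
      · have : (j : ℝ) ≤ i := by exact_mod_cast hh
        linarith
      · have : (i : ℝ) ≤ (j : ℝ) + 1 := by exact_mod_cast hij
        linarith
    · have hj : j = i + 1 := by omega
      refine ⟨1, Or.inr rfl, ⟨by linarith, by linarith⟩, ?_, ?_⟩
      · rw [hj]; push_cast; linarith
      · rw [hj]; push_cast; linarith
  obtain ⟨e, he, e1, e2⟩ := key a.1 b.1 h1 h2
  obtain ⟨f, hf, f1, f2⟩ := key a.2 b.2 h3 h4
  have hem : e ∈ Icc (0 : ℝ) 1 := by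
    rcases he with rfl | rfl <;> exact ⟨by norm_num, by norm_num⟩
  have hfm : f ∈ Icc (0 : ℝ) 1 := by
    rcases hf with rfl | rfl <;> exact ⟨by norm_num, by norm_num⟩
  have hc : ((e, f) : ℝ × ℝ) ∈ carpet := by
    refine mem_carpet_of_boundary hem hfm ?_
    rcases he with rfl | rfl
    · exact Or.inl rfl
    · exact Or.inr (Or.inl rfl)
  have h3' : (3 : ℝ) ^ n ≠ 0 := by positivity
  have g1 : (3 : ℝ) ^ n * (emb n a ha ⟨(e, f), hc⟩).1.1 = e + a.1 := by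
    change (3 : ℝ) ^ n * ((e + a.1) / 3 ^ n) = _
    field_simp
  have g2 : (3 : ℝ) ^ n * (emb n a ha ⟨(e, f), hc⟩).1.2 = f + a.2 := by
    change (3 : ℝ) ^ n * ((f + a.2) / 3 ^ n) = _
    field_simp
  refine ⟨emb n a ha ⟨(e, f), hc⟩, ?_, ?_⟩
  · rw [CellFacts_mem, g1, g2]
    exact ⟨e1, f1⟩
  · rw [CellFacts_mem, g1, g2]
    exact ⟨e2, f2⟩

end UCP
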