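import Pool.Agent.UCP.CellFacts

/-!
[UCP-A0b] cells and topology. (`CAR.exists_cell_subset`, `CAR.mem_sq`, `CAR.mem_carpet_iff` in
`Pool/Agent/MP_eabe7c_an/Cells.lean` are useful.)
-/

open MeasureTheory Set Topology Filter CAR

namespace UCP

theorem CellFacts2_zero_mem : ((0, 0) : ℝ × ℝ) ∈ carpet :=
  mem_carpet_of_boundary ⟨le_rfl, zero_le_one⟩ ⟨le_rfl, zero_le_one⟩ (Or.inl rfl)

theorem CellFacts2_mem {n : ℕ} {c : Pt} {x : carpet} : x ∈ cell n c ↔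
    ((c.1 : ℝ) ≤ 3 ^ n * x.1.1 ∧ 3 ^ n * x.1.1 ≤ c.1 + 1) ∧
      ((c.2 : ℝ) ≤ 3 ^ n * x.1.2 ∧ 3 ^ n * x.1.2 ≤ c.2 + 1) := mem_sq

theorem exists_val {n : ℕ} {c : Pt} (h : Pr n c) :
    ∃ x ∈ cell n c, ∀ u : C(carpet, ℝ), val u n c = u x := by
  have h0 := (h.isCell.2.2 (0, 0) ⟨le_rfl, zero_le_one⟩ ⟨le_rfl, zero_le_one⟩).1 CellFacts2_zero_mem
  simp only [zero_add] at h0
  have h3 : (3 : ℝ) ^ n ≠ 0 := by positivity
  refine ⟨⟨_, h0⟩, ?_, fun u => ?_⟩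
  · rw [CellFacts2_mem]
    simp only [mul_div_cancel₀ _ h3]
    exact ⟨⟨le_rfl, by linarith⟩, le_rfl, by linarith⟩
  · unfold val
    rw [dif_pos h0]

theorem val_neg (u : C(carpet, ℝ)) (n : ℕ) (c : Pt) : val (-u) n c = - val u n c := by
  unfold val
  split_ifs
  · rfl
  · simp

theorem bd_of_mem {n : ℕ} {c : Pt} (h : Pr n c) {x : carpet} (hx : x ∈ cell n c) (hV : x ∈ V0) :
    Bd n c := by
  rw [CellFacts2_mem] at hx
  obtain ⟨⟨h1, h2⟩, h3, h4⟩ := hx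
  obtain ⟨p1, p2, -⟩ := h
  unfold Bd
  rcases hV with h0 | h0 | h0 | h0
  · rw [h0, mul_zero] at h1
    left
    exact_mod_cast le_antisymm (by exact_mod_cast h1) (Nat.zero_le c.1)
  · rw [h0, mul_one] at h2
    have : 3 ^ n ≤ c.1 + 1 := by exact_mod_cast h2
    omega
  · rw [h0, mul_zero] at h3
    right; left
    exact_mod_cast le_antisymm (by exact_mod_cast h3) (Nat.zero_le c.2)
  · rw [h0, mul_one] at h4
    have : 3 ^ n ≤ c.2 + 1 := by exact_mod_cast h4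
    omega

/-- the union of the cells of level `n` which contain `x` is a neighbourhood of `x` -/
theorem eventually_cell (x : carpet) (n : ℕ) :
    ∀ᶠ y in 𝓝 x, ∃ c, Pr n c ∧ x ∈ cell n c ∧ y ∈ cell n c := by
  have h : ∀ c ∈ cells n, ∀ᶠ y in 𝓝 x, (y ∈ cell n c → x ∈ cell n c) := by
    intro c _
    by_cases hx : x ∈ cell n c
    · exact Eventually.of_forall fun _ _ => hx
    · filter_upwards [(isClosed_cell n c).isOpen_compl.mem_nhds hx] with y hy hy'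
      exact absurd hy' hy
  filter_upwards [(Finset.eventually_all (cells n)).2 h] with y hy
  obtain ⟨c, hc, hyc⟩ := exists_cell' y n
  exact ⟨c, hc, hy c (mem_cells.2 hc) hyc, hyc⟩

/-- points off the boundary of the square -/
theorem exists_Inn {x : carpet} (hx : x ∉ V0) :
    ∃ r0, ∀ r ≥ r0, ∀ c, Pr r c → x ∈ cell r c → Inn r c := by
  have hx0 : ¬ (x.1.1 = 0 ∨ x.1.1 = 1 ∨ x.1.2 = 0 ∨ x.1.2 = 1) := hx
  push Not at hx0
  obtain ⟨n1, n2, n3, n4⟩ := hx0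
  obtain ⟨⟨b1, b2⟩, b3, b4⟩ := x.2.1
  have c1 : 0 < x.1.1 := lt_of_le_of_ne b1 n1.symm
  have c2 : 0 < 1 - x.1.1 := sub_pos.2 (lt_of_le_of_ne b2 n2)
  have c3 : 0 < x.1.2 := lt_of_le_of_ne b3 n3.symm
  have c4 : 0 < 1 - x.1.2 := sub_pos.2 (lt_of_le_of_ne b4 n4)
  have key : ∀ a : ℝ, 0 < a → ∀ᶠ r : ℕ in atTop, 3 ≤ 3 ^ r * a := by
    intro a ha
    have h1 : Tendsto (fun r : ℕ => (3 : ℝ) ^ r * a) atTop atTop :=
      (tendsto_pow_atTop_atTop_of_one_lt (by norm_num : (1 : ℝ) < 3)).atTop_mul_const ha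
    exact h1.eventually_ge_atTop 3
  obtain ⟨r0, hr0⟩ := eventually_atTop.1
    (((key _ c1).and (key _ c2)).and ((key _ c3).and (key _ c4)))
  refine ⟨r0, fun r hr c hc hxc => ⟨hc, ?_⟩⟩
  obtain ⟨⟨k1, k2⟩, k3, k4⟩ := hr0 r hr
  rw [CellFacts2_mem] at hxc
  obtain ⟨⟨h1, h2⟩, h3, h4⟩ := hxc
  rw [mul_sub, mul_one] at k2 k4
  have e1 : (2 : ℝ) ≤ c.1 := by linarith
  have e2 : (c.1 : ℝ) + 3 ≤ 3 ^ r := by linarith
  have e3 : (2 : ℝ) ≤ c.2 := by linarith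
  have e4 : (c.2 : ℝ) + 3 ≤ 3 ^ r := by linarith
  exact ⟨by exact_mod_cast e1, by exact_mod_cast e2, by exact_mod_cast e3, by exact_mod_cast e4⟩

theorem exists_cell_sub {O : Set carpet} (hO : IsOpen O) (hne : O.Nonempty) :
    ∃ n c, Pr n c ∧ cell n c ⊆ O := by
  obtain ⟨O', hO', rfl⟩ := isOpen_induced_iff.1 hO
  obtain ⟨x, hx⟩ := hne
  obtain ⟨n, i, j, h1, h2⟩ := exists_cell_subset hO' ⟨x.1, hx, x.2⟩
  exact ⟨n, (i, j), isCell_iff_Pr.1 h1, fun y hy => h2 hy⟩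

/-- uniform continuity -/
theorem osc_cell (u : C(carpet, ℝ)) {ε : ℝ} (hε : 0 < ε) :
    ∃ n0, ∀ n ≥ n0, ∀ c, ∀ x ∈ cell n c, ∀ y ∈ cell n c, |u x - u y| ≤ ε := by
  have huc : UniformContinuous u := CompactSpace.uniformContinuous_of_continuous u.continuous
  obtain ⟨δ, hδ, hu⟩ := Metric.uniformContinuous_iff.1 huc ε hε
  obtain ⟨n0, hn0⟩ := exists_pow_lt_of_lt_one hδ (by norm_num : (1 / 3 : ℝ) < 1)
  refine ⟨n0, fun n hn c x hx y hy => ?_⟩
  have h3 : (0 : ℝ) < 3 ^ n := by positivity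
  have hpow : ((1 : ℝ) / 3) ^ n < δ :=
    lt_of_le_of_lt (pow_le_pow_of_le_one (by norm_num) (by norm_num) hn) hn0
  rw [CellFacts2_mem] at hx hy
  have hd : ∀ a b : ℝ, 3 ^ n * a - 3 ^ n * b ≤ 1 → 3 ^ n * b - 3 ^ n * a ≤ 1 → dist a b < δ := by
    intro a b ha hb
    refine lt_of_le_of_lt ?_ hpow
    rw [Real.dist_eq, one_div, inv_pow]
    have h4 : |3 ^ n * (a - b)| ≤ 1 := abs_le.2 ⟨by linarith, by linarith⟩
    rw [abs_mul, abs_of_pos h3] at h4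
    rw [inv_eq_one_div, le_div_iff₀ h3]
    linarith
  have hxy : dist x y < δ := by
    rw [Subtype.dist_eq, Prod.dist_eq, max_lt_iff]
    exact ⟨hd _ _ (by linarith [hx.1.2, hy.1.1]) (by linarith [hx.1.1, hy.1.2]),
      hd _ _ (by linarith [hx.2.2, hy.2.1]) (by linarith [hx.2.1, hy.2.2])⟩
  have := hu hxy
  rw [Real.dist_eq] at this
  exact this.le

theorem isClosed_V0 : IsClosed V0 := by
  have h1 : Continuous fun x : carpet => x.1.1 := by fun_prop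
  have h2 : Continuous fun x : carpet => x.1.2 := by fun_prop
  exact (isClosed_eq h1 continuous_const).union ((isClosed_eq h1 continuous_const).union
    ((isClosed_eq h2 continuous_const).union (isClosed_eq h2 continuous_const)))

theorem interior_V0 : interior V0 = ∅ := by
  by_contra hne
  obtain ⟨n, c, hc, hsub⟩ := exists_cell_sub isOpen_interior (nonempty_iff_ne_empty.2 hne)
  have hm : emb n c hc ⟨_, third_mem⟩ ∈ V0 := interior_subset (hsub (emb_mem hc _))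
  have p1 := hc.1
  have p2 := hc.2.1
  have q1 : (c.1 : ℝ) + 1 ≤ 3 ^ n := by exact_mod_cast p1
  have q2 : (c.2 : ℝ) + 1 ≤ 3 ^ n := by exact_mod_cast p2
  have h3 : (0 : ℝ) < 3 ^ n := by positivity
  have r1 : (0 : ℝ) < (1 / 3 + c.1) / 3 ^ n := by positivity
  have r2 : ((1 : ℝ) / 3 + c.1) / 3 ^ n < 1 := by
    rw [div_lt_one h3]; linarith
  have r3 : (0 : ℝ) < (1 / 3 + c.2) / 3 ^ n := by positivity
  have r4 : ((1 : ℝ) / 3 + c.2) / 3 ^ n < 1 := by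
    rw [div_lt_one h3]; linarith
  rcases hm with h | h | h | h
  · exact r1.ne' h
  · exact r2.ne h
  · exact r3.ne' h
  · exact r4.ne h

theorem V0_nonempty : V0.Nonempty := ⟨⟨_, CellFacts2_zero_mem⟩, Or.inl rfl⟩

end UCP
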