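import Pool.Agent.UCP.Disc

/-!
Paths of cells of varying size. A cell is `(η, A)`: height `η`, index `A` (its fine cells are the `c` with
`Pr M c`, `anc η c = A`).
-/

namespace UCP

/-- same height and side-adjacent, or parent and child -/
def AdjC (p q : ℕ × Pt) : Prop :=
  (p.1 = q.1 ∧ Sd p.2 q.2) ∨ (q.1 = p.1 + 1 ∧ q.2 = anc 1 p.2) ∨ (p.1 = q.1 + 1 ∧ p.2 = anc 1 q.2)

/-- joined by an `AdjC`-path inside `W` -/
def ReachC (W : ℕ × Pt → Prop) (p q : ℕ × Pt) : Prop :=
  W p ∧ Relation.ReflTransGen (fun x y => AdjC x y ∧ W y) p q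

theorem AdjC.symm {p q : ℕ × Pt} (h : AdjC p q) : AdjC q p := by
  rcases h with ⟨h1, h2⟩ | h | h
  · exact Or.inl ⟨h1.symm, h2.symm⟩
  · exact Or.inr (Or.inr h)
  · exact Or.inr (Or.inl h)

namespace ReachC

variable {S T : ℕ × Pt → Prop} {a b c : ℕ × Pt}

theorem left (h : ReachC S a b) : S a := h.1

theorem right (h : ReachC S a b) : S b := by
  obtain ⟨h1, h2⟩ := h
  induction h2 with
  | refl => exact h1
  | tail _ h _ => exact h.2

theorem refl (h : S a) : ReachC S a a := ⟨h, Relation.ReflTransGen.refl⟩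

theorem trans (h : ReachC S a b) (h' : ReachC S b c) : ReachC S a c := ⟨h.1, h.2.trans h'.2⟩

theorem tail (h : ReachC S a b) (h' : AdjC b c) (hc : S c) : ReachC S a c :=
  ⟨h.1, h.2.tail ⟨h', hc⟩⟩

theorem single (ha : S a) (h : AdjC a b) (hb : S b) : ReachC S a b := (refl ha).tail h hb

theorem symm (h : ReachC S a b) : ReachC S b a := by
  obtain ⟨h1, h2⟩ := h
  induction h2 with
  | refl => exact refl h1
  | tail h3 h ih =>
    have hm : S _ := right ⟨h1, h3⟩
    exact (single h.2 h.1.symm hm).trans ih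

theorem mono (hST : ∀ x, S x → T x) (h : ReachC S a b) : ReachC T a b :=
  ⟨hST _ h.1, Relation.ReflTransGen.mono (fun _ _ h => ⟨h.1, hST _ h.2⟩) _ _ h.2⟩

end ReachC

/-- exchange of the coordinates if `b = true` -/
def swp (b : Bool) (c : Pt) : Pt := if b then (c.2, c.1) else c

/-- A good cell of the strand of `c0`: fat, but not too fat, and its `s`-block lies in the strand. -/
def GoodCell (σ M s : ℕ) (f : Pt → ℝ) (a : ℝ) (c0 : Pt) (p : ℕ × Pt) : Prop :=
  ∃ c, Pr M c ∧ anc p.1 c = p.2 ∧ Fat M s f a p.1 c ∧ ¬ Fat M s f a (p.1 + c4 σ) c ∧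
    ∀ x, Blk M (p.1 + s) c x → Reach (fun y => Pr M y ∧ a < f y) c0 x

end UCP
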