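import Pool.Agent.UCP.Channel

/-!
[UCP-T3] channels are hit by every path leaving the block.
-/

namespace UCP

variable {n t h2 : ℕ} {Qc : Pt} {Nk : Finset (ℕ × Pt)}

/-- first exit of a path from a set -/
theorem Hit_exit {S B : Pt → Prop} {a b : Pt} (h : Reach S a b) (ha : B a) (hb : ¬ B b) :
    ∃ b' b'', Reach (fun z => S z ∧ B z) a b' ∧ Sd b' b'' ∧ S b'' ∧ ¬ B b'' := by
  obtain ⟨h1, h2⟩ := h
  have key : ∀ z, Relation.ReflTransGen (fun x y => Sd x y ∧ S y) a z →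
      (∃ b' b'', Reach (fun z => S z ∧ B z) a b' ∧ Sd b' b'' ∧ S b'' ∧ ¬ B b'') ∨
      Reach (fun z => S z ∧ B z) a z := by
    intro z hz
    induction hz with
    | refl => exact Or.inr (Reach.refl ⟨h1, ha⟩)
    | @tail y z _ hstep ih =>
      rcases ih with ih | ih
      · exact Or.inl ih
      · by_cases hB : B z
        · exact Or.inr (ih.tail hstep.1 ⟨hstep.2, hB⟩)
        · exact Or.inl ⟨_, _, ih, hstep.1, hstep.2, hB⟩
  rcases key b h2 with h | h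
  · exact h
  · exact absurd h.right.2 hb

theorem Hit_up {S : Pt → Prop} {a b : Pt} (h : Reach S a b) {m : ℕ} (ha : a.1 ≤ m)
    (hb : m ≤ b.1) : ∃ q, Reach (fun z => S z ∧ z.1 ≤ m) a q ∧ q.1 = m := by
  rcases ha.eq_or_lt with h0 | h0
  · exact ⟨a, Reach.refl ⟨h.left, ha⟩, h0⟩
  · obtain ⟨b', b'', h1, h2, h3, h4⟩ := Hit_exit (B := fun z => z.1 < m) h h0 (by omega)
    have h5 : b'.1 < m := h1.right.2
    have h6 : ¬ b''.1 < m := h4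
    have h7 : b''.1 = m := by unfold Sd at h2; omega
    exact ⟨b'', (h1.mono fun x hx => ⟨hx.1, hx.2.le⟩).tail h2 ⟨h3, h7.le⟩, h7⟩

theorem Hit_down {S : Pt → Prop} {a b : Pt} (h : Reach S a b) {m : ℕ} (ha : m ≤ a.1)
    (hb : b.1 ≤ m) : ∃ q, Reach (fun z => S z ∧ m ≤ z.1) a q ∧ q.1 = m := by
  rcases ha.eq_or_lt with h0 | h0
  · exact ⟨a, Reach.refl ⟨h.left, ha⟩, h0.symm⟩
  · obtain ⟨b', b'', h1, h2, h3, h4⟩ := Hit_exit (B := fun z => m < z.1) h h0 (by omega)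
    have h5 : m < b'.1 := h1.right.2
    have h6 : ¬ m < b''.1 := h4
    have h7 : b''.1 = m := by unfold Sd at h2; omega
    exact ⟨b'', (h1.mono fun x hx => ⟨hx.1, hx.2.le⟩).tail h2 ⟨h3, h7.ge⟩, h7⟩

/-- a path from the left to the right of a strip contains a path inside the strip -/
theorem Hit_strip {S : Pt → Prop} {a b : Pt} (h : Reach S a b) {lo hi : ℕ} (hlh : lo ≤ hi)
    (ha : a.1 ≤ lo) (hb : hi ≤ b.1) :
    ∃ p q, Reach (fun z => S z ∧ lo ≤ z.1 ∧ z.1 ≤ hi) p q ∧ p.1 = lo ∧ q.1 = hi := by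
  obtain ⟨q, h1, h2⟩ := Hit_up h (ha.trans hlh) hb
  obtain ⟨p, h3, h4⟩ := Hit_down h1.symm (m := lo) (by omega) ha
  exact ⟨p, q, (h3.mono fun x hx => ⟨hx.1.1, hx.2, hx.1.2⟩).symm, h4, h2⟩

/-- vertical segments are connected -/
theorem Hit_vert (x lo hi : ℕ) : Conn (fun X : Pt => X.1 = x ∧ lo ≤ X.2 ∧ X.2 < hi) := by
  have key : ∀ k : ℕ, ∀ y : ℕ, lo ≤ y → y + k < hi →
      Reach (fun X : Pt => X.1 = x ∧ lo ≤ X.2 ∧ X.2 < hi) (x, y) (x, y + k) := by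
    intro k
    induction k with
    | zero => intro y h1 h2; exact Reach.refl ⟨rfl, h1, h2⟩
    | succ k ih =>
      intro y h1 h2
      refine (ih y h1 (by omega)).tail ?_ ⟨rfl, ?_, ?_⟩
      · left; refine ⟨rfl, Or.inr ?_⟩; show y + (k + 1) = y + k + 1; omega
      · show lo ≤ y + (k + 1); omega
      · exact h2
  rintro ⟨a1, a2⟩ ⟨b1, b2⟩ ⟨ha, ha2, ha3⟩ ⟨hb, hb2, hb3⟩
  simp only at ha ha2 ha3 hb hb2 hb3
  subst ha hb
  rcases le_total a2 b2 with h | h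
  · have := key (b2 - a2) a2 ha2 (by omega)
    rwa [Nat.add_sub_cancel' h] at this
  · have := key (a2 - b2) b2 hb2 (by omega)
    rw [Nat.add_sub_cancel' h] at this
    exact this.symm

theorem Hit_mem_cidx {c : ℕ} (hc : c ∈ cidx t) : c ∈ cantor t ∧ c < 3 ^ t ∧ 2 * c + 1 < 3 ^ t := by
  unfold cidx at hc
  rw [Finset.mem_filter] at hc
  have h1 := hc.1
  unfold cantor at h1
  rw [Finset.mem_filter, Finset.mem_range] at h1
  exact ⟨hc.1, h1.1, hc.2.2⟩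

theorem Hit_mf {c : ℕ} (hc : c ∈ cidx t) (W : ℕ) : mf t (W * 3 ^ t + c) = c := by
  obtain ⟨_, h1, h2⟩ := Hit_mem_cidx hc
  unfold mf
  have h3 : (W * 3 ^ t + c) % 3 ^ t = c := by
    rw [Nat.mul_comm, Nat.mul_add_mod, Nat.mod_eq_of_lt h1]
  rw [h3]
  omega

/-- a point of the unit `X` whose folded index is in the net, at the bottom -/
theorem Hit_bottom (h : IsNet h2 Nk) (X : Pt) (hX : Pr (n + t) X) :
    ∃ x, Pr (n + t + h2) x ∧ anc h2 x = X ∧ Cov h2 Nk (foldP h2 x) ∧ x.2 = X.2 * 3 ^ h2 := by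
  obtain ⟨_, ⟨y1, hy1, hy1'⟩, ⟨y2, hy2, hy2'⟩⟩ := h.sides
  have hpos : 0 < 3 ^ h2 := by positivity
  by_cases hpar : X.2 % 2 = 0
  · obtain ⟨x, hx1, hx2⟩ := exists_unfold (l := h2) X y1 ⟨hy1.1.1, hy1.1.2.1⟩
    have e1 : x.2 / 3 ^ h2 = X.2 := congrArg Prod.snd hx1
    have e2 : fold h2 x.2 = y1.2 := congrArg Prod.snd hx2
    have e3 : x.2 % 3 ^ h2 = 0 := by
      unfold fold at e2
      rw [e1, if_pos hpar] at e2
      omega
    refine ⟨x, Pr_of_foldP (hx1 ▸ hX) (hx2 ▸ hy1.1), hx1, hx2 ▸ hy1, ?_⟩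
    have := Nat.div_add_mod' x.2 (3 ^ h2)
    rw [e1, e3] at this
    omega
  · obtain ⟨x, hx1, hx2⟩ := exists_unfold (l := h2) X y2 ⟨hy2.1.1, hy2.1.2.1⟩
    have e1 : x.2 / 3 ^ h2 = X.2 := congrArg Prod.snd hx1
    have e2 : fold h2 x.2 = y2.2 := congrArg Prod.snd hx2
    have e3 : x.2 % 3 ^ h2 = 0 := by
      unfold fold at e2
      rw [e1, if_neg hpar] at e2
      have := Nat.mod_lt x.2 hpos
      omega
    refine ⟨x, Pr_of_foldP (hx1 ▸ hX) (hx2 ▸ hy2.1), hx1, hx2 ▸ hy2, ?_⟩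
    have := Nat.div_add_mod' x.2 (3 ^ h2)
    rw [e1, e3] at this
    omega

theorem Hit_top (h : IsNet h2 Nk) (X : Pt) (hX : Pr (n + t) X) :
    ∃ x, Pr (n + t + h2) x ∧ anc h2 x = X ∧ Cov h2 Nk (foldP h2 x) ∧
      x.2 + 1 = X.2 * 3 ^ h2 + 3 ^ h2 := by
  obtain ⟨_, ⟨y1, hy1, hy1'⟩, ⟨y2, hy2, hy2'⟩⟩ := h.sides
  have hpos : 0 < 3 ^ h2 := by positivity
  by_cases hpar : X.2 % 2 = 0
  · obtain ⟨x, hx1, hx2⟩ := exists_unfold (l := h2) X y2 ⟨hy2.1.1, hy2.1.2.1⟩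
    have e1 : x.2 / 3 ^ h2 = X.2 := congrArg Prod.snd hx1
    have e2 : fold h2 x.2 = y2.2 := congrArg Prod.snd hx2
    have e3 : x.2 % 3 ^ h2 + 1 = 3 ^ h2 := by
      unfold fold at e2
      rw [e1, if_pos hpar] at e2
      omega
    refine ⟨x, Pr_of_foldP (hx1 ▸ hX) (hx2 ▸ hy2.1), hx1, hx2 ▸ hy2, ?_⟩
    have := Nat.div_add_mod' x.2 (3 ^ h2)
    rw [e1] at this
    omega
  · obtain ⟨x, hx1, hx2⟩ := exists_unfold (l := h2) X y1 ⟨hy1.1.1, hy1.1.2.1⟩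
    have e1 : x.2 / 3 ^ h2 = X.2 := congrArg Prod.snd hx1
    have e2 : fold h2 x.2 = y1.2 := congrArg Prod.snd hx2
    have e3 : x.2 % 3 ^ h2 + 1 = 3 ^ h2 := by
      unfold fold at e2
      rw [e1, if_neg hpar] at e2
      have := Nat.mod_lt x.2 hpos
      omega
    refine ⟨x, Pr_of_foldP (hx1 ▸ hX) (hx2 ▸ hy1.1), hx1, hx2 ▸ hy1, ?_⟩
    have := Nat.div_add_mod' x.2 (3 ^ h2)
    rw [e1] at this
    omega

/-- the crossing of one strip -/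
theorem Hit_core (h : IsNet h2 Nk) {c : ℕ} (hc : c ∈ cidx t) {P : Pt → Prop} {W : ℕ} {p q : Pt}
    (hP : ∀ z, P z → Pr (n + t + h2) z ∧ Nr 1 (anc (t + h2) z) Qc ∧
       (W * 3 ^ t + c) * 3 ^ h2 ≤ z.1 ∧ z.1 < (W * 3 ^ t + c) * 3 ^ h2 + 3 ^ h2)
    (hpq : Reach P p q) (hp : p.1 = (W * 3 ^ t + c) * 3 ^ h2)
    (hq : q.1 + 1 = (W * 3 ^ t + c) * 3 ^ h2 + 3 ^ h2) :
    ∃ x, P x ∧ Chn n t h2 Qc Nk c x := by
  classical
  obtain ⟨hcc, hct, hc2⟩ := Hit_mem_cidx hc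
  have hpos : 0 < 3 ^ h2 := by positivity
  have hpost : 0 < 3 ^ t := by positivity
  have hD : 3 ^ (t + h2) = 3 ^ t * 3 ^ h2 := pow_add _ _ _
  -- coordinates of the points of `P`
  have hx1 : ∀ z, P z → z.1 / 3 ^ h2 = W * 3 ^ t + c := by
    intro z hz
    obtain ⟨_, _, k1, k2⟩ := hP z hz
    rw [Nat.div_eq_iff hpos]
    omega
  have hW : (W * 3 ^ t + c) / 3 ^ t = W := by
    rw [Nat.div_eq_iff hpost]
    omega
  have hx2 : ∀ z, P z → z.1 / 3 ^ (t + h2) = W := by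
    intro z hz
    rw [hD, Nat.mul_comm, ← Nat.div_div_eq_div_mul, hx1 z hz, hW]
  let Good : ℕ → Prop := fun Y => Pr n (W, Y) ∧ Y ≤ Qc.2 + 1 ∧ Qc.2 ≤ Y + 1
  have hGood : ∀ z, P z → Good (z.2 / 3 ^ (t + h2)) := by
    intro z hz
    obtain ⟨k1, k2, _⟩ := hP z hz
    refine ⟨?_, ?_, ?_⟩
    · have k3 : Pr n (anc (t + h2) z) := Pr.anc (k := t + h2) (by rw [← Nat.add_assoc]; exact k1)
      have k4 : anc (t + h2) z = (W, z.2 / 3 ^ (t + h2)) := by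
        unfold anc; rw [hx2 z hz]
      rwa [k4] at k3
    · exact k2.2.2.1
    · exact k2.2.2.2
  have hP0 : P p := hpq.left
  obtain ⟨Y0, hY0⟩ : ∃ Y0, Y0 = p.2 / 3 ^ (t + h2) := ⟨_, rfl⟩
  have hG0 : Good Y0 := hY0 ▸ hGood p hP0
  have hbase : ∀ Y', Y0 ≤ Y' → Y' ≤ Y0 → Good Y' :=
    fun Y' k1 k2 => by rw [le_antisymm k2 k1]; exact hG0
  have hex : ∃ y, ∀ Y', y ≤ Y' → Y' ≤ Y0 → Good Y' := ⟨Y0, hbase⟩
  obtain ⟨Y1, hY1eq⟩ : ∃ Y1, Y1 = Nat.find hex := ⟨_, rfl⟩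
  have hY1 : ∀ Y', Y1 ≤ Y' → Y' ≤ Y0 → Good Y' := hY1eq ▸ Nat.find_spec hex
  have hY1min : ∀ m, m < Y1 → ¬ (∀ Y', m ≤ Y' → Y' ≤ Y0 → Good Y') := fun m hm =>
    Nat.find_min hex (hY1eq ▸ hm)
  have hY10 : Y1 ≤ Y0 := hY1eq ▸ Nat.find_min' hex hbase
  obtain ⟨Y2, hY2eq⟩ : ∃ Y2, Y2 = Nat.findGreatest (fun y => ∀ Y', Y0 ≤ Y' → Y' ≤ y → Good Y')
    (Qc.2 + 1) := ⟨_, rfl⟩
  have hY2 : ∀ Y', Y0 ≤ Y' → Y' ≤ Y2 → Good Y' := by
    have := Nat.findGreatest_spec (P := fun y => ∀ Y', Y0 ≤ Y' → Y' ≤ y → Good Y')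
      (m := Y0) (n := Qc.2 + 1) hG0.2.1 hbase
    rw [← hY2eq] at this
    exact this
  have hY02 : Y0 ≤ Y2 := by
    rw [hY2eq]
    exact Nat.le_findGreatest hG0.2.1 hbase
  have hY2max : ∀ m, Y2 < m → m ≤ Qc.2 + 1 → ¬ (∀ Y', Y0 ≤ Y' → Y' ≤ m → Good Y') := by
    intro m k1 k2
    rw [hY2eq] at k1
    exact Nat.findGreatest_is_greatest k1 k2
  have hall : ∀ Y, Y1 ≤ Y → Y ≤ Y2 → Good Y := by
    intro Y k1 k2
    rcases le_total Y Y0 with k3 | k3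
    · exact hY1 Y k1 k3
    · exact hY2 Y k3 k2
  -- the path stays between `Y1` and `Y2`
  have hpath : ∀ z, Relation.ReflTransGen (fun x y => Sd x y ∧ P y) p z →
      Reach (fun z => P z ∧ Y1 ≤ z.2 / 3 ^ (t + h2) ∧ z.2 / 3 ^ (t + h2) ≤ Y2) p z := by
    intro z hz
    induction hz with
    | refl => exact Reach.refl ⟨hP0, hY0 ▸ hY10, hY0 ▸ hY02⟩
    | @tail z z' hzz hstep ih =>
      obtain ⟨_, k1, k2⟩ := ih.right
      have hG := hGood z' hstep.2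
      have k3 := Nr.anc (Sd.nr hstep.1) (t + h2)
      have k4 : z.2 / 3 ^ (t + h2) ≤ z'.2 / 3 ^ (t + h2) + 1 := k3.2.2.1
      have k5 : z'.2 / 3 ^ (t + h2) ≤ z.2 / 3 ^ (t + h2) + 1 := k3.2.2.2
      refine ih.tail hstep.1 ⟨hstep.2, ?_, ?_⟩
      · by_contra k6
        refine hY1min (z'.2 / 3 ^ (t + h2)) (by omega) fun Y' k7 k8 => ?_
        rcases k7.eq_or_lt with k9 | k9
        · rw [← k9]; exact hG
        · exact hY1 Y' (by omega) k8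
      · by_contra k6
        refine hY2max (z'.2 / 3 ^ (t + h2)) (by omega) hG.2.1 fun Y' k7 k8 => ?_
        rcases k8.eq_or_lt with k9 | k9
        · rw [k9]; exact hG
        · exact hY2 Y' k7 (by omega)
  -- the units of the strip
  have hPU : ∀ X : Pt, (X.1 = W * 3 ^ t + c ∧ Y1 * 3 ^ t ≤ X.2 ∧ X.2 < (Y2 + 1) * 3 ^ t) →
      Pr (n + t) X := by
    rintro ⟨X1, X2⟩ ⟨k1, k2, k3⟩
    simp only at k1 k2 k3
    subst k1
    have k4 : Y1 ≤ X2 / 3 ^ t := (Nat.le_div_iff_mul_le hpost).2 k2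
    have k5 : X2 / 3 ^ t ≤ Y2 := Nat.lt_succ_iff.1 ((Nat.div_lt_iff_lt_mul hpost).2 k3)
    have k6 := Pr_col (hall _ k4 k5).1 hcc (Nat.mod_lt X2 hpost)
    have k7 : X2 / 3 ^ t * 3 ^ t + X2 % 3 ^ t = X2 := Nat.div_add_mod' X2 (3 ^ t)
    simp only at k6
    rwa [k7] at k6
  have hconn := conn_unfold h (Hit_vert (W * 3 ^ t + c) (Y1 * 3 ^ t) ((Y2 + 1) * 3 ^ t)) hPU
  have hY12 : (Y1 + 1) * 3 ^ t ≤ (Y2 + 1) * 3 ^ t := Nat.mul_le_mul_right _ (by omega)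
  have hY12' : Y1 * 3 ^ t < (Y2 + 1) * 3 ^ t := by
    have : (Y1 + 1) * 3 ^ t = Y1 * 3 ^ t + 3 ^ t := by ring
    omega
  obtain ⟨c1, hc1, hc1', hc1'', hc1b⟩ := Hit_bottom h (W * 3 ^ t + c, Y1 * 3 ^ t)
    (hPU _ ⟨rfl, le_rfl, hY12'⟩)
  obtain ⟨d1, hd1, hd1', hd1'', hd1b⟩ := Hit_top h (W * 3 ^ t + c, (Y2 + 1) * 3 ^ t - 1)
    (hPU _ ⟨rfl, by show _ ≤ (Y2 + 1) * 3 ^ t - 1; omega,
      by show (Y2 + 1) * 3 ^ t - 1 < _; omega⟩)
  have hcd := hconn c1 d1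
    ⟨hc1, by rw [hc1']; exact ⟨rfl, le_rfl, hY12'⟩, hc1''⟩
    ⟨hd1, by rw [hd1']; exact ⟨rfl, by show _ ≤ (Y2 + 1) * 3 ^ t - 1; omega,
      by show (Y2 + 1) * 3 ^ t - 1 < _; omega⟩, hd1''⟩
  have hd1c : d1.2 = (Y2 + 1) * 3 ^ t * 3 ^ h2 - 1 := by
    have k1 : ((Y2 + 1) * 3 ^ t - 1) * 3 ^ h2 + 3 ^ h2 = (Y2 + 1) * 3 ^ t * 3 ^ h2 := by
      have : (Y2 + 1) * 3 ^ t - 1 + 1 = (Y2 + 1) * 3 ^ t := by omega
      rw [← Nat.succ_mul, Nat.succ_eq_add_one, this]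
    simp only at hd1b
    omega
  have hq' : q.1 = (W * 3 ^ t + c) * 3 ^ h2 + 3 ^ h2 - 1 := by omega
  obtain ⟨x, hx, hx'⟩ := cross (x0 := (W * 3 ^ t + c) * 3 ^ h2)
    (x1 := (W * 3 ^ t + c) * 3 ^ h2 + 3 ^ h2 - 1) (y0 := Y1 * 3 ^ t * 3 ^ h2)
    (y1 := (Y2 + 1) * 3 ^ t * 3 ^ h2 - 1)
    (S := fun z => P z ∧ Y1 ≤ z.2 / 3 ^ (t + h2) ∧ z.2 / 3 ^ (t + h2) ≤ Y2)
    (T := fun x => Pr (n + t + h2) x ∧ ((anc h2 x).1 = W * 3 ^ t + c ∧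
      Y1 * 3 ^ t ≤ (anc h2 x).2 ∧ (anc h2 x).2 < (Y2 + 1) * 3 ^ t) ∧ Cov h2 Nk (foldP h2 x))
    (by
      rintro z ⟨k1, k2, k3⟩
      obtain ⟨_, _, k4, k5⟩ := hP z k1
      rw [hD, Nat.le_div_iff_mul_le (by positivity)] at k2
      have k3' : z.2 / 3 ^ (t + h2) < Y2 + 1 := by omega
      rw [hD, Nat.div_lt_iff_lt_mul (by positivity)] at k3'
      refine ⟨k4, by omega, ?_, ?_⟩
      · rw [Nat.mul_assoc]; exact k2
      · rw [Nat.mul_assoc]; omega)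
    (by
      rintro z ⟨_, ⟨k1, k2, k3⟩, _⟩
      have k1' : z.1 / 3 ^ h2 = W * 3 ^ t + c := k1
      have k2' : Y1 * 3 ^ t ≤ z.2 / 3 ^ h2 := k2
      have k3' : z.2 / 3 ^ h2 < (Y2 + 1) * 3 ^ t := k3
      rw [Nat.le_div_iff_mul_le hpos] at k2'
      rw [Nat.div_lt_iff_lt_mul hpos] at k3'
      rw [Nat.div_eq_iff hpos] at k1'
      refine ⟨?_, ?_, k2', ?_⟩ <;> omega)
    (hpath q hpq.2) hp hq' hcd hc1b hd1c
  obtain ⟨hxP, _⟩ := hx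
  obtain ⟨k1, k2, k3⟩ := hx'
  refine ⟨x, hxP, k1, ⟨hPU _ k2, ?_, Or.inl ?_⟩, k3⟩
  · rw [anc_anc]; exact (hP x hxP).2.1
  · rw [k2.1]; exact Hit_mf hc W

/-- exit through a vertical side of the block -/
theorem Hit_x (h : IsNet h2 Nk) {c : ℕ} (hc : c ∈ cidx t) {S : Pt → Prop} {a b : Pt}
    (hS : ∀ x, S x → Pr (n + t + h2) x ∧ Nr 1 (anc (t + h2) x) Qc) (hab : Reach S a b)
    (ha : anc (t + h2) a = Qc)
    (hb : (Qc.1 + 2) * 3 ^ (t + h2) ≤ b.1 + 1 ∨ b.1 + 3 ^ (t + h2) ≤ Qc.1 * 3 ^ (t + h2)) :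
    ∃ x, S x ∧ Chn n t h2 Qc Nk c x := by
  obtain ⟨hcc, hct, hc2⟩ := Hit_mem_cidx hc
  have hpos : 0 < 3 ^ h2 := by positivity
  have hpost : 0 < 3 ^ t := by positivity
  have hD : 3 ^ (t + h2) = 3 ^ t * 3 ^ h2 := pow_add _ _ _
  have ha1 : a.1 / 3 ^ (t + h2) = Qc.1 := congrArg Prod.fst ha
  rw [Nat.div_eq_iff (by positivity)] at ha1
  have hlo : ∀ W : ℕ, W * 3 ^ (t + h2) ≤ (W * 3 ^ t + c) * 3 ^ h2 := by
    intro W
    rw [hD, ← Nat.mul_assoc]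
    exact Nat.mul_le_mul_right _ (by omega)
  have hhi : ∀ W : ℕ, (W * 3 ^ t + c) * 3 ^ h2 + 3 ^ h2 ≤ (W + 1) * 3 ^ (t + h2) := by
    intro W
    have k1 : (W * 3 ^ t + c) * 3 ^ h2 + 3 ^ h2 = (W * 3 ^ t + c + 1) * 3 ^ h2 := by ring
    have k2 : (W + 1) * 3 ^ (t + h2) = (W * 3 ^ t + 3 ^ t) * 3 ^ h2 := by rw [hD]; ring
    rw [k1, k2]
    exact Nat.mul_le_mul_right _ (by omega)
  rcases hb with hb | hb
  · have k1 := hlo (Qc.1 + 1)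
    have k2 := hhi (Qc.1 + 1)
    have k3 : (Qc.1 + 1 + 1) * 3 ^ (t + h2) = (Qc.1 + 2) * 3 ^ (t + h2) := by ring
    have k4 : (Qc.1 + 1) * 3 ^ (t + h2) = Qc.1 * 3 ^ (t + h2) + 3 ^ (t + h2) := by ring
    obtain ⟨p, q, hpq, hp, hq⟩ := Hit_strip hab
      (lo := ((Qc.1 + 1) * 3 ^ t + c) * 3 ^ h2)
      (hi := ((Qc.1 + 1) * 3 ^ t + c) * 3 ^ h2 + 3 ^ h2 - 1) (by omega) (by omega) (by omega)
    obtain ⟨x, hx, hx'⟩ := Hit_core (n := n) (Qc := Qc) h hc (W := Qc.1 + 1)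
      (fun z hz => ⟨(hS z hz.1).1, (hS z hz.1).2, hz.2.1, by have := hz.2.2; omega⟩)
      hpq hp (by omega)
    exact ⟨x, hx.1, hx'⟩
  · obtain ⟨W, hW⟩ : ∃ W, Qc.1 = W + 1 := by
      rcases Nat.eq_zero_or_pos Qc.1 with k0 | k0
      · rw [k0, Nat.zero_mul] at hb
        have : 0 < 3 ^ (t + h2) := by positivity
        omega
      · exact ⟨Qc.1 - 1, by omega⟩
    have k1 := hlo W
    have k2 := hhi W
    have k3 : (W + 1) * 3 ^ (t + h2) = W * 3 ^ (t + h2) + 3 ^ (t + h2) := by ring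
    rw [hW] at ha1 hb
    obtain ⟨p, q, hpq, hp, hq⟩ := Hit_strip hab.symm
      (lo := (W * 3 ^ t + c) * 3 ^ h2)
      (hi := (W * 3 ^ t + c) * 3 ^ h2 + 3 ^ h2 - 1) (by omega) (by omega) (by omega)
    obtain ⟨x, hx, hx'⟩ := Hit_core (n := n) (Qc := Qc) h hc (W := W)
      (fun z hz => ⟨(hS z hz.1).1, (hS z hz.1).2, hz.2.1, by have := hz.2.2; omega⟩)
      hpq hp (by omega)
    exact ⟨x, hx.1, hx'⟩

theorem Hit_swap_Sd {a b : Pt} (h : Sd a b) : Sd a.swap b.swap := by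
  rcases h with h | h
  · exact Or.inr h
  · exact Or.inl h

theorem Hit_swap_Pr {n : ℕ} {a : Pt} (h : Pr n a) : Pr n a.swap :=
  ⟨h.2.1, h.1, fun k hk hh => h.2.2 k hk ⟨hh.2, hh.1⟩⟩

theorem Hit_swap_Nr {D : ℕ} {a b : Pt} (h : Nr D a b) : Nr D a.swap b.swap :=
  ⟨h.2.2.1, h.2.2.2, h.1, h.2.1⟩

theorem Hit_swap_Reach {S : Pt → Prop} {a b : Pt} (h : Reach S a b) :
    Reach (fun x => S x.swap) a.swap b.swap := by
  obtain ⟨h1, h2⟩ := h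
  induction h2 with
  | refl => exact Reach.refl (by rw [Prod.swap_swap]; exact h1)
  | tail _ hstep ih =>
    exact ih.tail (Hit_swap_Sd hstep.1) (by rw [Prod.swap_swap]; exact hstep.2)

theorem Hit_swap_Cov (h : IsNet h2 Nk) {y : Pt} (hy : Cov h2 Nk y.swap) : Cov h2 Nk y := by
  obtain ⟨h1, d, hd, hd1, hd2⟩ := hy
  refine ⟨by have := Hit_swap_Pr h1; rwa [Prod.swap_swap] at this,
    (d.1, act (false, false, true) d.1 d.2), h.sym _ d hd, hd1, ?_⟩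
  show anc (h2 - d.1) y = (d.2.2, d.2.1)
  rw [← hd2]
  rfl

theorem Hit_swap_Chn (h : IsNet h2 Nk) {c : ℕ} {x : Pt}
    (hx : Chn n t h2 Qc.swap Nk c x.swap) : Chn n t h2 Qc Nk c x := by
  obtain ⟨h1, ⟨h3, h4, h5⟩, h6⟩ := hx
  refine ⟨by have := Hit_swap_Pr h1; rwa [Prod.swap_swap] at this,
    ⟨?_, ?_, ?_⟩, Hit_swap_Cov h h6⟩
  · have := Hit_swap_Pr h3; exact this
  · have := Hit_swap_Nr h4; exact this
  · exact h5.symm

/-- Every side-path of fine cells from `Qc` to the outside of the `3 × 3` block of cells of level `n` meets every channel.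
Let `b'` be the first point of the path outside of the block; say it leaves in the first coordinate to the right: the level `n`
first coordinate of `b'` is `Qc.1 + 2` (other cases: to the left, or second coordinate, in the same way / by exchanging
coordinates). Let `X = (Qc.1+1) * 3^t + c` (number of a column of units, `mf t X = c`; to the left: `(Qc.1-1) * 3^t + 3^t-1-c` or the like). The
path crosses the vertical strip of fine cells with first unit coordinate `X`: there is a part of it inside the strip joining its two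
sides. It visits the cells `(Qc.1+1, Y)` of level `n` for `Y` in an interval `[Y1,Y2]`, all present (because they contain present fine cells).
In the strip, above `[Y1,Y2]`, the units `(X, y)`, `y / 3^t ∈ [Y1,Y2]`, are present and belong to the route, and the copies of the net in them
form (by `conn_unfold`) a side-connected set from the bottom to the top of the rectangle. `cross`. -/
theorem hit (h : IsNet h2 Nk) (hQ : Pr n Qc) {c : ℕ} (hc : c ∈ cidx t) {S : Pt → Prop} {a b : Pt}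
    (hS : ∀ x, S x → Pr (n + t + h2) x) (hab : Reach S a b) (ha : anc (t + h2) a = Qc)
    (hb : ¬ Nr 1 (anc (t + h2) b) Qc) : ∃ x, S x ∧ Chn n t h2 Qc Nk c x := by
  have hpos : 0 < 3 ^ (t + h2) := by positivity
  obtain ⟨b', b'', h1, h3, _, h5⟩ := Hit_exit (B := fun z => Nr 1 (anc (t + h2) z) Qc) hab
    (by show Nr 1 (anc (t + h2) a) Qc; rw [ha]; exact Nr.rfl) hb
  have hS' : ∀ x, (S x ∧ Nr 1 (anc (t + h2) x) Qc) →
      Pr (n + t + h2) x ∧ Nr 1 (anc (t + h2) x) Qc := fun x hx => ⟨hS x hx.1, hx.2⟩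
  have h6 : ¬ (b''.1 / 3 ^ (t + h2) ≤ Qc.1 + 1 ∧ Qc.1 ≤ b''.1 / 3 ^ (t + h2) + 1 ∧
      b''.2 / 3 ^ (t + h2) ≤ Qc.2 + 1 ∧ Qc.2 ≤ b''.2 / 3 ^ (t + h2) + 1) := h5
  -- far to one side in one coordinate
  have far : ∀ u v q : ℕ, u ≤ v + 1 → v ≤ u + 1 →
      (¬ (u / 3 ^ (t + h2) ≤ q + 1) ∨ ¬ (q ≤ u / 3 ^ (t + h2) + 1)) →
      (q + 2) * 3 ^ (t + h2) ≤ v + 1 ∨ v + 3 ^ (t + h2) ≤ q * 3 ^ (t + h2) := by
    intro u v q huv hvu hh
    rcases hh with hh | hh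
    · left
      have k1 : q + 2 ≤ u / 3 ^ (t + h2) := by omega
      rw [Nat.le_div_iff_mul_le hpos] at k1
      omega
    · right
      have k0 : u / 3 ^ (t + h2) + 1 < q := not_le.1 hh
      obtain ⟨r, rfl⟩ : ∃ r, q = r + 1 := Nat.exists_eq_succ_of_ne_zero (by
        rintro rfl; exact absurd k0 (Nat.not_lt_zero _))
      have k1 : u / 3 ^ (t + h2) < r := Nat.lt_of_succ_lt_succ k0
      rw [Nat.div_lt_iff_lt_mul hpos] at k1
      have k2 : (r + 1) * 3 ^ (t + h2) = r * 3 ^ (t + h2) + 3 ^ (t + h2) := by ring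
      omega
  have hsd : b''.1 ≤ b'.1 + 1 ∧ b'.1 ≤ b''.1 + 1 ∧ b''.2 ≤ b'.2 + 1 ∧ b'.2 ≤ b''.2 + 1 := by
    unfold Sd at h3; omega
  by_cases hx : b''.1 / 3 ^ (t + h2) ≤ Qc.1 + 1 ∧ Qc.1 ≤ b''.1 / 3 ^ (t + h2) + 1
  · have hy : ¬ (b''.2 / 3 ^ (t + h2) ≤ Qc.2 + 1) ∨ ¬ (Qc.2 ≤ b''.2 / 3 ^ (t + h2) + 1) := by
      by_contra hcon
      rw [not_or, not_not, not_not] at hcon
      exact h6 ⟨hx.1, hx.2, hcon.1, hcon.2⟩
    have hfar := far b''.2 b'.2 Qc.2 hsd.2.2.1 hsd.2.2.2 hy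
    obtain ⟨x, hxS, hxC⟩ := Hit_x (n := n) (Qc := Qc.swap) h hc
      (S := fun x => S x.swap ∧ Nr 1 (anc (t + h2) x.swap) Qc)
      (fun x hx => ⟨by have := Hit_swap_Pr (hS _ hx.1); rwa [Prod.swap_swap] at this,
        Hit_swap_Nr hx.2⟩)
      (Hit_swap_Reach h1) (congrArg Prod.swap ha) hfar
    exact ⟨x.swap, hxS.1, Hit_swap_Chn h (by rw [Prod.swap_swap]; exact hxC)⟩
  · have hx' : ¬ (b''.1 / 3 ^ (t + h2) ≤ Qc.1 + 1) ∨ ¬ (Qc.1 ≤ b''.1 / 3 ^ (t + h2) + 1) := by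
      by_contra hcon
      rw [not_or, not_not, not_not] at hcon
      exact hx ⟨hcon.1, hcon.2⟩
    have hfar := far b''.1 b'.1 Qc.1 hsd.1 hsd.2.1 hx'
    obtain ⟨x, hxS, hxC⟩ := Hit_x h hc hS' h1 ha hfar
    exact ⟨x, hxS.1, hxC⟩

end UCP
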