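import Mathlib

/-!
[UCP-LC] counting levels; abstract pigeonhole.
-/

namespace UCP

theorem Level_bad {μ : ℝ} (hμ : 0 < μ) (j L : ℕ) (g : ℕ → ℝ) (h0 : g 0 = 0) (hL : μ / 2 ≤ g L)
    (hb : ¬ ∃ i, 1 ≤ i ∧ i ≤ L ∧ (∀ l < i, g l ≤ μ / 4 ^ (j + 1)) ∧
      g (i - 1) ≤ μ / 4 ^ (j + 1) / 2 ∧ 2 * (μ / 4 ^ (j + 1)) ≤ g i) :
    ∃ i, i < L + 1 ∧ μ / 4 ^ (j + 1) / 2 < g i ∧ g i < 2 * (μ / 4 ^ (j + 1)) := by
  classical
  set a := μ / 4 ^ (j + 1) with ha
  have ha0 : 0 < a := by positivity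
  have ha4 : a ≤ μ / 4 := by
    rw [ha]
    apply div_le_div_of_nonneg_left hμ.le (by norm_num)
    calc (4 : ℝ) = 4 ^ 1 := by norm_num
      _ ≤ 4 ^ (j + 1) := pow_le_pow_right₀ (by norm_num) (by omega)
  have hex : ∃ i, a < g i := ⟨L, by linarith⟩
  set i := Nat.find hex with hi
  have h1 : a < g i := Nat.find_spec hex
  have hiL : i ≤ L := Nat.find_min' hex (by linarith)
  have hl : ∀ l < i, g l ≤ a := fun l hl => not_lt.mp (Nat.find_min hex hl)
  have hi1 : 1 ≤ i := by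
    rcases Nat.eq_zero_or_pos i with h | h
    · rw [h, h0] at h1; linarith
    · exact h
  by_cases h2 : 2 * a ≤ g i
  · by_cases h3 : g (i - 1) ≤ a / 2
    · exact absurd ⟨i, hi1, hiL, hl, h3, h2⟩ hb
    · refine ⟨i - 1, by omega, not_le.mp h3, ?_⟩
      have := hl (i - 1) (by omega)
      linarith
  · exact ⟨i, by omega, by linarith, not_le.mp h2⟩

theorem Level_sep {μ : ℝ} (hμ : 0 < μ) {j j' : ℕ} {x : ℝ} (h : j < j')
    (h1 : μ / 4 ^ (j + 1) / 2 < x) (h2 : x < 2 * (μ / 4 ^ (j' + 1))) : False := by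
  have h3 : μ / 4 ^ (j' + 1) ≤ μ / 4 ^ (j + 1) / 4 := by
    rw [div_div, ← pow_succ]
    apply div_le_div_of_nonneg_left hμ.le (by positivity)
    exact pow_le_pow_right₀ (by norm_num) (by omega)
  linarith

/-- [UCP-LC] `a j = μ / 4^(j+1)`. For every `j` there is a first `i` with `a j < g i` (`2 a j ≤ μ/2 ≤ g L`), `i ≥ 1`. If `i` is not as
required, then `a j < g i < 2 a j` or `a j / 2 < g (i-1) ≤ a j`. A given index `i ≤ L` does this for at most one `j` (`a j` in the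
open interval `(g i / 2, 2 g i)`, ratio of the end points `4`). So at most `L + 1` bad `j`. -/
theorem level_count {μ : ℝ} (hμ : 0 < μ) (J L : ℕ) (g : ℕ → ℝ) (h0 : g 0 = 0) (hL : μ / 2 ≤ g L) :
    J ≤ {j | j < J ∧ ∃ i, 1 ≤ i ∧ i ≤ L ∧ (∀ l < i, g l ≤ μ / 4 ^ (j + 1)) ∧
      g (i - 1) ≤ μ / 4 ^ (j + 1) / 2 ∧ 2 * (μ / 4 ^ (j + 1)) ≤ g i}.ncard + (L + 1) := by
  classical
  set P : ℕ → Prop := fun j => ∃ i, 1 ≤ i ∧ i ≤ L ∧ (∀ l < i, g l ≤ μ / 4 ^ (j + 1)) ∧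
      g (i - 1) ≤ μ / 4 ^ (j + 1) / 2 ∧ 2 * (μ / 4 ^ (j + 1)) ≤ g i with hP
  have e : {j | j < J ∧ P j} = (((Finset.range J).filter P : Finset ℕ) : Set ℕ) := by
    ext j; simp
  change J ≤ {j | j < J ∧ P j}.ncard + (L + 1)
  rw [e, Set.ncard_coe_finset]
  have h1 := Finset.card_filter_add_card_filter_not (s := Finset.range J) P
  have h2 : ((Finset.range J).filter (fun j => ¬ P j)).card ≤ (Finset.range (L + 1)).card := by
    have key : ∀ j, ¬ P j → ∃ i, i < L + 1 ∧ μ / 4 ^ (j + 1) / 2 < g i ∧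
        g i < 2 * (μ / 4 ^ (j + 1)) := fun j hj => Level_bad hμ j L g h0 hL hj
    choose! φ hφ using key
    apply Finset.card_le_card_of_injOn φ
    · intro j hj
      simp only [Finset.coe_filter, Set.mem_ofPred_eq] at hj
      simpa using (hφ j hj.2).1
    · intro j hj j' hj' he
      simp only [Finset.coe_filter, Set.mem_ofPred_eq] at hj hj'
      obtain ⟨-, a1, a2⟩ := hφ j hj.2
      obtain ⟨-, b1, b2⟩ := hφ j' hj'.2
      rw [← he] at b1 b2
      rcases lt_trichotomy j j' with h | h | h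
      · exact (Level_sep hμ h a1 b2).elim
      · exact h
      · exact (Level_sep hμ h b1 a2).elim
  rw [Finset.card_range] at h1 h2
  omega

end UCP
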