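import Pool.Agent.UCP.GoodLevel
import Pool.Agent.UCP.Level
import Pool.Agent.UCP.Hit

/-!
[UCP-CL] for one channel most levels are good.
-/

namespace UCP

/-- maximum of `|f|` over the fine cells of a cell -/
noncomputable def mx (f : Pt → ℝ) (M : ℕ) (p : ℕ × Pt) : ℝ :=
  sSup ((fun x => |f x|) '' {x | Pr M x ∧ anc p.1 x = p.2})

theorem finite_Pr (M : ℕ) (P : Pt → Prop) : {x | Pr M x ∧ P x}.Finite := by
  refine Set.Finite.subset (s := ((Finset.range (3 ^ M) ×ˢ Finset.range (3 ^ M) : Finset Pt) : Set Pt))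
    (Finset.finite_toSet _) ?_
  rintro x ⟨h, -⟩
  simp only [Finset.coe_product, Finset.coe_range, Set.mem_prod, Set.mem_Iio]
  exact ⟨h.1, h.2.1⟩

theorem le_mx {f : Pt → ℝ} {M : ℕ} {p : ℕ × Pt} {x : Pt} (hx : Pr M x) (hp : anc p.1 x = p.2) :
    |f x| ≤ mx f M p := by
  apply le_csSup
  · exact ((finite_Pr M _).image _).bddAbove
  · exact ⟨x, ⟨hx, hp⟩, rfl⟩

theorem exists_mx {f : Pt → ℝ} {M : ℕ} {p : ℕ × Pt} (hne : ∃ x, Pr M x ∧ anc p.1 x = p.2) :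
    ∃ x, Pr M x ∧ anc p.1 x = p.2 ∧ |f x| = mx f M p := by
  have h := Set.Nonempty.csSup_mem (s := (fun x => |f x|) '' {x | Pr M x ∧ anc p.1 x = p.2})
    (by obtain ⟨x, hx⟩ := hne; exact ⟨_, x, hx, rfl⟩) ((finite_Pr M _).image _)
  obtain ⟨x, hx, h⟩ := h
  exact ⟨x, hx.1, hx.2, h⟩

theorem ch_levels {n t h2 : ℕ} {Cc Qc : Pt} {f : Pt → ℝ} {Nk : Finset (ℕ × Pt)} {c : ℕ}
    (hnet : IsNet h2 Nk) (hC : Pr n Cc) (hQ : Pr n Qc) (hCQ : Sd Cc Qc) (ht : 2 ≤ t)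
    (hc : c ∈ cidx t) (hf0 : ∀ x, Pr (n + t + h2) x → anc (t + h2) x = Cc → f x = 0)
    {m : ℝ} (hm : 0 < m) {S : Pt → Prop} {a b : Pt}
    (hS : ∀ x, S x → Pr (n + t + h2) x ∧ m / 2 < |f x|) (hab : Reach S a b)
    (ha : anc (t + h2) a = Qc) (hb : ¬ Nr 1 (anc (t + h2) b) Qc) (J : ℕ) :
    J ≤ {j | j < J ∧ Good n t h2 Cc Qc f (m / 4 ^ (j + 1)) Nk c}.ncard + Nk.card * 9 ^ (t + 1) := by
  classical
  have hCQ1 : Nr 1 Cc Qc := hCQ.nr
  obtain ⟨x, hxS, hxC⟩ := hit hnet hQ hc (fun x hx => (hS x hx).1) hab ha hb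
  -- a point in the ring
  obtain ⟨X, hX1, hX2⟩ := Rt_Rg (n := n) (t := t) hC hCQ1 hc
  obtain ⟨z0, hz0, -⟩ := hnet.left
  obtain ⟨y0, hy1, hy2⟩ := exists_unfold (l := h2) X z0 ⟨hz0.1.1, hz0.1.2.1⟩
  have hyP : Pr (n + t + h2) y0 := by
    refine Pr_of_foldP (n := n + t) (l := h2) ?_ ?_
    · rw [hy1]; exact hX1.1
    · rw [hy2]; exact hz0.1
  have hyC : Chn n t h2 Qc Nk c y0 := ⟨hyP, by rw [hy1]; exact hX1, by rw [hy2]; exact hz0⟩
  obtain ⟨L, d, hL, hd, hd0, hdL, hadj⟩ := exists_path (conn_Chn hnet hQ hc) hyC hxC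
  set M := n + t + h2 with hM
  set g : ℕ → ℝ := fun l => mx f M (d l) with hg
  have hg0 : g 0 = 0 := by
    obtain ⟨w, hw1, hw2, hw3⟩ := exists_mx (f := f) (M := M) (p := d 0) ⟨y0, hyP, hd0⟩
    rw [hg]
    simp only
    rw [← hw3, hf0 w hw1, abs_zero]
    obtain ⟨e, he, he1, -⟩ := hd 0 (Nat.zero_le _)
    have h3 : (d 0).1 ≤ h2 := by omega
    have h4 : anc h2 w = anc h2 y0 := by
      have h5 : h2 = (h2 - (d 0).1) + (d 0).1 := by omega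
      rw [h5, ← anc_anc, ← anc_anc, hw2, hd0]
    rw [← anc_anc, h4, hy1]
    exact hX2.2.1
  have hgL : m / 2 ≤ g L := by
    exact ((hS x hxS).2.le).trans (le_mx hxC.1 hdL)
  refine (level_count hm J L g hg0 hgL).trans ?_
  refine Nat.add_le_add ?_ hL
  apply Set.ncard_le_ncard
  · rintro j ⟨hj, i, hi1, hiL, h1, h2', h3⟩
    refine ⟨hj, d, i, y0, hi1, fun l hl => hd l (hl.trans hiL), hyP, by rw [hy1]; exact hX2, hd0,
      fun l hl => hadj l (by omega), ?_, ?_, ?_⟩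
    · intro l hl w hw hw'
      exact (le_mx hw hw').trans (h1 l hl)
    · intro w hw hw'
      exact (le_mx hw hw').trans h2'
    · have hne : ∃ x, Pr M x ∧ anc (d i).1 x = (d i).2 := by
        obtain ⟨e, he, he1, he2, he3, -⟩ := hd i hiL
        obtain ⟨w, hw1, hw2⟩ := exists_sub he3 (d i).1
        refine ⟨w, ?_, hw2⟩
        have : n + t + e.1 + (d i).1 = M := by omega
        rwa [this] at hw1
      obtain ⟨w, hw1, hw2, hw3⟩ := exists_mx (f := f) hne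
      exact ⟨w, hw1, hw2, by rw [hw3]; exact h3⟩
  · exact (Set.finite_lt_nat J).subset (fun j hj => hj.1)

end UCP
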