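import Pool.Agent.UCP.Channel

/-!
[UCP-T4] paths of net cells in a channel.
-/

namespace UCP

variable {n t h2 : ℕ} {Qc : Pt} {Nk : Finset (ℕ × Pt)}

/-- `p = (height, index)` is a net cell of the channel -/
def NC (n t h2 : ℕ) (Qc : Pt) (Nk : Finset (ℕ × Pt)) (c : ℕ) (p : ℕ × Pt) : Prop :=
  ∃ d ∈ Nk, p.1 + d.1 = h2 ∧ foldP d.1 p.2 = d.2 ∧ Pr (n + t + d.1) p.2 ∧ Rt n t Qc c (anc d.1 p.2)

/-- all fine cells of a net cell belong to the channel -/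
theorem NC.chn {c : ℕ} {p : ℕ × Pt} (h : NC n t h2 Qc Nk c p) {x : Pt} (hx : Pr (n + t + h2) x)
    (hp : anc p.1 x = p.2) : Chn n t h2 Qc Nk c x := by
  obtain ⟨d, hd, h1, h2', h3, h4⟩ := h
  refine ⟨hx, ?_, Pr_foldP hx (by omega), d, hd, by omega, ?_⟩
  · rw [← hp, anc_anc] at h4
    have e : d.1 + p.1 = h2 := by omega
    rw [e] at h4
    exact h4
  · rw [anc_foldP (by omega)]
    have e1 : h2 - (h2 - d.1) = d.1 := by omega
    have e2 : h2 - d.1 = p.1 := by omega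
    rw [e1, e2, hp, h2']

/-- every fine cell of the channel lies in a net cell -/
theorem exists_NC {c : ℕ} {x : Pt} (hx : Chn n t h2 Qc Nk c x) :
    ∃ p, NC n t h2 Qc Nk c p ∧ anc p.1 x = p.2 := by
  obtain ⟨hP, hR, -, d, hd, hd1, hd2⟩ := hx
  refine ⟨(h2 - d.1, anc (h2 - d.1) x), ⟨d, hd, ?_, ?_, ?_, ?_⟩, rfl⟩
  · show h2 - d.1 + d.1 = h2
    omega
  · show foldP d.1 (anc (h2 - d.1) x) = d.2
    rw [anc_foldP (by omega)] at hd2
    have e1 : h2 - (h2 - d.1) = d.1 := by omega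
    rw [e1] at hd2
    exact hd2
  · show Pr (n + t + d.1) (anc (h2 - d.1) x)
    apply Pr.anc
    have e1 : n + t + d.1 + (h2 - d.1) = n + t + h2 := by omega
    rw [e1]
    exact hP
  · show Rt n t Qc c (anc d.1 (anc (h2 - d.1) x))
    rw [anc_anc]
    have e1 : d.1 + (h2 - d.1) = h2 := by omega
    rw [e1]
    exact hR

theorem ChanPath_finite_Rt (n t : ℕ) (Qc : Pt) (c : ℕ) : {X | Rt n t Qc c X}.Finite := by
  apply Set.Finite.subset (s := (Set.Iio (3 ^ (n + t))) ×ˢ (Set.Iio (3 ^ (n + t))))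
  · exact (Set.finite_Iio _).prod (Set.finite_Iio _)
  · rintro X ⟨⟨h1, h2, -⟩, -⟩
    exact ⟨h1, h2⟩

/-- a net cell is determined by `d ∈ Nk` and by its unit (`unfold_unique`) -/
theorem card_NC (c : ℕ) : {p | NC n t h2 Qc Nk c p}.Finite ∧
    {p | NC n t h2 Qc Nk c p}.ncard ≤ Nk.card * 9 ^ (t + 1) := by
  have hfin : ((Nk : Set (ℕ × Pt)) ×ˢ {X | Rt n t Qc c X}).Finite :=
    (Finset.finite_toSet Nk).prod (ChanPath_finite_Rt n t Qc c)
  have hmap : ∀ p ∈ {p | NC n t h2 Qc Nk c p},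
      (((h2 - p.1, foldP (h2 - p.1) p.2), anc (h2 - p.1) p.2) : (ℕ × Pt) × Pt) ∈
        ((Nk : Set (ℕ × Pt)) ×ˢ {X | Rt n t Qc c X}) := by
    rintro p ⟨d, hd, h1, h2', h3, h4⟩
    have e : h2 - p.1 = d.1 := by omega
    simp only [e, h2']
    exact ⟨hd, h4⟩
  have hinj : Set.InjOn (fun p : ℕ × Pt =>
      (((h2 - p.1, foldP (h2 - p.1) p.2), anc (h2 - p.1) p.2) : (ℕ × Pt) × Pt))
      {p | NC n t h2 Qc Nk c p} := by
    rintro p ⟨d, -, h1, -⟩ p' ⟨d', -, h1', -⟩ hpp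
    simp only [Prod.mk.injEq] at hpp
    obtain ⟨⟨e1, e2⟩, e3⟩ := hpp
    have e4 : p.1 = p'.1 := by omega
    rw [← e4] at e2 e3
    exact Prod.ext e4 (unfold_unique e3 e2)
  refine ⟨Set.Finite.of_injOn hmap hinj hfin, ?_⟩
  refine (Set.ncard_le_ncard_of_injOn _ hmap hinj hfin).trans ?_
  rw [Set.ncard_prod, Set.ncard_coe_finset]
  exact Nat.mul_le_mul_left _ (card_Rt n t Qc c)

/-- the graph of net cells -/
def ChanPath_G (n t h2 : ℕ) (Qc : Pt) (Nk : Finset (ℕ × Pt)) (c : ℕ) :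
    SimpleGraph {p // NC n t h2 Qc Nk c p} where
  Adj p q := p ≠ q ∧ ∃ e e', Pr (n + t + h2) e ∧ Pr (n + t + h2) e' ∧ anc p.1.1 e = p.1.2 ∧
    anc q.1.1 e' = q.1.2 ∧ (e = e' ∨ Sd e e')
  symm := ⟨fun p q h => by
    obtain ⟨h1, e, e', a, b, c, d, h⟩ := h
    refine ⟨h1.symm, e', e, b, a, d, c, ?_⟩
    rcases h with h | h
    · exact Or.inl h.symm
    · exact Or.inr h.symm⟩
  loopless := ⟨fun p h => h.1 rfl⟩

/-- [UCP-T4] Two fine cells of a connected channel are joined by a sequence of at most `|Nk| 9^(t+1)` (distinct) net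
cells `d 0, …, d m`, consecutive ones containing equal or side-adjacent fine cells (take a path in the finite graph of net
cells without repetitions). -/
theorem exists_path {c : ℕ} (hconn : Conn (Chn n t h2 Qc Nk c)) {x y : Pt}
    (hx : Chn n t h2 Qc Nk c x) (hy : Chn n t h2 Qc Nk c y) :
    ∃ (m : ℕ) (d : ℕ → ℕ × Pt), m + 1 ≤ Nk.card * 9 ^ (t + 1) ∧
      (∀ i ≤ m, NC n t h2 Qc Nk c (d i)) ∧ anc (d 0).1 x = (d 0).2 ∧ anc (d m).1 y = (d m).2 ∧
      ∀ i < m, ∃ e e', Pr (n + t + h2) e ∧ Pr (n + t + h2) e' ∧ anc (d i).1 e = (d i).2 ∧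
        anc (d (i + 1)).1 e' = (d (i + 1)).2 ∧ (e = e' ∨ Sd e e') := by
  classical
  obtain ⟨p0, hp0, hp0x⟩ := exists_NC hx
  have key : ∀ y, Reach (Chn n t h2 Qc Nk c) x y → ∀ (q : ℕ × Pt) (hq : NC n t h2 Qc Nk c q),
      anc q.1 y = q.2 → (ChanPath_G n t h2 Qc Nk c).Reachable ⟨p0, hp0⟩ ⟨q, hq⟩ := by
    rintro y ⟨-, hr⟩
    induction hr with
    | refl =>
      intro q hq hqx
      by_cases hpq : (⟨p0, hp0⟩ : {p // NC n t h2 Qc Nk c p}) = ⟨q, hq⟩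
      · rw [hpq]
      · exact SimpleGraph.Adj.reachable ⟨hpq, x, x, hx.1, hx.1, hp0x, hqx, Or.inl rfl⟩
    | @tail b b' hb hstep ih =>
      intro q hq hqb
      have hbC : Chn n t h2 Qc Nk c b := Reach.right ⟨hx, hb⟩
      obtain ⟨r, hr, hrb⟩ := exists_NC hbC
      have h1 := ih r hr hrb
      by_cases hpq : (⟨r, hr⟩ : {p // NC n t h2 Qc Nk c p}) = ⟨q, hq⟩
      · rw [← hpq]; exact h1
      · exact h1.trans (SimpleGraph.Adj.reachable
          ⟨hpq, b, b', hbC.1, hstep.2.1, hrb, hqb, Or.inr hstep.1⟩)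
  obtain ⟨q0, hq0, hq0y⟩ := exists_NC hy
  obtain ⟨w⟩ := key y (hconn x y hx hy) q0 hq0 hq0y
  obtain ⟨hfin, hcard⟩ := card_NC (n := n) (t := t) (h2 := h2) (Qc := Qc) (Nk := Nk) c
  have : Fintype {p // NC n t h2 Qc Nk c p} := hfin.fintype
  set P := w.toPath with hP
  have hlen : P.1.length < Fintype.card {p // NC n t h2 Qc Nk c p} := P.2.length_lt
  have hc2 : Fintype.card {p // NC n t h2 Qc Nk c p} = {p | NC n t h2 Qc Nk c p}.ncard := by
    rw [← Nat.card_eq_fintype_card]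
    exact Nat.card_coe_set_eq _
  refine ⟨P.1.length, fun i => (P.1.getVert i).1, ?_, ?_, ?_, ?_, ?_⟩
  · omega
  · intro i _
    exact (P.1.getVert i).2
  · simp only [SimpleGraph.Walk.getVert_zero]; exact hp0x
  · simp only [SimpleGraph.Walk.getVert_length]; exact hq0y
  · intro i hi
    exact (P.1.adj_getVert_succ hi).2

end UCP
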