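import Pool.Agent.UCP.Route1

/-!
[UCP-T2] channels are connected; [UCP-T3] channels are hit; [UCP-T4] paths of net cells.
-/

namespace UCP

variable {n t h2 : ℕ} {Qc : Pt} {Nk : Finset (ℕ × Pt)}

theorem Channel_cov_act (h : IsNet h2 Nk) (g : Bool × Bool × Bool) {y : Pt} (hy : Cov h2 Nk y) :
    Cov h2 Nk (act g h2 y) := by
  obtain ⟨hP, d, hd, hd1, hd2⟩ := hy
  refine ⟨Pr_act hP, (d.1, act g d.1 d.2), h.sym g d hd, hd1, ?_⟩
  have h1 := anc_act (g := g) (l := h2) (k := h2 - d.1) (Nat.sub_le _ _) (z := y) ⟨hP.1, hP.2.1⟩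
  have h3 : h2 - (h2 - d.1) = d.1 := by omega
  rw [h3, hd2] at h1
  exact h1

/-- the net touches all sides -/
theorem IsNet.sides (h : IsNet h2 Nk) : (∃ y, Cov h2 Nk y ∧ y.1 + 1 = 3 ^ h2) ∧
    (∃ y, Cov h2 Nk y ∧ y.2 = 0) ∧ ∃ y, Cov h2 Nk y ∧ y.2 + 1 = 3 ^ h2 := by
  obtain ⟨y, hy, hy0⟩ := h.left
  have hpos : 0 < 3 ^ h2 := by positivity
  refine ⟨⟨act (true, false, false) h2 y, Channel_cov_act h _ hy, ?_⟩,
    ⟨act (false, false, true) h2 y, Channel_cov_act h _ hy, ?_⟩,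
    ⟨act (true, false, true) h2 y, Channel_cov_act h _ hy, ?_⟩⟩
  · simp only [act, hy0]
    simp
    omega
  · simp only [act, hy0]
    simp
  · simp only [act, hy0]
    simp
    omega

theorem Channel_fold_inj {l i j : ℕ} (h : i / 3 ^ l = j / 3 ^ l) (h' : fold l i = fold l j) :
    i = j := by
  have hpos : 0 < 3 ^ l := by positivity
  have h1 := Nat.div_add_mod i (3 ^ l)
  have h2 := Nat.div_add_mod j (3 ^ l)
  have h3 := Nat.mod_lt i hpos
  have h4 := Nat.mod_lt j hpos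
  unfold fold at h'
  rw [h] at h' h1
  split_ifs at h' <;> omega

theorem Channel_fold_succ {l i j : ℕ} (h : i / 3 ^ l = j / 3 ^ l) (h' : fold l i = fold l j + 1) :
    i = j + 1 ∨ j = i + 1 := by
  have hpos : 0 < 3 ^ l := by positivity
  have h1 := Nat.div_add_mod i (3 ^ l)
  have h2 := Nat.div_add_mod j (3 ^ l)
  have h3 := Nat.mod_lt i hpos
  have h4 := Nat.mod_lt j hpos
  unfold fold at h'
  rw [h] at h' h1
  split_ifs at h' <;> omega

theorem Channel_fold_edge {l i j m : ℕ} (hi : i / 3 ^ l = m) (hj : j / 3 ^ l = m + 1)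
    (h' : fold l i = fold l j) (he : if m % 2 = 0 then fold l i + 1 = 3 ^ l else fold l i = 0) :
    j = i + 1 := by
  have hpos : 0 < 3 ^ l := by positivity
  have h1 := Nat.div_add_mod i (3 ^ l)
  have h2 := Nat.div_add_mod j (3 ^ l)
  have h3 := Nat.mod_lt i hpos
  have h4 := Nat.mod_lt j hpos
  have h5 : 3 ^ l * (m + 1) = 3 ^ l * m + 3 ^ l := by ring
  unfold fold at h' he
  rw [hi] at h' h1 he
  rw [hj] at h' h2
  rw [h5] at h2
  split_ifs at h' he <;> omega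

/-- inside one unit, side-adjacent folded points come from side-adjacent points -/
theorem Channel_sd {l : ℕ} {a b : Pt} (h : anc l a = anc l b) (h' : Sd (foldP l a) (foldP l b)) :
    Sd a b := by
  have e1 : a.1 / 3 ^ l = b.1 / 3 ^ l := congrArg Prod.fst h
  have e2 : a.2 / 3 ^ l = b.2 / 3 ^ l := congrArg Prod.snd h
  unfold Sd foldP at h'
  simp only at h'
  unfold Sd
  rcases h' with ⟨h1, h2 | h2⟩ | ⟨h1, h2 | h2⟩
  · have := Channel_fold_inj e1 h1
    have := Channel_fold_succ e2 h2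
    tauto
  · have := Channel_fold_inj e1 h1
    have := Channel_fold_succ e2.symm h2
    tauto
  · have := Channel_fold_inj e2 h1
    have := Channel_fold_succ e1 h2
    tauto
  · have := Channel_fold_inj e2 h1
    have := Channel_fold_succ e1.symm h2
    tauto

/-- the channel inside one unit -/
theorem Channel_unit (h : IsNet h2 Nk) {S : Pt → Prop} (hP : ∀ X, S X → Pr (n + t) X) {x x' : Pt}
    (hS : S (anc h2 x)) (hx : Cov h2 Nk (foldP h2 x)) (hx' : Cov h2 Nk (foldP h2 x'))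
    (he : anc h2 x' = anc h2 x) :
    Reach (fun x => Pr (n + t + h2) x ∧ S (anc h2 x) ∧ Cov h2 Nk (foldP h2 x)) x x' := by
  obtain ⟨h1, h3⟩ := h.conn _ _ hx hx'
  have key : ∀ y, Relation.ReflTransGen (fun x y => Sd x y ∧ Cov h2 Nk y) (foldP h2 x) y →
      ∀ z, anc h2 z = anc h2 x → foldP h2 z = y →
      Reach (fun x => Pr (n + t + h2) x ∧ S (anc h2 x) ∧ Cov h2 Nk (foldP h2 x)) x z := by
    intro y hy
    induction hy with
    | refl =>
      intro z hz hz'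
      rw [unfold_unique hz hz']
      exact Reach.refl ⟨Pr_of_foldP (hP _ hS) hx.1, hS, hx⟩
    | @tail y y' hy hyy ih =>
      intro z hz hz'
      have hyc : Cov h2 Nk y := Reach.right ⟨hx, hy⟩
      obtain ⟨w, hw, hw'⟩ := exists_unfold (l := h2) (anc h2 x) y ⟨hyc.1.1, hyc.1.2.1⟩
      refine (ih w hw hw').tail (Channel_sd (hw.trans hz.symm) ?_) ?_
      · rw [hw', hz']; exact hyy.1
      · have hzS : S (anc h2 z) := by rw [hz]; exact hS
        have hzc : Cov h2 Nk (foldP h2 z) := by rw [hz']; exact hyy.2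
        exact ⟨Pr_of_foldP (hP _ hzS) hzc.1, hzS, hzc⟩
  exact key _ h3 x' he rfl

/-- contact of the channel in side-adjacent units, oriented version -/
theorem Channel_contact_aux (h : IsNet h2 Nk) {X X' : Pt}
    (hX : (X.2 = X'.2 ∧ X'.1 = X.1 + 1) ∨ (X.1 = X'.1 ∧ X'.2 = X.2 + 1)) :
    ∃ x x', anc h2 x = X ∧ anc h2 x' = X' ∧ Cov h2 Nk (foldP h2 x) ∧
      Cov h2 Nk (foldP h2 x') ∧ Sd x x' := by
  rcases hX with ⟨e1, e2⟩ | ⟨e1, e2⟩
  · obtain ⟨y, hy, hye⟩ : ∃ y, Cov h2 Nk y ∧ (if X.1 % 2 = 0 then y.1 + 1 = 3 ^ h2 else y.1 = 0) := by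
      by_cases hp : X.1 % 2 = 0
      · obtain ⟨y, hy, hy'⟩ := h.sides.1
        exact ⟨y, hy, by rw [if_pos hp]; exact hy'⟩
      · obtain ⟨y, hy, hy'⟩ := h.left
        exact ⟨y, hy, by rw [if_neg hp]; exact hy'⟩
    obtain ⟨x, hx, hx'⟩ := exists_unfold (l := h2) X y ⟨hy.1.1, hy.1.2.1⟩
    obtain ⟨z, hz, hz'⟩ := exists_unfold (l := h2) X' y ⟨hy.1.1, hy.1.2.1⟩
    refine ⟨x, z, hx, hz, hx'.symm ▸ hy, hz'.symm ▸ hy, ?_⟩
    have a1 : x.1 / 3 ^ h2 = X.1 := congrArg Prod.fst hx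
    have a2 : x.2 / 3 ^ h2 = X.2 := congrArg Prod.snd hx
    have b1 : z.1 / 3 ^ h2 = X'.1 := congrArg Prod.fst hz
    have b2 : z.2 / 3 ^ h2 = X'.2 := congrArg Prod.snd hz
    have c1 : fold h2 x.1 = y.1 := congrArg Prod.fst hx'
    have c2 : fold h2 x.2 = y.2 := congrArg Prod.snd hx'
    have d1 : fold h2 z.1 = y.1 := congrArg Prod.fst hz'
    have d2 : fold h2 z.2 = y.2 := congrArg Prod.snd hz'
    have k1 : z.1 = x.1 + 1 := Channel_fold_edge a1 (b1.trans e2) (c1.trans d1.symm)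
      (by rw [c1]; exact hye)
    have k2 : x.2 = z.2 := Channel_fold_inj (a2.trans (e1.trans b2.symm)) (c2.trans d2.symm)
    exact Or.inr ⟨k2, Or.inr k1⟩
  · obtain ⟨y, hy, hye⟩ : ∃ y, Cov h2 Nk y ∧ (if X.2 % 2 = 0 then y.2 + 1 = 3 ^ h2 else y.2 = 0) := by
      by_cases hp : X.2 % 2 = 0
      · obtain ⟨y, hy, hy'⟩ := h.sides.2.2
        exact ⟨y, hy, by rw [if_pos hp]; exact hy'⟩
      · obtain ⟨y, hy, hy'⟩ := h.sides.2.1
        exact ⟨y, hy, by rw [if_neg hp]; exact hy'⟩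
    obtain ⟨x, hx, hx'⟩ := exists_unfold (l := h2) X y ⟨hy.1.1, hy.1.2.1⟩
    obtain ⟨z, hz, hz'⟩ := exists_unfold (l := h2) X' y ⟨hy.1.1, hy.1.2.1⟩
    refine ⟨x, z, hx, hz, hx'.symm ▸ hy, hz'.symm ▸ hy, ?_⟩
    have a1 : x.1 / 3 ^ h2 = X.1 := congrArg Prod.fst hx
    have a2 : x.2 / 3 ^ h2 = X.2 := congrArg Prod.snd hx
    have b1 : z.1 / 3 ^ h2 = X'.1 := congrArg Prod.fst hz
    have b2 : z.2 / 3 ^ h2 = X'.2 := congrArg Prod.snd hz
    have c1 : fold h2 x.1 = y.1 := congrArg Prod.fst hx'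
    have c2 : fold h2 x.2 = y.2 := congrArg Prod.snd hx'
    have d1 : fold h2 z.1 = y.1 := congrArg Prod.fst hz'
    have d2 : fold h2 z.2 = y.2 := congrArg Prod.snd hz'
    have k1 : z.2 = x.2 + 1 := Channel_fold_edge a2 (b2.trans e2) (c2.trans d2.symm)
      (by rw [c2]; exact hye)
    have k2 : x.1 = z.1 := Channel_fold_inj (a1.trans (e1.trans b1.symm)) (c1.trans d1.symm)
    exact Or.inl ⟨k2, Or.inr k1⟩

theorem Channel_contact (h : IsNet h2 Nk) {X X' : Pt} (hX : Sd X X') :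
    ∃ x x', anc h2 x = X ∧ anc h2 x' = X' ∧ Cov h2 Nk (foldP h2 x) ∧
      Cov h2 Nk (foldP h2 x') ∧ Sd x x' := by
  rcases hX with ⟨e1, e2 | e2⟩ | ⟨e1, e2 | e2⟩
  · obtain ⟨x, x', h1, h2, h3, h4, h5⟩ := Channel_contact_aux h (X := X') (X' := X)
      (Or.inr ⟨e1.symm, e2⟩)
    exact ⟨x', x, h2, h1, h4, h3, h5.symm⟩
  · exact Channel_contact_aux h (Or.inr ⟨e1, e2⟩)
  · obtain ⟨x, x', h1, h2, h3, h4, h5⟩ := Channel_contact_aux h (X := X') (X' := X)
      (Or.inl ⟨e1.symm, e2⟩)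
    exact ⟨x', x, h2, h1, h4, h3, h5.symm⟩
  · exact Channel_contact_aux h (Or.inl ⟨e1, e2⟩)

/-- [UCP-T2] inside one unit the channel is a (reflected) copy of `Cov h2 Nk`, and in side-adjacent units `X`, `X'` the copies
contain side-adjacent fine cells (mirror images in the common side of one point of `Cov` on that side). For any
side-connected set `S` of units. -/
theorem conn_unfold (h : IsNet h2 Nk) {S : Pt → Prop} (hS : Conn S) (hP : ∀ X, S X → Pr (n + t) X) :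
    Conn (fun x => Pr (n + t + h2) x ∧ S (anc h2 x) ∧ Cov h2 Nk (foldP h2 x)) := by
  intro a b ha hb
  obtain ⟨-, hr⟩ := hS _ _ ha.2.1 hb.2.1
  have key : ∀ Z, Relation.ReflTransGen (fun x y => Sd x y ∧ S y) (anc h2 a) Z →
      ∀ z, anc h2 z = Z → Cov h2 Nk (foldP h2 z) →
      Reach (fun x => Pr (n + t + h2) x ∧ S (anc h2 x) ∧ Cov h2 Nk (foldP h2 x)) a z := by
    intro Z hZ
    induction hZ with
    | refl =>
      intro z hz hz'
      exact Channel_unit h hP ha.2.1 ha.2.2 hz' hz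
    | @tail Z Z' hZ hZZ ih =>
      intro z hz hz'
      obtain ⟨x, x', h1, h3, h4, h5, h6⟩ := Channel_contact h hZZ.1
      have hS' : S (anc h2 x') := by rw [h3]; exact hZZ.2
      refine ((ih x h1 h4).tail h6 ⟨Pr_of_foldP (hP _ hS') h5.1, hS', h5⟩).trans ?_
      exact Channel_unit h hP hS' h5 hz' (hz.trans h3.symm)
  exact key _ hr b rfl hb.2.2

theorem conn_Chn (h : IsNet h2 Nk) (hQ : Pr n Qc) {c : ℕ} (hc : c ∈ cidx t) :
    Conn (Chn n t h2 Qc Nk c) :=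
  conn_unfold h (conn_Rt hQ hc) fun _ hX => hX.1

end UCP
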