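import Pool.Agent.UCP.CellFacts2

/-!
[UCP-A6] comparison on components of the set of cells meeting `{u > t}`.
-/

open MeasureTheory Set Topology Filter CAR

namespace UCP

variable {μ : Measure carpet} [IsFiniteMeasure μ] [μ.IsOpenPosMeasure] (D : DForm carpet μ)

theorem Compare_right {S : Pt → Prop} {a b : Pt} (h : ReachT S a b) : S b := by
  obtain ⟨h1, h2⟩ := h
  induction h2 with
  | refl => exact h1
  | tail _ h _ => exact h.2

theorem Compare_tail {S : Pt → Prop} {a b c : Pt} (h : ReachT S a b) (hbc : Nr 1 b c) (hc : S c) :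
    ReachT S a c := ⟨h.1, h.2.tail ⟨hbc, hc⟩⟩

/-- the union of the cells reached from `cy` is closed -/
theorem Compare_closed (M : ℕ) (R : Pt → Prop) (hR : ∀ c, R c → Pr M c) :
    IsClosed {x : carpet | ∃ c, R c ∧ x ∈ cell M c} := by
  classical
  have h : {x : carpet | ∃ c, R c ∧ x ∈ cell M c} = ⋃ c ∈ (cells M).filter R, cell M c := by
    ext x
    simp only [mem_ofPred_eq, mem_iUnion, Finset.mem_filter, mem_cells, exists_prop]
    constructor
    · rintro ⟨c, h1, h2⟩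
      exact ⟨c, ⟨hR c h1, h1⟩, h2⟩
    · rintro ⟨c, ⟨_, h1⟩, h2⟩
      exact ⟨c, h1, h2⟩
  rw [h]
  exact isClosed_biUnion_finset fun c _ => isClosed_cell M c

/-- [UCP-A6] Let `𝒟` = cells reached from `cy` in `{Blk ∧ Meet}`, `F` = union of the `cell M c`, `c ∈ 𝒟` (closed). If `cy` does
not meet `{u > t}` then `u y ≤ t ≤ T - (T-t) e y`. Otherwise `q = T - (T-t) e ≥ t`, `g = (u - q)⁺ ∈ dom`, `Y = {g > 0} ∩ F`,
`Y' = {g > 0} \ F` open. `Y` is open: let `x ∈ Y`, `x ∈ cell M c0`, `c0 ∈ 𝒟`. If all cells of level `M` containing `x` are in the block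
then they are in `𝒟` (they meet `{u > t}` at `x`, touch `c0`), and their union is a neighbourhood (`eventually_cell`). Otherwise some cell
`c1 ∋ x` has `¬ Nr 1 (anc H c1) (anc H cz)`, `x ∈ cell (M-H) (anc H c1)`, so `e x = 0`, `q x = T`, `u x < T` (`hT`),
`g x = 0`, contradiction. `DForm.cut` gives `w = g` on `Y`, `w = 0` off `Y`. `w ζ = 0` (`hζ`), `w = 0` on the cells of level `M-H` not
touching `anc H cz` (there `e = 0`, `u < T` on `F`), `w = 0` on `V0` (`bd_of_mem`, `hB`). `E(u,w) = 0`, `E(e,w) = 0`,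
`E(w,w) = E(u-q,w)` (`E_eq_zero_of_mul`: `(u-q-w) w = 0`), `= E(u,w) + (T-t) E(e,w) = 0`. So `w` is constant,
equal to `w ζ = 0`; in particular `w y = 0`, `y ∈ F`: `u y ≤ q y`. -/
theorem comparison {u : C(carpet, ℝ)} (hu : D.HarmonicOff V0 u) {M H : ℕ} (hH : H ≤ M) {cy cz : Pt}
    (hcy : Blk M H cz cy) (hcz : Pr M cz) {e : C(carpet, ℝ)} (he : e ∈ D.dom) (he1 : ∀ x, e x ≤ 1) {ζ : carpet}
    (he0 : ∀ c', Pr (M - H) c' → ¬ Nr 1 c' (anc H cz) → ∀ x ∈ cell (M - H) c', e x = 0)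
    (heζ : ∀ w ∈ D.dom, w ζ = 0 → (∀ c', Pr (M - H) c' → ¬ Nr 1 c' (anc H cz) →
      ∀ x ∈ cell (M - H) c', w x = 0) → D.E e w = 0)
    (hB : ∀ x, Blk M H cz x → ¬ Bd M x) {t T : ℝ} (ht : t < T)
    (hT : ∀ c, ReachT (fun c => Blk M H cz c ∧ Meet M u t c) cy c → ∀ x ∈ cell M c, u x < T)
    (hζ : ∀ c, ReachT (fun c => Blk M H cz c ∧ Meet M u t c) cy c → ζ ∉ cell M c)
    {y : carpet} (hy : y ∈ cell M cy) : u y ≤ T - (T - t) * e y := by
  classical
  have he1y := he1 y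
  by_cases hmeet : Meet M u t cy
  swap
  · have h1 : u y ≤ t := by
      by_contra hc
      exact hmeet ⟨y, hy, not_le.1 hc⟩
    nlinarith
  by_contra hcon
  rw [not_le] at hcon
  set S : Pt → Prop := fun c => Blk M H cz c ∧ Meet M u t c with hS
  have hScy : S cy := ⟨hcy, hmeet⟩
  have hRS : ∀ c, ReachT S cy c → S c := fun c hc => Compare_right hc
  set F : Set carpet := {x | ∃ c, ReachT S cy c ∧ x ∈ cell M c} with hF
  have hFc : IsClosed F := Compare_closed M _ fun c hc => (hRS c hc).1.1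
  set q : C(carpet, ℝ) := ContinuousMap.const carpet T - (T - t) • e with hq
  have hqd : q ∈ D.dom := D.dom.sub_mem (D.const_mem T) (D.dom.smul_mem _ he)
  have hqx : ∀ x, q x = T - (T - t) * e x := fun x => by
    simp [hq]
  have hqt : ∀ x, t ≤ q x := fun x => by
    rw [hqx]
    have := he1 x
    nlinarith
  set g : C(carpet, ℝ) := (u - q) ⊔ 0 with hg
  have hgd : g ∈ D.dom := D.pos_mem (D.dom.sub_mem hu.1 hqd)
  have hgx : ∀ x, g x = max (u x - q x) 0 := fun x => by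
    simp [hg]
  have hgpos : ∀ x, 0 < g x ↔ q x < u x := fun x => by
    rw [hgx, lt_max_iff, sub_pos]
    constructor
    · rintro (h | h)
      · exact h
      · exact absurd h (lt_irrefl _)
    · exact Or.inl
  -- points of `F` where `g > 0` are not in cells far from `cz`
  have hkey : ∀ x, 0 < g x → x ∈ F → e x ≠ 0 := by
    intro x hx hxF h0
    obtain ⟨c, hc, hxc⟩ := hxF
    have h1 := hT c hc x hxc
    have h2 := (hgpos x).1 hx
    rw [hqx, h0, mul_zero, sub_zero] at h2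
    exact lt_irrefl _ (h1.trans h2)
  have hreach : ∀ x, 0 < g x → x ∈ F → ∀ c, Pr M c → x ∈ cell M c → ReachT S cy c := by
    intro x hx hxF c hc hxc
    have hex := hkey x hx hxF
    obtain ⟨c0, hc0, hxc0⟩ := hxF
    have hnr : Nr 1 (anc H c) (anc H cz) := by
      by_contra hn
      apply hex
      refine he0 (anc H c) hc.anc' hn x ?_
      have h3 := cell_subset_anc (M - H) H c
      rw [Nat.sub_add_cancel hH] at h3
      exact h3 hxc
    exact Compare_tail hc0 (touch_of_mem hxc0 hxc)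
      ⟨⟨hc, hnr⟩, ⟨x, hxc, (hqt x).trans_lt ((hgpos x).1 hx)⟩⟩
  have hYo : IsOpen ({x | 0 < g x} ∩ F) := by
    rw [isOpen_iff_mem_nhds]
    rintro x ⟨hx, hxF⟩
    have h1 : ∀ᶠ z in 𝓝 x, 0 < g z :=
      (isOpen_lt continuous_const g.continuous).mem_nhds hx
    filter_upwards [h1, eventually_cell x M] with z hz1 hz2
    obtain ⟨c, hc, hxc, hzc⟩ := hz2
    exact ⟨hz1, c, hreach x hx hxF c hc hxc, hzc⟩
  have hYo' : IsOpen ({x | 0 < g x} ∩ Fᶜ) :=
    (isOpen_lt continuous_const g.continuous).inter hFc.isOpen_compl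
  obtain ⟨w, hw, b, hb, hw1, hw2, -, -, -⟩ := D.cut hgd (fun x => by
      rw [hgx]; exact le_max_right _ _) hYo hYo'
    (by
      rw [Set.disjoint_left]
      rintro x ⟨_, hx⟩ ⟨_, hx'⟩
      exact hx' hx)
    (by
      rw [← Set.inter_union_distrib_left, Set.union_compl_self, Set.inter_univ])
  have hwζ : w ζ = 0 := hw2 ζ (by
    rintro ⟨_, c, hc, hζc⟩
    exact hζ c hc hζc)
  have hwe : ∀ c', Pr (M - H) c' → ¬ Nr 1 c' (anc H cz) → ∀ x ∈ cell (M - H) c', w x = 0 := by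
    intro c' hc' hn x hx
    refine hw2 x ?_
    rintro ⟨h1, h2⟩
    exact hkey x h1 h2 (he0 c' hc' hn x hx)
  have hwV : ∀ x ∈ V0, w x = 0 := by
    intro x hx
    refine hw2 x ?_
    rintro ⟨_, c, hc, hxc⟩
    exact hB c (hRS c hc).1 (bd_of_mem (hRS c hc).1.1 hxc hx)
  have hEu : D.E u w = 0 := hu.2 w hw hwV
  have hEe : D.E e w = 0 := heζ w hw hwζ hwe
  have hEq : D.E q w = 0 := by
    rw [hq, D.sub_left (D.const_mem T) (D.dom.smul_mem _ he) hw, D.const_left T hw,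
      D.smul_left _ e he w hw, hEe, mul_zero, sub_zero]
  have hud : u - q ∈ D.dom := D.dom.sub_mem hu.1 hqd
  have hE0 : D.E (u - q - w) w = 0 := by
    refine D.E_eq_zero_of_mul (D.dom.sub_mem hud hw) hw (fun x => ?_)
    by_cases hx : x ∈ {x | 0 < g x} ∩ F
    · have h1 : w x = u x - q x := by
        rw [hw1 x hx, hgx, max_eq_left]
        exact sub_nonneg.2 ((hgpos x).1 hx.1).le
      rw [ContinuousMap.sub_apply, ContinuousMap.sub_apply, h1, sub_self, zero_mul]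
    · rw [hw2 x hx, mul_zero]
  rw [D.sub_left hud hw hw, D.sub_left hu.1 hqd hw, hEu, hEq, sub_zero, zero_sub, neg_eq_zero] at hE0
  obtain ⟨k, hk⟩ := D.irreducible w hw hE0
  have hk0 : k = 0 := by rw [← hk ζ, hwζ]
  have hyg : 0 < g y := by
    rw [hgpos, hqx]
    exact hcon
  have hyF : y ∈ F := ⟨cy, ⟨hScy, Relation.ReflTransGen.refl⟩, hy⟩
  have h1 := hw1 y ⟨hyg, hyF⟩
  rw [hk y, hk0] at h1
  exact hyg.ne h1

end UCP
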