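import Pool.Agent.UCP.ChanPath

/-!
[UCP-TC] few channels come close to a given net cell.
-/

namespace UCP

/-- [UCP-TC] Let `d ∈ N k` belong to `p` (`p.1 + d.1 = h2`, `foldP d.1 p.2 = d.2`, `d.1 ≥ s' + 1`) and let `x` be in channel
`(k', c')`, `Nr 1 (anc (p.1+s') x) (anc s' p.2)`. Then `foldP h2 x` lies in some `e ∈ N k'`, `e` in some `q ∈ Q k'` (`q.1 ≤ e.1`).
Folding at level `d.1 - s' = h2 - (p.1 + s')`: `Nr 1 (anc (p.1+s') (foldP h2 x)) (anc s' d.2)` (`Nr_foldP`, `anc_foldP`).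
If `d.1 < q.1` then `NearU s' d q`, against the regularity of `d` (last part of `hN`). So `q.1 ≤ d.1` and
`NearU s' q (d.1, d.2)` (ancestors, `d.1 - q.1` levels up): by `hP2` at most `648` indices `k'`.
The unit `X = anc h2 x` is within index distance 1 of the unit `anc d.1 p.2`, and `mf t X.1 = c'` or `mf t X.2 = c'`
(`Rt`): at most `18` indices `c'`. -/
theorem conflict {κ : Type} [Fintype κ] {n t h2 s' : ℕ} {Qc : Pt}
    (Q N : κ → Finset (ℕ × Pt))
    (hQ : ∀ k, ∀ q ∈ Q k, s' + 1 ≤ q.1 ∧ q.1 ≤ h2 ∧ Pr q.1 q.2)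
    (hP2 : ∀ μ w, μ ≤ h2 → Pr μ w → {k | ∃ q ∈ Q k, q.1 ≤ μ ∧ NearU s' q (μ, w)}.ncard ≤ 648)
    (hN : ∀ k, ∀ d ∈ N k, s' + 1 ≤ d.1 ∧ d.1 ≤ h2 ∧ Pr d.1 d.2 ∧
        (∃ q ∈ Q k, q.1 ≤ d.1 ∧ anc (d.1 - q.1) d.2 = q.2) ∧
        ∀ k', ∀ q' ∈ Q k', ¬ (d.1 < q'.1 ∧ NearU s' d q'))
    {k : κ} {c : ℕ} {p : ℕ × Pt} (hp : NC n t h2 Qc (N k) c p) :
    {w : κ × ℕ | w.2 ∈ cidx t ∧
      ∃ x, Chn n t h2 Qc (N w.1) w.2 x ∧ Nr 1 (anc (p.1 + s') x) (anc s' p.2)}.ncard ≤ 648 * 18 := by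
  classical
  obtain ⟨d, hd, hpd, hfold, -, -⟩ := hp
  obtain ⟨hd1, hd2, hdP, -, hreg⟩ := hN k d hd
  set X0 : Pt := anc d.1 p.2 with hX0
  set K : Set κ := {k | ∃ q ∈ Q k, q.1 ≤ d.1 ∧ NearU s' q (d.1, d.2)} with hK
  set I : Finset ℕ := (Finset.Icc (X0.1 - 1) (X0.1 + 1)).image (mf t) ∪
    (Finset.Icc (X0.2 - 1) (X0.2 + 1)).image (mf t) with hI
  have hIcard : I.card ≤ 18 := by
    have h1 : ((Finset.Icc (X0.1 - 1) (X0.1 + 1)).image (mf t)).card ≤ 3 := by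
      refine Finset.card_image_le.trans ?_
      rw [Nat.card_Icc]; omega
    have h2' : ((Finset.Icc (X0.2 - 1) (X0.2 + 1)).image (mf t)).card ≤ 3 := by
      refine Finset.card_image_le.trans ?_
      rw [Nat.card_Icc]; omega
    exact (Finset.card_union_le _ _).trans (by omega)
  have hKcard : K.ncard ≤ 648 := hP2 d.1 d.2 hd2 hdP
  have hsub : {w : κ × ℕ | w.2 ∈ cidx t ∧
      ∃ x, Chn n t h2 Qc (N w.1) w.2 x ∧ Nr 1 (anc (p.1 + s') x) (anc s' p.2)} ⊆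
      K ×ˢ (I : Set ℕ) := by
    rintro ⟨k', c'⟩ ⟨-, x, ⟨-, hRt, -, e, he, heh, hex⟩, hnr⟩
    simp only at hRt he hex
    obtain ⟨-, -, -, ⟨q, hq, hqe, hqe2⟩, -⟩ := hN k' e he
    obtain ⟨hq1, hq2, -⟩ := hQ k' q hq
    -- the folded nearness
    have hstar : Nr 1 (anc (p.1 + s') (foldP h2 x)) (anc s' d.2) := by
      have h1 := Nr_foldP (l := d.1 - s') hnr
      have e1 : foldP (d.1 - s') (anc (p.1 + s') x) = anc (p.1 + s') (foldP h2 x) := by
        rw [anc_foldP (by omega)]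
        congr 1
        omega
      have e2 : foldP (d.1 - s') (anc s' p.2) = anc s' d.2 := by
        rw [← hfold, anc_foldP (by omega)]
      rw [e1, e2] at h1
      exact h1
    have hqx : q.2 = anc (h2 - q.1) (foldP h2 x) := by
      rw [← hqe2, ← hex, anc_anc]
      congr 1
      omega
    refine ⟨?_, ?_⟩
    · show k' ∈ K
      by_cases hlt : d.1 < q.1
      · exfalso
        refine hreg k' q hq ⟨hlt, by omega, hlt.le, ?_⟩
        rw [hqx, anc_anc]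
        have e3 : q.1 - d.1 + s' + (h2 - q.1) = p.1 + s' := by omega
        rw [e3]
        exact hstar.symm
      · refine ⟨q, hq, by omega, by omega, by simp only; omega, ?_⟩
        simp only
        have h1 := hstar.anc (d.1 - q.1)
        rw [anc_anc, anc_anc] at h1
        rw [hqx, anc_anc]
        have e3 : s' + (h2 - q.1) = d.1 - q.1 + (p.1 + s') := by omega
        rw [e3]
        exact h1
    · show c' ∈ (I : Set ℕ)
      have hnX : Nr 1 (anc h2 x) X0 := by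
        have h1 := hnr.anc (d.1 - s')
        rw [anc_anc, anc_anc] at h1
        have e3 : d.1 - s' + (p.1 + s') = h2 := by omega
        have e4 : d.1 - s' + s' = d.1 := by omega
        rw [e3, e4] at h1
        exact h1
      obtain ⟨a1, a2, a3, a4⟩ := hnX
      rw [hI, Finset.coe_union, Set.mem_union, Finset.mem_coe, Finset.mem_coe, Finset.mem_image,
        Finset.mem_image]
      rcases hRt.2.2 with h | h
      · exact Or.inl ⟨(anc h2 x).1, Finset.mem_Icc.mpr ⟨by omega, by omega⟩, h⟩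
      · exact Or.inr ⟨(anc h2 x).2, Finset.mem_Icc.mpr ⟨by omega, by omega⟩, h⟩
  have hfin : (K ×ˢ (I : Set ℕ)).Finite := (Set.toFinite K).prod (Finset.finite_toSet I)
  calc _ ≤ (K ×ˢ (I : Set ℕ)).ncard := Set.ncard_le_ncard hsub hfin
    _ = K.ncard * I.card := by rw [Set.ncard_prod, Set.ncard_coe_finset]
    _ ≤ 648 * 18 := Nat.mul_le_mul hKcard hIcard

end UCP
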