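import Pool.Agent.UCP.Glue

/-!
[UCP-A4] cutoff functions with good energy.
-/

open MeasureTheory Set Topology Filter CAR

namespace UCP

variable {μ : Measure carpet} (D : CarpetForm μ)

/-- reflection of the second coordinate -/
def Cutoff_flip2 (f : C(carpet, ℝ)) : C(carpet, ℝ) := ((f.comp swapC).comp flipC).comp swapC

theorem Cutoff_flip2_apply (f : C(carpet, ℝ)) (x y : carpet) (h1 : y.1.1 = x.1.1) (h2 : y.1.2 = 1 - x.1.2) :
    Cutoff_flip2 f x = f y := by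
  unfold Cutoff_flip2
  simp only [ContinuousMap.comp_apply]
  congr 1
  apply Subtype.ext
  apply Prod.ext
  · rw [h1]; rfl
  · rw [h2]; rfl

/-- the profile functions -/
noncomputable def Cutoff_F (η : C(carpet, ℝ)) (i0 i : ℕ) : C(carpet, ℝ) :=
  if i = i0 then 1 else if i = i0 + 1 then η else if i + 1 = i0 then η.comp flipC else 0

/-- properties of the symmetrised cutoff function -/
structure Cutoff_P (η : C(carpet, ℝ)) : Prop where
  mem : η ∈ D.dom
  nonneg : ∀ x, 0 ≤ η x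
  le_one : ∀ x, η x ≤ 1
  left : ∀ x : carpet, x.1.1 = 0 → η x = 1
  right : ∀ x : carpet, x.1.1 = 1 → η x = 0
  per : ∀ x y : carpet, x.1.1 = y.1.1 →
    (x.1.2 = y.1.2 ∨ (x.1.2 = 0 ∧ y.1.2 = 1) ∨ (x.1.2 = 1 ∧ y.1.2 = 0)) → η x = η y

theorem Cutoff_exists : ∃ η, Cutoff_P D η := by
  have hK : IsClosed {x : carpet | x.1.1 ≤ 0} :=
    isClosed_le (by fun_prop) continuous_const
  have hU : IsOpen {x : carpet | x.1.1 < 1} :=
    isOpen_lt (by fun_prop) continuous_const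
  have hKU : {x : carpet | x.1.1 ≤ 0} ⊆ {x : carpet | x.1.1 < 1} := by
    intro x hx
    simp only [mem_ofPred_eq] at hx ⊢
    linarith
  obtain ⟨φ, hφ, hφ0, hφ1, hφK, hφU⟩ := D.toDForm.cutoff hK hU hKU
  have hφr : ∀ x : carpet, x.1.1 = 1 → φ x = 0 := by
    intro x hx
    apply image_eq_zero_of_notMem_tsupport
    intro h
    have := hφU h
    simp only [mem_ofPred_eq] at this
    linarith
  have hflip : ∀ x : carpet, ∃ y : carpet, y.1.1 = x.1.1 ∧ y.1.2 = 1 - x.1.2 := by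
    intro x
    exact ⟨swapC (flipC (swapC x)), rfl, rfl⟩
  refine ⟨(1 / 2 : ℝ) • (φ + Cutoff_flip2 φ), ?_, ?_, ?_, ?_, ?_, ?_⟩
  · refine D.dom.smul_mem _ (D.dom.add_mem hφ ?_)
    exact D.swap_mem _ (D.flip_mem _ (D.swap_mem _ hφ))
  · intro x
    obtain ⟨y, hy1, hy2⟩ := hflip x
    simp only [ContinuousMap.smul_apply, ContinuousMap.add_apply, smul_eq_mul,
      Cutoff_flip2_apply φ x y hy1 hy2]
    have := hφ0 x
    have := hφ0 y
    linarith
  · intro x
    obtain ⟨y, hy1, hy2⟩ := hflip x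
    simp only [ContinuousMap.smul_apply, ContinuousMap.add_apply, smul_eq_mul,
      Cutoff_flip2_apply φ x y hy1 hy2]
    have := hφ1 x
    have := hφ1 y
    linarith
  · intro x hx
    obtain ⟨y, hy1, hy2⟩ := hflip x
    simp only [ContinuousMap.smul_apply, ContinuousMap.add_apply, smul_eq_mul,
      Cutoff_flip2_apply φ x y hy1 hy2]
    rw [hφK x (le_of_eq hx), hφK y (le_of_eq (hy1.trans hx))]
    norm_num
  · intro x hx
    obtain ⟨y, hy1, hy2⟩ := hflip x
    simp only [ContinuousMap.smul_apply, ContinuousMap.add_apply, smul_eq_mul,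
      Cutoff_flip2_apply φ x y hy1 hy2]
    rw [hφr x hx, hφr y (hy1.trans hx)]
    norm_num
  · intro x y h1 h2
    rcases h2 with h2 | h2 | h2
    · have : x = y := Subtype.ext (Prod.ext h1 h2)
      rw [this]
    · simp only [ContinuousMap.smul_apply, ContinuousMap.add_apply, smul_eq_mul,
        Cutoff_flip2_apply φ x y h1.symm (by rw [h2.1, h2.2]; ring),
        Cutoff_flip2_apply φ y x h1 (by rw [h2.1, h2.2]; ring)]
      ring
    · simp only [ContinuousMap.smul_apply, ContinuousMap.add_apply, smul_eq_mul,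
        Cutoff_flip2_apply φ x y h1.symm (by rw [h2.1, h2.2]; ring),
        Cutoff_flip2_apply φ y x h1 (by rw [h2.1, h2.2]; ring)]
      ring

theorem Cutoff_flipC_one (x : carpet) : (flipC x).1.1 = 1 - x.1.1 := rfl

theorem Cutoff_flipC_two (x : carpet) : (flipC x).1.2 = x.1.2 := rfl

theorem Cutoff_F_per {η : C(carpet, ℝ)} (hη : Cutoff_P D η) (i0 i : ℕ) (x y : carpet)
    (h1 : x.1.1 = y.1.1)
    (h2 : x.1.2 = y.1.2 ∨ (x.1.2 = 0 ∧ y.1.2 = 1) ∨ (x.1.2 = 1 ∧ y.1.2 = 0)) :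
    Cutoff_F η i0 i x = Cutoff_F η i0 i y := by
  unfold Cutoff_F
  split_ifs
  · rfl
  · exact hη.per x y h1 h2
  · simp only [ContinuousMap.comp_apply]
    refine hη.per _ _ ?_ ?_
    · rw [Cutoff_flipC_one, Cutoff_flipC_one, h1]
    · rw [Cutoff_flipC_two, Cutoff_flipC_two]
      exact h2
  · rfl

theorem Cutoff_F_side {η : C(carpet, ℝ)} (hη : Cutoff_P D η) (i0 i : ℕ) (x y : carpet)
    (h1 : x.1.1 = 1) (h2 : y.1.1 = 0) :
    Cutoff_F η i0 i x = Cutoff_F η i0 (i + 1) y := by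
  have hx : (flipC x).1.1 = 0 := by rw [Cutoff_flipC_one, h1]; ring
  have hy : (flipC y).1.1 = 1 := by rw [Cutoff_flipC_one, h2]; ring
  unfold Cutoff_F
  split_ifs <;> first
    | omega
    | (simp only [ContinuousMap.comp_apply, hη.left _ hx, hη.right _ hy, hη.left _ h2,
        hη.right _ h1, ContinuousMap.one_apply, ContinuousMap.zero_apply])

theorem Cutoff_compat {η : C(carpet, ℝ)} (hη : Cutoff_P D η) (i0 : ℕ) (a b : Pt) (x y : carpet)
    (h1 : x.1.1 + a.1 = y.1.1 + b.1) (h2 : x.1.2 + a.2 = y.1.2 + b.2) :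
    Cutoff_F η i0 a.1 x = Cutoff_F η i0 b.1 y := by
  have hx1 := x.2.1.1
  have hx2 := x.2.1.2
  have hy1 := y.2.1.1
  have hy2 := y.2.1.2
  -- integers within distance one
  have key : ∀ (s t : ℝ) (i j : ℕ), s ∈ Icc (0 : ℝ) 1 → t ∈ Icc (0 : ℝ) 1 → s + i = t + j →
      (i = j ∧ s = t) ∨ (j = i + 1 ∧ s = 1 ∧ t = 0) ∨ (i = j + 1 ∧ s = 0 ∧ t = 1) := by
    intro s t i j hs ht h
    rcases Nat.lt_trichotomy i j with hij | hij | hij
    · right; left
      have h3 : i + 1 ≤ j := hij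
      have h4 : (i : ℝ) + 1 ≤ j := by exact_mod_cast h3
      have h5 : s = 1 := by linarith [hs.2, ht.1]
      have h6 : (j : ℝ) ≤ i + 1 := by linarith [hs.2, ht.1]
      have h7 : j ≤ i + 1 := by exact_mod_cast h6
      have h8 : j = i + 1 := by omega
      refine ⟨h8, h5, ?_⟩
      linarith [hs.2, ht.1]
    · left
      refine ⟨hij, ?_⟩
      rw [hij] at h
      linarith
    · right; right
      have h3 : j + 1 ≤ i := hij
      have h4 : (j : ℝ) + 1 ≤ i := by exact_mod_cast h3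
      have h5 : t = 1 := by linarith [hs.1, ht.2]
      have h6 : (i : ℝ) ≤ j + 1 := by linarith [hs.1, ht.2]
      have h7 : i ≤ j + 1 := by exact_mod_cast h6
      have h8 : i = j + 1 := by omega
      refine ⟨h8, ?_, h5⟩
      linarith [hs.1, ht.2]
  rcases key _ _ _ _ hx1 hy1 h1 with h | h | h
  · rw [h.1]
    refine Cutoff_F_per D hη i0 b.1 x y h.2 ?_
    rcases key _ _ _ _ hx2 hy2 h2 with h' | h' | h'
    · exact Or.inl h'.2
    · exact Or.inr (Or.inr h'.2)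
    · exact Or.inr (Or.inl h'.2)
  · rw [h.1]
    exact Cutoff_F_side D hη i0 a.1 x y h.2.1 h.2.2
  · rw [h.1]
    exact (Cutoff_F_side D hη i0 b.1 y x h.2.2 h.2.1).symm

theorem Cutoff_F_mem {η : C(carpet, ℝ)} (hη : Cutoff_P D η) (i0 i : ℕ) :
    Cutoff_F η i0 i ∈ D.dom := by
  unfold Cutoff_F
  split_ifs
  · exact D.toDForm.one_mem
  · exact hη.mem
  · exact D.flip_mem _ hη.mem
  · exact D.dom.zero_mem

theorem Cutoff_F_energy {η : C(carpet, ℝ)} (hη : Cutoff_P D η) (i0 i : ℕ) :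
    D.E (Cutoff_F η i0 i) (Cutoff_F η i0 i) ≤ D.E η η := by
  have h0 := D.nonneg _ hη.mem
  unfold Cutoff_F
  split_ifs
  · rw [D.toDForm.one_left D.toDForm.one_mem]
    exact h0
  · exact le_rfl
  · rw [D.flip_E _ hη.mem]
  · rw [D.toDForm.zero_left D.dom.zero_mem]
    exact h0

theorem Cutoff_F_nonneg {η : C(carpet, ℝ)} (hη : Cutoff_P D η) (i0 i : ℕ) (x : carpet) :
    0 ≤ Cutoff_F η i0 i x := by
  unfold Cutoff_F
  split_ifs
  · rw [ContinuousMap.one_apply]; exact zero_le_one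
  · exact hη.nonneg x
  · exact hη.nonneg _
  · rw [ContinuousMap.zero_apply]

theorem Cutoff_F_le_one {η : C(carpet, ℝ)} (hη : Cutoff_P D η) (i0 i : ℕ) (x : carpet) :
    Cutoff_F η i0 i x ≤ 1 := by
  unfold Cutoff_F
  split_ifs
  · rw [ContinuousMap.one_apply]
  · exact hη.le_one x
  · exact hη.le_one _
  · rw [ContinuousMap.zero_apply]; exact zero_le_one

theorem Cutoff_F_self (η : C(carpet, ℝ)) (i0 : ℕ) : Cutoff_F η i0 i0 = 1 := by
  unfold Cutoff_F
  rw [if_pos rfl]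

theorem Cutoff_F_far (η : C(carpet, ℝ)) {i0 i : ℕ} (h : ¬ (i ≤ i0 + 1 ∧ i0 ≤ i + 1)) :
    Cutoff_F η i0 i = 0 := by
  unfold Cutoff_F
  rw [if_neg (by omega), if_neg (by omega), if_neg (by omega)]

theorem Cutoff_emb_eq {m : ℕ} {a b : Pt} (ha : Pr m a) (hb : Pr m b) {x y : carpet}
    (h : emb m a ha x = emb m b hb y) :
    x.1.1 + a.1 = y.1.1 + b.1 ∧ x.1.2 + a.2 = y.1.2 + b.2 := by
  have h3 : (3 : ℝ) ^ m ≠ 0 := by positivity
  have h1 : ((x.1.1 + a.1) / 3 ^ m, (x.1.2 + a.2) / 3 ^ m) =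
      ((y.1.1 + b.1) / 3 ^ m, (y.1.2 + b.2) / 3 ^ m) := congrArg Subtype.val h
  rw [Prod.mk.injEq] at h1
  constructor
  · have := h1.1
    rwa [div_left_inj' h3] at this
  · have := h1.2
    rwa [div_left_inj' h3] at this

/-- [UCP-A4] `η0 ∈ dom`, `0 ≤ η0 ≤ 1`, `η0 = 1` on the left side `x = 0`, `η0 = 0` on the right side `x = 1` (`DForm.cutoff`);
`η = (η0 + η0 ∘ (x, y ↦ x, 1 - y)) / 2` (the reflection is `swapC ∘ flipC ∘ swapC`) has the same properties and is invariant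
under `y ↦ 1 - y`. `X ∈ dom` by `glue` with `g c' = 1` if `c'.1 = c.1`, `η` if `c'.1 = c.1 + 1`, `η ∘ flipC` if
`c'.1 + 1 = c.1`, `0` otherwise. (Compatibility: `emb m a x = emb m b y` means `x.1 + a.1 = y.1 + b.1` and the same for the second
coordinates; if `a.1 = b.1` then `x.1 = y.1` and `x.2 = y.2` or `{x.2, y.2} = {0,1}`; if `a.1 + 1 = b.1` then `x.1 = 1`, `y.1 = 0`.)
`Y` in the same way for the second coordinate (`Y = X' ∘ swapC`, `X'` for `(c.2, c.1)`). `χ = X ⊓ Y`. For cells `c'` with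
`¬ Nr 1 c' c` the pull-back of `χ` is `0`; the others are `≤ 9` and have energy
`≤ E(pull X, pull X) + E(pull Y, pull Y) ≤ 2 E(η,η)` (`DForm.energy_sup_inf`). `self_sim_pull`. -/
theorem exists_cutoff : ∃ C1 : ℝ, 0 < C1 ∧ ∀ (m : ℕ) (c : Pt), Pr m c → ∃ χ ∈ D.dom,
    (∀ x, 0 ≤ χ x) ∧ (∀ x, χ x ≤ 1) ∧ (∀ x ∈ cell m c, χ x = 1) ∧
    (∀ c', Pr m c' → ¬ Nr 1 c' c → ∀ x ∈ cell m c', χ x = 0) ∧ D.E χ χ ≤ C1 * D.ρ ^ m := by
  classical
  obtain ⟨η, hη⟩ := Cutoff_exists D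
  have hη0 := D.nonneg _ hη.mem
  refine ⟨9 * (2 * D.E η η) + 1, by linarith, ?_⟩
  intro m c hc
  obtain ⟨X, hX, hXp⟩ := glue D m (fun c' => Cutoff_F η c.1 c'.1)
    (fun c' _ => Cutoff_F_mem D hη _ _) (by
      intro a b ha hb x y h
      obtain ⟨h1, h2⟩ := Cutoff_emb_eq ha hb h
      exact Cutoff_compat D hη c.1 a b x y h1 h2)
  obtain ⟨Y, hY, hYp⟩ := glue D m (fun c' => (Cutoff_F η c.2 c'.2).comp swapC)
    (fun c' _ => D.swap_mem _ (Cutoff_F_mem D hη _ _)) (by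
      intro a b ha hb x y h
      obtain ⟨h1, h2⟩ := Cutoff_emb_eq ha hb h
      exact Cutoff_compat D hη c.2 (a.2, a.1) (b.2, b.1) (swapC x) (swapC y) h2 h1)
  -- values
  have hval : ∀ c', Pr m c' → ∀ x ∈ cell m c', ∃ y : carpet, X x = Cutoff_F η c.1 c'.1 y ∧
      Y x = Cutoff_F η c.2 c'.2 (swapC y) := by
    intro c' hc' x hx
    obtain ⟨y, rfl⟩ := exists_emb hc' hx
    refine ⟨y, ?_, ?_⟩
    · rw [← pull_apply hc', hXp c' hc']
    · rw [← pull_apply hc', hYp c' hc']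
      rfl
  refine ⟨X ⊓ Y, D.toDForm.inf_mem hX hY, ?_, ?_, ?_, ?_, ?_⟩
  · intro x
    obtain ⟨c', hc', hx⟩ := exists_cell' x m
    obtain ⟨y, h1, h2⟩ := hval c' hc' x hx
    rw [ContinuousMap.inf_apply, h1, h2]
    exact le_inf (Cutoff_F_nonneg D hη _ _ _) (Cutoff_F_nonneg D hη _ _ _)
  · intro x
    obtain ⟨c', hc', hx⟩ := exists_cell' x m
    obtain ⟨y, h1, h2⟩ := hval c' hc' x hx
    rw [ContinuousMap.inf_apply, h1, h2]
    exact inf_le_left.trans (Cutoff_F_le_one D hη _ _ _)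
  · intro x hx
    obtain ⟨y, h1, h2⟩ := hval c hc x hx
    rw [ContinuousMap.inf_apply, h1, h2, Cutoff_F_self, Cutoff_F_self, ContinuousMap.one_apply,
      ContinuousMap.one_apply, inf_idem]
  · intro c' hc' hn x hx
    obtain ⟨y, h1, h2⟩ := hval c' hc' x hx
    rw [ContinuousMap.inf_apply, h1, h2]
    by_cases h3 : c'.1 ≤ c.1 + 1 ∧ c.1 ≤ c'.1 + 1
    · have h4 : ¬ (c'.2 ≤ c.2 + 1 ∧ c.2 ≤ c'.2 + 1) := by
        intro h5
        exact hn ⟨h3.1, h3.2, h5.1, h5.2⟩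
      rw [Cutoff_F_far η h4, ContinuousMap.zero_apply]
      exact inf_eq_right.2 (Cutoff_F_nonneg D hη _ _ _)
    · rw [Cutoff_F_far η h3, ContinuousMap.zero_apply]
      exact inf_eq_left.2 (Cutoff_F_nonneg D hη _ _ _)
  · have hχ : X ⊓ Y ∈ D.dom := D.toDForm.inf_mem hX hY
    rw [self_sim_pull D m hχ hχ, mul_comm]
    refine mul_le_mul_of_nonneg_right ?_ (pow_nonneg D.ρ_pos.le _)
    -- the energy of one cell
    have hcell : ∀ c', Pr m c' →
        D.E (pull m c' (X ⊓ Y)) (pull m c' (X ⊓ Y)) ≤ 2 * D.E η η := by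
      intro c' hc'
      rw [pull_inf, hXp c' hc', hYp c' hc']
      have h1 := Cutoff_F_mem D hη c.1 c'.1
      have h2 := Cutoff_F_mem D hη c.2 c'.2
      have h3 := D.swap_mem _ h2
      have h4 := D.toDForm.energy_sup_inf h1 h3
      have h5 := D.nonneg _ (D.toDForm.sup_mem h1 h3)
      have h6 := Cutoff_F_energy D hη c.1 c'.1
      have h7 := Cutoff_F_energy D hη c.2 c'.2
      rw [D.swap_E _ h2] at h4
      linarith
    have hfar : ∀ c', Pr m c' → ¬ Nr 1 c' c →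
        D.E (pull m c' (X ⊓ Y)) (pull m c' (X ⊓ Y)) = 0 := by
      intro c' hc' hn
      have h0 : pull m c' (X ⊓ Y) = 0 := by
        rw [pull_inf, hXp c' hc', hYp c' hc']
        ext y
        rw [ContinuousMap.inf_apply, ContinuousMap.zero_apply, ContinuousMap.comp_apply]
        by_cases h3 : c'.1 ≤ c.1 + 1 ∧ c.1 ≤ c'.1 + 1
        · have h4 : ¬ (c'.2 ≤ c.2 + 1 ∧ c.2 ≤ c'.2 + 1) := by
            intro h5
            exact hn ⟨h3.1, h3.2, h5.1, h5.2⟩
          rw [Cutoff_F_far η h4, ContinuousMap.zero_apply]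
          exact inf_eq_right.2 (Cutoff_F_nonneg D hη _ _ _)
        · rw [Cutoff_F_far η h3, ContinuousMap.zero_apply]
          exact inf_eq_left.2 (Cutoff_F_nonneg D hη _ _ _)
      rw [h0, D.toDForm.zero_left D.dom.zero_mem]
    have hsub : (cells m).filter (fun c' => Nr 1 c' c) ⊆
        Finset.Icc (c.1 - 1) (c.1 + 1) ×ˢ Finset.Icc (c.2 - 1) (c.2 + 1) := by
      intro c' hc'
      rw [Finset.mem_filter] at hc'
      rw [Finset.mem_product, Finset.mem_Icc, Finset.mem_Icc]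
      have := hc'.2
      unfold Nr at this
      omega
    have hcard : ((cells m).filter (fun c' => Nr 1 c' c)).card ≤ 9 := by
      refine (Finset.card_le_card hsub).trans ?_
      rw [Finset.card_product, Nat.card_Icc, Nat.card_Icc]
      have h1 : c.1 + 1 + 1 - (c.1 - 1) ≤ 3 := by omega
      have h2 : c.2 + 1 + 1 - (c.2 - 1) ≤ 3 := by omega
      calc (c.1 + 1 + 1 - (c.1 - 1)) * (c.2 + 1 + 1 - (c.2 - 1)) ≤ 3 * 3 := Nat.mul_le_mul h1 h2
        _ = 9 := by norm_num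
    have hsum : ∑ c' ∈ cells m, D.E (pull m c' (X ⊓ Y)) (pull m c' (X ⊓ Y)) =
        ∑ c' ∈ (cells m).filter (fun c' => Nr 1 c' c),
          D.E (pull m c' (X ⊓ Y)) (pull m c' (X ⊓ Y)) := by
      symm
      refine Finset.sum_subset (Finset.filter_subset _ _) ?_
      intro c' hc' hn
      refine hfar c' (mem_cells.1 hc') ?_
      intro h
      exact hn (Finset.mem_filter.2 ⟨hc', h⟩)
    rw [hsum]
    have h1 : ∑ c' ∈ (cells m).filter (fun c' => Nr 1 c' c),
        D.E (pull m c' (X ⊓ Y)) (pull m c' (X ⊓ Y)) ≤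
        ((cells m).filter (fun c' => Nr 1 c' c)).card • (2 * D.E η η) := by
      refine Finset.sum_le_card_nsmul _ _ _ ?_
      intro c' hc'
      exact hcell c' (mem_cells.1 (Finset.mem_filter.1 hc').1)
    rw [nsmul_eq_mul] at h1
    have h2 : (((cells m).filter (fun c' => Nr 1 c' c)).card : ℝ) ≤ 9 := by exact_mod_cast hcard
    have h3 : (((cells m).filter (fun c' => Nr 1 c' c)).card : ℝ) * (2 * D.E η η) ≤
        9 * (2 * D.E η η) := mul_le_mul_of_nonneg_right h2 (by linarith)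
    linarith

end UCP
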