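import Pool.Agent.UCP.Exact
import Pool.Agent.UCP.Base

/-!
[UCP-E2] Euler bound for minors of the square lattice.
-/

namespace UCP

/-- two sets contain side-adjacent squares -/
def Adj (A B : Pt → Prop) : Prop := ∃ x y, A x ∧ B y ∧ Sd x y

/-! ### linear algebra over the field with two elements -/

open Module in
theorem Euler_upper {E I : Type*} [Fintype E] [Fintype I] [DecidableEq E] [DecidableEq I]
    (Z : Submodule (ZMod 2) (E → ZMod 2)) (b : I → E → ZMod 2)
    (hspan : Z ≤ Submodule.span (ZMod 2) (Set.range b)) (hbZ : ∀ i, b i ∈ Z)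
    (h2 : ∀ e, (Finset.univ.filter fun i => b i e ≠ 0).card ≤ 2)
    (h4 : ∀ z ∈ Z, z ≠ 0 → 4 ≤ (Finset.univ.filter fun e => z e ≠ 0).card) (hZ : Z ≠ ⊥) :
    2 * (finrank (ZMod 2) Z + 1) ≤ Fintype.card E := by
  classical
  set I' : Finset I := Finset.univ.filter fun i => b i ≠ 0 with hI'
  set b0 : E → ZMod 2 := ∑ i, b i with hb0
  have hb0Z : b0 ∈ Z := Z.sum_mem fun i _ => hbZ i
  have hspan' : Z ≤ Submodule.span (ZMod 2) (b '' (I' : Set I)) := by
    refine hspan.trans (Submodule.span_le.2 ?_)
    rintro _ ⟨i, rfl⟩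
    by_cases hi : b i = 0
    · rw [hi]; exact Submodule.zero_mem _
    · exact Submodule.subset_span ⟨i, by simp [hI', hi], rfl⟩
  have hcount : ∑ i ∈ I', (Finset.univ.filter fun e => b i e ≠ 0).card =
      ∑ e, (Finset.univ.filter fun i => b i e ≠ 0).card := by
    have h1 : ∑ i ∈ I', (Finset.univ.filter fun e => b i e ≠ 0).card =
        ∑ i, (Finset.univ.filter fun e => b i e ≠ 0).card := by
      refine Finset.sum_subset (Finset.subset_univ _) fun i _ hi => ?_
      have : b i = 0 := by
        by_contra h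
        exact hi (by simp [hI', h])
      simp [this]
    rw [h1]
    simp only [Finset.card_filter]
    rw [Finset.sum_comm]
  have h4I : 4 * I'.card ≤ ∑ i ∈ I', (Finset.univ.filter fun e => b i e ≠ 0).card := by
    rw [mul_comm, ← smul_eq_mul, ← Finset.sum_const]
    refine Finset.sum_le_sum fun i hi => h4 _ (hbZ i) ?_
    simpa [hI'] using hi
  have hval : ∀ e, b0 e = ((Finset.univ.filter fun i => b i e ≠ 0).card : ZMod 2) := by
    intro e
    rw [hb0, Finset.sum_apply, Finset.card_filter]
    push_cast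
    refine Finset.sum_congr rfl fun i _ => ?_
    have : ∀ a : ZMod 2, a = if a ≠ 0 then 1 else 0 := by decide
    exact this (b i e)
  by_cases hb : b0 = 0
  · -- the boundaries are dependent
    obtain ⟨i0, hi0⟩ : I'.Nonempty := by
      rw [Finset.nonempty_iff_ne_empty]
      intro h
      apply hZ
      rw [eq_bot_iff]
      refine hspan'.trans ?_
      rw [h]
      simp
    have hsp2 : Z ≤ Submodule.span (ZMod 2) (((I'.erase i0).image b : Finset (E → ZMod 2)) :
        Set (E → ZMod 2)) := by
      refine hspan'.trans (Submodule.span_le.2 ?_)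
      rintro _ ⟨i, hi, rfl⟩
      by_cases h : i = i0
      · subst h
        have h5 : b i = ∑ j ∈ I'.erase i, b j := by
          have h6 : ∑ j ∈ I', b j = 0 := by
            rw [← hb, hb0]
            refine Finset.sum_subset (Finset.subset_univ _) fun j _ hj => ?_
            by_contra h
            exact hj (by simp [hI', h])
          rw [← Finset.add_sum_erase _ _ hi0] at h6
          have h7 := eq_neg_of_add_eq_zero_left h6
          rw [h7]
          ext e
          simp
        rw [h5]
        refine Submodule.sum_mem _ fun j hj => Submodule.subset_span ?_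
        rw [Finset.coe_image]
        exact ⟨j, hj, rfl⟩
      · refine Submodule.subset_span ?_
        rw [Finset.coe_image]
        exact ⟨i, Finset.mem_coe.2 (Finset.mem_erase.2 ⟨h, hi⟩), rfl⟩
    have hr : finrank (ZMod 2) Z ≤ I'.card - 1 := by
      refine (Submodule.finrank_mono hsp2).trans ((finrank_span_finset_le_card _).trans ?_)
      exact Finset.card_image_le.trans (le_of_eq (Finset.card_erase_of_mem hi0))
    have hpos : 1 ≤ I'.card := Finset.card_pos.2 ⟨i0, hi0⟩
    have h8 : ∑ e : E, (Finset.univ.filter fun i => b i e ≠ 0).card ≤ ∑ e : E, 2 :=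
      Finset.sum_le_sum fun e _ => h2 e
    rw [Finset.sum_const, smul_eq_mul, Finset.card_univ] at h8
    rw [hcount] at h4I
    omega
  · have hr : finrank (ZMod 2) Z ≤ I'.card := by
      have hsp2 : Z ≤ Submodule.span (ZMod 2) ((I'.image b : Finset (E → ZMod 2)) :
          Set (E → ZMod 2)) := by
        rw [Finset.coe_image]; exact hspan'
      exact (Submodule.finrank_mono hsp2).trans ((finrank_span_finset_le_card _).trans
        Finset.card_image_le)
    have h0 := h4 b0 hb0Z hb
    rw [Finset.card_filter] at h0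
    have h8 : ∑ e : E, ((Finset.univ.filter fun i => b i e ≠ 0).card +
        (if b0 e ≠ 0 then 1 else 0)) ≤ ∑ e : E, 2 := by
      refine Finset.sum_le_sum fun e _ => ?_
      have h9 := h2 e
      rw [hval e]
      generalize (Finset.univ.filter fun i => b i e ≠ 0).card = k at h9 ⊢
      interval_cases k <;> decide
    rw [Finset.sum_const, smul_eq_mul, Finset.card_univ, Finset.sum_add_distrib] at h8
    rw [hcount] at h4I
    omega

open Module in
theorem Euler_lower {ν E : Type*} [Fintype E] [Fintype ν] [Nonempty ν]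
    (δ : (E → ZMod 2) →ₗ[ZMod 2] (ν → ZMod 2)) (h : ∀ z, ∑ v, δ z v = 0) :
    Fintype.card E + 1 ≤ finrank (ZMod 2) (LinearMap.ker δ) + Fintype.card ν := by
  classical
  have h1 := LinearMap.finrank_range_add_finrank_ker δ
  rw [finrank_fintype_fun_eq_card] at h1
  let φ : (ν → ZMod 2) →ₗ[ZMod 2] ZMod 2 := ∑ v, LinearMap.proj v
  have hφ : ∀ a, φ a = ∑ v, a v := by
    intro a
    simp [φ]
  have h2 : LinearMap.range δ ≤ LinearMap.ker φ := by
    rintro _ ⟨z, rfl⟩
    rw [LinearMap.mem_ker, hφ, h]
  have h3 : LinearMap.range φ = ⊤ := by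
    rw [LinearMap.range_eq_top]
    intro c
    obtain ⟨v⟩ := ‹Nonempty ν›
    refine ⟨Pi.single v c, ?_⟩
    rw [hφ]
    simp
  have h4 := LinearMap.finrank_range_add_finrank_ker φ
  rw [finrank_fintype_fun_eq_card, h3, finrank_top, finrank_self] at h4
  have h5 := Submodule.finrank_mono h2
  omega

/-! ### edges of the lattice -/

/-- edges: `(p, true)` from `p` to the right, `(p, false)` from `p` upwards -/
abbrev Euler_Ed : Type := (ℤ × ℤ) × Bool

/-- end points -/
def Euler_b (e : Euler_Ed) : ℤ × ℤ := if e.2 then (e.1.1 + 1, e.1.2) else (e.1.1, e.1.2 + 1)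

/-- the second face (the first one is `e.1`) -/
def Euler_g (e : Euler_Ed) : ℤ × ℤ := if e.2 then (e.1.1, e.1.2 - 1) else (e.1.1 - 1, e.1.2)

/-- side-adjacent -/
def Euler_S (a b : ℤ × ℤ) : Prop :=
  (a.1 = b.1 ∧ (a.2 = b.2 + 1 ∨ b.2 = a.2 + 1)) ∨ (a.2 = b.2 ∧ (a.1 = b.1 + 1 ∨ b.1 = a.1 + 1))

theorem Euler_S.symm {a b : ℤ × ℤ} (h : Euler_S a b) : Euler_S b a := by
  unfold Euler_S at *; omega

theorem Euler_S.ne {a b : ℤ × ℤ} (h : Euler_S a b) : a ≠ b := by
  rintro rfl
  unfold Euler_S at h; omega

/-- the edge between side-adjacent points -/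
def Euler_e (a b : ℤ × ℤ) : Euler_Ed :=
  if a.2 = b.2 then ((min a.1 b.1, a.2), true) else ((a.1, min a.2 b.2), false)

theorem Euler_e_symm {a b : ℤ × ℤ} (h : Euler_S a b) : Euler_e a b = Euler_e b a := by
  unfold Euler_e Euler_S at *
  by_cases h1 : a.2 = b.2
  · rw [if_pos h1, if_pos h1.symm, min_comm, h1]
  · rw [if_neg h1, if_neg (Ne.symm h1), min_comm]
    have : a.1 = b.1 := by omega
    rw [this]

theorem Euler_e_ends {a b : ℤ × ℤ} (h : Euler_S a b) :
    ((Euler_e a b).1 = a ∧ Euler_b (Euler_e a b) = b) ∨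
      ((Euler_e a b).1 = b ∧ Euler_b (Euler_e a b) = a) := by
  obtain ⟨a1, a2⟩ := a
  obtain ⟨b1, b2⟩ := b
  unfold Euler_S at h
  simp only at h
  rcases h with ⟨rfl, rfl | rfl⟩ | ⟨rfl, rfl | rfl⟩
  · right
    unfold Euler_e Euler_b
    simp
  · left
    unfold Euler_e Euler_b
    simp
  · right
    unfold Euler_e Euler_b
    simp
  · left
    unfold Euler_e Euler_b
    simp

theorem Euler_S_ends (e : Euler_Ed) : Euler_S e.1 (Euler_b e) := by
  unfold Euler_S Euler_b
  rcases e with ⟨p, _ | _⟩ <;> simp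

theorem Euler_e_of_ends (e : Euler_Ed) : Euler_e e.1 (Euler_b e) = e := by
  rcases e with ⟨⟨x, y⟩, _ | _⟩
  · unfold Euler_e Euler_b
    simp
  · unfold Euler_e Euler_b
    simp

/-- the boundary of a chain of edges -/
def Euler_bd (z : Euler_Ed → ZMod 2) (p : ℤ × ℤ) : ZMod 2 :=
  z (p, true) + z ((p.1 - 1, p.2), true) + z (p, false) + z ((p.1, p.2 - 1), false)

/-- neighbours -/
def Euler_nb (p : ℤ × ℤ) : Finset (ℤ × ℤ) :=
  {(p.1 + 1, p.2), (p.1 - 1, p.2), (p.1, p.2 + 1), (p.1, p.2 - 1)}

theorem Euler_mem_nb {p b : ℤ × ℤ} : b ∈ Euler_nb p ↔ Euler_S p b := by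
  unfold Euler_nb Euler_S
  simp only [Finset.mem_insert, Finset.mem_singleton, Prod.ext_iff]
  omega

theorem Euler_sum_nb (z : Euler_Ed → ZMod 2) (p : ℤ × ℤ) :
    ∑ b ∈ Euler_nb p, z (Euler_e p b) = Euler_bd z p := by
  obtain ⟨x, y⟩ := p
  unfold Euler_nb Euler_bd
  rw [Finset.sum_insert, Finset.sum_insert, Finset.sum_insert, Finset.sum_singleton]
  · have e1 : Euler_e (x, y) (x + 1, y) = ((x, y), true) := by
      unfold Euler_e; simp
    have e2 : Euler_e (x, y) (x - 1, y) = ((x - 1, y), true) := by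
      unfold Euler_e; simp
    have e3 : Euler_e (x, y) (x, y + 1) = ((x, y), false) := by
      unfold Euler_e
      rw [if_neg (by simp only; omega)]
      simp
    have e4 : Euler_e (x, y) (x, y - 1) = ((x, y - 1), false) := by
      unfold Euler_e
      rw [if_neg (by simp only; omega)]
      simp
    simp only [e1, e2, e3, e4]
    ring
  · simp only [Finset.mem_singleton, Prod.ext_iff]; omega
  · simp only [Finset.mem_insert, Finset.mem_singleton, Prod.ext_iff]; omega
  · simp only [Finset.mem_insert, Finset.mem_singleton, Prod.ext_iff]; omega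

theorem Euler_bd_face (F : ℤ × ℤ → ZMod 2) (p : ℤ × ℤ) :
    Euler_bd (fun e => F e.1 + F (Euler_g e)) p = 0 := by
  obtain ⟨x, y⟩ := p
  unfold Euler_bd Euler_g
  simp only [if_true, Bool.false_eq_true, if_false]
  generalize F (x, y) = a
  generalize F (x, y - 1) = b
  generalize F (x - 1, y) = c
  generalize F (x - 1, y - 1) = d
  revert a b c d
  decide

theorem Euler_bd_add (z z' : Euler_Ed → ZMod 2) (p : ℤ × ℤ) :
    Euler_bd (z + z') p = Euler_bd z p + Euler_bd z' p := by
  unfold Euler_bd
  simp only [Pi.add_apply]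
  ring

theorem Euler_bd_single {a b : ℤ × ℤ} (h : Euler_S a b) (p : ℤ × ℤ) :
    Euler_bd (Pi.single (Euler_e a b) 1) p = (if p = a then 1 else 0) + (if p = b then 1 else 0) := by
  rw [← Euler_sum_nb]
  have key : ∀ c ∈ Euler_nb p, (Pi.single (Euler_e a b) (1 : ZMod 2) : Euler_Ed → ZMod 2)
      (Euler_e p c) = (if p = a ∧ c = b then 1 else 0) + (if p = b ∧ c = a then 1 else 0) := by
    intro c hc
    have hpc := Euler_mem_nb.1 hc
    rw [Pi.single_apply]
    by_cases he : Euler_e p c = Euler_e a b
    · rw [if_pos he]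
      have h1 := Euler_e_ends hpc
      have h2 := Euler_e_ends h
      rw [he] at h1
      have hab := h.ne
      rcases h1 with ⟨e1, e2⟩ | ⟨e1, e2⟩ <;> rcases h2 with ⟨e3, e4⟩ | ⟨e3, e4⟩
      · have f1 : p = a := e1.symm.trans e3
        have f2 : c = b := e2.symm.trans e4
        subst f1 f2
        rw [if_pos ⟨rfl, rfl⟩, if_neg (fun h => hab h.1), add_zero]
      · have f1 : p = b := e1.symm.trans e3
        have f2 : c = a := e2.symm.trans e4
        subst f1 f2
        rw [if_neg (fun h => hab h.1.symm), if_pos ⟨rfl, rfl⟩, zero_add]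
      · have f1 : c = a := e1.symm.trans e3
        have f2 : p = b := e2.symm.trans e4
        subst f1 f2
        rw [if_neg (fun h => hab h.1.symm), if_pos ⟨rfl, rfl⟩, zero_add]
      · have f1 : c = b := e1.symm.trans e3
        have f2 : p = a := e2.symm.trans e4
        subst f1 f2
        rw [if_pos ⟨rfl, rfl⟩, if_neg (fun h => hab h.1), add_zero]
    · rw [if_neg he, if_neg, if_neg, add_zero]
      · rintro ⟨rfl, rfl⟩
        exact he (Euler_e_symm h).symm
      · rintro ⟨rfl, rfl⟩
        exact he rfl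
  rw [Finset.sum_congr rfl key, Finset.sum_add_distrib]
  congr 1
  · by_cases hp : p = a
    · subst hp
      rw [if_pos rfl, Finset.sum_eq_single b]
      · simp
      · intro c _ hc; simp [hc]
      · intro hb; exact absurd (Euler_mem_nb.2 h) hb
    · simp [hp]
  · by_cases hp : p = b
    · subst hp
      rw [if_pos rfl, Finset.sum_eq_single a]
      · simp
      · intro c _ hc; simp [hc]
      · intro hb; exact absurd (Euler_mem_nb.2 h.symm) hb
    · simp [hp]

/-- the number of edges of a cycle which leave a finite set is even -/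
theorem Euler_even (S : Finset (ℤ × ℤ)) (g : Euler_Ed → ZMod 2)
    (hg : ∀ a, Euler_bd g a = 0) {E : Type*} (s : Finset E) (p q : E → ℤ × ℤ)
    (hp : ∀ e ∈ s, p e ∈ S) (hq : ∀ e ∈ s, q e ∉ S) (hpq : ∀ e ∈ s, Euler_S (p e) (q e))
    (hinj : ∀ e ∈ s, ∀ e' ∈ s, p e = p e' → q e = q e' → e = e')
    (hsur : ∀ a ∈ S, ∀ b, b ∉ S → Euler_S a b → g (Euler_e a b) ≠ 0 →
      ∃ e ∈ s, p e = a ∧ q e = b) :
    ∑ e ∈ s, g (Euler_e (p e) (q e)) = 0 := by
  classical
  have h0 : ∑ x ∈ S.sigma Euler_nb, g (Euler_e x.1 x.2) = 0 := by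
    rw [Finset.sum_sigma]
    refine Finset.sum_eq_zero fun a _ => ?_
    show ∑ b ∈ Euler_nb a, g (Euler_e a b) = 0
    rw [Euler_sum_nb, hg]
  rw [← Finset.sum_filter_add_sum_filter_not (S.sigma Euler_nb) (fun x => x.2 ∈ S)] at h0
  have h1 : ∑ x ∈ (S.sigma Euler_nb).filter (fun x => x.2 ∈ S), g (Euler_e x.1 x.2) = 0 := by
    refine Finset.sum_involution (fun x _ => ⟨x.2, x.1⟩) ?_ ?_ ?_ ?_
    · intro x hx
      simp only [Finset.mem_filter, Finset.mem_sigma] at hx
      have hS := Euler_mem_nb.1 hx.1.2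
      rw [Euler_e_symm hS]
      exact CharTwo.add_self_eq_zero _
    · intro x hx _ h
      simp only [Finset.mem_filter, Finset.mem_sigma] at hx
      have hS := Euler_mem_nb.1 hx.1.2
      exact hS.ne (congrArg Sigma.fst h).symm
    · intro x hx
      simp only [Finset.mem_filter, Finset.mem_sigma] at hx ⊢
      exact ⟨⟨hx.2, Euler_mem_nb.2 (Euler_mem_nb.1 hx.1.2).symm⟩, hx.1.1⟩
    · intro x hx
      rfl
  rw [h1, zero_add] at h0
  rw [← h0]
  refine Finset.sum_bij_ne_zero (fun e _ _ => (⟨p e, q e⟩ : Σ _ : ℤ × ℤ, ℤ × ℤ)) ?_ ?_ ?_ ?_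
  · intro e he _
    simp only [Finset.mem_filter, Finset.mem_sigma]
    exact ⟨⟨hp e he, Euler_mem_nb.2 (hpq e he)⟩, hq e he⟩
  · intro e he _ e' he' _ h
    refine hinj e he e' he' (congrArg Sigma.fst h) ?_
    simpa using (Sigma.mk.inj_iff.1 h).2
  · intro x hx hne
    simp only [Finset.mem_filter, Finset.mem_sigma] at hx
    obtain ⟨e, he, h1, h2⟩ := hsur x.1 hx.1.1 x.2 hx.2 (Euler_mem_nb.1 hx.1.2) hne
    refine ⟨e, he, ?_, ?_⟩
    · rw [h1, h2]; exact hne
    · rw [h1, h2]
  · intro e he _
    rfl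

/-- chains along paths -/
theorem Euler_path {S : Set (ℤ × ℤ)} {a b : ℤ × ℤ} (ha : a ∈ S)
    (h : Relation.ReflTransGen (fun x y => Euler_S x y ∧ y ∈ S) a b) :
    ∃ z : Euler_Ed → ZMod 2, (Function.support z).Finite ∧
      (∀ e, z e ≠ 0 → e.1 ∈ S ∧ Euler_b e ∈ S) ∧
      ∀ p, Euler_bd z p = (if p = a then 1 else 0) + (if p = b then 1 else 0) := by
  induction h with
  | refl =>
    refine ⟨0, by simp, fun e he => absurd rfl he, fun p => ?_⟩
    rw [CharTwo.add_self_eq_zero]
    simp [Euler_bd]
  | @tail b c hab hbc ih =>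
    obtain ⟨z, hz1, hz2, hz3⟩ := ih
    have hb : b ∈ S := by
      rcases Relation.ReflTransGen.cases_tail hab with h | ⟨d, _, hd⟩
      · rw [h]; exact ha
      · exact hd.2
    refine ⟨z + Pi.single (Euler_e b c) 1, ?_, ?_, ?_⟩
    · refine (hz1.union (Set.finite_singleton (Euler_e b c))).subset ?_
      intro e he
      by_contra hcon
      simp only [Set.mem_union, Function.mem_support, Set.mem_singleton_iff, not_or,
        not_not] at hcon
      apply he
      rw [Pi.add_apply, hcon.1, Pi.single_apply, if_neg hcon.2, add_zero]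
    · intro e he
      by_cases h1 : z e = 0
      · have h2 : e = Euler_e b c := by
          by_contra h2
          apply he
          rw [Pi.add_apply, h1, Pi.single_apply, if_neg h2, add_zero]
        subst h2
        rcases Euler_e_ends hbc.1 with ⟨e1, e2⟩ | ⟨e1, e2⟩
        · rw [e1, e2]; exact ⟨hb, hbc.2⟩
        · rw [e1, e2]; exact ⟨hbc.2, hb⟩
      · exact hz2 e h1
    · intro p
      rw [Euler_bd_add, hz3, Euler_bd_single hbc.1]
      have : ∀ x y w : ZMod 2, x + y + (y + w) = x + w := by decide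
      exact this _ _ _


/-- a bipartite minor of the lattice -/
structure Euler_Dat (ν E : Type) where
  S : ν → Set (ℤ × ℤ)
  fin : ∀ v, (S v).Finite
  disj : ∀ v w x, x ∈ S v → x ∈ S w → v = w
  conn : ∀ v, ∀ a ∈ S v, ∀ b ∈ S v,
    Relation.ReflTransGen (fun x y => Euler_S x y ∧ y ∈ S v) a b
  col : ν → Bool
  src : E → ν
  tgt : E → ν
  p : E → ℤ × ℤ
  q : E → ℤ × ℤ
  hs : ∀ e, col (src e) = false
  ht : ∀ e, col (tgt e) = true
  hp : ∀ e, p e ∈ S (src e)
  hq : ∀ e, q e ∈ S (tgt e)
  hpq : ∀ e, Euler_S (p e) (q e)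
  inj : ∀ e e', src e = src e' → tgt e = tgt e' → e = e'

namespace Euler_Dat

variable {ν E : Type} (D : Euler_Dat ν E)

theorem st (e e' : E) : D.src e ≠ D.tgt e' := by
  intro h
  have h1 := D.hs e
  rw [h, D.ht] at h1
  exact absurd h1 (by decide)

/-- the special edges -/
def le (e : E) : Euler_Ed := Euler_e (D.p e) (D.q e)

theorem le_ends (e : E) : ((D.le e).1 = D.p e ∧ Euler_b (D.le e) = D.q e) ∨
    ((D.le e).1 = D.q e ∧ Euler_b (D.le e) = D.p e) := Euler_e_ends (D.hpq e)

theorem pq_inj {e e' : E} (h : D.p e = D.p e') (h' : D.q e = D.q e') : e = e' := by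
  refine D.inj e e' (D.disj _ _ (D.p e) (D.hp e) (h ▸ D.hp e')) (D.disj _ _ (D.q e) (D.hq e) ?_)
  rw [h']; exact D.hq e'

theorem p_ne_q (e e' : E) : D.p e ≠ D.q e' := by
  intro h
  refine D.st e e' (D.disj _ _ (D.p e) (D.hp e) ?_)
  rw [h]; exact D.hq e'

theorem le_inj {e e' : E} (h : D.le e = D.le e') : e = e' := by
  have h1 := D.le_ends e
  have h2 := D.le_ends e'
  rw [h] at h1
  rcases h1 with ⟨e1, e2⟩ | ⟨e1, e2⟩ <;> rcases h2 with ⟨e3, e4⟩ | ⟨e3, e4⟩
  · exact D.pq_inj (e1.symm.trans e3) (e2.symm.trans e4)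
  · exact absurd (e1.symm.trans e3) (D.p_ne_q e e')
  · exact absurd (e3.symm.trans e1) (D.p_ne_q e' e)
  · exact D.pq_inj (e2.symm.trans e4) (e1.symm.trans e3)

/-- inner edges -/
def Inn (d : Euler_Ed) : Prop := ∃ v, d.1 ∈ D.S v ∧ Euler_b d ∈ D.S v

theorem not_inn (e : E) : ¬ D.Inn (D.le e) := by
  rintro ⟨v, h1, h2⟩
  rcases D.le_ends e with ⟨e1, e2⟩ | ⟨e1, e2⟩
  · rw [e1] at h1; rw [e2] at h2
    exact D.st e e ((D.disj _ _ _ (D.hp e) h1).trans (D.disj _ _ _ (D.hq e) h2).symm)
  · rw [e1] at h1; rw [e2] at h2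
    exact D.st e e ((D.disj _ _ _ (D.hp e) h2).trans (D.disj _ _ _ (D.hq e) h1).symm)

/-- allowed edges -/
def Al (d : Euler_Ed) : Prop := D.Inn d ∨ ∃ e, D.le e = d

/-- classes of faces -/
def rel (x y : ℤ × ℤ) : Prop := ∃ d, ¬ D.Al d ∧ x = d.1 ∧ y = Euler_g d

/-- classes of faces -/
def Q : Type := Quotient (Relation.EqvGen.setoid D.rel)

/-- the class of a face -/
def cls (x : ℤ × ℤ) : D.Q := Quotient.mk _ x

theorem cls_g {d : Euler_Ed} (h : ¬ D.Al d) : D.cls d.1 = D.cls (Euler_g d) :=
  Quotient.sound (Relation.EqvGen.rel _ _ ⟨d, h, rfl, rfl⟩)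

theorem const {F : ℤ × ℤ → ZMod 2} (hF : ∀ d, ¬ D.Al d → F d.1 = F (Euler_g d)) {x y : ℤ × ℤ}
    (h : D.cls x = D.cls y) : F x = F y := by
  have h1 : Relation.EqvGen D.rel x y := Quotient.exact h
  clear h
  induction h1 with
  | rel x y h =>
    obtain ⟨d, hd, rfl, rfl⟩ := h
    exact hF d hd
  | refl x => rfl
  | symm x y _ ih => exact ih.symm
  | trans x y z h1 h2 ih1 ih2 => exact ih1.trans ih2

/-- an allowed edge between a point of `S v` and a point outside is special -/
theorem special {v : ν} {a b : ℤ × ℤ} (ha : a ∈ D.S v) (hb : b ∉ D.S v) (hab : Euler_S a b)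
    (h : D.Al (Euler_e a b)) : ∃ e, (D.p e = a ∧ D.q e = b) ∨ (D.p e = b ∧ D.q e = a) := by
  have h2 := Euler_e_ends hab
  rcases h with ⟨w, h3, h4⟩ | ⟨e, he⟩
  · exfalso
    apply hb
    rcases h2 with ⟨e3, e4⟩ | ⟨e3, e4⟩
    · rw [e3] at h3; rw [e4] at h4
      rw [D.disj v w a ha h3]; exact h4
    · rw [e3] at h3; rw [e4] at h4
      rw [D.disj v w a ha h4]; exact h3
  · refine ⟨e, ?_⟩
    rw [← he] at h2
    rcases D.le_ends e with ⟨e1, e2⟩ | ⟨e1, e2⟩ <;> rcases h2 with ⟨e3, e4⟩ | ⟨e3, e4⟩
    · exact Or.inl ⟨e1.symm.trans e3, e2.symm.trans e4⟩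
    · exact Or.inr ⟨e1.symm.trans e3, e2.symm.trans e4⟩
    · exact Or.inr ⟨e2.symm.trans e4, e1.symm.trans e3⟩
    · exact Or.inl ⟨e2.symm.trans e4, e1.symm.trans e3⟩

variable [Fintype E]

open Classical in
/-- the vertex map -/
noncomputable def δ : (E → ZMod 2) →ₗ[ZMod 2] (ν → ZMod 2) where
  toFun z v := (∑ e, if D.src e = v then z e else 0) + ∑ e, if D.tgt e = v then z e else 0
  map_add' z z' := by
    ext v
    simp only [Pi.add_apply]
    have h1 : ∀ (P : E → Prop) [DecidablePred P], (∑ e, if P e then z e + z' e else 0) =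
        (∑ e, if P e then z e else 0) + ∑ e, if P e then z' e else 0 := by
      intro P _
      rw [← Finset.sum_add_distrib]
      refine Finset.sum_congr rfl fun e _ => ?_
      split_ifs <;> simp
    rw [h1, h1]
    ring
  map_smul' c z := by
    ext v
    simp only [Pi.smul_apply, smul_eq_mul, RingHom.id_apply]
    rw [mul_add, Finset.mul_sum, Finset.mul_sum]
    simp only [mul_ite, mul_zero]

open Classical in
theorem δ_apply (z : E → ZMod 2) (v : ν) : D.δ z v =
    (∑ e, if D.src e = v then z e else 0) + ∑ e, if D.tgt e = v then z e else 0 := rfl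

open Classical in
theorem δ_src (z : E → ZMod 2) (v : ν) (hv : D.col v = false) : D.δ z v =
    ∑ e ∈ Finset.univ.filter (fun e => D.src e = v), z e := by
  rw [δ_apply, Finset.sum_filter]
  have : ∑ e, (if D.tgt e = v then z e else 0) = 0 := by
    refine Finset.sum_eq_zero fun e _ => if_neg ?_
    rintro rfl
    rw [D.ht] at hv
    exact absurd hv (by decide)
  rw [this, add_zero]

open Classical in
theorem δ_tgt (z : E → ZMod 2) (v : ν) (hv : D.col v = true) : D.δ z v =
    ∑ e ∈ Finset.univ.filter (fun e => D.tgt e = v), z e := by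
  rw [δ_apply, Finset.sum_filter]
  have : ∑ e, (if D.src e = v then z e else 0) = 0 := by
    refine Finset.sum_eq_zero fun e _ => if_neg ?_
    rintro rfl
    rw [D.hs] at hv
    exact absurd hv (by decide)
  rw [this, zero_add]

theorem δ_sum [Fintype ν] (z : E → ZMod 2) : ∑ v, D.δ z v = 0 := by
  classical
  simp only [δ_apply]
  rw [Finset.sum_add_distrib, Finset.sum_comm, Finset.sum_comm (f := fun v e => if D.tgt e = v then z e else 0)]
  simp only [Finset.sum_ite_eq, Finset.mem_univ, if_true]
  exact CharTwo.add_self_eq_zero _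

omit [Fintype E] in
theorem other {z : E → ZMod 2} {s : Finset E} (h : ∑ e ∈ s, z e = 0) {e : E} (he : e ∈ s)
    (hz : z e ≠ 0) : ∃ e' ∈ s, e' ≠ e ∧ z e' ≠ 0 := by
  by_contra hcon
  push Not at hcon
  rw [Finset.sum_eq_single e (fun e' h1 h2 => hcon e' h1 h2) (fun h => absurd he h)] at h
  exact hz h

theorem four {z : E → ZMod 2} (hz : z ∈ LinearMap.ker D.δ) (hz0 : z ≠ 0) :
    4 ≤ (Finset.univ.filter fun e => z e ≠ 0).card := by
  classical
  obtain ⟨e0, h0⟩ : ∃ e, z e ≠ 0 := by
    by_contra h
    push Not at h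
    exact hz0 (funext h)
  have hs : ∀ v, D.col v = false →
      ∑ e ∈ Finset.univ.filter (fun e => D.src e = v), z e = 0 := by
    intro v hv
    rw [← D.δ_src z v hv, LinearMap.mem_ker.1 hz]
    rfl
  have ht : ∀ v, D.col v = true →
      ∑ e ∈ Finset.univ.filter (fun e => D.tgt e = v), z e = 0 := by
    intro v hv
    rw [← D.δ_tgt z v hv, LinearMap.mem_ker.1 hz]
    rfl
  obtain ⟨e1, h1, h1', h1''⟩ := other (hs _ (D.hs e0)) (by simp : e0 ∈ _) h0
  obtain ⟨e2, h2, h2', h2''⟩ := other (ht _ (D.ht e0)) (by simp : e0 ∈ _) h0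
  obtain ⟨e3, h3, h3', h3''⟩ := other (ht _ (D.ht e1)) (by simp : e1 ∈ _) h1''
  simp only [Finset.mem_filter, Finset.mem_univ, true_and] at h1 h2 h3
  have k1 : D.tgt e1 ≠ D.tgt e0 := fun h => h1' (D.inj _ _ h1 h)
  have h12 : e1 ≠ e2 := by rintro rfl; exact k1 h2
  have h23 : e2 ≠ e3 := by rintro rfl; exact k1 (h3.symm.trans h2)
  have h03 : e0 ≠ e3 := by rintro rfl; exact k1 h3.symm
  have hsub : ({e0, e1, e2, e3} : Finset E) ⊆ Finset.univ.filter fun e => z e ≠ 0 := by
    intro e he
    simp only [Finset.mem_insert, Finset.mem_singleton] at he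
    rw [Finset.mem_filter]
    refine ⟨Finset.mem_univ _, ?_⟩
    rcases he with rfl | rfl | rfl | rfl
    · exact h0
    · exact h1''
    · exact h2''
    · exact h3''
  have hc : ({e0, e1, e2, e3} : Finset E).card = 4 := by
    rw [Finset.card_insert_of_notMem, Finset.card_insert_of_notMem, Finset.card_insert_of_notMem,
      Finset.card_singleton]
    · simpa using h23
    · simp only [Finset.mem_insert, Finset.mem_singleton, not_or]
      exact ⟨h12, h3'.symm⟩
    · simp only [Finset.mem_insert, Finset.mem_singleton, not_or]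
      exact ⟨h1'.symm, h2'.symm, h03⟩
  rw [← hc]
  exact Finset.card_le_card hsub

/-- the finite classes next to special edges -/
abbrev I : Type := {c : D.Q // {x | D.cls x = c}.Finite ∧ ∃ e, D.cls (D.le e).1 = c ∨ D.cls (Euler_g (D.le e)) = c}

instance : Finite D.I := by
  have h : {c : D.Q | {x | D.cls x = c}.Finite ∧
      ∃ e, D.cls (D.le e).1 = c ∨ D.cls (Euler_g (D.le e)) = c}.Finite := by
    refine ((Set.finite_range fun e => D.cls (D.le e).1).union
      (Set.finite_range fun e => D.cls (Euler_g (D.le e)))).subset ?_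
    rintro c ⟨_, e, he | he⟩
    · exact Or.inl ⟨e, he⟩
    · exact Or.inr ⟨e, he⟩
  exact h.to_subtype

noncomputable instance : Fintype D.I := Fintype.ofFinite _

open Classical in
/-- the boundary of a class -/
noncomputable def bb (c : D.I) (e : E) : ZMod 2 :=
  (if D.cls (D.le e).1 = c.1 then 1 else 0) + if D.cls (Euler_g (D.le e)) = c.1 then 1 else 0

theorem bb_two [DecidableEq (ZMod 2)] (e : E) :
    (Finset.univ.filter fun i => D.bb i e ≠ 0).card ≤ 2 := by
  classical
  have h1 : (Finset.univ.filter fun i : D.I => D.cls (D.le e).1 = i.1).card ≤ 1 := by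
    rw [Finset.card_le_one]
    intro a ha b hb
    simp only [Finset.mem_filter, Finset.mem_univ, true_and] at ha hb
    exact Subtype.ext (ha.symm.trans hb)
  have h2 : (Finset.univ.filter fun i : D.I => D.cls (Euler_g (D.le e)) = i.1).card ≤ 1 := by
    rw [Finset.card_le_one]
    intro a ha b hb
    simp only [Finset.mem_filter, Finset.mem_univ, true_and] at ha hb
    exact Subtype.ext (ha.symm.trans hb)
  have h3 : (Finset.univ.filter fun i => D.bb i e ≠ 0) ⊆
      (Finset.univ.filter fun i : D.I => D.cls (D.le e).1 = i.1) ∪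
      (Finset.univ.filter fun i : D.I => D.cls (Euler_g (D.le e)) = i.1) := by
    intro i hi
    simp only [Finset.mem_filter, Finset.mem_univ, true_and, Finset.mem_union] at hi ⊢
    by_contra hcon
    rw [not_or] at hcon
    apply hi
    unfold bb
    rw [if_neg hcon.1, if_neg hcon.2, add_zero]
  have h4 := (Finset.card_le_card h3).trans (Finset.card_union_le _ _)
  omega

theorem bb_mem (c : D.I) : D.bb c ∈ LinearMap.ker D.δ := by
  classical
  rw [LinearMap.mem_ker]
  ext v
  set F : ℤ × ℤ → ZMod 2 := fun x => if D.cls x = c.1 then 1 else 0 with hF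
  set g : Euler_Ed → ZMod 2 := fun d => F d.1 + F (Euler_g d) with hg
  have hbg : ∀ e, D.bb c e = g (D.le e) := fun e => rfl
  have hal : ∀ d, g d ≠ 0 → D.Al d := by
    intro d hd
    by_contra h
    apply hd
    have := D.cls_g h
    simp only [hg, hF]
    rw [this]
    exact CharTwo.add_self_eq_zero _
  show D.δ (D.bb c) v = 0
  rcases hv : D.col v with _ | _
  · rw [D.δ_src _ v hv]
    refine Euler_even (D.fin v).toFinset g (Euler_bd_face F)
      (Finset.univ.filter (fun e => D.src e = v)) D.p D.q ?_ ?_ ?_ ?_ ?_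
    · intro e he
      simp only [Finset.mem_filter, Finset.mem_univ, true_and] at he
      rw [Set.Finite.mem_toFinset, ← he]
      exact D.hp e
    · intro e he
      simp only [Finset.mem_filter, Finset.mem_univ, true_and] at he
      rw [Set.Finite.mem_toFinset, ← he]
      intro h
      exact D.st e e (D.disj _ _ _ h (D.hq e))
    · intro e _
      exact D.hpq e
    · intro e _ e' _ h1 h2
      exact D.pq_inj h1 h2
    · intro a ha b hb hab hne
      rw [Set.Finite.mem_toFinset] at ha hb
      obtain ⟨e, ⟨h1, h2⟩ | ⟨h1, h2⟩⟩ := D.special ha hb hab (hal _ hne)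
      · refine ⟨e, ?_, h1, h2⟩
        rw [Finset.mem_filter]
        refine ⟨Finset.mem_univ _, D.disj _ _ a ?_ ha⟩
        rw [← h1]; exact D.hp e
      · exfalso
        have h3 : D.tgt e = v := by
          refine D.disj _ _ a ?_ ha
          rw [← h2]; exact D.hq e
        rw [← h3, D.ht] at hv
        exact absurd hv (by decide)
  · rw [D.δ_tgt _ v hv]
    have h0 : ∑ e ∈ Finset.univ.filter (fun e => D.tgt e = v), g (Euler_e (D.q e) (D.p e)) = 0 := by
      refine Euler_even (D.fin v).toFinset g (Euler_bd_face F)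
        (Finset.univ.filter (fun e => D.tgt e = v)) D.q D.p ?_ ?_ ?_ ?_ ?_
      · intro e he
        simp only [Finset.mem_filter, Finset.mem_univ, true_and] at he
        rw [Set.Finite.mem_toFinset, ← he]
        exact D.hq e
      · intro e he
        simp only [Finset.mem_filter, Finset.mem_univ, true_and] at he
        rw [Set.Finite.mem_toFinset, ← he]
        intro h
        exact D.st e e (D.disj _ _ _ (D.hp e) h)
      · intro e _
        exact (D.hpq e).symm
      · intro e _ e' _ h1 h2
        exact D.pq_inj h2 h1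
      · intro a ha b hb hab hne
        rw [Set.Finite.mem_toFinset] at ha hb
        obtain ⟨e, ⟨h1, h2⟩ | ⟨h1, h2⟩⟩ := D.special ha hb hab (hal _ hne)
        · exfalso
          have h3 : D.src e = v := by
            refine D.disj _ _ a ?_ ha
            rw [← h1]; exact D.hp e
          rw [← h3, D.hs] at hv
          exact absurd hv (by decide)
        · refine ⟨e, ?_, h2, h1⟩
          rw [Finset.mem_filter]
          refine ⟨Finset.mem_univ _, D.disj _ _ a ?_ ha⟩
          rw [← h2]; exact D.hq e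
    rw [← h0]
    refine Finset.sum_congr rfl fun e _ => ?_
    rw [hbg, le, Euler_e_symm (D.hpq e)]

/-- a root of every set -/
noncomputable def root (v : ν) : ℤ × ℤ := by
  classical
  exact if h : (D.S v).Nonempty then h.some else 0

omit [Fintype E] in
theorem root_mem {v : ν} {a : ℤ × ℤ} (h : a ∈ D.S v) : D.root v ∈ D.S v := by
  unfold root
  have h1 : (D.S v).Nonempty := ⟨a, h⟩
  rw [dif_pos h1]
  exact h1.some_mem

theorem Euler_bd_sum {J : Type} (s : Finset J) (f : J → Euler_Ed → ZMod 2) (x : ℤ × ℤ) :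
    Euler_bd (fun d => ∑ j ∈ s, f j d) x = ∑ j ∈ s, Euler_bd (f j) x := by
  unfold Euler_bd
  simp only [Finset.sum_add_distrib]

theorem Euler_bd_smul (c : ZMod 2) (f : Euler_Ed → ZMod 2) (x : ℤ × ℤ) :
    Euler_bd (fun d => c * f d) x = c * Euler_bd f x := by
  unfold Euler_bd
  ring

theorem span_le : LinearMap.ker D.δ ≤ Submodule.span (ZMod 2) (Set.range D.bb) := by
  classical
  intro c hc
  have hP : ∀ e, ∃ z : Euler_Ed → ZMod 2, (Function.support z).Finite ∧
      (∀ d, z d ≠ 0 → D.Inn d) ∧ ∀ x, Euler_bd z x = (if x = D.p e then 1 else 0) +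
        (if x = D.root (D.src e) then 1 else 0) := by
    intro e
    obtain ⟨z, h1, h2, h3⟩ := Euler_path (D.hp e) (D.conn _ _ (D.hp e) _ (D.root_mem (D.hp e)))
    exact ⟨z, h1, fun d hd => ⟨_, h2 d hd⟩, h3⟩
  have hQ : ∀ e, ∃ z : Euler_Ed → ZMod 2, (Function.support z).Finite ∧
      (∀ d, z d ≠ 0 → D.Inn d) ∧ ∀ x, Euler_bd z x = (if x = D.q e then 1 else 0) +
        (if x = D.root (D.tgt e) then 1 else 0) := by
    intro e
    obtain ⟨z, h1, h2, h3⟩ := Euler_path (D.hq e) (D.conn _ _ (D.hq e) _ (D.root_mem (D.hq e)))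
    exact ⟨z, h1, fun d hd => ⟨_, h2 d hd⟩, h3⟩
  choose zp hp1 hp2 hp3 using hP
  choose zq hq1 hq2 hq3 using hQ
  set f : E → Euler_Ed → ZMod 2 := fun e => Pi.single (D.le e) 1 + zp e + zq e with hf
  set z : Euler_Ed → ZMod 2 := fun d => ∑ e, c e * f e d with hz
  have hffin : ∀ e, (Function.support (f e)).Finite := by
    intro e
    refine (((Set.finite_singleton (D.le e)).union (hp1 e)).union (hq1 e)).subset ?_
    intro d hd
    by_contra hcon
    simp only [Set.mem_union, Function.mem_support, Set.mem_singleton_iff, not_or,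
      not_not] at hcon
    apply hd
    simp only [hf, Pi.add_apply, Pi.single_apply, if_neg hcon.1.1, hcon.1.2, hcon.2, add_zero]
  have hzfin : (Function.support z).Finite := by
    refine (Set.finite_iUnion hffin).subset ?_
    intro d hd
    by_contra hcon
    apply hd
    simp only [hz]
    refine Finset.sum_eq_zero fun e _ => ?_
    have : f e d = 0 := by
      by_contra h
      exact hcon (Set.mem_iUnion.2 ⟨e, h⟩)
    rw [this, mul_zero]
  have hzal : ∀ d, z d ≠ 0 → D.Al d := by
    intro d hd
    by_contra h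
    apply hd
    simp only [hz]
    refine Finset.sum_eq_zero fun e _ => ?_
    have h1 : zp e d = 0 := by
      by_contra h1
      exact h (Or.inl (hp2 e d h1))
    have h2 : zq e d = 0 := by
      by_contra h2
      exact h (Or.inl (hq2 e d h2))
    have h3 : d ≠ D.le e := fun h3 => h (Or.inr ⟨e, h3.symm⟩)
    simp only [hf, Pi.add_apply, Pi.single_apply, if_neg h3, h1, h2, add_zero, mul_zero]
  have hzle : ∀ e, z (D.le e) = c e := by
    intro e
    simp only [hz]
    rw [Finset.sum_eq_single e]
    · have h1 : zp e (D.le e) = 0 := by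
        by_contra h1
        exact D.not_inn e (hp2 e _ h1)
      have h2 : zq e (D.le e) = 0 := by
        by_contra h2
        exact D.not_inn e (hq2 e _ h2)
      simp only [hf, Pi.add_apply, Pi.single_apply, if_true, h1, h2, add_zero, mul_one]
    · intro e' _ he
      have h1 : zp e' (D.le e) = 0 := by
        by_contra h1
        exact D.not_inn e (hp2 e' _ h1)
      have h2 : zq e' (D.le e) = 0 := by
        by_contra h2
        exact D.not_inn e (hq2 e' _ h2)
      have h3 : D.le e ≠ D.le e' := fun h => he (D.le_inj h).symm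
      simp only [hf, Pi.add_apply, Pi.single_apply, if_neg h3, h1, h2, add_zero, mul_zero]
    · intro h
      exact absurd (Finset.mem_univ _) h
  have hbd : ∀ x, Euler_bd z x = 0 := by
    intro x
    simp only [hz]
    rw [Euler_bd_sum]
    have h1 : ∀ e ∈ (Finset.univ : Finset E), Euler_bd (fun d => c e * f e d) x =
        c e * (if x = D.root (D.src e) then 1 else 0) +
          c e * (if x = D.root (D.tgt e) then 1 else 0) := by
      intro e _
      rw [Euler_bd_smul]
      have h2 : Euler_bd (f e) x = ((if x = D.p e then 1 else 0) + (if x = D.q e then 1 else 0)) +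
          ((if x = D.p e then 1 else 0) + (if x = D.root (D.src e) then 1 else 0)) +
          ((if x = D.q e then 1 else 0) + (if x = D.root (D.tgt e) then 1 else 0)) := by
        simp only [hf]
        rw [Euler_bd_add, Euler_bd_add, hp3, hq3]
        congr 2
        exact Euler_bd_single (D.hpq e) x
      rw [h2]
      have : ∀ a b c d k : ZMod 2, k * ((a + b) + (a + c) + (b + d)) = k * c + k * d := by decide
      exact this _ _ _ _ _
    rw [Finset.sum_congr rfl h1, Finset.sum_add_distrib]
    -- at most one vertex has root `x`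
    by_cases hx : ∃ v, x ∈ D.S v ∧ x = D.root v
    · obtain ⟨v, hv, hxv⟩ := hx
      have h2 : D.δ c v = 0 := by
        rw [LinearMap.mem_ker.1 hc]; rfl
      rw [δ_apply] at h2
      refine Eq.trans ?_ h2
      congr 1
      · refine Finset.sum_congr rfl fun e _ => ?_
        have h3 : x = D.root (D.src e) ↔ D.src e = v := by
          constructor
          · intro h
            refine D.disj _ _ x ?_ hv
            rw [h]; exact D.root_mem (D.hp e)
          · rintro rfl; exact hxv
        by_cases h4 : D.src e = v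
        · rw [if_pos (h3.2 h4), if_pos h4, mul_one]
        · rw [if_neg (fun h => h4 (h3.1 h)), if_neg h4, mul_zero]
      · refine Finset.sum_congr rfl fun e _ => ?_
        have h3 : x = D.root (D.tgt e) ↔ D.tgt e = v := by
          constructor
          · intro h
            refine D.disj _ _ x ?_ hv
            rw [h]; exact D.root_mem (D.hq e)
          · rintro rfl; exact hxv
        by_cases h4 : D.tgt e = v
        · rw [if_pos (h3.2 h4), if_pos h4, mul_one]
        · rw [if_neg (fun h => h4 (h3.1 h)), if_neg h4, mul_zero]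
    · rw [Finset.sum_eq_zero, Finset.sum_eq_zero, add_zero]
      · intro e _
        rw [if_neg, mul_zero]
        intro h
        exact hx ⟨_, h ▸ D.root_mem (D.hq e), h⟩
      · intro e _
        rw [if_neg, mul_zero]
        intro h
        exact hx ⟨_, h ▸ D.root_mem (D.hp e), h⟩
  obtain ⟨F, hF1, hF2, hF3⟩ := exact_grid (fun x => z (x, true)) (fun x => z (x, false))
    (hzfin.preimage (f := fun x : ℤ × ℤ => ((x, true) : Euler_Ed))
      (fun a _ b _ h => (Prod.ext_iff.1 h).1))
    (hzfin.preimage (f := fun x : ℤ × ℤ => ((x, false) : Euler_Ed))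
      (fun a _ b _ h => (Prod.ext_iff.1 h).1))
    (fun x y => hbd (x, y))
  have hFz : ∀ d, z d = F d.1 + F (Euler_g d) := by
    rintro ⟨⟨x, y⟩, _ | _⟩
    · exact hF3 x y
    · exact hF2 x y
  have hFc : ∀ d, ¬ D.Al d → F d.1 = F (Euler_g d) := by
    intro d hd
    have h1 : z d = 0 := by
      by_contra h
      exact hd (hzal d h)
    rw [hFz] at h1
    exact CharTwo.add_eq_zero.1 h1
  have hinf : ∀ x, ¬ {y | D.cls y = D.cls x}.Finite → F x = 0 := by
    intro x hx
    by_contra h
    apply hx
    refine hF1.subset ?_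
    intro y hy
    show F y ≠ 0
    rw [D.const hFc hy]
    exact h
  -- the value of a class
  have key : ∀ e (x : ℤ × ℤ), (x = (D.le e).1 ∨ x = Euler_g (D.le e)) →
      F x = ∑ i : D.I, F (Quotient.out i.1) * (if D.cls x = i.1 then 1 else 0) := by
    intro e x hx
    by_cases hfin : {y | D.cls y = D.cls x}.Finite
    · have hI : ∃ e, D.cls (D.le e).1 = D.cls x ∨ D.cls (Euler_g (D.le e)) = D.cls x := by
        refine ⟨e, ?_⟩
        rcases hx with rfl | rfl
        · exact Or.inl rfl
        · exact Or.inr rfl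
      rw [Finset.sum_eq_single (⟨D.cls x, hfin, hI⟩ : D.I)]
      · rw [if_pos rfl, mul_one]
        refine D.const hFc ?_
        exact (Quotient.out_eq (D.cls x)).symm
      · intro i _ hi
        rw [if_neg, mul_zero]
        intro h
        exact hi (Subtype.ext h.symm)
      · intro h
        exact absurd (Finset.mem_univ _) h
    · rw [hinf x hfin, Finset.sum_eq_zero]
      intro i _
      rw [if_neg, mul_zero]
      intro h
      apply hfin
      rw [h]
      exact i.2.1
  have hcb : c = ∑ i : D.I, F (Quotient.out i.1) • D.bb i := by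
    ext e
    rw [← hzle e, hFz, key e _ (Or.inl rfl), key e _ (Or.inr rfl), ← Finset.sum_add_distrib,
      Finset.sum_apply]
    refine Finset.sum_congr rfl fun i _ => ?_
    rw [Pi.smul_apply, smul_eq_mul]
    unfold bb
    ring
  rw [hcb]
  exact Submodule.sum_mem _ fun i _ => Submodule.smul_mem _ _ (Submodule.subset_span ⟨i, rfl⟩)

include D in
theorem main [Fintype ν] [Nonempty ν] :
    Fintype.card E + 4 ≤ 2 * Fintype.card ν ∨ Fintype.card E + 1 ≤ Fintype.card ν := by
  classical
  have h1 := Euler_lower D.δ D.δ_sum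
  by_cases hZ : LinearMap.ker D.δ = ⊥
  · rw [hZ, finrank_bot] at h1
    right
    omega
  · left
    have h2 := Euler_upper (LinearMap.ker D.δ) D.bb D.span_le D.bb_mem D.bb_two
      (fun z hz hz0 => D.four hz hz0) hZ
    omega

end Euler_Dat

/-- Let `V i` and `U j` be pairwise disjoint, nonempty, finite side-connected sets of squares. If every `V i`
is adjacent to at least three of the `U j`, then the number of `V`'s is at most twice the number of
`U`'s (bipartite planar graphs have at most `2v - 4` edges).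

Proof. If there is no `V i` nothing to prove; drop the `U j` which are empty. Choose a spanning tree (edges between side-adjacent
squares) in each of the `s = #V + #U` sets and, for each `i`, exactly three special edges from `V i` to three
different `U j`: `E_s` special edges, `|E_s| = 3 #V`; `E'` = all these edges. Cycle space
`Z` = mod 2 functions on `E'` with zero boundary: `dim Z ≥ |E'| - (number of squares) + 1 = |E_s| - s + 1`
(the boundary map has values in functions of sum `0`). A nonzero element of `Z` contains at least `4` special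
edges (contract the trees: it becomes a nonzero even subgraph of a simple bipartite graph; zero special
edges would be a cycle in a forest). By `exact_grid` every `z ∈ Z` is the boundary of a unique finitely
supported `F`, constant on the classes of faces modulo crossing edges not in `E'`; so
`dim Z` = number `f` of classes of faces different from the unbounded one. The boundary of each of the `f`
bounded classes, and (if `f > 0`) of the unbounded one (= of the sum of the bounded ones), is a nonzero element of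
`Z`, so contains `≥ 4` special edges, and every edge lies in at most two such boundaries:
`4 (f+1) ≤ 2 |E_s|` if `f > 0`. Hence `|E_s| - s + 1 ≤ f ≤ |E_s|/2 - 1`, `3 #V ≤ 2 s - 4`; if `f = 0` then
`3 #V + 1 ≤ s`. In both cases `#V ≤ 2 #U`. -/
theorem euler_bound {ι κ : Type} [Fintype ι] [Fintype κ] (V : ι → Pt → Prop) (U : κ → Pt → Prop)
    (hVf : ∀ i, {x | V i x}.Finite) (hUf : ∀ j, {x | U j x}.Finite)
    (hVc : ∀ i, Conn (V i)) (hUc : ∀ j, Conn (U j))
    (hVV : ∀ i i' x, V i x → V i' x → i = i') (hUU : ∀ j j' x, U j x → U j' x → j = j')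
    (hVU : ∀ i j x, V i x → ¬ U j x)
    (hadj : ∀ i, ∃ j₁ j₂ j₃, j₁ ≠ j₂ ∧ j₁ ≠ j₃ ∧ j₂ ≠ j₃ ∧ Adj (V i) (U j₁) ∧ Adj (V i) (U j₂) ∧
      Adj (V i) (U j₃)) :
    Fintype.card ι ≤ 2 * Fintype.card κ := by
  classical
  by_cases hι : Nonempty ι
  swap
  · rw [not_nonempty_iff] at hι
    rw [Fintype.card_eq_zero]
    exact Nat.zero_le _
  -- the inclusion of `ℕ × ℕ` into `ℤ × ℤ`
  let c : Pt → ℤ × ℤ := fun x => ((x.1 : ℤ), (x.2 : ℤ))
  have hc : ∀ x y, c x = c y → x = y := by
    intro x y h
    have h1 := (Prod.ext_iff.1 h).1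
    have h2 := (Prod.ext_iff.1 h).2
    simp only [c] at h1 h2
    exact Prod.ext (by exact_mod_cast h1) (by exact_mod_cast h2)
  have hcS : ∀ x y, Sd x y → Euler_S (c x) (c y) := by
    intro x y h
    unfold Sd at h
    unfold Euler_S
    simp only [c]
    omega
  let S : ι ⊕ κ → Pt → Prop := Sum.elim V U
  have hSf : ∀ v, {x | S v x}.Finite := by
    rintro (i | j)
    · exact hVf i
    · exact hUf j
  have hSc : ∀ v, Conn (S v) := by
    rintro (i | j)
    · exact hVc i
    · exact hUc j
  have hSd : ∀ v w x, S v x → S w x → v = w := by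
    rintro (i | j) (i' | j') x h1 h2
    · rw [hVV i i' x h1 h2]
    · exact absurd h2 (hVU _ _ _ h1)
    · exact absurd h1 (hVU _ _ _ h2)
    · rw [hUU j j' x h1 h2]
  have hE : ∀ i, ∃ t : Fin 3 → κ, Function.Injective t ∧ ∀ k, Adj (V i) (U (t k)) := by
    intro i
    obtain ⟨j1, j2, j3, h12, h13, h23, a1, a2, a3⟩ := hadj i
    refine ⟨![j1, j2, j3], ?_, ?_⟩
    · intro a b
      fin_cases a <;> fin_cases b <;> simp [h12, h13, h23, h12.symm, h13.symm, h23.symm]
    · intro k
      fin_cases k
      · exact a1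
      · exact a2
      · exact a3
  choose t ht1 ht2 using hE
  choose P Q' hP hQ hPQ using ht2
  let D : Euler_Dat (ι ⊕ κ) (ι × Fin 3) :=
    { S := fun v => c '' {x | S v x}
      fin := fun v => (hSf v).image c
      disj := by
        rintro v w x ⟨a, ha, rfl⟩ ⟨b, hb, hab⟩
        rw [hc b a hab] at hb
        exact hSd v w a ha hb
      conn := by
        rintro v _ ⟨a, ha, rfl⟩ _ ⟨b, hb, rfl⟩
        obtain ⟨_, h⟩ := hSc v a b ha hb
        clear ha hb
        induction h with
        | refl => exact Relation.ReflTransGen.refl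
        | tail _ h ih => exact ih.tail ⟨hcS _ _ h.1, ⟨_, h.2, rfl⟩⟩
      col := Sum.elim (fun _ => false) (fun _ => true)
      src := fun e => Sum.inl e.1
      tgt := fun e => Sum.inr (t e.1 e.2)
      p := fun e => c (P e.1 e.2)
      q := fun e => c (Q' e.1 e.2)
      hs := fun _ => rfl
      ht := fun _ => rfl
      hp := fun e => ⟨_, hP e.1 e.2, rfl⟩
      hq := fun e => ⟨_, hQ e.1 e.2, rfl⟩
      hpq := fun e => hcS _ _ (hPQ e.1 e.2)
      inj := by
        rintro ⟨i, k⟩ ⟨i', k'⟩ h1 h2
        have h3 : i = i' := Sum.inl_injective h1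
        subst h3
        have h4 : t i k = t i k' := Sum.inr_injective h2
        rw [ht1 i h4] }
  have : Nonempty (ι ⊕ κ) := ⟨Sum.inl hι.some⟩
  have h := D.main
  rw [Fintype.card_prod, Fintype.card_fin, Fintype.card_sum] at h
  omega

end UCP
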