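import Mathlib

/-!
[UCP-E1] The square lattice has no homology: a finitely supported mod 2 cycle of edges of `ℤ²` is the
boundary of a finitely supported set of faces.
-/

namespace UCP

theorem exact_grid_bound (H : ℤ × ℤ → ZMod 2) (hH : (Function.support H).Finite) :
    ∃ N : ℤ, ∀ x y, H (x, y) ≠ 0 → -N < x ∧ x < N ∧ -N < y ∧ y < N := by
  obtain ⟨B, hB⟩ := (hH.image (fun p : ℤ × ℤ => max |p.1| |p.2|)).bddAbove
  refine ⟨B + 1, fun x y h => ?_⟩
  have h1 : max |x| |y| ≤ B := hB ⟨(x, y), h, rfl⟩
  have h2 := le_max_left |x| |y|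
  have h3 := le_max_right |x| |y|
  have h4 := abs_le.1 (h2.trans h1)
  have h5 := abs_le.1 (h3.trans h1)
  omega

/-- `H (x,y)` = coefficient of the horizontal edge from `(x,y)` to `(x+1,y)`,
`V (x,y)` = coefficient of the vertical edge from `(x,y)` to `(x,y+1)`,
`F (x,y)` = coefficient of the face with lower left corner `(x,y)`.
Proof: `F (x,y) := ∑_{y' ≤ y} H (x,y')` (a finite sum). Then the first equation is clear,
`F (x,y) - F (x-1,y) = ∑_{y' ≤ y} (H (x,y') - H (x-1,y')) = ∑_{y' ≤ y} (V (x,y') + V (x,y'-1))`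
telescopes to `V (x,y)` (mod 2). For `y` large `F (x,y)` does not depend on `x` (as `V (x,y) = 0`) and
vanishes for `x` far away, so `F` has finite support. -/
theorem exact_grid (H V : ℤ × ℤ → ZMod 2) (hH : (Function.support H).Finite)
    (hV : (Function.support V).Finite)
    (hcyc : ∀ x y, H (x, y) + H (x - 1, y) + V (x, y) + V (x, y - 1) = 0) :
    ∃ F : ℤ × ℤ → ZMod 2, (Function.support F).Finite ∧
      (∀ x y, H (x, y) = F (x, y) + F (x, y - 1)) ∧ (∀ x y, V (x, y) = F (x, y) + F (x - 1, y)) := by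
  obtain ⟨N1, h1⟩ := exact_grid_bound H hH
  obtain ⟨N2, h2⟩ := exact_grid_bound V hV
  obtain ⟨N, hN1, hN2⟩ : ∃ N : ℤ, N1 ≤ N ∧ N2 ≤ N := ⟨max N1 N2, le_max_left _ _, le_max_right _ _⟩
  have hH0 : ∀ x y, (x ≤ -N ∨ N ≤ x ∨ y ≤ -N ∨ N ≤ y) → H (x, y) = 0 := by
    intro x y h
    by_contra hne
    have := h1 x y hne
    omega
  have hV0 : ∀ x y, (x ≤ -N ∨ N ≤ x ∨ y ≤ -N ∨ N ≤ y) → V (x, y) = 0 := by
    intro x y h
    by_contra hne
    have := h2 x y hne
    omega
  have two : (2 : ZMod 2) = 0 := rfl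
  let F : ℤ × ℤ → ZMod 2 := fun p => ∑ y' ∈ Finset.Icc (-N) p.2, H (p.1, y')
  have hlow : ∀ x y, y < -N → F (x, y) = 0 := by
    intro x y h
    change ∑ y' ∈ Finset.Icc (-N) y, H (x, y') = 0
    rw [Finset.Icc_eq_empty (by omega), Finset.sum_empty]
  have hstep : ∀ x y, F (x, y) = F (x, y - 1) + H (x, y) := by
    intro x y
    by_cases h : y < -N
    · rw [hlow x y h, hlow x (y - 1) (by omega), hH0 x y (by omega), add_zero]
    · change ∑ y' ∈ Finset.Icc (-N) y, H (x, y') = ∑ y' ∈ Finset.Icc (-N) (y - 1), H (x, y') + H (x, y)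
      have e : Finset.Icc (-N) y = insert y (Finset.Icc (-N) (y - 1)) := by
        ext z
        simp only [Finset.mem_Icc, Finset.mem_insert]
        omega
      rw [e, Finset.sum_insert (by simp), add_comm]
  have hFH : ∀ x y, H (x, y) = F (x, y) + F (x, y - 1) := by
    intro x y
    linear_combination -hstep x y - F (x, y - 1) * two
  have hFV : ∀ x y, V (x, y) = F (x, y) + F (x - 1, y) := by
    intro x y
    by_cases h : y < -N
    · rw [hlow x y h, hlow _ y h, hV0 x y (by omega), add_zero]
    · have key : ∀ y, -N - 1 ≤ y → V (x, y) = F (x, y) + F (x - 1, y) := by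
        intro y hy
        induction y, hy using Int.leInduction with
        | base => rw [hlow x _ (by omega), hlow _ _ (by omega), hV0 x _ (by omega), add_zero]
        | succ y _ ih =>
          have e1 := hstep x (y + 1)
          have e2 := hstep (x - 1) (y + 1)
          have e3 := hcyc x (y + 1)
          rw [add_sub_cancel_right] at e1 e2 e3
          linear_combination e3 + ih - e1 - e2 - (V (x, y) + H (x, y + 1) + H (x - 1, y + 1)) * two
      exact key y (by omega)
  refine ⟨F, ?_, hFH, hFV⟩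
  have hleft : ∀ x y, x ≤ -N → F (x, y) = 0 := by
    intro x y h
    change ∑ y' ∈ Finset.Icc (-N) y, H (x, y') = 0
    exact Finset.sum_eq_zero fun y' _ => hH0 x y' (by omega)
  have hright : ∀ x y, N ≤ x → F (x, y) = 0 := by
    intro x y h
    change ∑ y' ∈ Finset.Icc (-N) y, H (x, y') = 0
    exact Finset.sum_eq_zero fun y' _ => hH0 x y' (by omega)
  have hup : ∀ x y, N ≤ y → F (x, y) = 0 := by
    intro x y hy
    by_cases h : x ≤ -N
    · exact hleft x y h
    · have key : ∀ x, -N ≤ x → F (x, y) = 0 := by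
        intro x hx
        induction x, hx using Int.leInduction with
        | base => exact hleft _ y le_rfl
        | succ x _ ih =>
          have e1 := hFV (x + 1) y
          rw [hV0 (x + 1) y (by omega), add_sub_cancel_right, ih, add_zero] at e1
          exact e1.symm
      exact key x (by omega)
  refine Set.Finite.subset ((Finset.Icc (-N) N ×ˢ Finset.Icc (-N) N).finite_toSet) ?_
  rintro ⟨x, y⟩ hxy
  rw [Function.mem_support] at hxy
  rw [Finset.mem_coe, Finset.mem_product, Finset.mem_Icc, Finset.mem_Icc]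
  have g1 : ¬ y < -N := fun h => hxy (hlow x y h)
  have g2 : ¬ x ≤ -N := fun h => hxy (hleft x y h)
  have g3 : ¬ N ≤ x := fun h => hxy (hright x y h)
  have g4 : ¬ N ≤ y := fun h => hxy (hup x y h)
  simp only
  omega

end UCP
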