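import Pool.Agent.UCP.Disc

/-!
[UCP-S1] elementary properties of fat heights, [UCP-S2] one growth step, [UCP-S3] growth over many scales.
-/

namespace UCP

variable {σ M s : ℕ} {ε U a : ℝ} {f : Pt → ℝ}

theorem Fat_nr_up {D H H' : ℕ} {x y : Pt} (h : Nr D (anc H x) (anc H y)) (hH : H ≤ H') :
    Nr D (anc H' x) (anc H' y) := by
  have := h.anc (H' - H)
  rwa [anc_anc, anc_anc, Nat.sub_add_cancel hH] at this

theorem Fat.mono {h h' : ℕ} {c : Pt} (H : Fat M s f a h c) (hh : h' ≤ h) : Fat M s f a h' c :=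
  fun x hx => H x ⟨hx.1, Fat_nr_up hx.2 (by omega)⟩

/-- (index distance 2 at height `h+s` becomes 1 at height `h+1+s`) -/
theorem Fat.nbr {h : ℕ} {c c' : Pt} (H : Fat M s f a (h + 1) c) (hc : Nr 1 c c') :
    Fat M s f a h c' := by
  intro x hx
  refine H x ⟨hx.1, ?_⟩
  have h1 : Nr (1 + 1) (anc (h + s) x) (anc (h + s) c) := hx.2.trans (hc.symm.anc (h + s))
  have h2 := h1.up
  rw [anc_anc, anc_anc] at h2
  have e : 1 + (h + s) = h + 1 + s := by omega
  rw [e] at h2
  exact h2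

theorem Fat.congr {h : ℕ} {c c' : Pt} (H : Fat M s f a h c) (hc : anc h c = anc h c') :
    Fat M s f a h c' := by
  intro x hx
  refine H x ⟨hx.1, ?_⟩
  have e : anc (h + s) c = anc (h + s) c' := by
    rw [add_comm h s, ← anc_anc, ← anc_anc, hc]
  rw [e]; exact hx.2

/-- a zero nearby prevents fatness -/
theorem not_fat {h H : ℕ} {c z : Pt} (hz : Pr M z) (hfz : f z ≤ a) (hn : Nr 1 (anc H z) (anc H c))
    (hH : H ≤ h + s) : ¬ Fat M s f a h c := fun hF =>
  absurd (hF z ⟨hz, Fat_nr_up hn hH⟩) (not_lt.mpr hfz)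

/-- [UCP-S2] One step. Take `z` in the block of height `h+1+s` around `c` with `f z ≤ a`, and apply `cmp` with
`η = h+1+s`, `cy = c`, `cz = z`, `T = a + 5/4 v`, `t = a + v/2`; the alternative `Nr 1 c' z` contradicts
`a + v/2 < f c'`, `f z ≤ a` and `osc`. -/
theorem step (hD : Disc σ M ε U f) {h : ℕ} {c : Pt} {v : ℝ} (hc : Pr M c)
    (hn : ¬ Fat M s f a (h + 1) c) (hv : f c = a + v) (hε : 16 * ε < v)
    (hB : ∀ x, Pr M x → Nr 2 (anc (h + 1 + s + σ) x) (anc (h + 1 + s + σ) c) → ¬ Bd M x) :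
    ∃ z, Pr M z ∧ f z ≤ a ∧ Nr 1 (anc (h + 1 + s) z) (anc (h + 1 + s) c) ∧
      ∃ c', Reach (fun x => Blk M (h + 1 + s + σ) z x ∧ a + v / 2 < f x) c c' ∧
        a + 5 / 4 * v ≤ f c' := by
  obtain ⟨z, ⟨hz, hzn⟩, hfz⟩ : ∃ z, Blk M (h + 1 + s) c z ∧ f z ≤ a := by
    by_contra hcon
    push Not at hcon
    exact hn hcon
  have hε0 := hD.eps_pos
  refine ⟨z, hz, hfz, hzn, ?_⟩
  obtain ⟨c', hc', h'⟩ := hD.cmp (h + 1 + s) c z hc hz hzn.symm (by
    intro x hx
    refine hB x hx.1 ?_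
    have := hx.2.trans (Fat_nr_up hzn (Nat.le_add_right (h + 1 + s) σ))
    exact this) (a + v / 2) (a + 5 / 4 * v) (by linarith) (by linarith)
  refine ⟨c', hc', ?_⟩
  rcases h' with h' | h'
  · exact h'
  · exfalso
    have h1 := hc'.right
    have h2 := hD.osc c' z h1.1.1 hz h'
    have h3 := (abs_le.mp h2).2
    have h4 := h1.2
    linarith

/-- [UCP-S3] Growth. With `t = a + v/2`, `w i = f (c i) - t`, apply `cmp` with `η + i σ`, `cy = c i`, `cz = z`,
`T = t + 6 w i`: get `c (i+1)` in the block of height `η + (i+1) σ` around `z` with `w (i+1) ≥ 6 w i`. -/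
theorem growth (hD : Disc σ M ε U f) {η k : ℕ} {c z : Pt} {v : ℝ} (hc : Pr M c) (hz : Pr M z)
    (hfz : f z ≤ a) (ha : 0 ≤ a) (h1 : Nr 1 (anc η c) (anc η z)) (hv : f c = a + v)
    (hε : 16 * ε < v)
    (hB : ∀ x, Pr M x → Nr 2 (anc (η + k * σ) x) (anc (η + k * σ) c) → ¬ Bd M x) :
    6 ^ k * (v / 2) ≤ U := by
  have hε0 := hD.eps_pos
  have key : ∀ i, i ≤ k → ∃ ci, Pr M ci ∧ Nr 1 (anc (η + i * σ) ci) (anc (η + i * σ) z) ∧
      6 ^ i * (v / 2) ≤ f ci - (a + v / 2) := by
    intro i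
    induction i with
    | zero =>
      intro _
      refine ⟨c, hc, by simpa using h1, ?_⟩
      rw [hv]
      simp only [pow_zero, one_mul]
      linarith
    | succ i ih =>
      intro hi
      obtain ⟨ci, hci, hn, hw⟩ := ih (by omega)
      have h6 : (1 : ℝ) ≤ 6 ^ i := one_le_pow₀ (by norm_num)
      have hv0 : 0 < v / 2 := by linarith
      have hw' : v / 2 ≤ f ci - (a + v / 2) := by
        calc v / 2 = 1 * (v / 2) := (one_mul _).symm
          _ ≤ 6 ^ i * (v / 2) := mul_le_mul_of_nonneg_right h6 hv0.le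
          _ ≤ _ := hw
      have hle : η + i * σ + σ ≤ η + k * σ := by
        have : (i + 1) * σ ≤ k * σ := Nat.mul_le_mul_right σ hi
        rw [add_mul, one_mul] at this
        omega
      obtain ⟨c', hc', h'⟩ := hD.cmp (η + i * σ) ci z hci hz hn (by
        intro x hx
        refine hB x hx.1 ?_
        have h2 := (Fat_nr_up hx.2 hle).trans (Fat_nr_up h1.symm (Nat.le_add_right η (k * σ)))
        exact h2) (a + v / 2) (a + v / 2 + 6 * (f ci - (a + v / 2))) (by linarith) (by linarith)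
      have h2 := hc'.right
      refine ⟨c', h2.1.1, ?_, ?_⟩
      · have e : η + (i + 1) * σ = η + i * σ + σ := by ring
        rw [e]
        exact h2.1.2
      · rcases h' with h' | h'
        · rw [pow_succ]
          linarith
        · exfalso
          have h3 := (abs_le.mp (hD.osc c' z h2.1.1 hz h')).2
          have h4 := h2.2
          linarith
  obtain ⟨ck, hck, -, hw⟩ := key k le_rfl
  have h2 := (abs_le.mp (hD.bdd ck hck)).2
  linarith

end UCP
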