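import Pool.Agent.UCP.CellFacts2

/-!
[UCP-A6b] maximum principle.
-/

open MeasureTheory Set Topology Filter CAR

namespace UCP

variable {μ : Measure carpet} [IsFiniteMeasure μ] [μ.IsOpenPosMeasure] (D : DForm carpet μ)

/-- [UCP-A6b] Let `𝒟` = cells reached from `c`, `F` their union. If no cell of `𝒟` is at the boundary: `{u > t} ∩ F` and `{u > t} \ F` are open (`eventually_cell`), `w = (u - t)⁺` restricted to the component is in the domain (`DForm.cut`), vanishes on `V0`, `E(w,w) = 0`. -/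
theorem mp_touch {u : C(carpet, ℝ)} (hu : D.HarmonicOff V0 u) {M : ℕ} {c : Pt} (hc : Pr M c) {t : ℝ}
    {x : carpet} (hx : x ∈ cell M c) (ht : t < u x) :
    ∃ c', Bd M c' ∧ ReachT (fun c => Pr M c ∧ Meet M u t c) c c' := by
  by_contra hcon
  push Not at hcon
  set S : Pt → Prop := fun c => Pr M c ∧ Meet M u t c with hS
  have hSc : S c := ⟨hc, x, hx, ht⟩
  -- steps inside the component
  have hstep : ∀ d e : Pt, ReachT S c d → Nr 1 d e → S e → ReachT S c e :=
    fun d e hd hde he => ⟨hd.1, hd.2.tail ⟨hde, he⟩⟩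
  set F : Set carpet := {y | ∃ d, ReachT S c d ∧ y ∈ cell M d} with hF
  set g : C(carpet, ℝ) := (u - ContinuousMap.const carpet t) ⊔ 0 with hg
  have hgx : ∀ y, g y = max (u y - t) 0 := fun y => by
    rw [hg, ContinuousMap.sup_apply, ContinuousMap.sub_apply, ContinuousMap.const_apply,
      ContinuousMap.zero_apply]
  have hgd : g ∈ D.dom := D.pos_mem (D.dom.sub_mem hu.1 (D.const_mem t))
  have hopen : IsOpen {y : carpet | t < u y} := isOpen_lt continuous_const u.continuous
  have hpos : {y : carpet | 0 < g y} = {y | t < u y} := by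
    ext y
    rw [mem_ofPred_eq, mem_ofPred_eq, hgx, lt_max_iff]
    constructor
    · rintro (h | h)
      · linarith
      · exact absurd h (lt_irrefl _)
    · intro h
      left; linarith
  -- the two open parts
  have hY : IsOpen ({y : carpet | t < u y} ∩ F) := by
    rw [isOpen_iff_mem_nhds]
    rintro y ⟨hy, d, hd, hyd⟩
    filter_upwards [hopen.mem_nhds hy, eventually_cell y M] with z hz ⟨e, he, hye, hze⟩
    refine ⟨hz, e, hstep d e hd (touch_of_mem hyd hye) ⟨he, y, hye, hy⟩, hze⟩
  have hY' : IsOpen ({y : carpet | t < u y} ∩ Fᶜ) := by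
    rw [isOpen_iff_mem_nhds]
    rintro y ⟨hy, hyF⟩
    filter_upwards [hopen.mem_nhds hy, eventually_cell y M] with z hz ⟨e, he, hye, hze⟩
    refine ⟨hz, fun hzF => hyF ?_⟩
    obtain ⟨d, hd, hzd⟩ := hzF
    exact ⟨e, hstep d e hd (touch_of_mem hzd hze) ⟨he, y, hye, hy⟩, hye⟩
  obtain ⟨a, ha, b, hb, h1, h2, _, _, _⟩ := D.cut hgd (fun y => by rw [hgx]; exact le_max_right _ _)
    hY hY' (by
      rw [Set.disjoint_left]
      rintro y ⟨_, h⟩ ⟨_, h'⟩
      exact h' h) (by
      rw [hpos, ← Set.inter_union_distrib_left, Set.union_compl_self, Set.inter_univ])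
  -- `a` vanishes on the boundary
  have hV : ∀ y ∈ V0, a y = 0 := by
    intro y hy
    apply h2
    rintro ⟨_, d, hd, hyd⟩
    have hPd : Pr M d := by
      obtain ⟨h3, h4⟩ := hd
      induction h4 with
      | refl => exact h3.1
      | tail _ h _ => exact h.2.1
    exact hcon d (bd_of_mem hPd hyd hy) hd
  have hE1 : D.E u a = 0 := hu.2 a ha hV
  have hprod : D.E (u - ContinuousMap.const carpet t - a) a = 0 := by
    refine D.E_eq_zero_of_mul (D.dom.sub_mem (D.dom.sub_mem hu.1 (D.const_mem t)) ha) ha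
      (fun y => ?_)
    by_cases hy : y ∈ {y : carpet | t < u y} ∩ F
    · rw [ContinuousMap.sub_apply, ContinuousMap.sub_apply, ContinuousMap.const_apply, h1 y hy, hgx,
        max_eq_left (by have := hy.1; rw [mem_ofPred_eq] at this; linarith), sub_self, zero_mul]
    · rw [h2 y hy, mul_zero]
  rw [D.sub_left (D.dom.sub_mem hu.1 (D.const_mem t)) ha ha, D.sub_left hu.1 (D.const_mem t) ha, hE1,
    D.const_left t ha] at hprod
  obtain ⟨k, hk⟩ := D.irreducible a ha (by linarith)
  obtain ⟨v, hv⟩ := V0_nonempty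
  have h3 : a x = g x := h1 x ⟨ht, c, ⟨hSc, Relation.ReflTransGen.refl⟩, hx⟩
  rw [hk x, hgx, ← hk v, hV v hv] at h3
  have h4 : max (u x - t) 0 = u x - t := max_eq_left (by linarith)
  rw [h4] at h3
  linarith

end UCP
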