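import Pool.Agent.UCP.CForm

/-!
[UCP-A7a] from paths of touching cells to side-paths.
-/

namespace UCP

/-- a touching pair in the same block has a side path of length at most two in the block, all of whose
squares touch the first one. -/
theorem SideT_step {M H : ℕ} {cz a b : Pt} {S S' : Pt → Prop} (hSS : ∀ x, S x → S' x)
    (hS : ∀ x d, S x → Pr M d → Nr 1 x d → S' d) (ha : Blk M H cz a ∧ S a)
    (hb : Blk M H cz b ∧ S b) (h : Nr 1 a b) : Reach (fun c => Blk M H cz c ∧ S' c) a b := by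
  have ha' : Blk M H cz a ∧ S' a := ⟨ha.1, hSS _ ha.2⟩
  have hb' : Blk M H cz b ∧ S' b := ⟨hb.1, hSS _ hb.2⟩
  by_cases hne : a = b
  · subst hne
    exact Reach.refl ha'
  by_cases hsd : Sd a b
  · exact Reach.single ha' hsd hb'
  obtain ⟨d, hd, had, hdb⟩ := vertex ha.1.1 hb.1.1 h hne hsd
  have hd' : Blk M H cz d ∧ S' d := by
    refine ⟨⟨hd, ?_⟩, hS a d ha.2 hd had.nr⟩
    have h1 := ha.1.2
    have h2 := hb.1.2
    obtain ⟨a1, a2⟩ := a
    obtain ⟨b1, b2⟩ := b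
    obtain ⟨d1, d2⟩ := d
    simp only [Sd] at had hdb hsd
    simp only [Nr] at h
    simp only [Prod.mk.injEq] at hne
    have h3 : (d1 = a1 ∧ d2 = b2) ∨ (d1 = b1 ∧ d2 = a2) := by omega
    simp only [Nr, UCP.anc] at h1 h2 ⊢
    rcases h3 with ⟨rfl, rfl⟩ | ⟨rfl, rfl⟩
    · exact ⟨h1.1, h1.2.1, h2.2.2.1, h2.2.2.2⟩
    · exact ⟨h2.1, h2.2.1, h1.2.2.1, h1.2.2.2⟩
  exact (Reach.single ha' had hd').tail hdb hb'

/-- [UCP-A7a] From paths of touching cells to side-paths: two cells touching at a corner only have a common side neighbour `d`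
(`vertex`), and `d.1 ∈ {a.1, b.1}`, `d.2 ∈ {a.2, b.2}`, so it is in the same block. -/
theorem side_of_touch {M H : ℕ} {cz a b : Pt} {S S' : Pt → Prop} (hSS : ∀ x, S x → S' x)
    (hS : ∀ x d, S x → Pr M d → Nr 1 x d → S' d)
    (h : ReachT (fun c => Blk M H cz c ∧ S c) a b) : Reach (fun c => Blk M H cz c ∧ S' c) a b := by
  obtain ⟨h1, h2⟩ := h
  have key : (Blk M H cz b ∧ S b) ∧ Reach (fun c => Blk M H cz c ∧ S' c) a b := by
    induction h2 with
    | refl => exact ⟨h1, Reach.refl ⟨h1.1, hSS _ h1.2⟩⟩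
    | tail _ h3 ih => exact ⟨h3.2, ih.2.trans (SideT_step hSS hS ih.1 h3.2 h3.1)⟩
  exact key.2

end UCP
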