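import Pool.Agent.UCP.Potential
import Pool.Agent.UCP.Compare
import Pool.Agent.UCP.MpTouch
import Pool.Agent.UCP.SideT

/-!
[UCP-A7] from harmonic functions to `Disc`.
-/

open MeasureTheory Set Topology Filter CAR

namespace UCP

variable {μ : Measure carpet} [IsFiniteMeasure μ] [μ.IsOpenPosMeasure] (D : CarpetForm μ)

theorem ToDisc_reachT_mono {S T : Pt → Prop} (hST : ∀ x, S x → T x) {a b : Pt} (h : ReachT S a b) :
    ReachT T a b :=
  ⟨hST _ h.1, Relation.ReflTransGen.mono (fun _ _ h => ⟨h.1, hST _ h.2⟩) _ _ h.2⟩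

theorem ToDisc_anc_zero {M H : ℕ} (hH : M ≤ H) {x : Pt} (hx : Pr M x) : anc H x = (0, 0) := by
  have h3 : (3 : ℕ) ^ M ≤ 3 ^ H := Nat.pow_le_pow_right (by norm_num) hH
  have h1 : x.1 / 3 ^ H = 0 := Nat.div_eq_of_lt (lt_of_lt_of_le hx.1 h3)
  have h2 : x.2 / 3 ^ H = 0 := Nat.div_eq_of_lt (lt_of_lt_of_le hx.2.1 h3)
  unfold anc
  rw [h1, h2]

theorem ToDisc_Pr_zero (M : ℕ) : Pr M (0, 0) := by
  refine ⟨by positivity, by positivity, fun k _ h => ?_⟩
  simp at h

theorem ToDisc_meet_val {u : C(carpet, ℝ)} {M : ℕ} {ω t : ℝ}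
    (hω : ∀ c, ∀ x ∈ cell M c, ∀ y ∈ cell M c, |u x - u y| ≤ ω) {c : Pt} (hc : Pr M c)
    (h : Meet M u t c) : t - ω < val u M c := by
  obtain ⟨x, hx, hxt⟩ := h
  obtain ⟨z, hz, hzv⟩ := exists_val hc
  have h1 := abs_le.1 (hω c x hx z hz)
  rw [hzv u]
  linarith [h1.2]

theorem ToDisc_meet_nbr {u : C(carpet, ℝ)} {M : ℕ} {ω t : ℝ}
    (hω : ∀ c, ∀ x ∈ cell M c, ∀ y ∈ cell M c, |u x - u y| ≤ ω) {c d : Pt} (hc : Pr M c)
    (hd : Pr M d) (hcd : Nr 1 c d) (h : Meet M u t c) : t - 2 * ω < val u M d := by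
  obtain ⟨x, hx, hxt⟩ := h
  obtain ⟨p, hp1, hp2⟩ := exists_common hc hd hcd
  obtain ⟨z, hz, hzv⟩ := exists_val hd
  have h1 := abs_le.1 (hω c x hx p hp1)
  have h2 := abs_le.1 (hω d p hp2 z hz)
  rw [hzv u]
  linarith [h1.2, h2.2]

/-- [UCP-A7] `σ` from `exists_potential`. `ω = ε/4`, `M` so large that `u` oscillates by at most `ω` on cells of level `M`
(`osc_cell`). `osc`: `exists_common`. `mp`: `mp_touch` with `t` and `side_of_touch` (with `H = M`, or the same argument):
cells meeting `{u > t}` have `f > t - ω`, their neighbours `f > t - 2ω ≥ t - ε`.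
`cmp`: as the block contains no boundary cell, `η + σ < M`. `m = M - η`, `A = anc η cz`, `ζ` = the corner of `cz`, `e` from
`exists_potential`, `t' = t + 2ω`, `T' = T + ω`, `y` = corner of `cy`: `f cy ≥ T - 5/6 (T-t)` and `T - t > 48 ω` give
`u y > T' - 11/12 (T' - t') ≥ T' - (T'-t') e y`; so by `comparison` some cell reached from `cy` contains a point with
`u ≥ T'` (then `f ≥ T`) or contains `ζ` (then it touches `cz`, `touch_of_mem`). The cells of the path have `f ≥ t' - ω`, their neighbours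
`f > t' - 2ω = t`. -/
theorem exists_disc : ∃ σ : ℕ, 1 ≤ σ ∧ ∀ u : C(carpet, ℝ), D.HarmonicOff V0 u → ∀ U : ℝ, (∀ x, |u x| ≤ U) →
    ∀ ε : ℝ, 0 < ε → ∃ M0, ∀ M ≥ M0, Disc σ M ε U (val u M) := by
  obtain ⟨σ, hσ1, hσ⟩ := exists_potential D
  refine ⟨σ, hσ1, fun u hu U hU ε hε => ?_⟩
  obtain ⟨M0, hM0⟩ := osc_cell u (ε := ε / 4) (by linarith)
  refine ⟨M0, fun M hM => ?_⟩
  have hω := hM0 M hM
  set ω : ℝ := ε / 4 with hωdef
  have hωpos : 0 < ω := by rw [hωdef]; linarith
  have hεω : ε = 4 * ω := by rw [hωdef]; ring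
  refine ⟨hε, ?_, ?_, ?_, ?_⟩
  · intro c hc
    obtain ⟨x, _, hx⟩ := exists_val hc
    rw [hx u]
    exact hU x
  · intro c c' hc hc' hcc
    obtain ⟨x, hx, hxv⟩ := exists_val hc
    obtain ⟨x', hx', hxv'⟩ := exists_val hc'
    obtain ⟨p, hp, hp'⟩ := exists_common hc hc' hcc
    rw [hxv u, hxv' u]
    have h1 := abs_le.1 (hω c x hx p hp)
    have h2 := abs_le.1 (hω c' p hp' x' hx')
    rw [abs_le]
    constructor <;> linarith [h1.1, h1.2, h2.1, h2.2]
  · intro t c hc htc
    obtain ⟨x, hx, hxv⟩ := exists_val hc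
    rw [hxv u] at htc
    obtain ⟨c', hB, hR⟩ := mp_touch D.toDForm hu hc hx htc
    refine ⟨c', hB, ?_⟩
    have hR2 : ReachT (fun x => Blk M M c x ∧ (Pr M x ∧ Meet M u t x)) c c' := by
      refine ToDisc_reachT_mono (fun x hx => ⟨⟨hx.1, ?_⟩, hx.1, hx.2⟩) hR
      rw [ToDisc_anc_zero le_rfl hx.1, ToDisc_anc_zero le_rfl hc]
      exact Nr.rfl
    have hR3 : Reach (fun x => Blk M M c x ∧ t - ε < val u M x) c c' := by
      refine side_of_touch (S := fun x => Pr M x ∧ Meet M u t x) (S' := fun x => t - ε < val u M x)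
        ?_ ?_ hR2
      · intro x hx
        have := ToDisc_meet_val hω hx.1 hx.2
        show t - ε < val u M x
        linarith
      · intro x d hx hd hxd
        have := ToDisc_meet_nbr hω hx.1 hd hxd hx.2
        show t - ε < val u M d
        linarith
    exact hR3.mono (fun x hx => ⟨hx.1.1, hx.2⟩)
  · intro η cy cz hcy hcz hn hB t T htT hT
    have hHM : η + σ < M := by
      by_contra hcon
      have hcon' : M ≤ η + σ := not_lt.1 hcon
      refine hB (0, 0) ⟨ToDisc_Pr_zero M, ?_⟩ (Or.inl rfl)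
      rw [ToDisc_anc_zero hcon' (ToDisc_Pr_zero M), ToDisc_anc_zero hcon' hcz]
      exact Nr.rfl
    have hη : η ≤ M := by omega
    obtain ⟨ζ, hζ, _⟩ := exists_val hcz
    obtain ⟨y, hy, hyv⟩ := exists_val hcy
    have hA : Pr (M - η) (anc η cz) := hcz.anc'
    have hA' : Pr (M - η) (anc η cy) := hcy.anc'
    have hsub : ∀ c : Pt, cell M c ⊆ cell (M - η) (anc η c) := by
      intro c
      have h := cell_subset_anc (M - η) η c
      rwa [Nat.sub_add_cancel hη] at h
    obtain ⟨e, he, he1, he0, heζ, heA⟩ := hσ (M - η) (anc η cz) hA (by omega) ζ (hsub cz hζ)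
    have hanc : ∀ c : Pt, anc σ (anc η c) = anc (η + σ) c := by
      intro c
      rw [anc_anc, add_comm]
    have hsubM : M - η - σ = M - (η + σ) := by omega
    rw [hanc, hsubM] at he0 heζ
    have hblk : Blk M (η + σ) cz cy := by
      refine ⟨hcy, ?_⟩
      rw [← hanc, ← hanc]
      exact hn.anc σ
    have hey : 11 / 12 ≤ e y := heA (anc η cy) hA' hn y (hsub cy hy)
    by_contra hcon
    push Not at hcon
    -- reached cells
    have hreach : ∀ c, ReachT (fun c => Blk M (η + σ) cz c ∧ Meet M u (t + 2 * ω) c) cy c →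
        Reach (fun x => Blk M (η + σ) cz x ∧ t < val u M x) cy c := by
      intro c hc
      have h2 : ReachT (fun x => Blk M (η + σ) cz x ∧ (Pr M x ∧ Meet M u (t + 2 * ω) x)) cy c :=
        ToDisc_reachT_mono (fun x hx => ⟨hx.1, hx.1.1, hx.2⟩) hc
      refine side_of_touch (S := fun x => Pr M x ∧ Meet M u (t + 2 * ω) x)
        (S' := fun x => t < val u M x) ?_ ?_ h2
      · intro x hx
        have := ToDisc_meet_val hω hx.1 hx.2
        show t < val u M x
        linarith
      · intro x d hx hd hxd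
        have := ToDisc_meet_nbr hω hx.1 hd hxd hx.2
        show t < val u M d
        linarith
    have key := comparison D.toDForm hu (M := M) (H := η + σ) hHM.le hblk hcz he he1 (ζ := ζ) he0 heζ hB
      (t := t + 2 * ω) (T := T + ω) (by linarith)
      (by
        intro c hc x hx
        have h1 := hreach c hc
        have h2 := (hcon c h1).1
        have hPc : Pr M c := h1.right.1.1
        obtain ⟨z, hz, hzv⟩ := exists_val hPc
        rw [hzv u] at h2
        have h3 := abs_le.1 (hω c x hx z hz)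
        linarith [h3.2])
      (by
        intro c hc hζc
        have h1 := hreach c hc
        exact (hcon c h1).2 (touch_of_mem hζc hζ))
      hy
    rw [hyv u] at hT
    have hpos : 0 < (T + ω) - (t + 2 * ω) := by linarith
    have h5 : ((T + ω) - (t + 2 * ω)) * (11 / 12) ≤ ((T + ω) - (t + 2 * ω)) * e y :=
      mul_le_mul_of_nonneg_left hey hpos.le
    linarith

end UCP
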