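import Pool.Agent.UCP.CT
import Pool.Agent.UCP.ToDisc
import Pool.Agent.UCP.Interior

/-!
Unique continuation on the Sierpinski carpet.
-/

open MeasureTheory Set Topology Filter CAR

namespace UCP

theorem Bd.anc {M k : ℕ} (hk : k ≤ M) {x : Pt} (h : Bd M x) : Bd (M - k) (UCP.anc k x) := by
  have h3 : 3 ^ M = 3 ^ (M - k) * 3 ^ k := by rw [← pow_add]; congr 1; omega
  have hp : 0 < 3 ^ k := by positivity
  have hq : 0 < 3 ^ (M - k) := by positivity
  have key : ∀ y : ℕ, y + 1 = 3 ^ M → y / 3 ^ k + 1 = 3 ^ (M - k) := by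
    intro y hy
    have hy' : y = 3 ^ (M - k) * 3 ^ k - 1 := by omega
    obtain ⟨q, hq'⟩ : ∃ q, 3 ^ (M - k) = q + 1 := ⟨3 ^ (M - k) - 1, by omega⟩
    have e : y = q * 3 ^ k + (3 ^ k - 1) := by
      rw [hy', hq', Nat.add_mul, Nat.one_mul]; omega
    rw [e, hq', Nat.add_comm (q * 3 ^ k), Nat.add_mul_div_right _ _ hp,
      Nat.div_eq_of_lt (by omega)]
    omega
  unfold Bd UCP.anc at *
  rcases h with h | h | h | h
  · left; rw [h]; simp
  · right; left; simp only; rw [h]; simp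
  · right; right; left; exact key _ h
  · right; right; right; exact key _ h

variable {μ : Measure carpet} (D : CarpetForm μ)

theorem harmonic_neg {u : C(carpet, ℝ)} (hu : D.HarmonicOff V0 u) : D.HarmonicOff V0 (-u) := by
  refine ⟨D.dom.neg_mem hu.1, fun g hg hg0 => ?_⟩
  rw [D.neg_left hu.1 hg, hu.2 g hg hg0, neg_zero]

theorem harmonic_sub_const {u : C(carpet, ℝ)} (hu : D.HarmonicOff V0 u) (c : ℝ) :
    D.HarmonicOff V0 (u - ContinuousMap.const carpet c) := by
  refine ⟨D.dom.sub_mem hu.1 (D.const_mem c), fun g hg hg0 => ?_⟩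
  rw [D.sub_left hu.1 (D.const_mem c) hg, hu.2 g hg hg0, D.const_left c hg, sub_zero]

variable [IsFiniteMeasure μ] [μ.IsOpenPosMeasure]

/-- zero on a cell implies zero on its side neighbours -/
theorem zero_step : ∃ R : ℕ, ∀ u : C(carpet, ℝ), D.HarmonicOff V0 u →
    ∀ (n : ℕ) (Cc Qc : Pt), Pr n Cc → Pr n Qc → Sd Cc Qc → R ≤ n → Inn (n - R) (anc R Cc) →
      (∀ x ∈ cell n Cc, u x = 0) → ∀ x ∈ cell n Qc, u x = 0 := by
  obtain ⟨σ, hσ, hdisc⟩ := exists_disc D
  refine ⟨RR σ, ?_⟩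
  intro u hu n Cc Qc hC hQ hCQ hR hInn h0 x hx
  by_contra hne
  set m : ℝ := |u x| / 2 with hm
  have hm0 : 0 < m := by
    rw [hm]; have := abs_pos.2 hne; linarith
  set U : ℝ := ‖u‖ with hU
  have hUb : ∀ y, |u y| ≤ U := fun y => by
    rw [← Real.norm_eq_abs]; exact ContinuousMap.norm_coe_le_norm _ _
  obtain ⟨hh, ε0, hε0, hCT⟩ := CT σ hσ U m hm0
  obtain ⟨M1, hM1⟩ := hdisc u hu U hUb ε0 hε0
  obtain ⟨M2, hM2⟩ := hdisc (-u) (harmonic_neg D hu) U (fun y => by
    rw [ContinuousMap.neg_apply, abs_neg]; exact hUb y) ε0 hε0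
  obtain ⟨M3, hM3⟩ := osc_cell u hm0
  obtain ⟨h0', e1, e2, e3, e4⟩ : ∃ h0' : ℕ, hh ≤ h0' ∧ M1 ≤ n + h0' ∧ M2 ≤ n + h0' ∧ M3 ≤ n + h0' :=
    ⟨hh + M1 + M2 + M3, by omega, by omega, by omega, by omega⟩
  have d1 := hM1 _ e2
  have d2 := hM2 _ e3
  have d3 : (fun c => - val u (n + h0') c) = val (-u) (n + h0') := by
    funext c; rw [val_neg]
  rw [← d3] at d2
  obtain ⟨c, hc1, hc2, hc3⟩ := exists_sub_cell hQ h0' hx
  have key := hCT n h0' ε0 (val u (n + h0')) Cc Qc e1 le_rfl hR d1 d2 hC hQ hCQ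
    (by
      intro y hy hy1 hy2
      have h3 := Bd.anc (k := h0' + RR σ) (by omega) hy2
      have h4 : n + h0' - (h0' + RR σ) = n - RR σ := by omega
      rw [h4] at h3
      exact hInn.not_touch h3 hy1)
    (by
      intro y hy hy1
      obtain ⟨z, hz1, hz2⟩ := exists_val hy
      rw [hz2]
      apply h0
      have := cell_subset_anc n h0' y hz1
      rwa [hy1] at this)
    c hc1 hc2
  obtain ⟨z, hz1, hz2⟩ := exists_val hc1
  rw [hz2] at key
  have h5 := hM3 _ e4 c x hc3 z hz1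
  have h6 : |u x| ≤ |u x - u z| + |u z| := by
    have := abs_add_le (u x - u z) (u z)
    simpa using this
  linarith

/-- unique continuation -/
theorem unique_continuation {u : C(carpet, ℝ)} (hu : D.HarmonicOff V0 u)
    (hint : (interior {x | u x = 0}).Nonempty) : ∀ x, u x = 0 := by
  obtain ⟨R, hR⟩ := zero_step D
  -- a cell off the boundary where `u = 0`
  have hO : IsOpen (interior {x | u x = 0} ∩ V0ᶜ) := isOpen_interior.inter isClosed_V0.isOpen_compl
  have hOne : (interior {x | u x = 0} ∩ V0ᶜ).Nonempty := by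
    by_contra hcon
    rw [Set.not_nonempty_iff_eq_empty] at hcon
    have h1 : interior {x | u x = 0} ⊆ interior (V0 : Set carpet) := by
      apply interior_maximal _ isOpen_interior
      intro y hy
      by_contra hyV
      have : y ∈ interior {x | u x = 0} ∩ V0ᶜ := ⟨hy, hyV⟩
      rw [hcon] at this
      exact this
    rw [interior_V0] at h1
    obtain ⟨y, hy⟩ := hint
    exact h1 hy
  obtain ⟨n1, c1, hc1, hc1s⟩ := exists_cell_sub hO hOne
  have hx0 : emb n1 c1 hc1 (Classical.choice ⟨hOne.some⟩) ∈ cell n1 c1 := emb_mem hc1 _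
  set x0 := emb n1 c1 hc1 (Classical.choice ⟨hOne.some⟩) with hx0def
  have hx0V : x0 ∉ V0 := (hc1s hx0).2
  obtain ⟨r0, hr0⟩ := exists_Inn hx0V
  obtain ⟨A, hA1, hA2, hA3⟩ := exists_sub_cell hc1 r0 hx0
  have hAInn : Inn (n1 + r0) A := hr0 _ (by omega) A hA1 hA3
  have hA0 : ∀ y ∈ cell (n1 + r0) A, u y = 0 := by
    intro y hy
    have h2 := cell_subset_anc n1 r0 A hy
    rw [hA2] at h2
    exact interior_subset (s := {x | u x = 0}) (hc1s h2).1
  -- all points off the boundary
  have key : ∀ x : carpet, x ∉ V0 → u x = 0 := by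
    intro x hx
    obtain ⟨r2, hr2⟩ := exists_Inn hx
    set r := n1 + r0 + r2 with hr
    obtain ⟨d, hd1, hd2⟩ := exists_sub hA1 (r2 + R)
    have e1 : n1 + r0 + (r2 + R) = r + R := by omega
    rw [e1] at hd1
    have hdP : Inn r (anc R d) := by
      refine Inn.sub (r := n1 + r0) (k := r2) ?_ ?_
      · exact hd1.anc
      · rw [anc_anc, hd2]; exact hAInn
    have hd0 : ∀ y ∈ cell (r + R) d, u y = 0 := by
      intro y hy
      apply hA0
      have := cell_subset_anc (n1 + r0) (r2 + R) d (by rw [e1]; exact hy)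
      rwa [hd2] at this
    obtain ⟨c, hc, hxc⟩ := exists_cell' x (r + R)
    have hcP : Inn r (anc R c) := hr2 r (by omega) _ hc.anc (cell_subset_anc r R c hxc)
    obtain ⟨-, hpath⟩ := conn_Inn_sub r R d c ⟨hd1, hdP⟩ ⟨hc, hcP⟩
    have hall : ∀ e, Relation.ReflTransGen (fun x y => Sd x y ∧ (Pr (r + R) y ∧ Inn r (anc R y))) d e →
        (Pr (r + R) e ∧ Inn r (anc R e)) ∧ ∀ y ∈ cell (r + R) e, u y = 0 := by
      intro e he
      induction he with
      | refl => exact ⟨⟨hd1, hdP⟩, hd0⟩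
      | tail _ h ih =>
        refine ⟨h.2, ?_⟩
        refine hR u hu (r + R) _ _ ih.1.1 h.2.1 h.1 (by omega) ?_ ih.2
        rw [Nat.add_sub_cancel]
        exact ih.1.2
    exact (hall c hpath).2 x hxc
  intro x
  by_contra hne
  have h1 : IsOpen {y | u y ≠ 0} := isOpen_ne_fun u.continuous continuous_const
  have h2 : {y | u y ≠ 0} ⊆ interior (V0 : Set carpet) := by
    apply interior_maximal _ h1
    intro y hy
    by_contra hyV
    exact hy (key y hyV)
  rw [interior_V0] at h2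
  exact h2 hne

/-- energy measures of nonconstant harmonic functions have full support -/
theorem full_support {h : C(carpet, ℝ)} (hh : D.HarmonicOff V0 h) (hne : ¬ ∃ c : ℝ, ∀ x, h x = c) :
    D.FullSupport h := by
  refine D.fullSupport_of isClosed_V0 interior_V0 hh ?_
  intro c
  by_contra hcon
  apply hne
  refine ⟨c, ?_⟩
  have h1 := unique_continuation D (harmonic_sub_const D hh c) (by
    have e : {x | (h - ContinuousMap.const carpet c) x = 0} = {x | h x = c} := by
      ext x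
      show h x - c = 0 ↔ h x = c
      exact sub_eq_zero
    rw [e]
    exact Set.nonempty_iff_ne_empty.2 hcon)
  intro x
  have := h1 x
  rw [ContinuousMap.sub_apply, ContinuousMap.const_apply] at this
  linarith

end UCP
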