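import Pool.Agent.UCP.CellPath

/-!
[UCP-F1] folding to the unit cell and the symmetries of the unit cell.
Unit cells are `(l, z)`: level `l`, index `z` with both coordinates `< 3 ^ l`.
-/

namespace UCP

/-- fold an index to `[0, 3^l)` by reflections -/
def fold (l i : ℕ) : ℕ := if (i / 3 ^ l) % 2 = 0 then i % 3 ^ l else 3 ^ l - 1 - i % 3 ^ l

def foldP (l : ℕ) (c : Pt) : Pt := (fold l c.1, fold l c.2)

/-- the symmetries of the square, acting on indices of level `l` -/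
def act (g : Bool × Bool × Bool) (l : ℕ) (z : Pt) : Pt :=
  let z1 := if g.1 then 3 ^ l - 1 - z.1 else z.1
  let z2 := if g.2.1 then 3 ^ l - 1 - z.2 else z.2
  if g.2.2 then (z2, z1) else (z1, z2)

theorem fold_lt (l i : ℕ) : fold l i < 3 ^ l := by
  have h0 : 0 < 3 ^ l := by positivity
  have h1 : i % 3 ^ l < 3 ^ l := Nat.mod_lt _ h0
  unfold fold
  split_ifs <;> omega

theorem Fold_self {l i : ℕ} (h : i < 3 ^ l) : fold l i = i := by
  unfold fold
  rw [Nat.div_eq_of_lt h, Nat.mod_eq_of_lt h]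
  simp

theorem foldP_self {l : ℕ} {z : Pt} (hz : z.1 < 3 ^ l ∧ z.2 < 3 ^ l) : foldP l z = z := by
  unfold foldP
  rw [Fold_self hz.1, Fold_self hz.2]

/-- reflection and division -/
theorem Fold_rev_div {P Q r : ℕ} (hP : 0 < P) (hr : r < P * Q) :
    (P * Q - 1 - r) / P = Q - 1 - r / P := by
  have h1 : P * (r / P) + r % P = r := Nat.div_add_mod r P
  have h2 : r % P < P := Nat.mod_lt _ hP
  have h3 : r / P < Q := Nat.div_lt_of_lt_mul hr
  have h4 : P * Q - 1 - r = (P - 1 - r % P) + P * (Q - 1 - r / P) := by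
    obtain ⟨d, hd⟩ : ∃ d, Q = r / P + 1 + d := ⟨Q - (r / P + 1), by omega⟩
    have h5 : Q - 1 - r / P = d := by omega
    rw [h5]
    have h6 : P * Q = P * (r / P) + P + P * d := by
      rw [hd]; ring
    omega
  rw [h4, Nat.add_mul_div_left _ _ hP, Nat.div_eq_of_lt (by omega)]
  omega

theorem Fold_div {l k : ℕ} (hk : k ≤ l) (i : ℕ) : fold l i / 3 ^ k = fold (l - k) (i / 3 ^ k) := by
  obtain ⟨m, rfl⟩ := Nat.exists_eq_add_of_le hk
  have hm : k + m - k = m := by omega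
  rw [hm]
  have hP : 0 < 3 ^ k := by positivity
  have hQ : 0 < 3 ^ m := by positivity
  have h1 : i / 3 ^ (k + m) = i / 3 ^ k / 3 ^ m := by
    rw [pow_add, Nat.div_div_eq_div_mul]
  have h2 : i % 3 ^ (k + m) / 3 ^ k = (i / 3 ^ k) % 3 ^ m := by
    rw [pow_add, Nat.mod_mul_right_div_self]
  unfold fold
  rw [h1]
  split_ifs with h
  · exact h2
  · rw [← h2]
    have h3 : i % 3 ^ (k + m) < 3 ^ k * 3 ^ m := by
      rw [← pow_add]; exact Nat.mod_lt _ (by positivity)
    rw [pow_add] at *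
    exact Fold_rev_div hP h3

/-- folding commutes with ancestors -/
theorem anc_foldP {l k : ℕ} (hk : k ≤ l) (c : Pt) : anc k (foldP l c) = foldP (l - k) (anc k c) := by
  unfold anc foldP
  simp only [Fold_div hk]

theorem Fold_mod {m : ℕ} (hm : 0 < m) (j : ℕ) : fold m j % 3 = 1 ↔ j % 3 = 1 := by
  obtain ⟨m', rfl⟩ : ∃ m', m = m' + 1 := ⟨m - 1, by omega⟩
  have h0 : (3:ℕ) ^ (m' + 1) = 3 * 3 ^ m' := by rw [pow_succ]; ring
  have h1 : j % 3 ^ (m' + 1) < 3 ^ (m' + 1) := Nat.mod_lt _ (by positivity)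
  have h2 : j % 3 ^ (m' + 1) % 3 = j % 3 := by
    rw [h0, Nat.mod_mul_right_mod]
  unfold fold
  split_ifs <;> omega

theorem Fold_digit {l k : ℕ} (hk : k < l) (i : ℕ) :
    fold l i / 3 ^ k % 3 = 1 ↔ i / 3 ^ k % 3 = 1 := by
  rw [Fold_div hk.le]
  exact Fold_mod (by omega) _

theorem Pr_foldP {n l : ℕ} {c : Pt} (h : Pr n c) (hl : l ≤ n) : Pr l (foldP l c) := by
  refine ⟨fold_lt _ _, fold_lt _ _, fun k hk => ?_⟩
  simp only [foldP]
  rw [Fold_digit hk, Fold_digit hk]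
  exact h.2.2 k (by omega)

/-- a cell of level `n + l` is given by its ancestor of level `n` and its folded relative index -/
theorem Pr_of_foldP {n l : ℕ} {c : Pt} (h : Pr n (anc l c)) (h' : Pr l (foldP l c)) : Pr (n + l) c := by
  obtain ⟨h1, h2, h3⟩ := h
  obtain ⟨_, _, h6⟩ := h'
  simp only [anc] at h1 h2 h3
  refine ⟨?_, ?_, fun k hk => ?_⟩
  · rw [pow_add]
    exact (Nat.div_lt_iff_lt_mul (by positivity)).1 h1
  · rw [pow_add]
    exact (Nat.div_lt_iff_lt_mul (by positivity)).1 h2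
  · by_cases hkl : k < l
    · have := h6 k hkl
      simp only [foldP] at this
      rwa [Fold_digit hkl, Fold_digit hkl] at this
    · obtain ⟨m, rfl⟩ := Nat.exists_eq_add_of_le (not_lt.1 hkl)
      have := h3 m (by omega)
      rwa [Nat.div_div_eq_div_mul, Nat.div_div_eq_div_mul, ← pow_add] at this

theorem Fold_step (l i : ℕ) : fold l (i + 1) = fold l i ∨ fold l (i + 1) = fold l i + 1 ∨
    fold l i = fold l (i + 1) + 1 := by
  have hP : 0 < 3 ^ l := by positivity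
  unfold fold
  generalize 3 ^ l = P at *
  have h1 : P * (i / P) + i % P = i := Nat.div_add_mod i P
  have h2 : i % P < P := Nat.mod_lt _ hP
  by_cases h : i % P + 1 < P
  · have h3 : (i + 1) / P = i / P := by
      have : i + 1 = (i % P + 1) + P * (i / P) := by omega
      rw [this, Nat.add_mul_div_left _ _ hP, Nat.div_eq_of_lt h]
      omega
    have h4 : (i + 1) % P = i % P + 1 := by
      have : i + 1 = (i % P + 1) + P * (i / P) := by omega
      rw [this, Nat.add_mul_mod_self_left, Nat.mod_eq_of_lt h]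
    rw [h3, h4]
    split_ifs <;> omega
  · have h3 : (i + 1) / P = i / P + 1 := by
      have : i + 1 = 0 + P * (i / P + 1) := by
        rw [Nat.mul_add]; omega
      rw [this, Nat.add_mul_div_left _ _ hP]
      simp
    have h4 : (i + 1) % P = 0 := by
      have : i + 1 = 0 + P * (i / P + 1) := by
        rw [Nat.mul_add]; omega
      rw [this, Nat.add_mul_mod_self_left]
      simp
    rw [h3, h4]
    split_ifs <;> omega

theorem Fold_lip (l i d : ℕ) : fold l (i + d) ≤ fold l i + d ∧ fold l i ≤ fold l (i + d) + d := by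
  induction d with
  | zero => simp
  | succ d ih =>
    have := Fold_step l (i + d)
    have h : i + (d + 1) = i + d + 1 := by ring
    rw [h]
    omega

theorem Fold_near {D l i j : ℕ} (h : i ≤ j + D) (h' : j ≤ i + D) :
    fold l i ≤ fold l j + D ∧ fold l j ≤ fold l i + D := by
  rcases le_total i j with hij | hij
  · obtain ⟨d, rfl⟩ := Nat.exists_eq_add_of_le hij
    have := Fold_lip l i d
    omega
  · obtain ⟨d, rfl⟩ := Nat.exists_eq_add_of_le hij
    have := Fold_lip l j d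
    omega

theorem Nr_foldP {D l : ℕ} {a b : Pt} (h : Nr D a b) : Nr D (foldP l a) (foldP l b) := by
  obtain ⟨h1, h2, h3, h4⟩ := h
  have h5 := Fold_near (l := l) h1 h2
  have h6 := Fold_near (l := l) h3 h4
  exact ⟨h5.1, h5.2, h6.1, h6.2⟩

theorem Sd_foldP {l : ℕ} {a b : Pt} (h : Sd a b) : foldP l a = foldP l b ∨ Sd (foldP l a) (foldP l b) := by
  obtain ⟨a1, a2⟩ := a
  obtain ⟨b1, b2⟩ := b
  unfold Sd at *
  simp only [foldP, Prod.mk.injEq] at *
  rcases h with ⟨rfl, rfl | rfl⟩ | ⟨rfl, rfl | rfl⟩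
  · have := Fold_step l b2
    omega
  · have := Fold_step l a2
    omega
  · have := Fold_step l b1
    omega
  · have := Fold_step l a1
    omega

theorem Fold_exists {l : ℕ} (X z : ℕ) (hz : z < 3 ^ l) : ∃ i, i / 3 ^ l = X ∧ fold l i = z := by
  have hP : 0 < 3 ^ l := by positivity
  unfold fold
  generalize 3 ^ l = P at *
  by_cases hX : X % 2 = 0
  · refine ⟨z + P * X, ?_, ?_⟩
    · rw [Nat.add_mul_div_left _ _ hP, Nat.div_eq_of_lt hz]; omega
    · rw [Nat.add_mul_div_left _ _ hP, Nat.div_eq_of_lt hz, Nat.add_mul_mod_self_left,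
        Nat.mod_eq_of_lt hz]
      split_ifs <;> omega
  · have hz' : P - 1 - z < P := by omega
    refine ⟨(P - 1 - z) + P * X, ?_, ?_⟩
    · rw [Nat.add_mul_div_left _ _ hP, Nat.div_eq_of_lt hz']; omega
    · rw [Nat.add_mul_div_left _ _ hP, Nat.div_eq_of_lt hz', Nat.add_mul_mod_self_left,
        Nat.mod_eq_of_lt hz']
      split_ifs <;> omega

/-- every folded index is attained, exactly once, in every unit `X` -/
theorem exists_unfold {l : ℕ} (X z : Pt) (hz : z.1 < 3 ^ l ∧ z.2 < 3 ^ l) :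
    ∃ c, anc l c = X ∧ foldP l c = z := by
  obtain ⟨i, hi, hi'⟩ := Fold_exists X.1 z.1 hz.1
  obtain ⟨j, hj, hj'⟩ := Fold_exists X.2 z.2 hz.2
  exact ⟨(i, j), by simp [anc, hi, hj], by simp [foldP, hi', hj']⟩

theorem Fold_near' {D l i j : ℕ} (h : i / 3 ^ l = j / 3 ^ l) (h1 : fold l i ≤ fold l j + D)
    (h2 : fold l j ≤ fold l i + D) : i ≤ j + D ∧ j ≤ i + D := by
  have hP : 0 < 3 ^ l := by positivity
  unfold fold at h1 h2
  generalize 3 ^ l = P at *
  have h3 : P * (i / P) + i % P = i := Nat.div_add_mod i P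
  have h4 : i % P < P := Nat.mod_lt _ hP
  have h5 : P * (j / P) + j % P = j := Nat.div_add_mod j P
  have h6 : j % P < P := Nat.mod_lt _ hP
  rw [h] at h1 h2 h3
  split_ifs at h1 h2 <;> omega

/-- inside one unit folding is an isometry for the index distance -/
theorem Nr_of_foldP {D l : ℕ} {a b : Pt} (h : anc l a = anc l b) (h' : Nr D (foldP l a) (foldP l b)) :
    Nr D a b := by
  obtain ⟨h1, h2, h3, h4⟩ := h'
  simp only [anc, Prod.mk.injEq] at h
  have h5 := Fold_near' h.1 h1 h2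
  have h6 := Fold_near' h.2 h3 h4
  exact ⟨h5.1, h5.2, h6.1, h6.2⟩

theorem unfold_unique {l : ℕ} {a b : Pt} (h : anc l a = anc l b) (h' : foldP l a = foldP l b) :
    a = b := by
  have h1 : Nr 0 a b := Nr_of_foldP h (by rw [h']; exact Nr.rfl)
  obtain ⟨h1, h2, h3, h4⟩ := h1
  ext <;> omega

theorem act_lt {g : Bool × Bool × Bool} {l : ℕ} {z : Pt} (hz : z.1 < 3 ^ l ∧ z.2 < 3 ^ l) :
    (act g l z).1 < 3 ^ l ∧ (act g l z).2 < 3 ^ l := by
  obtain ⟨a, b, c⟩ := g
  cases a <;> cases b <;> cases c <;> simp [act] <;> omega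

theorem Fold_rev_mod {l k : ℕ} (hk : k < l) {i : ℕ} (hi : i < 3 ^ l) :
    (3 ^ l - 1 - i) / 3 ^ k % 3 = 1 ↔ i / 3 ^ k % 3 = 1 := by
  obtain ⟨m, rfl⟩ : ∃ m, l = k + (m + 1) := ⟨l - k - 1, by omega⟩
  have h1 : (3:ℕ) ^ (k + (m + 1)) = 3 ^ k * (3 * 3 ^ m) := by rw [pow_add, pow_succ]; ring
  rw [h1] at hi ⊢
  rw [Fold_rev_div (by positivity) hi]
  have h3 : i / 3 ^ k < 3 * 3 ^ m := Nat.div_lt_of_lt_mul hi
  omega

theorem Pr_act {g : Bool × Bool × Bool} {l : ℕ} {z : Pt} (h : Pr l z) : Pr l (act g l z) := by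
  obtain ⟨h1, h2, h3⟩ := h
  refine ⟨(act_lt ⟨h1, h2⟩).1, (act_lt ⟨h1, h2⟩).2, fun k hk => ?_⟩
  have h4 := h3 k hk
  have h5 := Fold_rev_mod hk h1
  have h6 := Fold_rev_mod hk h2
  obtain ⟨a, b, c⟩ := g
  cases a <;> cases b <;> cases c <;> simp only [act, if_true, if_false, Bool.false_eq_true] <;> tauto

theorem anc_act {g : Bool × Bool × Bool} {l k : ℕ} (hk : k ≤ l) {z : Pt}
    (hz : z.1 < 3 ^ l ∧ z.2 < 3 ^ l) : anc k (act g l z) = act g (l - k) (anc k z) := by
  obtain ⟨m, rfl⟩ := Nat.exists_eq_add_of_le hk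
  have hm : k + m - k = m := by omega
  rw [hm]
  have hP : 0 < 3 ^ k := by positivity
  rw [pow_add] at hz
  have h1 := Fold_rev_div hP hz.1
  have h2 := Fold_rev_div hP hz.2
  obtain ⟨a, b, c⟩ := g
  cases a <;> cases b <;> cases c <;> simp [act, anc, pow_add, h1, h2]

theorem Nr_act {g : Bool × Bool × Bool} {D l : ℕ} {a b : Pt} (ha : a.1 < 3 ^ l ∧ a.2 < 3 ^ l)
    (hb : b.1 < 3 ^ l ∧ b.2 < 3 ^ l) (h : Nr D a b) : Nr D (act g l a) (act g l b) := by
  obtain ⟨x, y, z⟩ := g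
  unfold Nr at *
  cases x <;> cases y <;> cases z <;> simp only [act, if_true, if_false, Bool.false_eq_true] <;> omega

theorem Sd_act {g : Bool × Bool × Bool} {l : ℕ} {a b : Pt} (ha : a.1 < 3 ^ l ∧ a.2 < 3 ^ l)
    (hb : b.1 < 3 ^ l ∧ b.2 < 3 ^ l) (h : Sd a b) : Sd (act g l a) (act g l b) := by
  obtain ⟨x, y, z⟩ := g
  unfold Sd at *
  cases x <;> cases y <;> cases z <;> simp only [act, if_true, if_false, Bool.false_eq_true] <;> omega

/-- the symmetries form a group -/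
theorem act_mul (g g' : Bool × Bool × Bool) : ∃ g'', ∀ (l : ℕ) (z : Pt),
    z.1 < 3 ^ l ∧ z.2 < 3 ^ l → act g l (act g' l z) = act g'' l z := by
  obtain ⟨a, b, c⟩ := g
  obtain ⟨a', b', c'⟩ := g'
  refine ⟨(xor (if c' then b else a) a', xor (if c' then a else b) b', xor c c'), ?_⟩
  rintro l ⟨z1, z2⟩ ⟨h1, h2⟩
  simp only at h1 h2
  have h3 : 3 ^ l - 1 - (3 ^ l - 1 - z1) = z1 := by omega
  have h4 : 3 ^ l - 1 - (3 ^ l - 1 - z2) = z2 := by omega
  cases a <;> cases b <;> cases c <;> cases a' <;> cases b' <;> cases c' <;>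
    simp [act, h3, h4]

theorem act_inv (g : Bool × Bool × Bool) : ∃ g', ∀ (l : ℕ) (z : Pt),
    z.1 < 3 ^ l ∧ z.2 < 3 ^ l → act g' l (act g l z) = z ∧ act g l (act g' l z) = z := by
  obtain ⟨a, b, c⟩ := g
  refine ⟨((if c then b else a), (if c then a else b), c), ?_⟩
  rintro l ⟨z1, z2⟩ ⟨h1, h2⟩
  simp only at h1 h2
  have h3 : 3 ^ l - 1 - (3 ^ l - 1 - z1) = z1 := by omega
  have h4 : 3 ^ l - 1 - (3 ^ l - 1 - z2) = z2 := by omega
  cases a <;> cases b <;> cases c <;> simp [act, h3, h4]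

theorem act_id (l : ℕ) (z : Pt) : act (false, false, false) l z = z := by
  simp [act]

end UCP
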