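import Pool.Agent.UCP.Base

/-!
[UCP-G1] index arithmetic for ancestors, index distance, presence.
-/

namespace UCP


theorem anc_anc (a b : ℕ) (c : Pt) : anc a (anc b c) = anc (a + b) c := by
  simp only [anc, Nat.div_div_eq_div_mul, pow_add]
  rw [mul_comm (3 ^ b)]

theorem anc_zero (c : Pt) : anc 0 c = c := by
  simp [anc]

theorem Geo1_div_le {x y D : ℕ} (h : x ≤ y + D) (k : ℕ) : x / 3 ^ k ≤ y / 3 ^ k + D := by
  have hp : 0 < 3 ^ k := by positivity
  calc x / 3 ^ k ≤ (y + D * 3 ^ k) / 3 ^ k :=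
        Nat.div_le_div_right (h.trans (Nat.add_le_add_left (Nat.le_mul_of_pos_right D hp) y))
    _ = y / 3 ^ k + D := Nat.add_mul_div_right y D hp

/-- index distances do not increase under ancestors -/
theorem Nr.anc {D : ℕ} {a b : Pt} (h : Nr D a b) (k : ℕ) : Nr D (anc k a) (anc k b) := by
  obtain ⟨h1, h2, h3, h4⟩ := h
  exact ⟨Geo1_div_le h1 k, Geo1_div_le h2 k, Geo1_div_le h3 k, Geo1_div_le h4 k⟩

/-- index distances shrink under `parent` -/
theorem Nr.up {D : ℕ} {a b : Pt} (h : Nr D a b) : Nr ((D + 2) / 3) (UCP.anc 1 a) (UCP.anc 1 b) := by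
  unfold Nr UCP.anc at *
  simp only [pow_one]
  omega

theorem Geo1_succ_div (x k : ℕ) : (x + 1) / 3 ^ k = x / 3 ^ k ∨ (x + 1) / 3 ^ k = x / 3 ^ k + 1 := by
  have h1 : x / 3 ^ k ≤ (x + 1) / 3 ^ k := Nat.div_le_div_right (Nat.le_succ x)
  have h2 : (x + 1) / 3 ^ k ≤ x / 3 ^ k + 1 := Geo1_div_le le_rfl k
  omega

theorem Sd.anc {a b : Pt} (h : Sd a b) (k : ℕ) :
    UCP.anc k a = UCP.anc k b ∨ Sd (UCP.anc k a) (UCP.anc k b) := by
  obtain ⟨a1, a2⟩ := a
  obtain ⟨b1, b2⟩ := b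
  unfold Sd UCP.anc at *
  simp only [Prod.mk.injEq] at *
  rcases h with ⟨rfl, h | h⟩ | ⟨rfl, h | h⟩ <;> subst h
  · have := Geo1_succ_div b2 k; omega
  · have := Geo1_succ_div a2 k; omega
  · have := Geo1_succ_div b1 k; omega
  · have := Geo1_succ_div a1 k; omega

theorem Geo1_digit_low {x k j : ℕ} (hj : j < k) : (x % 3 ^ k) / 3 ^ j % 3 = x / 3 ^ j % 3 := by
  obtain ⟨m, rfl⟩ : ∃ m, k = j + (m + 1) := ⟨k - j - 1, by omega⟩
  rw [pow_add, Nat.mod_mul_right_div_self, Nat.mod_mod_of_dvd]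
  exact dvd_pow_self 3 (Nat.succ_ne_zero m)

theorem Geo1_digit_high (x k j : ℕ) : x / 3 ^ k / 3 ^ j % 3 = x / 3 ^ (k + j) % 3 := by
  rw [Nat.div_div_eq_div_mul, pow_add]

/-- a cell of level `n + k` = a cell of level `n` and a relative index which is a cell of level `k` -/
theorem Pr_iff {n k : ℕ} {c : Pt} :
    Pr (n + k) c ↔ Pr n (anc k c) ∧ Pr k (c.1 % 3 ^ k, c.2 % 3 ^ k) := by
  have hp : 0 < 3 ^ k := by positivity
  constructor
  · rintro ⟨h1, h2, h3⟩
    refine ⟨⟨?_, ?_, ?_⟩, Nat.mod_lt _ hp, Nat.mod_lt _ hp, ?_⟩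
    · apply Nat.div_lt_of_lt_mul
      rw [← pow_add, add_comm]; exact h1
    · apply Nat.div_lt_of_lt_mul
      rw [← pow_add, add_comm]; exact h2
    · intro j hj
      simp only [anc, Geo1_digit_high]
      exact h3 (k + j) (by omega)
    · intro j hj
      simp only [Geo1_digit_low hj]
      exact h3 j (by omega)
  · rintro ⟨⟨h1, h2, h3⟩, -, -, h6⟩
    simp only [anc] at h1 h2
    refine ⟨?_, ?_, ?_⟩
    · rw [add_comm, pow_add]
      exact (Nat.div_lt_iff_lt_mul hp).mp h1 |>.trans_eq (mul_comm _ _)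
    · rw [add_comm, pow_add]
      exact (Nat.div_lt_iff_lt_mul hp).mp h2 |>.trans_eq (mul_comm _ _)
    · intro j hj
      by_cases hjk : j < k
      · have := h6 j hjk
        simp only [Geo1_digit_low hjk] at this
        exact this
      · obtain ⟨i, rfl⟩ : ∃ i, j = k + i := ⟨j - k, by omega⟩
        have := h3 i (by omega)
        simp only [anc, Geo1_digit_high] at this
        exact this

theorem Pr.anc {n k : ℕ} {c : Pt} (h : Pr (n + k) c) : Pr n (UCP.anc k c) :=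
  (Pr_iff.mp h).1

theorem Pr.anc' {n k : ℕ} {c : Pt} (h : Pr n c) : Pr (n - k) (UCP.anc k c) := by
  by_cases hk : k ≤ n
  · have : Pr (n - k + k) c := by rw [Nat.sub_add_cancel hk]; exact h
    exact this.anc
  · have e : n - k = 0 := by omega
    rw [e]
    have hp : 3 ^ n ≤ 3 ^ k := Nat.pow_le_pow_right (by norm_num) (by omega)
    obtain ⟨h1, h2, -⟩ := h
    refine ⟨?_, ?_, fun j hj => absurd hj (Nat.not_lt_zero j)⟩
    · simp only [UCP.anc, Nat.div_eq_of_lt (h1.trans_le hp)]; norm_num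
    · simp only [UCP.anc, Nat.div_eq_of_lt (h2.trans_le hp)]; norm_num

theorem exists_sub {n : ℕ} {A : Pt} (h : Pr n A) (k : ℕ) : ∃ c, Pr (n + k) c ∧ anc k c = A := by
  have hp : 0 < 3 ^ k := by positivity
  have e : anc k (A.1 * 3 ^ k, A.2 * 3 ^ k) = A := by
    simp only [anc, Nat.mul_div_cancel _ hp]
  refine ⟨(A.1 * 3 ^ k, A.2 * 3 ^ k), ?_, e⟩
  rw [Pr_iff, e]
  refine ⟨h, ?_⟩
  simp only [Nat.mul_mod_left]
  refine ⟨hp, hp, fun j _ => ?_⟩
  simp

/-- The number of cells of relative depth `k` in a cell is at most `9 ^ k`; more generally, a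
finite set of indices with ancestors in `T` has at most `T.card * 9 ^ k` elements. -/
theorem card_le_of_anc {k : ℕ} (S T : Finset Pt) (h : ∀ x ∈ S, anc k x ∈ T) :
    S.card ≤ T.card * 9 ^ k := by
  classical
  have hp : 0 < 3 ^ k := by positivity
  rw [mul_comm]
  apply Finset.card_le_mul_card_image_of_maps_to h
  intro y _
  have hc : (Finset.range (3 ^ k) ×ˢ Finset.range (3 ^ k)).card = 9 ^ k := by
    rw [Finset.card_product, Finset.card_range, ← mul_pow]
    norm_num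
  rw [← hc]
  apply Finset.card_le_card_of_injOn (fun x : Pt => (x.1 % 3 ^ k, x.2 % 3 ^ k))
  · intro x _
    simp only [Finset.coe_product, Finset.coe_range, Set.mem_prod, Set.mem_Iio]
    exact ⟨Nat.mod_lt _ hp, Nat.mod_lt _ hp⟩
  · intro x hx x' hx' hxx
    rw [Finset.mem_coe, Finset.mem_filter] at hx hx'
    simp only [Prod.mk.injEq] at hxx
    have e : anc k x = anc k x' := hx.2.trans hx'.2.symm
    simp only [anc, Prod.mk.injEq] at e
    have e1 := Nat.div_add_mod x.1 (3 ^ k)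
    have e2 := Nat.div_add_mod x'.1 (3 ^ k)
    have e3 := Nat.div_add_mod x.2 (3 ^ k)
    have e4 := Nat.div_add_mod x'.2 (3 ^ k)
    rw [e.1, hxx.1] at e1
    rw [e.2, hxx.2] at e3
    exact Prod.ext (e1.symm.trans e2) (e3.symm.trans e4)

/-- the indices at distance at most `D` from `c` -/
def ball (D : ℕ) (c : Pt) : Finset Pt :=
  Finset.Icc (c.1 - D) (c.1 + D) ×ˢ Finset.Icc (c.2 - D) (c.2 + D)

theorem mem_ball {D : ℕ} {c x : Pt} : x ∈ ball D c ↔ Nr D x c := by
  simp only [ball, Finset.mem_product, Finset.mem_Icc, Nr]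
  omega

theorem card_ball_le (D : ℕ) (c : Pt) : (ball D c).card ≤ (2 * D + 1) ^ 2 := by
  rw [ball, Finset.card_product, Nat.card_Icc, Nat.card_Icc, pow_two]
  apply Nat.mul_le_mul <;> omega

end UCP
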