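import Pool.Agent.UCP.Geo1

/-!
[UCP-G2] the vertex lemma.
-/

namespace UCP

theorem Geo2_Pr_succ {n x y : ℕ} :
    Pr (n + 1) (x, y) ↔ Pr n (x / 3, y / 3) ∧ ¬ (x % 3 = 1 ∧ y % 3 = 1) := by
  have e : ∀ z k : ℕ, z / 3 ^ (k + 1) = z / 3 / 3 ^ k := by
    intro z k
    rw [pow_succ, mul_comm, Nat.div_div_eq_div_mul]
  have hlt : ∀ z : ℕ, z < 3 ^ (n + 1) ↔ z / 3 < 3 ^ n := by
    intro z
    rw [pow_succ, Nat.div_lt_iff_lt_mul (by norm_num)]
  constructor
  · rintro ⟨h1, h2, h3⟩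
    refine ⟨⟨(hlt x).1 h1, (hlt y).1 h2, ?_⟩, ?_⟩
    · intro k hk
      have := h3 (k + 1) (by omega)
      simp only [e] at this
      exact this
    · have := h3 0 (by omega)
      simpa using this
  · rintro ⟨⟨h1, h2, h3⟩, h4⟩
    refine ⟨(hlt x).2 h1, (hlt y).2 h2, ?_⟩
    intro k hk
    rcases k with _ | k
    · simpa using h4
    · have := h3 k (by omega)
      simp only [e]
      exact this

theorem Geo2_diag (n : ℕ) : ∀ x y x' y' : ℕ, Pr n (x, y) → Pr n (x', y') →
    (x' = x + 1 ∨ x = x' + 1) → (y' = y + 1 ∨ y = y' + 1) → Pr n (x, y') ∨ Pr n (x', y) := by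
  induction n with
  | zero =>
    intro x y x' y' h1 h2 hx hy
    have a1 := h1.1
    have a2 := h2.1
    simp only [pow_zero] at a1 a2
    omega
  | succ n ih =>
    intro x y x' y' h1 h2 hx hy
    rw [Geo2_Pr_succ] at h1 h2
    obtain ⟨p1, q1⟩ := h1
    obtain ⟨p2, q2⟩ := h2
    rw [Geo2_Pr_succ, Geo2_Pr_succ]
    by_cases ex : x / 3 = x' / 3
    · by_cases ey : y / 3 = y' / 3
      · rw [← ex, ← ey]
        by_cases hq : x % 3 = 1
        · right
          exact ⟨p1, by omega⟩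
        · left
          exact ⟨p1, by omega⟩
      · left
        rw [ex]
        exact ⟨p2, by omega⟩
    · by_cases ey : y / 3 = y' / 3
      · left
        rw [← ey]
        exact ⟨p1, by omega⟩
      · rcases ih (x / 3) (y / 3) (x' / 3) (y' / 3) p1 p2 (by omega) (by omega) with h | h
        · left
          exact ⟨h, by omega⟩
        · right
          exact ⟨h, by omega⟩

/-- Two cells which touch at a corner only have a common side neighbour which is a cell.
(Proof with ternary digits: let `p`, `q` be the numbers of trailing digits `2` of the smaller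
coordinates; going from `x` to `x+1` changes only the digits `≤ p`.) -/
theorem vertex {n : ℕ} {a b : Pt} (ha : Pr n a) (hb : Pr n b) (h : Nr 1 a b) (hne : a ≠ b)
    (hs : ¬ Sd a b) : ∃ c, Pr n c ∧ Sd a c ∧ Sd c b := by
  obtain ⟨x, y⟩ := a
  obtain ⟨x', y'⟩ := b
  have hne' : ¬ (x = x' ∧ y = y') := by
    rintro ⟨rfl, rfl⟩
    exact hne rfl
  simp only [Nr] at h
  simp only [Sd] at hs
  have hx : x' = x + 1 ∨ x = x' + 1 := by omega
  have hy : y' = y + 1 ∨ y = y' + 1 := by omega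
  rcases Geo2_diag n x y x' y' ha hb hx hy with hc | hc
  · exact ⟨(x, y'), hc, Or.inl ⟨rfl, hy.symm⟩, Or.inr ⟨rfl, hx.symm⟩⟩
  · exact ⟨(x', y), hc, Or.inr ⟨rfl, hx.symm⟩, Or.inl ⟨rfl, hy.symm⟩⟩

end UCP
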