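import Pool.Agent.UCP.SelfSim

/-!
[UCP-A1b] gluing.
-/

open MeasureTheory Set Topology Filter CAR

namespace UCP

variable {μ : Measure carpet} (D : CarpetForm μ)

/-- gluing (continuity: finite closed cover by the cells; `emb` is a closed embedding, `eq_of_pull`) -/
theorem glue (n : ℕ) (g : Pt → C(carpet, ℝ)) (hg : ∀ c, Pr n c → g c ∈ D.dom)
    (hc : ∀ (a b : Pt) (ha : Pr n a) (hb : Pr n b) (x y : carpet), emb n a ha x = emb n b hb y → g a x = g b y) :
    ∃ f ∈ D.dom, ∀ c, Pr n c → pull n c f = g c := by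
  classical
  have h1 : ∀ x : carpet, ∃ (c : Pt) (h : Pr n c) (y : carpet), emb n c h y = x := by
    intro x
    obtain ⟨c, h, hx⟩ := exists_cell' x n
    obtain ⟨y, hy⟩ := exists_emb h hx
    exact ⟨c, h, y, hy⟩
  choose C hC Y hY using h1
  let F : carpet → ℝ := fun x => g (C x) (Y x)
  have hF : ∀ (c : Pt) (h : Pr n c) (y : carpet), F (emb n c h y) = g c y := by
    intro c h y
    exact hc _ _ (hC _) h _ _ (hY _)
  have hcont : Continuous F := by
    rw [continuous_iff_isClosed]
    intro S hS
    have e : F ⁻¹' S = ⋃ c ∈ cells n,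
        (if h : Pr n c then (emb n c h) '' ((g c) ⁻¹' S) else ∅) := by
      ext x
      simp only [mem_preimage, mem_iUnion, exists_prop]
      constructor
      · intro hx
        refine ⟨C x, mem_cells.2 (hC x), ?_⟩
        rw [dif_pos (hC x)]
        exact ⟨Y x, hx, hY x⟩
      · rintro ⟨c, hcc, hx⟩
        rw [dif_pos (mem_cells.1 hcc)] at hx
        obtain ⟨y, hy, rfl⟩ := hx
        rw [hF]
        exact hy
    rw [e]
    refine isClosed_biUnion_finset ?_
    intro c hcc
    rw [dif_pos (mem_cells.1 hcc)]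
    have hcl : IsClosed ((g c) ⁻¹' S) := hS.preimage (g c).continuous
    exact (hcl.isCompact.image (emb n c (mem_cells.1 hcc)).continuous).isClosed
  have hp : ∀ c, Pr n c → pull n c (⟨F, hcont⟩ : C(carpet, ℝ)) = g c := by
    intro c h
    ext y
    rw [pull_apply h]
    exact hF c h y
  refine ⟨⟨F, hcont⟩, (dom_iff_pull D n _).2 ?_, hp⟩
  intro c h
  rw [hp c h]
  exact hg c h

end UCP
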