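import Pool.Agent.UCP.Disc

/-!
[UCP-LL] local lemma: between a small value and a large value nearby there are both signs.
-/

namespace UCP

/-- [UCP-LL] Apply `cmp` (to `f` and to `-f`) with `cy = y`, `cz = z`, `t = -a`, `T = 2a`: `T - t = 3a > 12 ε`,
`T - 5/6 (T - t) = -a/2 ≤ ± f y`. If `f z ≥ 2a`: for `f` both alternatives give `f c' ≥ 2a - ε` (`osc`); for `-f` the
alternative `Nr 1 c' z` would give `f c' ≥ 2a - ε`, against `-a < -f c'`. Symmetric if `f z ≤ -2a`. -/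
theorem local_both {σ M : ℕ} {ε U a : ℝ} {f : Pt → ℝ} (hD : Disc σ M ε U f)
    (hD' : Disc σ M ε U (fun x => - f x)) (ha : 4 * ε < a) {η : ℕ} {y z : Pt} (hy : Pr M y)
    (hz : Pr M z) (hn : Nr 1 (anc η y) (anc η z)) (hfy : |f y| ≤ a / 2) (hfz : 2 * a ≤ |f z|)
    (hB : ∀ x, Blk M (η + σ) z x → ¬ Bd M x) :
    (∃ c', Reach (fun x => Blk M (η + σ) z x ∧ -a < f x) y c' ∧ 2 * a - ε ≤ f c') ∧
    ∃ c', Reach (fun x => Blk M (η + σ) z x ∧ -a < - f x) y c' ∧ 2 * a - ε ≤ - f c' := by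
  have hε := hD.eps_pos
  obtain ⟨h1, h2⟩ := abs_le.1 hfy
  obtain ⟨c₁, hc₁, hc₁'⟩ := hD.cmp η y z hy hz hn hB (-a) (2 * a) (by linarith) (by linarith)
  obtain ⟨c₂, hc₂, hc₂'⟩ := hD'.cmp η y z hy hz hn hB (-a) (2 * a) (by linarith)
    (by show 2 * a - 5 / 6 * (2 * a - -a) ≤ - f y; linarith)
  have r₁ := hc₁.right
  have r₂ := hc₂.right
  change 2 * a ≤ - f c₂ ∨ Nr 1 c₂ z at hc₂'
  have o₁ : Nr 1 c₁ z → |f c₁ - f z| ≤ ε := fun h => hD.osc c₁ z r₁.1.1 hz h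
  have o₂ : Nr 1 c₂ z → |f c₂ - f z| ≤ ε := fun h => hD.osc c₂ z r₂.1.1 hz h
  refine ⟨⟨c₁, hc₁, ?_⟩, ⟨c₂, hc₂, ?_⟩⟩
  · rcases hc₁' with h | h
    · linarith
    · obtain ⟨h3, h4⟩ := abs_le.1 (o₁ h)
      rcases le_abs.1 hfz with h5 | h5
      · linarith
      · have := r₁.2
        linarith
  · rcases hc₂' with h | h
    · linarith
    · obtain ⟨h3, h4⟩ := abs_le.1 (o₂ h)
      rcases le_abs.1 hfz with h5 | h5
      · have := r₂.2
        linarith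
      · linarith

end UCP
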