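import Pool.Agent.UCP.Euler

/-!
[UCP-PC] planar count: few conflict-free good channels.
-/

namespace UCP

/-- the side-components of `{f > b}` which contain a cell `x` with `Ω x` and `f x ≥ c` -/
def strands (M : ℕ) (f : Pt → ℝ) (b c : ℝ) (Ω : Pt → Prop) : Set (Set Pt) :=
  {S | ∃ x, Pr M x ∧ Ω x ∧ c ≤ f x ∧ b < f x ∧ S = {y | Reach (fun y => Pr M y ∧ b < f y) x y}}

theorem Planar_fin (M : ℕ) : {x | Pr M x}.Finite := by
  refine ((Set.finite_Iio (3 ^ M)).prod (Set.finite_Iio (3 ^ M))).subset ?_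
  rintro x ⟨h1, h2, _⟩
  exact ⟨h1, h2⟩

theorem strands_finite (M : ℕ) (f : Pt → ℝ) (b c : ℝ) (Ω : Pt → Prop) : (strands M f b c Ω).Finite := by
  refine ((Planar_fin M).image fun x => {y | Reach (fun y => Pr M y ∧ b < f y) x y}).subset ?_
  rintro S ⟨x, hx, _, _, _, rfl⟩
  exact ⟨x, hx, rfl⟩

/-- a component is connected -/
theorem Planar_comp {P : Pt → Prop} {x w : Pt} (h : Reach P x w) :
    Reach (fun z => Reach P x z) x w := by
  obtain ⟨h1, h2⟩ := h
  induction h2 with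
  | refl => exact Reach.refl (Reach.refl h1)
  | @tail b c h3 h ih => exact ih.tail h.1 (Reach.tail ⟨h1, h3⟩ h.1 h.2)

theorem Planar_conn (P : Pt → Prop) (x : Pt) : Conn (fun z => Reach P x z) :=
  fun _ _ ha hb => (Planar_comp ha).symm.trans (Planar_comp hb)

/-- the first cell in a set -/
theorem Planar_first {P R : Pt → Prop} {x z : Pt} (h : Reach P x z) (hx : ¬ R x) (hz : R z) :
    ∃ u w, Reach (fun v => P v ∧ ¬ R v) x u ∧ Sd u w ∧ P w ∧ R w := by
  obtain ⟨h1, h2⟩ := h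
  have key : ∀ b, Relation.ReflTransGen (fun x y => Sd x y ∧ P y) x b →
      Reach (fun v => P v ∧ ¬ R v) x b ∨
        ∃ u w, Reach (fun v => P v ∧ ¬ R v) x u ∧ Sd u w ∧ P w ∧ R w := by
    intro b hb
    induction hb with
    | refl => exact Or.inl (Reach.refl ⟨h1, hx⟩)
    | @tail b c _ h ih =>
      rcases ih with ih | ih
      · by_cases hc : R c
        · exact Or.inr ⟨b, c, ih, h.1, h.2, hc⟩
        · exact Or.inl (ih.tail h.1 ⟨h.2, hc⟩)
      · exact Or.inr ih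
  rcases key z h2 with h | h
  · exact absurd hz h.right.2
  · exact h

/-- [UCP-PC] Let `𝒮` be the union of all sets in the two families of strands. `V i` := side-component of `y i` in
`B i \ 𝒮` (`y i ∉ 𝒮` as `|f (y i)| ≤ a`). `T0` := all `x` reached from points of `G` through cells `w` with
`G w ∨ ∃ i, T i w`, not in any `V j`. `U` := `T0` and all strands (`Option (strands ⊕ strands)`). All are connected (`G` is
connected and disjoint from the `V j ⊆ B j`), finite (contained in the cells of level `M`), pairwise disjoint (strands are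
components of `{f > a+ε}`, resp. `{-f > a+ε}`; `T0 ⊆ {|f| ≤ a}`).
`V i` is adjacent to a strand of `f`: the path of `hup` starts in `V i` and ends at `c'` with `f c' ≥ 2a - ε ≥ 3/2 a`,
`f c' > a + ε`, `Ω c'`, so in a strand; as `f > -a` on it, it does not meet strands of `-f`; take the first cell in `𝒮`.
Same for `-f`. `V i` is adjacent to `T0`: follow the path of `hT` from `G` to `y i`; it starts outside of `V i` (`hGB`);
take the first cell in `V i`; all previous ones are in `T0` (they are in `T i`, so not in `V j ⊆ B j`, `j ≠ i`).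
`euler_bound`. -/
theorem planar_count {ι : Type} [Fintype ι] {M : ℕ} {ε a : ℝ} {f : Pt → ℝ} {Ω G : Pt → Prop}
    (hε : 0 < ε) (ha : 4 * ε < a) (y : ι → Pt) (B T : ι → Pt → Prop)
    (hB : ∀ i x, B i x → Pr M x ∧ Ω x) (hy : ∀ i, B i (y i) ∧ |f (y i)| ≤ a)
    (hup : ∀ i, ∃ c', Reach (fun x => B i x ∧ -a < f x) (y i) c' ∧ 2 * a - ε ≤ f c')
    (hdn : ∀ i, ∃ c', Reach (fun x => B i x ∧ -a < - f x) (y i) c' ∧ 2 * a - ε ≤ - f c')
    (hG : Conn G) (hG' : ∀ x, G x → Pr M x ∧ |f x| ≤ a)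
    (hT : ∀ i, ∃ g, G g ∧ Reach (T i) g (y i)) (hT' : ∀ i x, T i x → Pr M x ∧ |f x| ≤ a)
    (hGB : ∀ i x, G x → ¬ B i x) (hTB : ∀ i j x, i ≠ j → T i x → ¬ B j x)
    (hBB : ∀ i j x, B i x → B j x → i = j) :
    Fintype.card ι ≤ 2 * (1 + (strands M f (a + ε) (3 / 2 * a) Ω).ncard +
      (strands M (fun x => - f x) (a + ε) (3 / 2 * a) Ω).ncard) := by
  classical
  set SP := strands M f (a + ε) (3 / 2 * a) Ω with hSP
  set SN := strands M (fun x => - f x) (a + ε) (3 / 2 * a) Ω with hSN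
  have fP : Finite SP := (strands_finite _ _ _ _ _).to_subtype
  have fN : Finite SN := (strands_finite _ _ _ _ _).to_subtype
  have iP : Fintype SP := Fintype.ofFinite _
  have iN : Fintype SN := Fintype.ofFinite _
  -- values on strands
  have vP : ∀ S ∈ SP, ∀ x ∈ S, Pr M x ∧ a + ε < f x := by
    rintro S ⟨z, _, _, _, _, rfl⟩ x hx
    have hx1 : Reach (fun y => Pr M y ∧ a + ε < f y) z x := hx
    exact hx1.right
  have vN : ∀ S ∈ SN, ∀ x ∈ S, Pr M x ∧ a + ε < - f x := by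
    rintro S ⟨z, _, _, _, _, rfl⟩ x hx
    have hx1 : Reach (fun y => Pr M y ∧ a + ε < - f y) z x := hx
    exact hx1.right
  have dP : ∀ S ∈ SP, ∀ S' ∈ SP, ∀ x, x ∈ S → x ∈ S' → S = S' := by
    rintro S ⟨z, _, _, _, _, rfl⟩ S' ⟨z', _, _, _, _, rfl⟩ x hx hx'
    ext w
    have hx1 : Reach (fun y => Pr M y ∧ a + ε < f y) z x := hx
    have hx2 : Reach (fun y => Pr M y ∧ a + ε < f y) z' x := hx'
    exact ⟨fun h => (hx2.trans hx1.symm).trans h, fun h => (hx1.trans hx2.symm).trans h⟩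
  have dN : ∀ S ∈ SN, ∀ S' ∈ SN, ∀ x, x ∈ S → x ∈ S' → S = S' := by
    rintro S ⟨z, _, _, _, _, rfl⟩ S' ⟨z', _, _, _, _, rfl⟩ x hx hx'
    ext w
    have hx1 : Reach (fun y => Pr M y ∧ a + ε < - f y) z x := hx
    have hx2 : Reach (fun y => Pr M y ∧ a + ε < - f y) z' x := hx'
    exact ⟨fun h => (hx2.trans hx1.symm).trans h, fun h => (hx1.trans hx2.symm).trans h⟩
  have cP : ∀ S ∈ SP, Conn (fun x => x ∈ S) := by
    rintro S ⟨z, _, _, _, _, rfl⟩
    exact Planar_conn (fun y => Pr M y ∧ a + ε < f y) z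
  have cN : ∀ S ∈ SN, Conn (fun x => x ∈ S) := by
    rintro S ⟨z, _, _, _, _, rfl⟩
    exact Planar_conn (fun y => Pr M y ∧ a + ε < - f y) z
  let SS : Pt → Prop := fun x => (∃ S ∈ SP, x ∈ S) ∨ ∃ S ∈ SN, x ∈ S
  have hSS : ∀ x, |f x| ≤ a → ¬ SS x := by
    rintro x hx (⟨S, hS, h⟩ | ⟨S, hS, h⟩)
    · have := (vP S hS x h).2
      have := (abs_le.1 hx).2
      linarith
    · have := (vN S hS x h).2
      have := (abs_le.1 hx).1
      linarith
  let V : ι → Pt → Prop := fun i w => Reach (fun x => B i x ∧ ¬ SS x) (y i) w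
  have hVB : ∀ i x, V i x → B i x := fun i x h => (Reach.right h).1
  have hyV : ∀ i, V i (y i) := fun i => Reach.refl ⟨(hy i).1, hSS _ (hy i).2⟩
  let T0 : Pt → Prop := fun w => ∃ g, G g ∧
    Reach (fun w => (G w ∨ ∃ i, T i w) ∧ ∀ j, ¬ V j w) g w
  have hGV : ∀ x, G x → ∀ j, ¬ V j x := fun x hx j h => hGB j x hx (hVB j x h)
  have hT0' : ∀ x, T0 x → ((G x ∨ ∃ i, T i x) ∧ ∀ j, ¬ V j x) := by
    rintro x ⟨g, _, h⟩
    exact h.right
  have hT0v : ∀ x, T0 x → Pr M x ∧ |f x| ≤ a := by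
    intro x hx
    rcases (hT0' x hx).1 with h | ⟨i, h⟩
    · exact hG' x h
    · exact hT' i x h
  have hT0c : Conn T0 := by
    rintro b c ⟨g, hg, hb⟩ ⟨g', hg', hc⟩
    have h1 : ∀ g w, G g → Reach (fun w => (G w ∨ ∃ i, T i w) ∧ ∀ j, ¬ V j w) g w →
        Reach T0 g w := by
      intro g w hg hw
      exact (Planar_comp hw).mono fun x hx => ⟨g, hg, hx⟩
    have h2 : Reach T0 g g' := by
      refine (hG g g' hg hg').mono fun x hx => ⟨x, hx, Reach.refl ⟨Or.inl hx, hGV x hx⟩⟩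
    exact ((h1 g b hg hb).symm.trans h2).trans (h1 g' c hg' hc)
  let U : Option (SP ⊕ SN) → Pt → Prop := fun o => match o with
    | none => T0
    | some (Sum.inl S) => fun x => x ∈ S.1
    | some (Sum.inr S) => fun x => x ∈ S.1
  have hmain := euler_bound V U ?_ ?_ ?_ ?_ ?_ ?_ ?_ ?_
  · have hcard : Fintype.card (Option (SP ⊕ SN)) = 1 + SP.ncard + SN.ncard := by
      rw [Fintype.card_option, Fintype.card_sum, ← Nat.card_eq_fintype_card,
        ← Nat.card_eq_fintype_card, Nat.card_coe_set_eq, Nat.card_coe_set_eq]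
      omega
    rw [hcard] at hmain
    exact hmain
  · intro i
    exact (Planar_fin M).subset fun x hx => (hB i x (hVB i x hx)).1
  · rintro (_ | ⟨S, hS⟩ | ⟨S, hS⟩)
    · exact (Planar_fin M).subset fun x hx => (hT0v x hx).1
    · exact (Planar_fin M).subset fun x hx => (vP S hS x hx).1
    · exact (Planar_fin M).subset fun x hx => (vN S hS x hx).1
  · intro i
    exact Planar_conn _ _
  · rintro (_ | ⟨S, hS⟩ | ⟨S, hS⟩)
    · exact hT0c
    · exact cP S hS
    · exact cN S hS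
  · intro i i' x hx hx'
    exact hBB i i' x (hVB i x hx) (hVB i' x hx')
  · rintro (_ | ⟨S, hS⟩ | ⟨S, hS⟩) (_ | ⟨S', hS'⟩ | ⟨S', hS'⟩) x hx hx'
    · rfl
    · exact absurd (Or.inl ⟨S', hS', hx'⟩) (hSS x (hT0v x hx).2)
    · exact absurd (Or.inr ⟨S', hS', hx'⟩) (hSS x (hT0v x hx).2)
    · exact absurd (Or.inl ⟨S, hS, hx⟩) (hSS x (hT0v x hx').2)
    · have := dP S hS S' hS' x hx hx'
      subst this
      rfl
    · exfalso
      have h1 := (vP S hS x hx).2
      have h2 := (vN S' hS' x hx').2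
      linarith
    · exact absurd (Or.inr ⟨S, hS, hx⟩) (hSS x (hT0v x hx').2)
    · exfalso
      have h1 := (vN S hS x hx).2
      have h2 := (vP S' hS' x hx').2
      linarith
    · have := dN S hS S' hS' x hx hx'
      subst this
      rfl
  · rintro i (_ | ⟨S, hS⟩ | ⟨S, hS⟩) x hx hx'
    · exact (hT0' x hx').2 i hx
    · exact (Reach.right hx).2 (Or.inl ⟨S, hS, hx'⟩)
    · exact (Reach.right hx).2 (Or.inr ⟨S, hS, hx'⟩)
  · intro i
    -- a positive strand
    obtain ⟨c', hc1, hc2⟩ := hup i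
    have hcB := hB i c' hc1.right.1
    have hcS : SS c' := by
      refine Or.inl ⟨{y | Reach (fun y => Pr M y ∧ a + ε < f y) c' y}, ?_, ?_⟩
      · exact ⟨c', hcB.1, hcB.2, by linarith, by linarith, rfl⟩
      · have h0 : Reach (fun y => Pr M y ∧ a + ε < f y) c' c' :=
          Reach.refl ⟨hcB.1, by linarith⟩
        exact h0
    obtain ⟨u, w, h1, h2, h3, h4⟩ := Planar_first hc1 (hSS _ (hy i).2) hcS
    obtain ⟨S, hS, hwS⟩ : ∃ S ∈ SP, w ∈ S := by
      rcases h4 with h4 | ⟨S, hS, hw⟩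
      · exact h4
      · exfalso
        have := (vN S hS w hw).2
        have := h3.2
        linarith
    have aP : Adj (V i) (U (some (Sum.inl ⟨S, hS⟩))) :=
      ⟨u, w, h1.mono fun x hx => ⟨hx.1.1, hx.2⟩, hwS, h2⟩
    -- a negative strand
    obtain ⟨c', hc1, hc2⟩ := hdn i
    have hcB := hB i c' hc1.right.1
    have hcS : SS c' := by
      refine Or.inr ⟨{y | Reach (fun y => Pr M y ∧ a + ε < - f y) c' y}, ?_, ?_⟩
      · exact ⟨c', hcB.1, hcB.2, by linarith, by linarith, rfl⟩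
      · have h0 : Reach (fun y => Pr M y ∧ a + ε < - f y) c' c' :=
          Reach.refl ⟨hcB.1, by linarith⟩
        exact h0
    obtain ⟨u', w', h1', h2', h3', h4'⟩ := Planar_first hc1 (hSS _ (hy i).2) hcS
    obtain ⟨S', hS', hwS'⟩ : ∃ S ∈ SN, w' ∈ S := by
      rcases h4' with ⟨S, hS, hw⟩ | h4
      · exfalso
        have := (vP S hS w' hw).2
        have := h3'.2
        linarith
      · exact h4
    have aN : Adj (V i) (U (some (Sum.inr ⟨S', hS'⟩))) :=
      ⟨u', w', h1'.mono fun x hx => ⟨hx.1.1, hx.2⟩, hwS', h2'⟩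
    -- the tree
    obtain ⟨g, hg, hgy⟩ := hT i
    obtain ⟨u2, w2, k1, k2, k3, k4⟩ := Planar_first (R := V i) hgy (hGV g hg i) (hyV i)
    have a0 : Adj (V i) (U none) := by
      refine ⟨w2, u2, k4, ⟨g, hg, k1.mono fun x hx => ⟨Or.inr ⟨i, hx.1⟩, fun j => ?_⟩⟩, k2.symm⟩
      by_cases hj : i = j
      · subst hj; exact hx.2
      · exact fun h => hTB i j x hj hx.1 (hVB j x h)
    refine ⟨none, some (Sum.inl ⟨S, hS⟩), some (Sum.inr ⟨S', hS'⟩), ?_, ?_, ?_, a0, aP, aN⟩
    · simp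
    · simp
    · simp

end UCP
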