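import Mathlib

/-!
[UCP-TU] independent sets in digraphs with bounded in-degree.
-/

namespace UCP

open Classical in
theorem Turan_aux {α : Type*} (R : α → α → Prop) (D : ℕ) (n : ℕ) : ∀ W : Finset α, W.card = n →
    (∀ v ∈ W, (W.filter (fun w => R w v)).card ≤ D) →
    ∃ S ⊆ W, (∀ a ∈ S, ∀ b ∈ S, a ≠ b → ¬ R a b) ∧ W.card ≤ (2 * D + 1) * S.card := by
  induction n using Nat.strong_induction_on with
  | _ n ih =>
    intro W hWn h
    rcases W.eq_empty_or_nonempty with rfl | hne
    · exact ⟨∅, Finset.Subset.refl _, by simp, by simp⟩
    · obtain ⟨w, hw, hwD⟩ : ∃ w ∈ W, (W.filter (fun v => R w v)).card ≤ D := by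
        by_contra hcon
        push Not at hcon
        have h1 : ∑ w ∈ W, (W.filter (fun v => R w v)).card =
            ∑ v ∈ W, (W.filter (fun w => R w v)).card :=
          Finset.sum_card_bipartiteAbove_eq_sum_card_bipartiteBelow R
        have h2 : ∑ v ∈ W, (W.filter (fun w => R w v)).card ≤ ∑ _v ∈ W, D :=
          Finset.sum_le_sum h
        have h3 : ∑ _w ∈ W, D < ∑ w ∈ W, (W.filter (fun v => R w v)).card :=
          Finset.sum_lt_sum_of_nonempty hne hcon
        omega
      set W' : Finset α := ((W.erase w).filter (fun v => ¬ R w v)).filter (fun v => ¬ R v w)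
        with hW'
      have hsub : W' ⊆ W := fun x hx => by
        rw [hW', Finset.mem_filter, Finset.mem_filter, Finset.mem_erase] at hx
        exact hx.1.1.2
      have hww' : w ∉ W' := fun hx => by
        rw [hW', Finset.mem_filter, Finset.mem_filter, Finset.mem_erase] at hx
        exact hx.1.1.1 rfl
      have hlt : W'.card < n := by
        rw [← hWn]
        exact Finset.card_lt_card ⟨hsub, fun h' => hww' (h' hw)⟩
      obtain ⟨S, hS, hSi, hSc⟩ := ih _ hlt W' rfl (fun v hv => by
        refine le_trans (Finset.card_le_card ?_) (h v (hsub hv))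
        exact Finset.filter_subset_filter _ hsub)
      have hwS : w ∉ S := fun h' => hww' (hS h')
      refine ⟨insert w S, ?_, ?_, ?_⟩
      · intro x hx
        rcases Finset.mem_insert.1 hx with rfl | hx
        · exact hw
        · exact hsub (hS hx)
      · intro a ha b hb hab
        have hout : ∀ b ∈ S, ¬ R w b ∧ ¬ R b w := fun b hb => by
          have := hS hb
          rw [hW', Finset.mem_filter, Finset.mem_filter] at this
          exact ⟨this.1.2, this.2⟩
        rcases Finset.mem_insert.1 ha with haw | ha
        · rcases Finset.mem_insert.1 hb with hbw | hb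
          · exact absurd (haw.trans hbw.symm) hab
          · rw [haw]; exact (hout b hb).1
        · rcases Finset.mem_insert.1 hb with hbw | hb
          · rw [hbw]; exact (hout a ha).2
          · exact hSi a ha b hb hab
      · rw [Finset.card_insert_of_notMem hwS]
        have hcov : W ⊆ W' ∪ ({w} ∪ (W.filter (fun v => R w v) ∪ W.filter (fun v => R v w))) := by
          intro x hx
          by_cases e1 : x = w
          · simp [e1]
          · by_cases e2 : R w x
            · simp [hx, e2]
            · by_cases e3 : R x w
              · simp [hx, e3]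
              · simp [hW', hx, e1, e2, e3]
        have c1 := Finset.card_le_card hcov
        have c2 := Finset.card_union_le W'
          ({w} ∪ (W.filter (fun v => R w v) ∪ W.filter (fun v => R v w)))
        have c3 := Finset.card_union_le ({w} : Finset α)
          (W.filter (fun v => R w v) ∪ W.filter (fun v => R v w))
        have c4 := Finset.card_union_le (W.filter (fun v => R w v)) (W.filter (fun v => R v w))
        have c5 := h w hw
        have c6 : ({w} : Finset α).card = 1 := Finset.card_singleton w
        have : W.card ≤ W'.card + (2 * D + 1) := by omega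
        calc W.card ≤ W'.card + (2 * D + 1) := this
          _ ≤ (2 * D + 1) * S.card + (2 * D + 1) := by omega
          _ = (2 * D + 1) * (S.card + 1) := by ring

/-- Induction on `W.card`: the number of pairs `(w,v) ∈ W × W` with `R w v` is at most `D * W.card`, so some
`w ∈ W` has at most `D` out-neighbours in `W` (and at most `D` in-neighbours); put `w` in `S`, delete `w` and its
neighbours (`≤ 2 D + 1` elements) and go on. -/
theorem exists_indep {α : Type*} [DecidableEq α] (R : α → α → Prop) (D : ℕ) (W : Finset α)
    (h : ∀ v ∈ W, {w | w ∈ W ∧ R w v}.ncard ≤ D) :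
    ∃ S ⊆ W, (∀ a ∈ S, ∀ b ∈ S, a ≠ b → ¬ R a b) ∧ W.card ≤ (2 * D + 1) * S.card := by
  classical
  refine Turan_aux R D W.card W rfl fun v hv => ?_
  have h1 := h v hv
  have h2 : {w | w ∈ W ∧ R w v} = ((W.filter (fun w => R w v) : Finset α) : Set α) := by
    ext w; simp
  rw [h2, Set.ncard_coe_finset] at h1
  exact h1

end UCP
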