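import Pool.Agent.UCP.Conflict
import Pool.Agent.UCP.Local
import Pool.Agent.UCP.Planar
import Pool.Agent.UCP.Turan

/-!
[UCP-GL] at every level there are few good channels.
-/

namespace UCP

/-- The channel `(Nk, c)` is good at level `a`: a chain of net cells `d 0, …, d i` of the channel, starting in the ring, on
which `|f| ≤ a` before `d i`, `|f| ≤ a/2` on `d (i-1)`, and `|f z| ≥ 2 a` for some `z` in `d i`. -/
def Good (n t h2 : ℕ) (Cc Qc : Pt) (f : Pt → ℝ) (a : ℝ) (Nk : Finset (ℕ × Pt)) (c : ℕ) : Prop :=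
  ∃ (d : ℕ → ℕ × Pt) (i : ℕ) (y0 : Pt), 1 ≤ i ∧ (∀ l ≤ i, NC n t h2 Qc Nk c (d l)) ∧
    Pr (n + t + h2) y0 ∧ Rg n t Cc (anc h2 y0) ∧ anc (d 0).1 y0 = (d 0).2 ∧
    (∀ l < i, ∃ e e', Pr (n + t + h2) e ∧ Pr (n + t + h2) e' ∧ anc (d l).1 e = (d l).2 ∧
      anc (d (l + 1)).1 e' = (d (l + 1)).2 ∧ (e = e' ∨ Sd e e')) ∧
    (∀ l < i, ∀ x, Pr (n + t + h2) x → anc (d l).1 x = (d l).2 → |f x| ≤ a) ∧
    (∀ x, Pr (n + t + h2) x → anc (d (i - 1)).1 x = (d (i - 1)).2 → |f x| ≤ a / 2) ∧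
    ∃ z, Pr (n + t + h2) z ∧ anc (d i).1 z = (d i).2 ∧ 2 * a ≤ |f z|

theorem GoodLevel_up {D H H' : ℕ} {x z : Pt} (h : Nr D (anc H x) (anc H z)) (hH : H ≤ H') :
    Nr D (anc H' x) (anc H' z) := by
  have h1 := h.anc (H' - H)
  rw [anc_anc, anc_anc, Nat.sub_add_cancel hH] at h1
  exact h1

theorem GoodLevel_up1 {D H : ℕ} {x z : Pt} (h : Nr D (anc H x) (anc H z)) :
    Nr ((D + 2) / 3) (anc (H + 1) x) (anc (H + 1) z) := by
  have h1 := h.up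
  rw [anc_anc, anc_anc, Nat.add_comm 1 H] at h1
  exact h1

theorem GoodLevel_mf {t x z : ℕ} (h : 2 ≤ mf t x) (h1 : x ≤ z + 1) (h2 : z ≤ x + 1) :
    z / 3 ^ t = x / 3 ^ t := by
  have hp : 0 < 3 ^ t := by positivity
  unfold mf at h
  have h3 := Nat.div_add_mod x (3 ^ t)
  have h4 := Nat.mod_lt x hp
  have h5 : 2 ≤ x % 3 ^ t := le_trans h (min_le_left _ _)
  have h6 : 2 ≤ 3 ^ t - 1 - x % 3 ^ t := le_trans h (min_le_right _ _)
  rw [Nat.div_eq_iff hp]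
  have h7 : x / 3 ^ t * 3 ^ t = 3 ^ t * (x / 3 ^ t) := mul_comm _ _
  constructor
  · omega
  · omega

/-- facts about the cells of a net cell -/
theorem GoodLevel_NC {n t h2 s : ℕ} {Qc : Pt} {Nk : Finset (ℕ × Pt)} {c : ℕ} {p : ℕ × Pt}
    (hN : ∀ d ∈ Nk, s ≤ d.1) (hp : NC n t h2 Qc Nk c p) :
    p.1 + s ≤ h2 ∧ Pr (n + t + h2 - p.1) p.2 ∧
      ∀ z, anc p.1 z = p.2 → Nr 1 (anc (t + h2) z) Qc := by
  obtain ⟨d, hd, h1, _, h3, h4⟩ := hp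
  have h5 := hN d hd
  refine ⟨by omega, ?_, ?_⟩
  · have : n + t + h2 - p.1 = n + t + d.1 := by omega
    rw [this]; exact h3
  · intro z hz
    have h6 := h4.2.1
    rw [← hz, anc_anc, anc_anc] at h6
    have : t + d.1 + p.1 = t + h2 := by omega
    rw [this] at h6
    exact h6

/-- the chain of net cells is connected -/
theorem GoodLevel_chain {M i : ℕ} {d : ℕ → ℕ × Pt} {y0 : Pt} (hd : ∀ l < i, (d l).1 ≤ M ∧ Pr (M - (d l).1) (d l).2)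
    (hy : Pr M y0) (hy0 : anc (d 0).1 y0 = (d 0).2)
    (hl : ∀ l < i, ∃ e e', Pr M e ∧ Pr M e' ∧ anc (d l).1 e = (d l).2 ∧
      anc (d (l + 1)).1 e' = (d (l + 1)).2 ∧ (e = e' ∨ Sd e e')) :
    ∀ l < i, ∀ x, Pr M x → anc (d l).1 x = (d l).2 →
      Reach (fun x => Pr M x ∧ ∃ l < i, anc (d l).1 x = (d l).2) y0 x := by
  have hcell : ∀ l < i, ∀ a b, Pr M a → Pr M b → anc (d l).1 a = (d l).2 → anc (d l).1 b = (d l).2 →
      Reach (fun x => Pr M x ∧ ∃ l < i, anc (d l).1 x = (d l).2) a b := by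
    intro l hli a b ha hb ha' hb'
    have h1 := conn_cell (hd l hli).2 (d l).1
    rw [Nat.sub_add_cancel (hd l hli).1] at h1
    exact (h1 a b ⟨ha, ha'⟩ ⟨hb, hb'⟩).mono fun x hx => ⟨hx.1, l, hli, hx.2⟩
  intro l
  induction l with
  | zero => exact fun h x hx hx' => hcell 0 h y0 x hy hx hy0 hx'
  | succ l ih =>
    intro h x hx hx'
    obtain ⟨e, e', he, he', h1, h2, h3⟩ := hl l (by omega)
    have h4 := ih (by omega) e he h1
    have h5 : Reach (fun x => Pr M x ∧ ∃ l < i, anc (d l).1 x = (d l).2) y0 e' := by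
      rcases h3 with rfl | h3
      · exact h4
      · exact h4.tail h3 ⟨he', l + 1, h, h2⟩
    exact h5.trans (hcell (l + 1) h e' x he' hx h2 hx')

/-- [UCP-GL] `M = n + t + h2`, `s' = σ + 1`. Fix the data of `Good` for `w ∈ W`: `d w`, `i w`, …, `p w = d w (i w)`,
`z w`, and `y w = e` of the link `l = i w - 1` (in `d w (i w - 1)`, equal or side-adjacent to a cell `e'` of `p w`). `exists_indep` with
`R w v := ∃ x, Chn n t h2 Qc (N w.1) w.2 x ∧ Nr 1 (anc ((p v).1 + s') x) (anc s' (p v).2)` and `D = 648 * 18` (`conflict`):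
`S ⊆ W` without conflicts, `W.card ≤ (2 D + 1) * S.card`. Apply `planar_count` to `ι = S`,
`B w = Blk M ((p w).1 + σ) (z w)`, `T w x = Pr M x ∧ ∃ l < i w, anc (d w l).1 x = (d w l).2`,
`G x = Pr M x ∧ Rg n t Cc (anc h2 x)`, `Ω x = Nr 1 (anc (t + h2 + 1) x) (anc 1 Cc)`.
* net cells `p` have `p.1 + σ + 2 ≤ h2` (level of `d ∈ N k` is `≥ s' + 1`). So for `B w x`: `x`, `z w` are in index distance 1 at height
  `h2` and `t + h2`; `anc (t+h2) (z w)` within 1 of `Qc`, `Qc` within 1 of `Cc`: `x` within 3 of `Cc` at height `t + h2`, so `Ω x`; with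
  `hdom`: not `Bd`.
* `hup`, `hdn`: `local_both` with `η = (p w).1` (`Nr 1 (anc η (y w)) (anc η (z w))` as `anc η e' = (p w).2 = anc η (z w)`).
* `hG`: `conn_lift` (`conn_Rg`); on `G` `f = 0`.
* `hT`: `conn_cell` in every `d w l` and the links.
* `hGB`: a point of the ring and `z w` in index distance 1 at height `h2` would give `anc (t+h2) (z w) = Cc` (`mf ≥ 2`), so `f (z w) = 0`.
* `hTB`: `x` in `T v` is in the channel `v` (`NC.chn`), `B w x` gives `Nr 1` at height `(p w).1 + s'` with `anc s' (p w).2 = anc _ (z w)`: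
  `R v w`.
* `hBB`: `x` in `B v` and `B w`, say `(p v).1 ≤ (p w).1`: `z v`, `z w` are in index distance 2 at height `(p w).1 + σ`, so in index
  distance 1 at height `(p w).1 + s'`; `z v` is in the channel `v`: `R v w`. -/
theorem good_level {κ : Type} [Fintype κ] {σ n t h2 : ℕ} {ε U a : ℝ} {f : Pt → ℝ} {Cc Qc : Pt}
    (hD : Disc σ (n + t + h2) ε U f) (hD' : Disc σ (n + t + h2) ε U (fun x => - f x))
    (ha : 4 * ε < a) (ht : 2 ≤ t) (hC : Pr n Cc) (hQc : Pr n Qc) (hCQ : Sd Cc Qc)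
    (hdom : ∀ x, Pr (n + t + h2) x → Nr 1 (anc (t + h2 + 1) x) (anc 1 Cc) → ¬ Bd (n + t + h2) x)
    (hf0 : ∀ x, Pr (n + t + h2) x → anc (t + h2) x = Cc → f x = 0)
    (Q N : κ → Finset (ℕ × Pt))
    (hQ : ∀ k, ∀ q ∈ Q k, σ + 2 ≤ q.1 ∧ q.1 ≤ h2 ∧ Pr q.1 q.2)
    (hP2 : ∀ μ w, μ ≤ h2 → Pr μ w → {k | ∃ q ∈ Q k, q.1 ≤ μ ∧ NearU (σ + 1) q (μ, w)}.ncard ≤ 648)
    (hN : ∀ k, ∀ d ∈ N k, σ + 2 ≤ d.1 ∧ d.1 ≤ h2 ∧ Pr d.1 d.2 ∧
        (∃ q ∈ Q k, q.1 ≤ d.1 ∧ anc (d.1 - q.1) d.2 = q.2) ∧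
        ∀ k', ∀ q' ∈ Q k', ¬ (d.1 < q'.1 ∧ NearU (σ + 1) d q'))
    (W : Finset (κ × ℕ)) (hW : ∀ w ∈ W, w.2 ∈ cidx t ∧ Good n t h2 Cc Qc f a (N w.1) w.2) :
    W.card ≤ (2 * (648 * 18) + 1) * (2 * (1 +
      (strands (n + t + h2) f (a + ε) (3 / 2 * a) (fun x => Nr 1 (anc (t + h2 + 1) x) (anc 1 Cc))).ncard +
      (strands (n + t + h2) (fun x => - f x) (a + ε) (3 / 2 * a)
        (fun x => Nr 1 (anc (t + h2 + 1) x) (anc 1 Cc))).ncard)) := by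
  classical
  have hε := hD.eps_pos
  -- the data of a good channel
  have hdat : ∀ w : κ × ℕ, ∃ (d : ℕ → ℕ × Pt) (i : ℕ) (y0 y z : Pt), w ∈ W →
      (1 ≤ i ∧ (∀ l ≤ i, NC n t h2 Qc (N w.1) w.2 (d l)) ∧
      Pr (n + t + h2) y0 ∧ Rg n t Cc (anc h2 y0) ∧ anc (d 0).1 y0 = (d 0).2 ∧
      (∀ l < i, ∃ e e', Pr (n + t + h2) e ∧ Pr (n + t + h2) e' ∧ anc (d l).1 e = (d l).2 ∧
        anc (d (l + 1)).1 e' = (d (l + 1)).2 ∧ (e = e' ∨ Sd e e')) ∧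
      (∀ l < i, ∀ x, Pr (n + t + h2) x → anc (d l).1 x = (d l).2 → |f x| ≤ a)) ∧
      (Pr (n + t + h2) y ∧ anc (d (i - 1)).1 y = (d (i - 1)).2 ∧ |f y| ≤ a / 2) ∧
      (Pr (n + t + h2) z ∧ anc (d i).1 z = (d i).2 ∧ 2 * a ≤ |f z|) ∧
      Nr 1 (anc (d i).1 y) (anc (d i).1 z) := by
    intro w
    by_cases hw : w ∈ W
    · obtain ⟨_, d, i, y0, h1, h2', h3, h4, h5, h6, h7, h8, z, h9, h10, h11⟩ := hW w hw
      obtain ⟨e, e', he, he', h12, h13, h14⟩ := h6 (i - 1) (by omega)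
      rw [Nat.sub_add_cancel h1] at h13
      refine ⟨d, i, y0, e, z, fun _ => ⟨⟨h1, h2', h3, h4, h5, h6, h7⟩, ⟨he, h12, h8 e he h12⟩,
        ⟨h9, h10, h11⟩, ?_⟩⟩
      rw [h10, ← h13]
      have h15 : Nr 1 e e' := by
        rcases h14 with rfl | h14
        · exact Nr.rfl
        · exact h14.nr
      exact h15.anc _
    · exact ⟨fun _ => (0, (0, 0)), 0, (0, 0), (0, 0), (0, 0), fun h => absurd h hw⟩
  choose d i y0 y z hdat using hdat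
  let p : κ × ℕ → ℕ × Pt := fun w => d w (i w)
  let R : κ × ℕ → κ × ℕ → Prop := fun w v =>
    ∃ x, Chn n t h2 Qc (N w.1) w.2 x ∧ Nr 1 (anc ((p v).1 + (σ + 1)) x) (anc (σ + 1) (p v).2)
  have hNp : ∀ k, ∀ e ∈ N k, σ + 2 ≤ e.1 := fun k e he => (hN k e he).1
  have hpW : ∀ v ∈ W, NC n t h2 Qc (N v.1) v.2 (p v) := fun v hv => (hdat v hv).1.2.1 _ le_rfl
  obtain ⟨S, hSW, hSR, hSc⟩ := exists_indep R (648 * 18) W (by
    intro v hv
    refine le_trans (Set.ncard_le_ncard ?_ ?_) (conflict (s' := σ + 1) Q N hQ hP2 hN (hpW v hv))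
    · rintro w ⟨hw, hwR⟩
      exact ⟨(hW w hw).1, hwR⟩
    · refine ((Set.finite_univ (α := κ)).prod (cidx t).finite_toSet).subset ?_
      rintro w ⟨hw, _⟩
      exact ⟨Set.mem_univ _, hw⟩)
  -- the block of `z w`
  have hzQ : ∀ w ∈ W, Nr 1 (anc (t + h2) (z w)) Qc := fun w hw =>
    (GoodLevel_NC (hNp w.1) (hpW w hw)).2.2 _ (hdat w hw).2.2.1.2.1
  have hph : ∀ w ∈ W, (p w).1 + (σ + 2) ≤ h2 := fun w hw => (GoodLevel_NC (hNp w.1) (hpW w hw)).1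
  have hBΩ : ∀ w ∈ W, ∀ x, Blk (n + t + h2) ((p w).1 + σ) (z w) x →
      Nr 1 (anc (t + h2 + 1) x) (anc 1 Cc) := by
    intro w hw x hx
    have h1 : Nr 1 (anc (t + h2) x) (anc (t + h2) (z w)) :=
      GoodLevel_up hx.2 (by have := hph w hw; omega)
    have h3 := ((h1.trans (hzQ w hw)).trans hCQ.symm.nr).up
    rw [anc_anc, Nat.add_comm 1 (t + h2)] at h3
    exact h3
  have hBdom : ∀ w ∈ W, ∀ x, Blk (n + t + h2) ((p w).1 + σ) (z w) x → ¬ Bd (n + t + h2) x :=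
    fun w hw x hx => hdom x hx.1 (hBΩ w hw x hx)
  have hlb : ∀ w ∈ W, (∃ c', Reach (fun x => Blk (n + t + h2) ((p w).1 + σ) (z w) x ∧ -a < f x)
        (y w) c' ∧ 2 * a - ε ≤ f c') ∧
      ∃ c', Reach (fun x => Blk (n + t + h2) ((p w).1 + σ) (z w) x ∧ -a < - f x)
        (y w) c' ∧ 2 * a - ε ≤ - f c' := by
    intro w hw
    obtain ⟨_, h1, h3, h4⟩ := hdat w hw
    exact local_both hD hD' ha h1.1 h3.1 h4 h1.2.2 h3.2.2 (hBdom w hw)
  -- conflicts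
  have hRx : ∀ w ∈ W, ∀ v ∈ W, ∀ x, Chn n t h2 Qc (N w.1) w.2 x →
      Nr 1 (anc ((p v).1 + (σ + 1)) x) (anc ((p v).1 + (σ + 1)) (z v)) → R w v := by
    intro w hw v hv x hx hn
    refine ⟨x, hx, ?_⟩
    have h1 : anc (p v).1 (z v) = (p v).2 := (hdat v hv).2.2.1.2.1
    rw [← h1, anc_anc, Nat.add_comm (σ + 1)]
    exact hn
  have hcount := planar_count (ι := {w // w ∈ S}) (M := n + t + h2) (f := f)
    (Ω := fun x => Nr 1 (anc (t + h2 + 1) x) (anc 1 Cc))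
    (G := fun x => Pr (n + t + h2) x ∧ Rg n t Cc (anc h2 x)) hε ha (fun w => y w.1)
    (fun w => Blk (n + t + h2) ((p w.1).1 + σ) (z w.1))
    (fun w x => Pr (n + t + h2) x ∧ ∃ l < i w.1, anc (d w.1 l).1 x = (d w.1 l).2)
    ?_ ?_ ?_ ?_ ?_ ?_ ?_ ?_ ?_ ?_ ?_
  · rw [Fintype.card_coe] at hcount
    exact hSc.trans (Nat.mul_le_mul_left _ hcount)
  · intro w x hx
    exact ⟨hx.1, hBΩ w.1 (hSW w.2) x hx⟩
  · intro w
    obtain ⟨_, h1, h3, h4⟩ := hdat w.1 (hSW w.2)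
    refine ⟨⟨h1.1, GoodLevel_up h4 (Nat.le_add_right _ _)⟩, ?_⟩
    have := h1.2.2
    linarith
  · intro w
    exact (hlb w.1 (hSW w.2)).1
  · intro w
    exact (hlb w.1 (hSW w.2)).2
  · exact conn_lift (conn_Rg hC ht) (fun A hA => hA.1) h2
  · rintro x ⟨hx, hr⟩
    refine ⟨hx, ?_⟩
    have h1 := hr.2.1
    rw [anc_anc] at h1
    rw [hf0 x hx h1, abs_zero]
    linarith
  · intro w
    obtain ⟨⟨h1, h2', h3, h4, h5, h6, h7⟩, h8, -, -⟩ := hdat w.1 (hSW w.2)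
    refine ⟨y0 w.1, ⟨h3, h4⟩, ?_⟩
    refine GoodLevel_chain ?_ h3 h5 h6 (i w.1 - 1) (by omega) (y w.1) h8.1 h8.2.1
    intro l hl
    obtain ⟨k1, k2, -⟩ := GoodLevel_NC (hNp w.1.1) (h2' l hl.le)
    exact ⟨by omega, k2⟩
  · rintro w x ⟨hx, l, hl, hx'⟩
    exact ⟨hx, (hdat w.1 (hSW w.2)).1.2.2.2.2.2.2 l hl x hx hx'⟩
  · rintro w x ⟨hx, hr⟩ hB
    obtain ⟨_, _, h3, _⟩ := hdat w.1 (hSW w.2)
    have h4 : Nr 1 (anc h2 x) (anc h2 (z w.1)) :=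
      GoodLevel_up hB.2 (by have := hph w.1 (hSW w.2); omega)
    have h5 : anc (t + h2) (z w.1) = Cc := by
      have h6 := hr.2.1
      rw [← anc_anc, ← h6]
      obtain ⟨k1, k2, k3, k4⟩ := h4
      exact Prod.ext (GoodLevel_mf hr.2.2.1 k1 k2) (GoodLevel_mf hr.2.2.2.1 k3 k4)
    have h7 := hf0 _ h3.1 h5
    have h8 := h3.2.2
    rw [h7, abs_zero] at h8
    linarith
  · rintro w v x hwv ⟨hx, l, hl, hx'⟩ hB
    have hne : w.1 ≠ v.1 := fun h => hwv (Subtype.ext h)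
    refine hSR w.1 w.2 v.1 v.2 hne (hRx _ (hSW w.2) _ (hSW v.2) x ?_ ?_)
    · exact ((hdat w.1 (hSW w.2)).1.2.1 l hl.le).chn hx hx'
    · exact GoodLevel_up hB.2 (by omega)
  · intro v w x hv hw
    by_contra hvw
    have hne : v.1 ≠ w.1 := fun h => hvw (Subtype.ext h)
    have key : ∀ v w : {w // w ∈ S}, v.1 ≠ w.1 → (p v.1).1 ≤ (p w.1).1 →
        Blk (n + t + h2) ((p v.1).1 + σ) (z v.1) x → Blk (n + t + h2) ((p w.1).1 + σ) (z w.1) x →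
        False := by
      intro v w hne hle hv hw
      refine hSR v.1 v.2 w.1 w.2 hne (hRx _ (hSW v.2) _ (hSW w.2) (z v.1) ?_ ?_)
      · exact (hpW v.1 (hSW v.2)).chn (hdat v.1 (hSW v.2)).2.2.1.1 (hdat v.1 (hSW v.2)).2.2.1.2.1
      · have h1 : Nr 1 (anc ((p w.1).1 + σ) (z v.1)) (anc ((p w.1).1 + σ) x) :=
          GoodLevel_up hv.2.symm (by omega)
        exact GoodLevel_up1 (h1.trans hw.2)
    rcases le_total (p v.1).1 (p w.1).1 with h | h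
    · exact key v w hne h hv hw
    · exact key w v hne.symm h hw hv

end UCP
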