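import Pool.Agent.UCP.Weight

/-!
[UCP-U3] lifting a connected set of unit cells to a connected set of maximal regular cells.
-/

namespace UCP

/-- the fine unit cells (level `h`) covered by `N` -/
def Cov (h : ℕ) (N : Finset (ℕ × Pt)) (y : Pt) : Prop :=
  Pr h y ∧ ∃ d ∈ N, d.1 ≤ h ∧ anc (h - d.1) y = d.2

/-- Markov inequality for natural numbers -/
theorem Lift_markov {S : Finset ℕ} {c : ℕ → ℕ} {w : ℕ} (hS : 0 < S.card)
    (h : ∑ r ∈ S, c r ≤ S.card * w) : 3 * (S.filter (fun r => ¬ c r ≤ 3 * w)).card < S.card := by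
  set B := S.filter (fun r => ¬ c r ≤ 3 * w) with hB
  have h1 : B.card * (3 * w + 1) ≤ ∑ r ∈ B, c r := by
    rw [← smul_eq_mul]
    exact Finset.card_nsmul_le_sum _ _ _ (fun r hr => by
      have := (Finset.mem_filter.1 hr).2
      omega)
  have h2 : ∑ r ∈ B, c r ≤ ∑ r ∈ S, c r := Finset.sum_le_sum_of_subset (Finset.filter_subset _ _)
  have h3 : B.card * (3 * w + 1) ≤ S.card * w := h1.trans (h2.trans h)
  by_contra hcon
  push Not at hcon
  have h4 : S.card * w ≤ 3 * B.card * w := Nat.mul_le_mul_right _ hcon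
  have h5 : B.card = 0 := by nlinarith
  omega

/-- cheap rows -/
theorem Lift_rows {h : ℕ} (Qk : Finset (ℕ × Pt)) (w : ℕ × Pt → ℕ)
    (cost : ℕ × Pt → ℕ → ℕ)
    (hcost : ∀ q ∈ Qk, ∑ r ∈ cantor (h - q.1), cost q r ≤ 2 ^ (h - q.1) * w q)
    (nxt prv : ℕ × Pt → ℕ × Pt) (hn : ∀ q, (nxt q).1 = q.1) (hp : ∀ q, prv (nxt q) = q) :
    ∃ Rows : ℕ × Pt → Finset ℕ,
      (∀ q, ∀ r ∈ Rows q, r ∈ cantor (h - q.1) ∧ cost q r ≤ 3 * w q) ∧
      (∀ q, (Rows q).card ≤ 5) ∧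
      (∀ q ∈ Qk, (Rows q).Nonempty) ∧
      (∀ q ∈ Qk, nxt q ∈ Qk → ∃ r, r ∈ Rows q ∧ r ∈ Rows (nxt q)) ∧
      (∀ q ∈ Qk, q.1 < h → ∀ β, β = 0 ∨ β = 2 → ∃ r ∈ Rows q, r / 3 ^ (h - q.1 - 1) = β) := by
  classical
  have hpos : ∀ n, 0 < (cantor n).card := fun n => by rw [card_cantor]; positivity
  have hbad : ∀ q ∈ Qk, 3 * ((cantor (h - q.1)).filter (fun r => ¬ cost q r ≤ 3 * w q)).card <
      2 ^ (h - q.1) := by
    intro q hq
    have := Lift_markov (hpos (h - q.1)) (c := cost q) (w := w q) (by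
      rw [card_cantor]; exact hcost q hq)
    rwa [card_cantor] at this
  -- a family of rows that is not too small contains a cheap one
  have hex : ∀ q ∈ Qk, ∀ T ⊆ cantor (h - q.1), 2 ^ (h - q.1) ≤ 3 * T.card →
      ∃ r ∈ T, cost q r ≤ 3 * w q := by
    intro q hq T hT hcard
    by_contra hcon
    push Not at hcon
    have h1 : T ⊆ (cantor (h - q.1)).filter (fun r => ¬ cost q r ≤ 3 * w q) := by
      intro r hr
      rw [Finset.mem_filter]
      exact ⟨hT hr, by have := hcon r hr; omega⟩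
    have h2 := Finset.card_le_card h1
    have h3 := hbad q hq
    omega
  have e1 : ∀ q, ∃ r, q ∈ Qk → r ∈ cantor (h - q.1) ∧ cost q r ≤ 3 * w q := by
    intro q
    by_cases hq : q ∈ Qk
    · obtain ⟨r, hr, hr'⟩ := hex q hq (cantor (h - q.1)) subset_rfl (by rw [card_cantor]; omega)
      exact ⟨r, fun _ => ⟨hr, hr'⟩⟩
    · exact ⟨0, fun h => absurd h hq⟩
  have e2 : ∀ q, ∃ r, q ∈ Qk → nxt q ∈ Qk → r ∈ cantor (h - q.1) ∧ cost q r ≤ 3 * w q ∧
      cost (nxt q) r ≤ 3 * w (nxt q) := by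
    intro q
    by_cases hq : q ∈ Qk
    · by_cases hq' : nxt q ∈ Qk
      · obtain ⟨r, hr, hr'⟩ := hex q hq
          ((cantor (h - q.1)).filter (fun r => cost (nxt q) r ≤ 3 * w (nxt q)))
          (Finset.filter_subset _ _) (by
            have h1 := hbad (nxt q) hq'
            rw [hn q] at h1
            have h2 := Finset.card_filter_add_card_filter_not (s := cantor (h - q.1))
              (fun r => cost (nxt q) r ≤ 3 * w (nxt q))
            rw [card_cantor] at h2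
            omega)
        rw [Finset.mem_filter] at hr
        exact ⟨r, fun _ _ => ⟨hr.1, hr', hr.2⟩⟩
      · exact ⟨0, fun _ h => absurd h hq'⟩
    · exact ⟨0, fun h => absurd h hq⟩
  have e3 : ∀ q (β : ℕ), ∃ r, q ∈ Qk → q.1 < h → (β = 0 ∨ β = 2) → r ∈ cantor (h - q.1) ∧
      cost q r ≤ 3 * w q ∧ r / 3 ^ (h - q.1 - 1) = β := by
    intro q β
    by_cases hc : q ∈ Qk ∧ q.1 < h ∧ (β = 0 ∨ β = 2)
    · obtain ⟨hq, hqh, hβ⟩ := hc
      obtain ⟨m, hm⟩ : ∃ m, h - q.1 = m + 1 := ⟨h - q.1 - 1, by omega⟩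
      have hinj : Function.Injective (fun r : ℕ => β * 3 ^ m + r) := fun a b hab => by
        simpa using hab
      obtain ⟨r, hr, hr'⟩ := hex q hq ((cantor m).image (fun r => β * 3 ^ m + r)) (by
          intro r hr
          obtain ⟨r', hr', rfl⟩ := Finset.mem_image.1 hr
          rw [hm]
          exact cantor_succ hr' hβ) (by
          rw [Finset.card_image_of_injective _ hinj, card_cantor, hm, pow_succ]
          omega)
      obtain ⟨r', hr'', rfl⟩ := Finset.mem_image.1 hr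
      refine ⟨_, fun _ _ _ => ⟨?_, hr', ?_⟩⟩
      · rw [hm]
        exact cantor_succ hr'' hβ
      · have hlt : r' < 3 ^ m := by
          have := (Finset.mem_filter.1 hr'').1
          exact Finset.mem_range.1 this
        rw [hm, Nat.add_sub_cancel, Nat.add_comm, Nat.add_mul_div_right _ _ (by positivity),
          Nat.div_eq_of_lt hlt, Nat.zero_add]
    · exact ⟨0, fun h1 h2 h3 => absurd ⟨h1, h2, h3⟩ hc⟩
  choose rB hB using e1
  choose rL hL using e2
  choose rD hD using e3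
  refine ⟨fun q => ({rB q, rL q, rL (prv q), rD q 0, rD q 2} : Finset ℕ).filter
    (fun r => r ∈ cantor (h - q.1) ∧ cost q r ≤ 3 * w q), ?_, ?_, ?_, ?_, ?_⟩
  · intro q r hr
    exact (Finset.mem_filter.1 hr).2
  · intro q
    exact (Finset.card_filter_le _ _).trans Finset.card_le_five
  · intro q hq
    exact ⟨rB q, Finset.mem_filter.2 ⟨by simp, hB q hq⟩⟩
  · intro q hq hq'
    obtain ⟨h1, h2, h3⟩ := hL q hq hq'
    refine ⟨rL q, Finset.mem_filter.2 ⟨by simp, h1, h2⟩, Finset.mem_filter.2 ⟨by simp [hp q], ?_, h3⟩⟩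
    rw [hn q]
    exact h1
  · intro q hq hqh β hβ
    obtain ⟨h1, h2, h3⟩ := hD q β hq hqh hβ
    refine ⟨rD q β, Finset.mem_filter.2 ⟨?_, h1, h2⟩, h3⟩
    rcases hβ with rfl | rfl <;> simp

theorem Lift_mem_MR {Reg : ℕ × Pt → Prop} {h : ℕ} {q d : ℕ × Pt} : d ∈ MR Reg h q ↔
    d ∈ (Finset.range (h + 1) ×ˢ (Finset.range (3 ^ h) ×ˢ Finset.range (3 ^ h))) ∧
    q.1 ≤ d.1 ∧ anc (d.1 - q.1) d.2 = q.2 ∧ Pr d.1 d.2 ∧ Reg d ∧
      (d.1 = q.1 ∨ ¬ Reg (d.1 - 1, anc 1 d.2)) := by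
  unfold MR
  simp only [Finset.mem_filter]

/-- every fine cell of `q` is in a maximal regular cell -/
theorem Lift_cover {h L : ℕ} (hL : L ≤ h) (Reg : ℕ × Pt → Prop)
    (hReg : ∀ d : ℕ × Pt, L ≤ d.1 → Reg d) {q : ℕ × Pt} (hq : q.1 ≤ h) {y : Pt} (hy : Pr h y)
    (hyq : anc (h - q.1) y = q.2) :
    ∃ d ∈ MR Reg h q, d.1 ≤ h ∧ anc (h - d.1) y = d.2 := by
  have key : ∃ k ≤ h - q.1, Reg (h - k, anc k y) ∧ (k = h - q.1 ∨ ¬ Reg (h - k - 1, anc (k + 1) y)) := by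
    by_contra hcon
    push Not at hcon
    have hall : ∀ k ≤ h - q.1, Reg (h - k, anc k y) := by
      intro k
      induction k with
      | zero => intro _; exact hReg _ hL
      | succ k ih =>
        intro hk
        have := (hcon k (by omega) (ih (by omega))).2
        rwa [Nat.sub_sub] at this
    exact (hcon (h - q.1) le_rfl (hall _ le_rfl)).1 rfl
  obtain ⟨k, hk, hR, hk'⟩ := key
  refine ⟨(h - k, anc k y), ?_, by simp, ?_⟩
  · rw [Lift_mem_MR]
    refine ⟨?_, ?_, ?_, ?_, hR, ?_⟩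
    · simp only [Finset.mem_product, Finset.mem_range]
      refine ⟨by omega, ?_, ?_⟩
      · exact (Nat.div_le_self _ _).trans_lt hy.1
      · exact (Nat.div_le_self _ _).trans_lt hy.2.1
    · simp only; omega
    · simp only
      rw [anc_anc, ← hyq]
      congr 1
      omega
    · exact hy.anc'
    · rcases hk' with hk' | hk'
      · left; simp only; omega
      · right
        simp only
        rw [anc_anc, Nat.add_comm 1 k]
        exact hk'
  · simp only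
    congr 1
    omega

/-- the fine cell of `q` at the relative position `(x, y)` -/
def Lift_pt (h : ℕ) (q : ℕ × Pt) (x y : ℕ) : Pt :=
  (q.2.1 * 3 ^ (h - q.1) + x, q.2.2 * 3 ^ (h - q.1) + y)

theorem Lift_anc_pt {h : ℕ} {q : ℕ × Pt} {x y : ℕ} (hx : x < 3 ^ (h - q.1))
    (hy : y < 3 ^ (h - q.1)) : anc (h - q.1) (Lift_pt h q x y) = q.2 := by
  unfold anc Lift_pt
  have e : ∀ a b : ℕ, b < 3 ^ (h - q.1) → (a * 3 ^ (h - q.1) + b) / 3 ^ (h - q.1) = a := by
    intro a b hb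
    rw [Nat.add_comm, Nat.add_mul_div_right _ _ (by positivity), Nat.div_eq_of_lt hb, Nat.zero_add]
  exact Prod.ext (e _ _ hx) (e _ _ hy)

theorem Lift_cantor_lt {n r : ℕ} (hr : r ∈ cantor n) : r < 3 ^ n :=
  Finset.mem_range.1 (Finset.mem_filter.1 hr).1

theorem Lift_Pr_row {h : ℕ} {q : ℕ × Pt} (hq : q.1 ≤ h) (hP : Pr q.1 q.2) {r x : ℕ}
    (hr : r ∈ cantor (h - q.1)) (hx : x < 3 ^ (h - q.1)) : Pr h (Lift_pt h q x r) := by
  have := Pr_row hP hr hx
  rwa [Nat.add_sub_cancel' hq] at this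

theorem Lift_Pr_col {h : ℕ} {q : ℕ × Pt} (hq : q.1 ≤ h) (hP : Pr q.1 q.2) {r x : ℕ}
    (hr : r ∈ cantor (h - q.1)) (hx : x < 3 ^ (h - q.1)) : Pr h (Lift_pt h q r x) := by
  have := Pr_col hP hr hx
  rwa [Nat.add_sub_cancel' hq] at this

/-- the selected cells -/
noncomputable def Lift_sel (Reg : ℕ × Pt → Prop) (h : ℕ) (Rows Cols : ℕ × Pt → Finset ℕ)
    (q : ℕ × Pt) : Finset (ℕ × Pt) :=
  open Classical in
  ((Rows q).biUnion fun r => (MR Reg h q).filter
      (fun d => (q.2.2 * 3 ^ (h - q.1) + r) / 3 ^ (h - d.1) = d.2.2)) ∪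
    ((Cols q).biUnion fun r => (MR Reg h q).filter
      (fun d => (q.2.1 * 3 ^ (h - q.1) + r) / 3 ^ (h - d.1) = d.2.1))

theorem Lift_card_sel (Reg : ℕ × Pt → Prop) (h : ℕ) (Rows Cols : ℕ × Pt → Finset ℕ) (w : ℕ)
    (q : ℕ × Pt) (h1 : ∀ r ∈ Rows q, rowCost Reg h q r ≤ 3 * w)
    (h2 : ∀ r ∈ Cols q, colCost Reg h q r ≤ 3 * w) (h3 : (Rows q).card ≤ 5)
    (h4 : (Cols q).card ≤ 5) : (Lift_sel Reg h Rows Cols q).card ≤ 30 * w := by
  classical
  unfold Lift_sel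
  refine (Finset.card_union_le _ _).trans ?_
  have e1 := (Finset.card_biUnion_le_card_mul (Rows q) (fun r => (MR Reg h q).filter
      (fun d => (q.2.2 * 3 ^ (h - q.1) + r) / 3 ^ (h - d.1) = d.2.2)) (3 * w) (by
        intro r hr
        have := h1 r hr
        unfold rowCost at this
        convert this))
  have e2 := (Finset.card_biUnion_le_card_mul (Cols q) (fun r => (MR Reg h q).filter
      (fun d => (q.2.1 * 3 ^ (h - q.1) + r) / 3 ^ (h - d.1) = d.2.1)) (3 * w) (by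
        intro r hr
        have := h2 r hr
        unfold colCost at this
        convert this))
  have e3 : (Rows q).card * (3 * w) ≤ 5 * (3 * w) := Nat.mul_le_mul_right _ h3
  have e4 : (Cols q).card * (3 * w) ≤ 5 * (3 * w) := Nat.mul_le_mul_right _ h4
  have := Nat.add_le_add (e1.trans e3) (e2.trans e4)
  refine (le_trans ?_ this).trans (by omega)
  apply le_of_eq
  congr!

theorem Lift_mem_sel {Reg : ℕ × Pt → Prop} {h : ℕ} {Rows Cols : ℕ × Pt → Finset ℕ}
    {q d : ℕ × Pt} : d ∈ Lift_sel Reg h Rows Cols q ↔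
      (∃ r ∈ Rows q, d ∈ MR Reg h q ∧ (q.2.2 * 3 ^ (h - q.1) + r) / 3 ^ (h - d.1) = d.2.2) ∨
      (∃ r ∈ Cols q, d ∈ MR Reg h q ∧ (q.2.1 * 3 ^ (h - q.1) + r) / 3 ^ (h - d.1) = d.2.1) := by
  unfold Lift_sel
  simp only [Finset.mem_union, Finset.mem_biUnion, Finset.mem_filter]

/-- [UCP-U3] Choose, for every `q ∈ Qk`, finitely many Cantor rows and columns of `q` (indices in `cantor (h - q.1)`):
* a base row and a base column of cost `≤ w q`;
* for each pair of horizontally side-adjacent `q, q' ∈ Qk` of the same level a common row index, cost `≤ 3 w` in both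
  (Markov: less than a third of the rows are more expensive for `q`, same for `q'`); vertically: a column;
* for `q, q' ∈ Qk`, `q'` child of `q`, at position `(α,β)`: if `β ≠ 1` a row of `q` with leading digit `β`, cost
  `≤ 2 w q` (they are half of the rows); it runs through `q'` and meets the base column of `q'`; if `β = 1` then `α ≠ 1`
  (as `q'` is a cell) and a column of `q` with leading digit `α`, which meets the base row of `q'`.
Total cost for `q` at most `(2 + 4*3 + 9*2) w q`. `Lk` := all `d ∈ MR Reg h q` met by one of the chosen rows and columns of `q`,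
`q ∈ Qk`. Every fine cell of a chosen row/column lies in some `d ∈ MR Reg h q` (level `≥ L` cells are regular), rows and
columns consist of cells (`Pr_row`) and every row meets every column; so `Cov h Lk` is connected (`conn_cell` for each
`d`). A cell on the left side: its base row starts on the left side. -/
theorem unit_lift {h L : ℕ} (hL : L ≤ h) (Reg : ℕ × Pt → Prop) (hReg : ∀ d : ℕ × Pt, L ≤ d.1 → Reg d)
    (Qk : Finset (ℕ × Pt)) (hQ : ∀ q ∈ Qk, q.1 ≤ L ∧ Pr q.1 q.2) {p0 : ℕ × Pt}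
    (hp0 : ∀ q ∈ Qk, ReachU (· ∈ Qk) p0 q)
    (w : ℕ × Pt → ℕ) (hw : ∀ q ∈ Qk, ∑ d ∈ MR Reg h q, 2 ^ (h - d.1) ≤ 2 ^ (h - q.1) * w q) :
    ∃ Lk : Finset (ℕ × Pt), (∀ d ∈ Lk, ∃ q ∈ Qk, d ∈ MR Reg h q) ∧
      Lk.card ≤ 100 * ∑ q ∈ Qk, w q ∧ Conn (Cov h Lk) ∧
      (∀ q ∈ Qk, q.2.1 = 0 → ∃ y, Cov h Lk y ∧ y.1 = 0) ∧
      (∀ q ∈ Qk, q.2.1 + 1 = 3 ^ q.1 → ∃ y, Cov h Lk y ∧ y.1 + 1 = 3 ^ h) := by
  classical
  have hqh : ∀ q ∈ Qk, q.1 ≤ h := fun q hq => (hQ q hq).1.trans hL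
  obtain ⟨Rows, hR1, hR2, hR3, hR4, hR5⟩ := Lift_rows (h := h) Qk w (rowCost Reg h)
    (fun q hq => (sum_rowCost_le Reg (hqh q hq)).trans (hw q hq))
    (fun q => (q.1, (q.2.1 + 1, q.2.2))) (fun q => (q.1, (q.2.1 - 1, q.2.2))) (fun _ => rfl)
    (fun q => by simp)
  obtain ⟨Cols, hC1, hC2, hC3, hC4, hC5⟩ := Lift_rows (h := h) Qk w (colCost Reg h)
    (fun q hq => (sum_colCost_le Reg (hqh q hq)).trans (hw q hq))
    (fun q => (q.1, (q.2.1, q.2.2 + 1))) (fun q => (q.1, (q.2.1, q.2.2 - 1))) (fun _ => rfl)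
    (fun q => by simp)
  set Lk := Qk.biUnion (Lift_sel Reg h Rows Cols) with hLk
  have hmemLk : ∀ d, d ∈ Lk ↔ ∃ q ∈ Qk, d ∈ Lift_sel Reg h Rows Cols q := fun d => by
    rw [hLk, Finset.mem_biUnion]
  have hpos : ∀ n, 0 < 3 ^ n := fun n => by positivity
  -- points of rows and columns are covered
  have hrow : ∀ q ∈ Qk, ∀ r ∈ Rows q, ∀ x < 3 ^ (h - q.1), Cov h Lk (Lift_pt h q x r) := by
    intro q hq r hr x hx
    have hr' := (hR1 q r hr).1
    have hP := Lift_Pr_row (hqh q hq) (hQ q hq).2 hr' hx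
    obtain ⟨d, hd, hdh, hda⟩ := Lift_cover hL Reg hReg (hqh q hq) hP
      (Lift_anc_pt hx (Lift_cantor_lt hr'))
    refine ⟨hP, d, (hmemLk d).2 ⟨q, hq, Lift_mem_sel.2 (Or.inl ⟨r, hr, hd, ?_⟩)⟩, hdh, hda⟩
    exact congrArg Prod.snd hda
  have hcol : ∀ q ∈ Qk, ∀ r ∈ Cols q, ∀ x < 3 ^ (h - q.1), Cov h Lk (Lift_pt h q r x) := by
    intro q hq r hr x hx
    have hr' := (hC1 q r hr).1
    have hP := Lift_Pr_col (hqh q hq) (hQ q hq).2 hr' hx
    obtain ⟨d, hd, hdh, hda⟩ := Lift_cover hL Reg hReg (hqh q hq) hP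
      (Lift_anc_pt (Lift_cantor_lt hr') hx)
    refine ⟨hP, d, (hmemLk d).2 ⟨q, hq, Lift_mem_sel.2 (Or.inr ⟨r, hr, hd, ?_⟩)⟩, hdh, hda⟩
    exact congrArg Prod.fst hda
  -- rows and columns are connected
  have hrowR : ∀ q ∈ Qk, ∀ r ∈ Rows q, ∀ x < 3 ^ (h - q.1),
      Reach (Cov h Lk) (Lift_pt h q 0 r) (Lift_pt h q x r) := by
    intro q hq r hr x
    induction x with
    | zero => intro hx; exact Reach.refl (hrow q hq r hr 0 hx)
    | succ x ih =>
      intro hx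
      exact (ih (by omega)).tail (Or.inr ⟨rfl, Or.inr (by unfold Lift_pt; simp only; omega)⟩)
        (hrow q hq r hr _ hx)
  have hcolR : ∀ q ∈ Qk, ∀ r ∈ Cols q, ∀ x < 3 ^ (h - q.1),
      Reach (Cov h Lk) (Lift_pt h q r 0) (Lift_pt h q r x) := by
    intro q hq r hr x
    induction x with
    | zero => intro hx; exact Reach.refl (hcol q hq r hr 0 hx)
    | succ x ih =>
      intro hx
      exact (ih (by omega)).tail (Or.inl ⟨rfl, Or.inr (by unfold Lift_pt; simp only; omega)⟩)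
        (hcol q hq r hr _ hx)
  -- base points
  have hbase : ∀ q, ∃ rc : ℕ × ℕ, q ∈ Qk → rc.1 ∈ Rows q ∧ rc.2 ∈ Cols q := by
    intro q
    by_cases hq : q ∈ Qk
    · obtain ⟨r, hr⟩ := hR3 q hq
      obtain ⟨c, hc⟩ := hC3 q hq
      exact ⟨(r, c), fun _ => ⟨hr, hc⟩⟩
    · exact ⟨(0, 0), fun h => absurd h hq⟩
  choose rc hrc using hbase
  set b : ℕ × Pt → Pt := fun q => Lift_pt h q (rc q).2 (rc q).1 with hb
  have hbrow : ∀ q ∈ Qk, ∀ r ∈ Rows q, ∀ x < 3 ^ (h - q.1),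
      Reach (Cov h Lk) (b q) (Lift_pt h q x r) := by
    intro q hq r hr x hx
    obtain ⟨h1, h2⟩ := hrc q hq
    have h1' := Lift_cantor_lt (hR1 q _ h1).1
    have h2' := Lift_cantor_lt (hC1 q _ h2).1
    have h3' := Lift_cantor_lt (hR1 q _ hr).1
    exact (((hcolR q hq _ h2 _ h1').symm.trans (hcolR q hq _ h2 _ h3')).trans
      (hrowR q hq _ hr _ h2').symm).trans (hrowR q hq _ hr _ hx)
  have hbcol : ∀ q ∈ Qk, ∀ r ∈ Cols q, ∀ x < 3 ^ (h - q.1),
      Reach (Cov h Lk) (b q) (Lift_pt h q r x) := by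
    intro q hq r hr x hx
    obtain ⟨h1, h2⟩ := hrc q hq
    have h1' := Lift_cantor_lt (hR1 q _ h1).1
    have h2' := Lift_cantor_lt (hC1 q _ h2).1
    have h3' := Lift_cantor_lt (hC1 q _ hr).1
    exact (((hrowR q hq _ h1 _ h2').symm.trans (hrowR q hq _ h1 _ h3')).trans
      (hcolR q hq _ hr _ h1').symm).trans (hcolR q hq _ hr _ hx)
  -- horizontal links
  have hH : ∀ q ∈ Qk, (q.1, (q.2.1 + 1, q.2.2)) ∈ Qk →
      Reach (Cov h Lk) (b q) (b (q.1, (q.2.1 + 1, q.2.2))) := by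
    intro q hq hq'
    obtain ⟨r, hr, hr'⟩ := hR4 q hq hq'
    have h1 := hbrow q hq r hr (3 ^ (h - q.1) - 1) (by have := hpos (h - q.1); omega)
    have h2 := hbrow _ hq' r hr' 0 (hpos _)
    refine (h1.tail ?_ h2.right).trans h2.symm
    refine Or.inr ⟨rfl, Or.inr ?_⟩
    unfold Lift_pt
    simp only
    have := hpos (h - q.1)
    rw [Nat.add_mul]
    omega
  have hV : ∀ q ∈ Qk, (q.1, (q.2.1, q.2.2 + 1)) ∈ Qk →
      Reach (Cov h Lk) (b q) (b (q.1, (q.2.1, q.2.2 + 1))) := by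
    intro q hq hq'
    obtain ⟨r, hr, hr'⟩ := hC4 q hq hq'
    have h1 := hbcol q hq r hr (3 ^ (h - q.1) - 1) (by have := hpos (h - q.1); omega)
    have h2 := hbcol _ hq' r hr' 0 (hpos _)
    refine (h1.tail ?_ h2.right).trans h2.symm
    refine Or.inl ⟨rfl, Or.inr ?_⟩
    unfold Lift_pt
    simp only
    have := hpos (h - q.1)
    rw [Nat.add_mul]
    omega
  -- parent and child
  have hPC : ∀ q ∈ Qk, ∀ q' ∈ Qk, q'.1 = q.1 + 1 → q.2 = anc 1 q'.2 →
      Reach (Cov h Lk) (b q) (b q') := by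
    intro q hq q' hq' hlev hanc
    obtain ⟨n', hn'⟩ : ∃ n', h - q'.1 = n' := ⟨_, rfl⟩
    have hq'h := hqh q' hq'
    have hn : h - q.1 = n' + 1 := by omega
    have e1 : q'.2.1 = 3 * q.2.1 + q'.2.1 % 3 := by
      have : q.2.1 = q'.2.1 / 3 := by rw [hanc]; simp [anc]
      rw [this]; omega
    have e2 : q'.2.2 = 3 * q.2.2 + q'.2.2 % 3 := by
      have : q.2.2 = q'.2.2 / 3 := by rw [hanc]; simp [anc]
      rw [this]; omega
    have hmod : ∀ x y : ℕ, x < 3 → y < 3 ^ n' → x * 3 ^ n' + y < 3 ^ (h - q.1) := by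
      intro x y hx hy
      rw [hn, pow_succ]
      have : x * 3 ^ n' ≤ 2 * 3 ^ n' := Nat.mul_le_mul_right _ (by omega)
      omega
    have hPr := (hQ q' hq').2.2.2 0 (by omega)
    simp only [pow_zero, Nat.div_one] at hPr
    have hlt1 : q'.2.1 % 3 < 3 := Nat.mod_lt _ (by norm_num)
    have hlt2 : q'.2.2 % 3 < 3 := Nat.mod_lt _ (by norm_num)
    obtain ⟨hb1, hb2⟩ := hrc q' hq'
    have hb1' := Lift_cantor_lt (hR1 q' _ hb1).1
    have hb2' := Lift_cantor_lt (hC1 q' _ hb2).1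
    rw [hn'] at hb1' hb2'
    by_cases hβ : q'.2.2 % 3 = 1
    · have hα : q'.2.1 % 3 = 0 ∨ q'.2.1 % 3 = 2 := by omega
      obtain ⟨r, hr, hr'⟩ := hC5 q hq (by omega) _ hα
      rw [hn, Nat.add_sub_cancel] at hr'
      have hr0 : r % 3 ^ n' < 3 ^ n' := Nat.mod_lt _ (hpos _)
      have h1 := hbcol q hq r hr (q'.2.2 % 3 * 3 ^ n' + (rc q').1) (hmod _ _ hlt2 hb1')
      have h2 := hbrow q' hq' _ hb1 (r % 3 ^ n') (by rw [hn']; exact hr0)
      have heq : Lift_pt h q r (q'.2.2 % 3 * 3 ^ n' + (rc q').1) =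
          Lift_pt h q' (r % 3 ^ n') (rc q').1 := by
        unfold Lift_pt
        rw [hn, hn']
        refine Prod.ext ?_ ?_
        · simp only
          have e3 := Nat.div_add_mod r (3 ^ n')
          rw [hr'] at e3
          rw [e1, pow_succ]
          nlinarith [e3]
        · simp only
          rw [e2, pow_succ]
          have : (3 * q.2.2 + q'.2.2 % 3) % 3 = q'.2.2 % 3 := by omega
          rw [this]
          ring
      rw [heq] at h1
      exact h1.trans h2.symm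
    · have hβ' : q'.2.2 % 3 = 0 ∨ q'.2.2 % 3 = 2 := by omega
      obtain ⟨r, hr, hr'⟩ := hR5 q hq (by omega) _ hβ'
      rw [hn, Nat.add_sub_cancel] at hr'
      have hr0 : r % 3 ^ n' < 3 ^ n' := Nat.mod_lt _ (hpos _)
      have h1 := hbrow q hq r hr (q'.2.1 % 3 * 3 ^ n' + (rc q').2) (hmod _ _ hlt1 hb2')
      have h2 := hbcol q' hq' _ hb2 (r % 3 ^ n') (by rw [hn']; exact hr0)
      have heq : Lift_pt h q (q'.2.1 % 3 * 3 ^ n' + (rc q').2) r =
          Lift_pt h q' (rc q').2 (r % 3 ^ n') := by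
        unfold Lift_pt
        rw [hn, hn']
        refine Prod.ext ?_ ?_
        · simp only
          rw [e1, pow_succ]
          have : (3 * q.2.1 + q'.2.1 % 3) % 3 = q'.2.1 % 3 := by omega
          rw [this]
          ring
        · simp only
          have e3 := Nat.div_add_mod r (3 ^ n')
          rw [hr'] at e3
          rw [e2, pow_succ]
          nlinarith [e3]
      rw [heq] at h1
      exact h1.trans h2.symm
  -- all links
  have hlink : ∀ q ∈ Qk, ∀ q' ∈ Qk, AdjU q q' → Reach (Cov h Lk) (b q) (b q') := by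
    rintro ⟨l, x, y⟩ hq ⟨l', x', y'⟩ hq' hadj
    rcases hadj with ⟨h1, h2⟩ | ⟨h1, h2⟩ | ⟨h1, h2⟩
    · simp only at h1 h2
      subst h1
      rcases h2 with h2 | h2
      · obtain ⟨rfl, rfl⟩ := Prod.mk.inj h2
        exact hbrow _ hq _ (hrc _ hq).1 _ (Lift_cantor_lt (hC1 _ _ (hrc _ hq).2).1)
      · rcases h2 with ⟨h2, h3 | h3⟩ | ⟨h2, h3 | h3⟩
        · simp only at h2 h3
          subst h2 h3
          exact (hV _ hq' hq).symm
        · simp only at h2 h3
          subst h2 h3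
          exact hV _ hq hq'
        · simp only at h2 h3
          subst h2 h3
          exact (hH _ hq' hq).symm
        · simp only at h2 h3
          subst h2 h3
          exact hH _ hq hq'
    · exact hPC _ hq _ hq' h1 h2
    · exact (hPC _ hq' _ hq h1 h2).symm
  have hreach : ∀ q ∈ Qk, Reach (Cov h Lk) (b p0) (b q) := by
    intro q hq
    obtain ⟨h1, h2⟩ := hp0 q hq
    have : q ∈ Qk ∧ Reach (Cov h Lk) (b p0) (b q) := by
      clear hq
      induction h2 with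
      | refl => exact ⟨h1, hbrow _ h1 _ (hrc _ h1).1 _ (Lift_cantor_lt (hC1 _ _ (hrc _ h1).2).1)⟩
      | tail _ h3 ih => exact ⟨h3.2, ih.2.trans (hlink _ ih.1 _ h3.2 h3.1)⟩
    exact this.2
  -- every covered cell is joined to a base point
  have hall : ∀ y, Cov h Lk y → Reach (Cov h Lk) (b p0) y := by
    rintro y ⟨hPy, d, hd, hdh, hda⟩
    obtain ⟨q, hq, hsel⟩ := (hmemLk d).1 hd
    have hcell : ∀ y₀, Pr h y₀ → anc (h - d.1) y₀ = d.2 → Reach (Cov h Lk) y₀ y := by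
      intro y₀ hy₀ ha
      have hPd : Pr d.1 d.2 := by
        rcases Lift_mem_sel.1 hsel with ⟨_, _, h2, _⟩ | ⟨_, _, h2, _⟩
        · exact (Lift_mem_MR.1 h2).2.2.2.1
        · exact (Lift_mem_MR.1 h2).2.2.2.1
      have h3 := conn_cell hPd (h - d.1) y₀ y ⟨by rwa [Nat.add_sub_cancel' hdh], ha⟩
        ⟨by rwa [Nat.add_sub_cancel' hdh], hda⟩
      refine h3.mono ?_
      rintro z ⟨hz1, hz2⟩
      rw [Nat.add_sub_cancel' hdh] at hz1
      exact ⟨hz1, d, hd, hdh, hz2⟩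
    have hdq : ∀ a c : ℕ, q.1 ≤ d.1 → a / 3 ^ (d.1 - q.1) = c →
        ∃ x < 3 ^ (h - q.1), (c * 3 ^ (h - q.1) + x) / 3 ^ (h - d.1) = a := by
      intro a c hle hac
      have hsplit : 3 ^ (h - q.1) = 3 ^ (d.1 - q.1) * 3 ^ (h - d.1) := by
        rw [← pow_add]; congr 1; have := hqh q hq; omega
      refine ⟨(a % 3 ^ (d.1 - q.1)) * 3 ^ (h - d.1), ?_, ?_⟩
      · rw [hsplit]
        exact Nat.mul_lt_mul_of_pos_right (Nat.mod_lt _ (hpos _)) (hpos _)
      · rw [hsplit, ← Nat.mul_assoc, ← Nat.add_mul, Nat.mul_div_cancel _ (hpos _), ← hac,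
          Nat.mul_comm (a / _)]
        exact Nat.div_add_mod _ _
    rcases Lift_mem_sel.1 hsel with ⟨r, hr, h2, h3⟩ | ⟨r, hr, h2, h3⟩
    · obtain ⟨-, h4, h5, -⟩ := Lift_mem_MR.1 h2
      obtain ⟨x, hx, hx'⟩ := hdq d.2.1 q.2.1 h4 (congrArg Prod.fst h5)
      have h6 := hbrow q hq r hr x hx
      refine (hreach q hq).trans (h6.trans (hcell _ h6.right.1 ?_))
      exact Prod.ext hx' h3
    · obtain ⟨-, h4, h5, -⟩ := Lift_mem_MR.1 h2
      obtain ⟨x, hx, hx'⟩ := hdq d.2.2 q.2.2 h4 (congrArg Prod.snd h5)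
      have h6 := hbcol q hq r hr x hx
      refine (hreach q hq).trans (h6.trans (hcell _ h6.right.1 ?_))
      exact Prod.ext h3 hx'
  refine ⟨Lk, ?_, ?_, ?_, ?_, ?_⟩
  · intro d hd
    obtain ⟨q, hq, hsel⟩ := (hmemLk d).1 hd
    rcases Lift_mem_sel.1 hsel with ⟨_, _, h2, _⟩ | ⟨_, _, h2, _⟩
    · exact ⟨q, hq, h2⟩
    · exact ⟨q, hq, h2⟩
  · have h1 : Lk.card ≤ ∑ q ∈ Qk, 30 * w q := by
      refine Finset.card_biUnion_le.trans (Finset.sum_le_sum fun q hq => ?_)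
      exact Lift_card_sel Reg h Rows Cols (w q) q (fun r hr => (hR1 q r hr).2)
        (fun r hr => (hC1 q r hr).2) (hR2 q) (hC2 q)
    rw [← Finset.mul_sum] at h1
    refine h1.trans (Nat.mul_le_mul_right _ (by norm_num))
  · intro a c ha hc
    exact (hall a ha).symm.trans (hall c hc)
  · intro q hq hq0
    obtain ⟨h1, -⟩ := hrc q hq
    refine ⟨_, hrow q hq _ h1 0 (hpos _), ?_⟩
    unfold Lift_pt
    simp only
    rw [hq0]
    simp
  · intro q hq hq0
    obtain ⟨h1, -⟩ := hrc q hq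
    refine ⟨_, hrow q hq _ h1 (3 ^ (h - q.1) - 1) (by have := hpos (h - q.1); omega), ?_⟩
    unfold Lift_pt
    simp only
    have h2 : 3 ^ h = 3 ^ q.1 * 3 ^ (h - q.1) := by
      rw [← pow_add]; congr 1; have := hqh q hq; omega
    rw [h2, ← hq0, Nat.add_mul]
    have := hpos (h - q.1)
    omega

end UCP
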