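import Pool.Agent.UCP.Fat
import Pool.Agent.UCP.CellPath

/-!
[UCP-S4a] one step of the strand walk, with its cells.
-/

namespace UCP

/-- the cells of heights in `[lo, hi]` which contain `y` -/
def OneStep_col (y : Pt) (lo hi : ℕ) : Finset (ℕ × Pt) :=
  (Finset.Icc lo hi).image (fun η => (η, anc η y))

theorem OneStep_mem_col {y : Pt} {lo hi η : ℕ} (h1 : lo ≤ η) (h2 : η ≤ hi) :
    (η, anc η y) ∈ OneStep_col y lo hi :=
  Finset.mem_image.2 ⟨η, Finset.mem_Icc.2 ⟨h1, h2⟩, rfl⟩

theorem OneStep_of_mem_col {y : Pt} {lo hi : ℕ} {p : ℕ × Pt} (hp : p ∈ OneStep_col y lo hi) :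
    lo ≤ p.1 ∧ p.1 ≤ hi ∧ p = (p.1, anc p.1 y) := by
  obtain ⟨η, hη, rfl⟩ := Finset.mem_image.1 hp
  rw [Finset.mem_Icc] at hη
  exact ⟨hη.1, hη.2, rfl⟩

theorem OneStep_card_col (y : Pt) (lo hi : ℕ) : (OneStep_col y lo hi).card ≤ hi + 1 - lo := by
  refine Finset.card_image_le.trans ?_
  simp

theorem OneStep_col_up {W : ℕ × Pt → Prop} {y : Pt} {lo hi : ℕ}
    (hW : ∀ η, lo ≤ η → η ≤ hi → W (η, anc η y)) (d η : ℕ) (h1 : lo ≤ η) (h2 : η + d ≤ hi) :
    ReachC W (η, anc η y) (η + d, anc (η + d) y) := by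
  induction d with
  | zero => exact ReachC.refl (hW η h1 h2)
  | succ d ih =>
    refine (ih (by omega)).tail (Or.inr (Or.inl ⟨rfl, ?_⟩)) (hW _ (by omega) h2)
    change anc (η + (d + 1)) y = anc 1 (anc (η + d) y)
    rw [anc_anc]
    congr 1
    omega

theorem OneStep_col_reach {W : ℕ × Pt → Prop} {y : Pt} {lo hi : ℕ}
    (hW : ∀ η, lo ≤ η → η ≤ hi → W (η, anc η y)) {η₁ η₂ : ℕ} (h1 : lo ≤ η₁) (h1' : η₁ ≤ hi)
    (h2 : lo ≤ η₂) (h2' : η₂ ≤ hi) : ReachC W (η₁, anc η₁ y) (η₂, anc η₂ y) := by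
  rcases Nat.le_total η₁ η₂ with h | h
  · obtain ⟨d, rfl⟩ := Nat.exists_eq_add_of_le h
    exact OneStep_col_up hW d η₁ h1 h2'
  · obtain ⟨d, rfl⟩ := Nat.exists_eq_add_of_le h
    exact (OneStep_col_up hW d η₂ h2 h1').symm

/-- a cell around a fine cell of the strand is good -/
theorem OneStep_good {σ M s : ℕ} {a : ℝ} {f : Pt → ℝ} {c0 y : Pt} {η : ℕ} (hy : Pr M y)
    (hF : Fat M s f a η y) (hn : ¬ Fat M s f a (η + c4 σ) y)
    (hr : Reach (fun y => Pr M y ∧ a < f y) c0 y) : GoodCell σ M s f a c0 (η, anc η y) := by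
  refine ⟨y, hy, rfl, hF, hn, fun x hx => ?_⟩
  have hyb : Blk M (η + s) y y := ⟨hy, Nr.rfl⟩
  have h1 : Reach (Blk M (η + s) y) y x := conn_block hy y x hyb hx
  exact hr.trans (h1.mono (fun z hz => ⟨hz.1, hF z hz⟩))

theorem OneStep_anc_lt {M : ℕ} {y : Pt} (hy : Pr M y) (k : ℕ) :
    (anc k y).1 < 3 ^ M ∧ (anc k y).2 < 3 ^ M := by
  constructor
  · exact lt_of_le_of_lt (Nat.div_le_self _ _) hy.1
  · exact lt_of_le_of_lt (Nat.div_le_self _ _) hy.2.1

/-- the maximal fat height -/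
theorem OneStep_max {M s : ℕ} {a : ℝ} {f : Pt → ℝ} {y : Pt} {lo hi : ℕ}
    (h1 : Fat M s f a lo y) (h2 : ¬ Fat M s f a hi y) :
    ∃ h', lo ≤ h' ∧ h' < hi ∧ Fat M s f a h' y ∧ ¬ Fat M s f a (h' + 1) y := by
  have hlt : lo < hi := by
    by_contra hcon
    exact h2 (Fat.mono h1 (by omega))
  obtain ⟨d, rfl⟩ := Nat.exists_eq_add_of_lt hlt
  clear hlt
  induction d with
  | zero => exact ⟨lo, le_refl _, by omega, h1, by simpa using h2⟩
  | succ d ih =>
    by_cases h3 : Fat M s f a (lo + d + 1) y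
    · exact ⟨lo + d + 1, by omega, by omega, h3, h2⟩
    · obtain ⟨h', h4, h5, h6⟩ := ih h3
      exact ⟨h', h4, by omega, h6⟩

/-- Following a path until the first bad cell. -/
theorem OneStep_follow {T G : Pt → Prop} {W : ℕ × Pt → Prop} {k : ℕ} {c y : Pt}
    (hG : G c) (hW : ∀ x, T x → G x → Reach T c x → W (k, anc k x)) (hr : Reach T c y) :
    (∃ b z, Reach T c z ∧ Sd b z ∧ G b ∧ T b ∧ Reach T c b ∧
        ReachC W (k, anc k c) (k, anc k b) ∧ ¬ G z) ∨
      (G y ∧ ReachC W (k, anc k c) (k, anc k y)) := by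
  obtain ⟨hc, hr⟩ := hr
  induction hr with
  | refl =>
    exact Or.inr ⟨hG, ReachC.refl (hW c hc hG (Reach.refl hc))⟩
  | @tail b z h1 h2 ih =>
    have hrb : Reach T c b := ⟨hc, h1⟩
    have hrz : Reach T c z := ⟨hc, h1.tail h2⟩
    rcases ih with h | ⟨h3, h4⟩
    · exact Or.inl h
    · by_cases hGz : G z
      · right
        refine ⟨hGz, ?_⟩
        have hWz := hW z h2.2 hGz hrz
        rcases Sd.anc h2.1 k with h5 | h5
        · rw [← h5]; exact h4
        · exact h4.tail (Or.inl ⟨rfl, h5⟩) hWz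
      · exact Or.inl ⟨b, z, hrz, h2.1, h3, hrb.right, hrb, h4, hGz⟩

theorem OneStep_pow (σ : ℕ) :
    9 * 9 ^ (22 * σ + 5) + (21 * σ + 5) ≤ m0 σ := by
  unfold m0
  have h1 : 21 * σ + 5 < 9 ^ (21 * σ + 5) := Nat.lt_pow_self (by norm_num)
  have h2 : 9 ^ (21 * σ + 5) ≤ 9 ^ (22 * σ + 6) := Nat.pow_le_pow_right (by norm_num) (by omega)
  have h3 : 9 ^ (22 * σ + 7) ≤ 9 ^ (30 * σ + 20) := Nat.pow_le_pow_right (by norm_num) (by omega)
  have h4 : 9 ^ (22 * σ + 6) = 9 * 9 ^ (22 * σ + 5) := by ring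
  have h5 : 9 ^ (22 * σ + 7) = 9 * 9 ^ (22 * σ + 6) := by ring
  omega

/-- State: `c` with maximal fat height `h` (`Fat h c`, `¬ Fat (h+1) c`), inside the region
`Nr 1 (anc hI c) (anc hI zC)`. The step follows the side-path `c = c_0, c_1, …, c_L = c'` of `Fat.step`
(all `c_i` in the block of height `h+1+s+σ` around `z`, `f z ≤ a`, so `¬ Fat (h+σ+1) c_i` by `not_fat`;
`a + v/2 < f c_i`, so `Reach {a < f} c0 c_i`). Stop at the first `i` such that (exit) `c_i` is outside of the
region or (B) `¬ Fat (h-j0) c_i`, otherwise (A) at `c_L`.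
For all `i` before the stop, use the cell `(h-j0, anc (h-j0) c_i)`: good (`Fat (h-j0)`;
`h-j0+c4 ≥ h+σ+1`); consecutive ones are equal or `Sd` (`Sd.anc`). At the stopping point `c_i`, `i ≥ 1`
(in cases exit and B): `Fat (h-j0) c_{i-1}` gives `Fat (h-j0-1) c_i` (`Fat.nbr`); pass from
`(h-j0, ·c_{i-1})` to its child `(h-j0-1, ·c_{i-1})` and to `(h-j0-1, ·c_i)`. In case exit this is the end.
In case B (not exit) the new state is `c_i`, `h' = h-j0-1`; in case A it is `c_L`, `h'` = its maximal fat height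
(`h-j0 ≤ h' ≤ h+σ`, exists by `Fat.mono`). Then move through parents/children of the same fine cell to
`(h'-j0, ·c')`: the intermediate heights `η` satisfy `h'-j0 ≤ η ≤ h'` or `h-j0-1 ≤ η ≤ ...`, all are fat
(`η ≤ h'`) and `η + c4 ≥ h'+1`. If `c` itself... `c_0 = c` is inside the region and `Fat h c`, so `i = 0` never stops
(except `L = 0`, impossible as `f c' > f c`, but harmless).
For `GoodCell`: blocks are side-connected (`conn_block`), contained in `{a < f}` by fatness, and contain `c_i`.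
Count: the cells `anc (h-j0) c_i` have ancestors (height `h+1+s+σ`) in a ball of radius 1
(`card_le_of_anc`): `≤ 9 * 9^(1+s+σ+j0)`; at most `2 + j0 + σ + j0` others. -/
theorem one_step {σ M s : ℕ} {ε U a v : ℝ} {f : Pt → ℝ} (hσ : 1 ≤ σ) (hs : s = σ + 4)
    (hD : Disc σ M ε U f) {h hI : ℕ} {c0 c zC : Pt} (hc : Pr M c) (hzC : Pr M zC)
    (hz0 : f zC ≤ a) (hreach : Reach (fun y => Pr M y ∧ a < f y) c0 c)
    (hF : Fat M s f a h c) (hn : ¬ Fat M s f a (h + 1) c)
    (hreg : Nr 1 (anc hI c) (anc hI zC)) (hv : f c = a + v) (hε : 16 * ε < v)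
    (hdom : ∀ x, Pr M x → Nr 1 (anc (hI + σ + 2) x) (anc (hI + σ + 2) zC) → ¬ Bd M x)
    (hbig : 2 * j0 σ + 2 ≤ h) :
    ∃ W : Finset (ℕ × Pt), W.card ≤ m0 σ ∧
      (∀ p ∈ W, h ≤ p.1 + 2 * j0 σ + 2 ∧ GoodCell σ M s f a c0 p) ∧
      ((∃ q, ReachC (· ∈ W) (h - j0 σ, anc (h - j0 σ) c) q ∧
          ∃ c', Pr M c' ∧ anc q.1 c' = q.2 ∧ ¬ Nr 1 (anc hI c') (anc hI zC)) ∨
        ∃ h' c', Pr M c' ∧ Fat M s f a h' c' ∧ ¬ Fat M s f a (h' + 1) c' ∧
          Nr 1 (anc hI c') (anc hI zC) ∧ Reach (fun y => Pr M y ∧ a < f y) c0 c' ∧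
          ReachC (· ∈ W) (h - j0 σ, anc (h - j0 σ) c) (h' - j0 σ, anc (h' - j0 σ) c') ∧
          ((h ≤ h' + j0 σ ∧ h' ≤ h + σ ∧ a + 5 / 4 * v ≤ f c') ∨
            (h = h' + j0 σ + 1 ∧ a + v / 2 < f c'))) := by
  classical
  have hε0 := hD.eps_pos
  have hv0 : 0 < v := by linarith
  -- the height is below `hI - s`
  have hlt : h + s < hI := by
    by_contra hcon
    exact not_fat hzC hz0 hreg.symm (by omega) hF
  -- domain condition for `step`
  have hB : ∀ x, Pr M x → Nr 2 (anc (h + 1 + s + σ) x) (anc (h + 1 + s + σ) c) → ¬ Bd M x := by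
    intro x hx hnr
    apply hdom x hx
    have e1 : ∀ w : Pt, anc (hI + σ) w = anc (hI - (h + 1 + s)) (anc (h + 1 + s + σ) w) := by
      intro w; rw [anc_anc]; congr 1; omega
    have h1 : Nr 2 (anc (hI + σ) x) (anc (hI + σ) c) := by
      rw [e1 x, e1 c]; exact hnr.anc _
    have h2 : Nr 1 (anc (hI + σ) c) (anc (hI + σ) zC) := by
      have e2 : ∀ w : Pt, anc (hI + σ) w = anc σ (anc hI w) := by
        intro w; rw [anc_anc]; congr 1; omega
      rw [e2 c, e2 zC]; exact hreg.anc _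
    have h3 : Nr 3 (anc (hI + σ) x) (anc (hI + σ) zC) := (h1.trans h2).mono (by omega)
    have h4 := h3.up
    have h5 := h4.anc 1
    have e3 : ∀ w : Pt, anc (hI + σ + 2) w = anc 1 (anc 1 (anc (hI + σ) w)) := by
      intro w; rw [anc_anc, anc_anc]; congr 1; omega
    rw [e3 x, e3 zC]
    exact h5.mono (by omega)
  obtain ⟨z, hz, hfz, hnz, c₁, hr₁, hf₁⟩ := step hD hc hn hv hε hB
  set T : Pt → Prop := fun x => Blk M (h + 1 + s + σ) z x ∧ a + v / 2 < f x with hT
  -- facts on cells of the path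
  have hTn : ∀ x, T x → ¬ Fat M s f a (h + σ + 1) x := by
    intro x hx
    exact not_fat (H := h + 1 + s + σ) hz hfz hx.1.2.symm (by omega)
  have hTr : ∀ x, Reach T c x → Reach (fun y => Pr M y ∧ a < f y) c0 x := by
    intro x hx
    refine hreach.trans (hx.mono (fun w hw => ⟨hw.1.1, ?_⟩))
    have := hw.2
    linarith
  have hj : j0 σ = 20 * σ := rfl
  have hc4 : c4 σ = 21 * σ + 2 := rfl
  -- the set of cells of height `h - j0`
  set k : ℕ := h - j0 σ with hk
  set S : Finset Pt := ((Finset.range (3 ^ M)) ×ˢ (Finset.range (3 ^ M))).filter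
    (fun A => anc (22 * σ + 5) A ∈ ball 1 (anc (h + 1 + s + σ) z) ∧ GoodCell σ M s f a c0 (k, A))
    with hS
  set W0 : Finset (ℕ × Pt) := S.image (fun A => (k, A)) with hW0
  have hW0card : W0.card ≤ 9 * 9 ^ (22 * σ + 5) := by
    refine Finset.card_image_le.trans ?_
    refine (card_le_of_anc (k := 22 * σ + 5) S (ball 1 (anc (h + 1 + s + σ) z)) ?_).trans ?_
    · intro x hx
      exact ((Finset.mem_filter.1 hx).2).1
    · exact Nat.mul_le_mul_right _ ((card_ball_le 1 _).trans (by norm_num))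
  have hW0good : ∀ p ∈ W0, h ≤ p.1 + 2 * j0 σ + 2 ∧ GoodCell σ M s f a c0 p := by
    intro p hp
    obtain ⟨A, hA, rfl⟩ := Finset.mem_image.1 hp
    exact ⟨by simp only []; omega, ((Finset.mem_filter.1 hA).2).2⟩
  set G : Pt → Prop := fun x => Fat M s f a k x ∧ Nr 1 (anc hI x) (anc hI zC) with hG
  have hmem : ∀ x, T x → G x → Reach T c x → (k, anc k x) ∈ W0 := by
    intro x hx hgx hrx
    refine Finset.mem_image.2 ⟨anc k x, Finset.mem_filter.2 ⟨?_, ?_, ?_⟩, rfl⟩
    · have := OneStep_anc_lt hx.1.1 k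
      exact Finset.mem_product.2 ⟨Finset.mem_range.2 this.1, Finset.mem_range.2 this.2⟩
    · rw [mem_ball, anc_anc]
      have e : 22 * σ + 5 + k = h + 1 + s + σ := by omega
      rw [e]
      exact hx.1.2
    · refine OneStep_good hx.1.1 hgx.1 (fun hcon => hTn x hx (Fat.mono hcon (by omega)))
        (hTr x hrx)
  have hGc : G c := ⟨Fat.mono hF (by omega), hreg⟩
  rcases OneStep_follow (W := (· ∈ W0)) (k := k) hGc hmem hr₁ with
    ⟨b, y, hry, hby, hGb, hTb, hrb, hRb, hGy⟩ | ⟨hG₁, hR₁⟩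
  · -- a stop at `y`
    have hTy : T y := hry.right
    have hFy : Fat M s f a (k - 1) y := by
      have e : k - 1 + 1 = k := by omega
      have := hGb.1
      rw [← e] at this
      exact Fat.nbr this hby.nr
    have hFb : Fat M s f a (k - 1) b := Fat.mono hGb.1 (by omega)
    have hgb : GoodCell σ M s f a c0 (k - 1, anc (k - 1) b) :=
      OneStep_good hTb.1.1 hFb (fun hcon => hTn b hTb (Fat.mono hcon (by omega))) (hTr b hrb)
    by_cases hex : Nr 1 (anc hI y) (anc hI zC)
    · -- case B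
      have hFy' : ¬ Fat M s f a k y := fun hcon => hGy ⟨hcon, hex⟩
      set W : Finset (ℕ × Pt) := W0 ∪ ({(k - 1, anc (k - 1) b)} ∪ OneStep_col y (k - 1 - j0 σ) (k - 1))
        with hW
      have hcol : ∀ η, k - 1 - j0 σ ≤ η → η ≤ k - 1 → (η, anc η y) ∈ W := fun η h1 h2 =>
        Finset.mem_union_right _ (Finset.mem_union_right _ (OneStep_mem_col h1 h2))
      have hbW : (k - 1, anc (k - 1) b) ∈ W :=
        Finset.mem_union_right _ (Finset.mem_union_left _ (Finset.mem_singleton_self _))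
      refine ⟨W, ?_, ?_, Or.inr ⟨k - 1, y, hTy.1.1, hFy, ?_, hex, hTr y hry, ?_, Or.inr ⟨?_, hTy.2⟩⟩⟩
      · refine (Finset.card_union_le _ _).trans ?_
        have h1 := Finset.card_union_le ({(k - 1, anc (k - 1) b)} : Finset (ℕ × Pt))
          (OneStep_col y (k - 1 - j0 σ) (k - 1))
        have h2 := OneStep_card_col y (k - 1 - j0 σ) (k - 1)
        rw [Finset.card_singleton] at h1
        have h3 := OneStep_pow σ
        omega
      · intro p hp
        rcases Finset.mem_union.1 hp with hp | hp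
        · exact hW0good p hp
        · rcases Finset.mem_union.1 hp with hp | hp
          · rw [Finset.mem_singleton] at hp
            subst hp
            exact ⟨by simp only []; omega, hgb⟩
          · obtain ⟨h1, h2, h3⟩ := OneStep_of_mem_col hp
            refine ⟨by omega, ?_⟩
            rw [h3]
            exact OneStep_good hTy.1.1 (Fat.mono hFy h2)
              (fun hcon => hFy' (Fat.mono hcon (by omega))) (hTr y hry)
      · have e : k - 1 + 1 = k := by omega
        rw [e]; exact hFy'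
      · -- the path
        have hp1 : ReachC (· ∈ W) (k, anc k c) (k, anc k b) :=
          hRb.mono (fun x hx => Finset.mem_union_left _ hx)
        have hp2 : ReachC (· ∈ W) (k, anc k c) (k - 1, anc (k - 1) b) := by
          refine hp1.tail (Or.inr (Or.inr ⟨by simp only []; omega, ?_⟩)) hbW
          change anc k b = anc 1 (anc (k - 1) b)
          rw [anc_anc]; congr 1; omega
        have hp3 : ReachC (· ∈ W) (k, anc k c) (k - 1, anc (k - 1) y) := by
          rcases Sd.anc hby (k - 1) with h5 | h5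
          · rw [← h5]; exact hp2
          · exact hp2.tail (Or.inl ⟨rfl, h5⟩) (hcol _ (by omega) (by omega))
        exact hp3.trans (OneStep_col_reach hcol (by omega) (by omega) (by omega) (by omega))
      · omega
    · -- exit
      set W : Finset (ℕ × Pt) := W0 ∪ ({(k - 1, anc (k - 1) b)} ∪ {(k - 1, anc (k - 1) y)})
        with hW
      have hyW : (k - 1, anc (k - 1) y) ∈ W :=
        Finset.mem_union_right _ (Finset.mem_union_right _ (Finset.mem_singleton_self _))
      have hbW : (k - 1, anc (k - 1) b) ∈ W :=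
        Finset.mem_union_right _ (Finset.mem_union_left _ (Finset.mem_singleton_self _))
      refine ⟨W, ?_, ?_, Or.inl ⟨(k - 1, anc (k - 1) y), ?_, y, hTy.1.1, rfl, hex⟩⟩
      · refine (Finset.card_union_le _ _).trans ?_
        have h1 := Finset.card_union_le ({(k - 1, anc (k - 1) b)} : Finset (ℕ × Pt))
          ({(k - 1, anc (k - 1) y)} : Finset (ℕ × Pt))
        rw [Finset.card_singleton, Finset.card_singleton] at h1
        have h3 := OneStep_pow σ
        omega
      · intro p hp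
        rcases Finset.mem_union.1 hp with hp | hp
        · exact hW0good p hp
        · rcases Finset.mem_union.1 hp with hp | hp
          · rw [Finset.mem_singleton] at hp
            subst hp
            exact ⟨by simp only []; omega, hgb⟩
          · rw [Finset.mem_singleton] at hp
            subst hp
            refine ⟨by simp only []; omega, OneStep_good hTy.1.1 hFy
              (fun hcon => hTn y hTy (Fat.mono hcon (by omega))) (hTr y hry)⟩
      · have hp1 : ReachC (· ∈ W) (k, anc k c) (k, anc k b) :=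
          hRb.mono (fun x hx => Finset.mem_union_left _ hx)
        have hp2 : ReachC (· ∈ W) (k, anc k c) (k - 1, anc (k - 1) b) := by
          refine hp1.tail (Or.inr (Or.inr ⟨by simp only []; omega, ?_⟩)) hbW
          change anc k b = anc 1 (anc (k - 1) b)
          rw [anc_anc]; congr 1; omega
        rcases Sd.anc hby (k - 1) with h5 | h5
        · rw [← h5]; exact hp2
        · exact hp2.tail (Or.inl ⟨rfl, h5⟩) hyW
  · -- case A
    have hT₁ : T c₁ := hr₁.right
    obtain ⟨h', hlo, hhi, hF', hn'⟩ := OneStep_max hG₁.1 (hTn c₁ hT₁)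
    set lo : ℕ := min (h' - j0 σ) k with hlo'
    set hi : ℕ := max (h' - j0 σ) k with hhi'
    set W : Finset (ℕ × Pt) := W0 ∪ OneStep_col c₁ lo hi with hW
    have hcol : ∀ η, lo ≤ η → η ≤ hi → (η, anc η c₁) ∈ W := fun η h1 h2 =>
      Finset.mem_union_right _ (OneStep_mem_col h1 h2)
    refine ⟨W, ?_, ?_, Or.inr ⟨h', c₁, hT₁.1.1, hF', hn', hG₁.2, hTr c₁ hr₁, ?_,
      Or.inl ⟨by omega, by omega, hf₁⟩⟩⟩
    · refine (Finset.card_union_le _ _).trans ?_
      have h2 := OneStep_card_col c₁ lo hi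
      have h3 := OneStep_pow σ
      omega
    · intro p hp
      rcases Finset.mem_union.1 hp with hp | hp
      · exact hW0good p hp
      · obtain ⟨h1, h2, h3⟩ := OneStep_of_mem_col hp
        refine ⟨by omega, ?_⟩
        rw [h3]
        exact OneStep_good hT₁.1.1 (Fat.mono hF' (by omega))
          (fun hcon => hn' (Fat.mono hcon (by omega))) (hTr c₁ hr₁)
    · have hp1 : ReachC (· ∈ W) (k, anc k c) (k, anc k c₁) :=
        hR₁.mono (fun x hx => Finset.mem_union_left _ hx)
      exact hp1.trans (OneStep_col_reach hcol (by omega) (by omega) (by omega) (by omega))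

end UCP
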