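import Pool.Agent.UCP.Glue

/-!
[UCP-A3] `ρ > 1`.
-/

open MeasureTheory Set Topology Filter CAR

namespace UCP

variable {μ : Measure carpet} [IsFiniteMeasure μ] [μ.IsOpenPosMeasure] (D : CarpetForm μ)

/-- the index of the cell -/
def Rho_w : Pt := (2, 2)

theorem Rho_Prw : Pr 2 Rho_w := by
  refine ⟨by decide, by decide, ?_⟩
  intro k hk
  have : k = 0 ∨ k = 1 := by omega
  rcases this with rfl | rfl <;> decide

theorem Rho_disj (x : carpet) (hx : x ∈ cell 2 Rho_w) : x ∉ V0 := by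
  have h : x.1 ∈ CAR.sq 2 2 2 := hx
  obtain ⟨⟨h1, h2⟩, h3, h4⟩ := CAR.mem_sq.1 h
  rintro (h0 | h0 | h0 | h0)
  · rw [h0] at h1; norm_num at h1
  · rw [h0] at h2; norm_num at h2
  · rw [h0] at h3; norm_num at h3
  · rw [h0] at h4; norm_num at h4

theorem Rho_int {x y : ℝ} {a b : ℕ} (hx0 : 0 ≤ x) (hx1 : x ≤ 1) (hy0 : 0 ≤ y) (hy1 : y ≤ 1)
    (h : x + a = y + b) (hab : a ≠ b) : x = 0 ∨ x = 1 := by
  rcases lt_or_gt_of_ne hab with h1 | h1
  · right
    have h2 : (a : ℝ) + 1 ≤ b := by exact_mod_cast h1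
    linarith
  · left
    have h2 : (b : ℝ) + 1 ≤ a := by exact_mod_cast h1
    linarith

/-- a common point of two different cells of level `2` is a boundary point -/
theorem Rho_common {a b : Pt} (ha : Pr 2 a) (hb : Pr 2 b) (hab : a ≠ b) (x y : carpet)
    (h : emb 2 a ha x = emb 2 b hb y) : x ∈ V0 := by
  have h1 := congrArg Subtype.val h
  have h2 : ((x.1.1 + a.1) / 3 ^ 2 : ℝ) = (y.1.1 + b.1) / 3 ^ 2 := congrArg Prod.fst h1
  have h3 : ((x.1.2 + a.2) / 3 ^ 2 : ℝ) = (y.1.2 + b.2) / 3 ^ 2 := congrArg Prod.snd h1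
  have h4 : (x.1.1 + a.1 : ℝ) = y.1.1 + b.1 := by
    have := h2
    field_simp at this
    exact this
  have h5 : (x.1.2 + a.2 : ℝ) = y.1.2 + b.2 := by
    have := h3
    field_simp at this
    exact this
  by_cases h6 : a.1 = b.1
  · have h7 : a.2 ≠ b.2 := fun h => hab (Prod.ext h6 h)
    rcases Rho_int x.2.1.2.1 x.2.1.2.2 y.2.1.2.1 y.2.1.2.2 h5 h7 with h8 | h8
    · right; right; left; exact h8
    · right; right; right; exact h8
  · rcases Rho_int x.2.1.1.1 x.2.1.1.2 y.2.1.1.1 y.2.1.1.2 h4 h6 with h8 | h8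
    · left; exact h8
    · right; left; exact h8

theorem Rho_inj {a : Pt} (ha : Pr 2 a) (x y : carpet)
    (h : emb 2 a ha x = emb 2 a ha y) : x = y := by
  have h1 := congrArg Subtype.val h
  have h2 : ((x.1.1 + a.1) / 3 ^ 2 : ℝ) = (y.1.1 + a.1) / 3 ^ 2 := congrArg Prod.fst h1
  have h3 : ((x.1.2 + a.2) / 3 ^ 2 : ℝ) = (y.1.2 + a.2) / 3 ^ 2 := congrArg Prod.snd h1
  apply Subtype.ext
  apply Prod.ext
  · have := h2
    field_simp at this
    linarith
  · have := h3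
    field_simp at this
    linarith

omit [IsFiniteMeasure μ] [μ.IsOpenPosMeasure] in
theorem Rho_step (g : C(carpet, ℝ)) (hg : g ∈ D.dom) (hg1 : ∀ x ∈ cell 2 Rho_w, g x = 1)
    (hg0 : ∀ x ∈ V0, g x = 0) (F : C(carpet, ℝ)) (hF : F ∈ D.dom) (hF0 : ∀ x ∈ V0, F x = 0) :
    ∃ G ∈ D.dom, (∀ x ∈ V0, G x = 0) ∧ D.E G G = D.E g g + D.ρ ^ 2 * D.E F F ∧
      ∀ x, G (emb 2 Rho_w Rho_Prw x) = 1 + F x := by
  classical
  have hgd : ∀ c, Pr 2 c → pull 2 c g ∈ D.dom := (dom_iff_pull D 2 g).1 hg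
  have h1F : (1 + F : C(carpet, ℝ)) ∈ D.dom := D.dom.add_mem D.one_mem hF
  obtain ⟨G, hG, hGp⟩ := glue D 2 (fun c => if c = Rho_w then 1 + F else pull 2 c g)
    (by
      intro c hc
      show (if c = Rho_w then 1 + F else pull 2 c g) ∈ D.dom
      split_ifs with h
      · exact h1F
      · exact hgd c hc)
    (by
      intro a b ha hb x y hxy
      show (if a = Rho_w then 1 + F else pull 2 a g) x = (if b = Rho_w then 1 + F else pull 2 b g) y
      by_cases h1 : a = Rho_w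
      · by_cases h2 : b = Rho_w
        · subst h1; subst h2
          rw [if_pos rfl, Rho_inj _ x y hxy]
        · rw [if_pos h1, if_neg h2, pull_apply hb, ← hxy]
          subst h1
          rw [hg1 _ (emb_mem _ x), ContinuousMap.add_apply,
            hF0 x (Rho_common ha hb (Ne.symm h2) x y hxy)]
          simp
      · by_cases h2 : b = Rho_w
        · rw [if_neg h1, if_pos h2, pull_apply ha, hxy]
          subst h2
          rw [hg1 _ (emb_mem _ y), ContinuousMap.add_apply,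
            hF0 y (Rho_common hb ha (Ne.symm h1) y x hxy.symm)]
          simp
        · rw [if_neg h1, if_neg h2, pull_apply ha, pull_apply hb, hxy])
  refine ⟨G, hG, ?_, ?_, ?_⟩
  · intro x hx
    obtain ⟨c, hc, hxc⟩ := exists_cell' x 2
    obtain ⟨y, rfl⟩ := exists_emb hc hxc
    have hcw : c ≠ Rho_w := by
      rintro rfl
      exact Rho_disj _ hxc hx
    have := hGp c hc
    simp only [if_neg hcw] at this
    rw [← pull_apply hc, this, pull_apply hc]
    exact hg0 _ hx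
  · rw [self_sim_pull D 2 hG hG, self_sim_pull D 2 hg hg]
    have hw : Rho_w ∈ cells 2 := mem_cells.2 Rho_Prw
    rw [← Finset.add_sum_erase _ _ hw, ← Finset.add_sum_erase _ _ hw]
    have e1 : pull 2 Rho_w G = 1 + F := by
      rw [hGp _ Rho_Prw, if_pos rfl]
    have e2 : pull 2 Rho_w g = 1 := by
      ext x
      rw [pull_apply Rho_Prw, hg1 _ (emb_mem _ x)]
      rfl
    have e3 : ∑ c ∈ (cells 2).erase Rho_w, D.E (pull 2 c G) (pull 2 c G) =
        ∑ c ∈ (cells 2).erase Rho_w, D.E (pull 2 c g) (pull 2 c g) := by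
      refine Finset.sum_congr rfl fun c hc => ?_
      rw [Finset.mem_erase, mem_cells] at hc
      rw [hGp c hc.2, if_neg hc.1]
    have e4 : D.E (1 + F) (1 + F) = D.E F F := by
      rw [D.energy_add D.one_mem hF, D.one_left hF, D.one_left D.one_mem]
      ring
    have e5 : D.E 1 1 = 0 := D.one_left D.one_mem
    rw [e1, e2, e3, e4, e5]
    ring
  · intro x
    rw [← pull_apply Rho_Prw, hGp _ Rho_Prw, if_pos rfl]
    rfl

/-- [UCP-A3] Let `w = (2, (2,2))` (a cell disjoint from `V0`), `g ∈ dom` with `g = 0` on `V0`, `g = 1` on the cell `w`, `0 ≤ g ≤ 1`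
(`DForm.cutoff`). For `F ∈ dom`, `F = 0` on `V0`, there is `TF ∈ dom` with `pull 2 w (TF) = 1 + F`, `pull 2 c (TF) = pull 2 c g` for
`c ≠ w` (`glue`; or `TF = g + ` transplanted `F`); it vanishes on `V0` and
`E(TF,TF) = E(g,g) + ρ^2 E(F,F)` (since `E(pull 2 w g, pull 2 w g) = E(1,1) = 0`, `E(1+F,1+F) = E(F,F)`).
So there are `S N ∈ dom`, `S N = 0` on `V0`, with a point where `S N = N` and, if `ρ ≤ 1`, `E(S N, S N) ≤ N E(g,g)`.
`morrey`: `N^2 ≤ C N E(g,g)` for all `N`, contradiction. -/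
theorem one_lt_rho : 1 < D.ρ := by
  by_contra hρ
  push Not at hρ
  obtain ⟨g, hg, -, -, hg1, hgs⟩ := D.cutoff (isClosed_cell 2 Rho_w) isClosed_V0.isOpen_compl
    (fun x hx => Rho_disj x hx)
  have hg0 : ∀ x ∈ V0, g x = 0 := by
    intro x hx
    exact image_eq_zero_of_notMem_tsupport fun h => hgs h hx
  obtain ⟨C, hC0, hC⟩ := D.morrey
  have hEg := D.nonneg g hg
  obtain ⟨v, hv⟩ := V0_nonempty
  have key : ∀ N : ℕ, ∃ F ∈ D.dom, (∀ x ∈ V0, F x = 0) ∧ (∃ x, F x = N) ∧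
      D.E F F ≤ N * D.E g g := by
    intro N
    induction N with
    | zero =>
      refine ⟨0, D.dom.zero_mem, fun x _ => rfl, ⟨v, by simp⟩, ?_⟩
      rw [D.zero_left D.dom.zero_mem]
      simp
    | succ N ih =>
      obtain ⟨F, hF, hF0, ⟨x, hx⟩, hE⟩ := ih
      obtain ⟨G, hG, hG0, hGE, hGx⟩ := Rho_step D g hg hg1 hg0 F hF hF0
      refine ⟨G, hG, hG0, ⟨emb 2 Rho_w Rho_Prw x, ?_⟩, ?_⟩
      · rw [hGx, hx]; push_cast; ring
      · rw [hGE]
        have h1 : D.ρ ^ 2 ≤ 1 := pow_le_one₀ D.ρ_pos.le hρ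
        have h2 := D.nonneg F hF
        have h3 : D.ρ ^ 2 * D.E F F ≤ 1 * D.E F F := mul_le_mul_of_nonneg_right h1 h2
        push_cast
        linarith
  obtain ⟨N, hN⟩ := exists_nat_gt (C * D.E g g)
  obtain ⟨F, hF, hF0, ⟨x, hx⟩, hE⟩ := key N
  have h1 := hC F hF x v
  rw [hx, hF0 v hv, sub_zero] at h1
  have h2 : C * D.E F F ≤ C * (N * D.E g g) := mul_le_mul_of_nonneg_left hE hC0.le
  have hN0 : (0 : ℝ) < N := lt_of_le_of_lt (mul_nonneg hC0.le hEg) hN
  have h3 : (N : ℝ) * N ≤ (C * D.E g g) * N := by nlinarith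
  have h4 := le_of_mul_le_mul_right h3 hN0
  linarith

end UCP
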