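import Pool.Agent.UCP.SelfSim

/-!
[UCP-A2] scaled resistance estimate.
-/

open MeasureTheory Set Topology Filter CAR

namespace UCP

variable {μ : Measure carpet} [IsFiniteMeasure μ] [μ.IsOpenPosMeasure] (D : CarpetForm μ)

/-- [UCP-A2] `DForm.morrey` for `pull n c f`, and `energy_pull_le`. -/
theorem scaled_morrey : ∃ C0 : ℝ, 0 < C0 ∧ ∀ (n : ℕ) (c : Pt), Pr n c → ∀ f ∈ D.dom,
    ∀ x ∈ cell n c, ∀ y ∈ cell n c, (f x - f y) ^ 2 ≤ C0 / D.ρ ^ n * D.E f f := by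
  obtain ⟨C, hC, hM⟩ := DForm.morrey D.toDForm
  refine ⟨C, hC, fun n c hc f hf x hx y hy => ?_⟩
  obtain ⟨x', rfl⟩ := exists_emb hc hx
  obtain ⟨y', rfl⟩ := exists_emb hc hy
  have hp : pull n c f ∈ D.dom := (dom_iff_pull D n f).1 hf c hc
  have h1 := hM (pull n c f) hp x' y'
  rw [pull_apply hc, pull_apply hc] at h1
  have h2 := energy_pull_le D hc hf
  have hρ : 0 < D.ρ ^ n := pow_pos D.ρ_pos n
  have h3 : D.E (pull n c f) (pull n c f) ≤ D.E f f / D.ρ ^ n := by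
    rw [le_div_iff₀ hρ]
    linarith
  calc (f (emb n c hc x') - f (emb n c hc y')) ^ 2
      ≤ C * D.E (pull n c f) (pull n c f) := h1
    _ ≤ C * (D.E f f / D.ρ ^ n) := mul_le_mul_of_nonneg_left h3 hC.le
    _ = C / D.ρ ^ n * D.E f f := by ring

end UCP
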