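import Pool.Agent.UCP.Cutoff
import Pool.Agent.UCP.Scale
import Pool.Agent.UCP.Rho

/-!
[UCP-A5] Green potentials.
-/

open MeasureTheory Set Topology Filter CAR

namespace UCP

variable {μ : Measure carpet} [IsFiniteMeasure μ] [μ.IsOpenPosMeasure] (D : CarpetForm μ)

/-- a function harmonic off a set where its values are at most one is at most one -/
theorem Potential_le_one {S : Set carpet} {e : C(carpet, ℝ)} (he : e ∈ D.dom) (hS : S.Nonempty)
    (h1 : ∀ x ∈ S, e x ≤ 1)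
    (h2 : ∀ w ∈ D.dom, (∀ x ∈ S, w x = 0) → D.E e w = 0) (x : carpet) : e x ≤ 1 := by
  have hone : (1 : C(carpet, ℝ)) ∈ D.dom := D.toDForm.one_mem
  set u : C(carpet, ℝ) := e - 1 with hu
  have hud : u ∈ D.dom := D.dom.sub_mem he hone
  have hwd : u ⊔ 0 ∈ D.dom := D.toDForm.pos_mem hud
  have hnd : (-u) ⊔ 0 ∈ D.dom := D.toDForm.pos_mem (D.dom.neg_mem hud)
  have hw0 : ∀ x ∈ S, (u ⊔ 0) x = 0 := by
    intro x hx
    have : u x ≤ 0 := by
      simp only [hu, ContinuousMap.sub_apply, ContinuousMap.one_apply]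
      linarith [h1 x hx]
    simp only [ContinuousMap.sup_apply, ContinuousMap.zero_apply]
    exact max_eq_right this
  have h3 : D.E e (u ⊔ 0) = 0 := h2 _ hwd hw0
  have h4 : D.E u (u ⊔ 0) = 0 := by
    rw [show D.E u (u ⊔ 0) = D.E (e - 1) (u ⊔ 0) from rfl, D.toDForm.sub_left he hone hwd,
      D.toDForm.one_left hwd, h3, sub_zero]
  have h5 : D.E ((-u) ⊔ 0) (u ⊔ 0) = 0 := by
    rw [D.symm _ hnd _ hwd]
    exact D.toDForm.E_pos_neg hud
  have h6 : D.E (u ⊔ 0) (u ⊔ 0) = 0 := by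
    have h7 := D.toDForm.sub_left hwd hnd hwd
    rw [DForm.pos_sub_neg, h4, h5, sub_zero] at h7
    exact h7.symm
  obtain ⟨c, hc⟩ := D.irreducible _ hwd h6
  obtain ⟨s, hs⟩ := hS
  have h8 : c = 0 := by rw [← hc s, hw0 s hs]
  have h9 := hc x
  rw [h8] at h9
  simp only [ContinuousMap.sup_apply, ContinuousMap.zero_apply] at h9
  have h10 : u x ≤ 0 := by
    have := le_max_left (u x) 0
    linarith
  simp only [hu, ContinuousMap.sub_apply, ContinuousMap.one_apply] at h10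
  linarith

/-- [UCP-A5] `σ` with `C0 C1 / ρ^σ ≤ 1/576` (`one_lt_rho`). `e` := solution of `DForm.dirichlet` for
`f = χ` (cutoff for the cell `(m - σ, anc σ A)`), the set `{ζ} ∪ ⋃ {cells of level m - σ not touching anc σ A}`,
no killing (`ι = Empty`). `E(χ,χ) = E(e,e) + E(χ-e,χ-e)` so `E(e,e) ≤ C1 ρ^(m-σ)`. `e ≤ 1`: `w = (e-1)⁺` satisfies `E(e,w) = 0`,
`E(w,w) = E(e - 1, w)` (`E_eq_zero_of_mul`), so `w` is constant, `w ζ = 0`. `scaled_morrey` on the cells `A'` and `A`, which have a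
common point: `|e y - e ζ| ≤ 2 √(C0 ρ^(-m) C1 ρ^(m-σ)) ≤ 1/12`. -/
theorem exists_potential : ∃ σ : ℕ, 1 ≤ σ ∧ ∀ (m : ℕ) (A : Pt), Pr m A → σ ≤ m → ∀ ζ ∈ cell m A,
    ∃ e ∈ D.dom, (∀ x, e x ≤ 1) ∧
      (∀ c', Pr (m - σ) c' → ¬ Nr 1 c' (anc σ A) → ∀ x ∈ cell (m - σ) c', e x = 0) ∧
      (∀ w ∈ D.dom, w ζ = 0 → (∀ c', Pr (m - σ) c' → ¬ Nr 1 c' (anc σ A) →
        ∀ x ∈ cell (m - σ) c', w x = 0) → D.E e w = 0) ∧
      ∀ A', Pr m A' → Nr 1 A' A → ∀ y ∈ cell m A', 11 / 12 ≤ e y := by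
  obtain ⟨C1, hC1, hcut⟩ := exists_cutoff D
  obtain ⟨C0, hC0, hmor⟩ := scaled_morrey D
  have hρ := one_lt_rho D
  have hρ0 : 0 < D.ρ := D.ρ_pos
  obtain ⟨σ₀, hσ₀⟩ := pow_unbounded_of_one_lt (576 * (C0 * C1)) hρ
  set σ : ℕ := σ₀ + 1 with hσ
  have hσ1 : 576 * (C0 * C1) ≤ D.ρ ^ σ := by
    refine hσ₀.le.trans ?_
    exact pow_le_pow_right₀ hρ.le (by omega)
  refine ⟨σ, by omega, fun m A hA hm ζ hζ => ?_⟩
  have hA' : Pr (m - σ) (anc σ A) := Pr.anc' hA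
  obtain ⟨χ, hχ, hχ0, hχ1, hχA, hχz, hχE⟩ := hcut (m - σ) (anc σ A) hA'
  have hζ' : ζ ∈ cell (m - σ) (anc σ A) := by
    have := cell_subset_anc (m - σ) σ A
    rw [Nat.sub_add_cancel hm] at this
    exact this hζ
  set Z : Set carpet := {x | ∃ c', Pr (m - σ) c' ∧ ¬ Nr 1 c' (anc σ A) ∧ x ∈ cell (m - σ) c'}
    with hZ
  set S : Set carpet := insert ζ Z with hS
  have hSne : S.Nonempty := ⟨ζ, mem_insert _ _⟩
  obtain ⟨e, he, heS, heo⟩ := D.toDForm.dirichlet hSne (ι := Empty) (fun i => i.elim)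
    (fun i => i.elim) (fun i => i.elim) hχ
  have heo' : ∀ g ∈ D.dom, (∀ y ∈ S, g y = 0) → D.E e g = 0 := by
    intro g hg hgS
    have := heo g hg hgS
    simpa using this
  have heζ : e ζ = 1 := by rw [heS ζ (mem_insert _ _), hχA ζ hζ']
  have heZ : ∀ x ∈ Z, e x = 0 := by
    intro x hx
    rw [heS x (mem_insert_of_mem _ hx)]
    obtain ⟨c', h1, h2, h3⟩ := hx
    exact hχz c' h1 h2 x h3
  -- the energy of `e`
  have hEe : D.E e e ≤ C1 * D.ρ ^ (m - σ) := by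
    refine le_trans ?_ hχE
    have hd : χ - e ∈ D.dom := D.dom.sub_mem hχ he
    have h1 : D.E e (χ - e) = 0 := heo' _ hd (fun y hy => by
      simp only [ContinuousMap.sub_apply, heS y hy, sub_self])
    have h2 := D.toDForm.energy_add he hd
    have h3 : e + (χ - e) = χ := by abel
    rw [h3, h1] at h2
    have h4 := D.nonneg _ hd
    linarith
  refine ⟨e, he, Potential_le_one D he hSne ?_ heo', ?_, ?_, ?_⟩
  · intro x hx
    rcases hx with rfl | hx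
    · rw [heζ]
    · rw [heZ x hx]; norm_num
  · intro c' h1 h2 x h3
    exact heZ x ⟨c', h1, h2, h3⟩
  · intro w hw hwζ hwZ
    refine heo' w hw ?_
    intro y hy
    rcases hy with rfl | ⟨c', h1, h2, h3⟩
    · exact hwζ
    · exact hwZ c' h1 h2 y h3
  · intro A' hA1 hnr y hy
    obtain ⟨p, hp1, hp2⟩ := exists_common hA1 hA hnr
    have h1 := hmor m A' hA1 e he y hy p hp1
    have h2 := hmor m A hA e he p hp2 ζ hζ
    have hpos : 0 < D.ρ ^ m := pow_pos hρ0 m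
    have hposσ : 0 < D.ρ ^ σ := pow_pos hρ0 σ
    have hsplit : D.ρ ^ m = D.ρ ^ (m - σ) * D.ρ ^ σ := by
      rw [← pow_add, Nat.sub_add_cancel hm]
    have hb : C0 / D.ρ ^ m * D.E e e ≤ 1 / 576 := by
      have h3 : C0 / D.ρ ^ m * D.E e e ≤ C0 / D.ρ ^ m * (C1 * D.ρ ^ (m - σ)) :=
        mul_le_mul_of_nonneg_left hEe (by positivity)
      refine h3.trans ?_
      rw [div_mul_eq_mul_div, div_le_div_iff₀ hpos (by norm_num), hsplit]
      have hpos2 : 0 < D.ρ ^ (m - σ) := pow_pos hρ0 _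
      nlinarith
    have h4 : |e y - e p| ≤ 1 / 24 := by
      apply abs_le_of_sq_le_sq _ (by norm_num)
      nlinarith
    have h5 : |e p - e ζ| ≤ 1 / 24 := by
      apply abs_le_of_sq_le_sq _ (by norm_num)
      nlinarith
    rw [abs_le] at h4 h5
    rw [heζ] at h5
    linarith [h4.1, h5.1]

end UCP
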