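import Pool.Agent.UCP.Cantor
import Pool.Agent.UCP.Lift
import Pool.Agent.UCP.Cross

/-!
Routes, ring and channels next to the zero cell.
Fine level `M = n + t + h2`: cells of level `n` have height `t + h2`, units (level `n + t`) have height `h2`.
-/

namespace UCP

/-- distance (in units) of the unit coordinate `x` to the sides of its cell of level `n` -/
def mf (t x : ℕ) : ℕ := min (x % 3 ^ t) (3 ^ t - 1 - x % 3 ^ t)

/-- route `c`: the units of the `#`-grid of index `c` in the `3 × 3` block of cells of level `n` around `Qc` -/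
def Rt (n t : ℕ) (Qc : Pt) (c : ℕ) (X : Pt) : Prop :=
  Pr (n + t) X ∧ Nr 1 (anc t X) Qc ∧ (mf t X.1 = c ∨ mf t X.2 = c)

/-- the ring in the cell `Cc` -/
def Rg (n t : ℕ) (Cc X : Pt) : Prop :=
  Pr (n + t) X ∧ anc t X = Cc ∧ 2 ≤ mf t X.1 ∧ 2 ≤ mf t X.2 ∧ (mf t X.1 = 2 ∨ mf t X.2 = 2)

/-- admissible route indices -/
def cidx (t : ℕ) : Finset ℕ := (cantor t).filter (fun c => 2 < c ∧ 2 * c + 1 < 3 ^ t)

/-- the channel of the net `Nk` along route `c` -/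
def Chn (n t h2 : ℕ) (Qc : Pt) (Nk : Finset (ℕ × Pt)) (c : ℕ) (x : Pt) : Prop :=
  Pr (n + t + h2) x ∧ Rt n t Qc c (anc h2 x) ∧ Cov h2 Nk (foldP h2 x)

/-- a net: symmetric, connected, touching the left side -/
structure IsNet (h2 : ℕ) (Nk : Finset (ℕ × Pt)) : Prop where
  pr : ∀ d ∈ Nk, d.1 ≤ h2 ∧ Pr d.1 d.2
  sym : ∀ g, ∀ d ∈ Nk, (d.1, act g d.1 d.2) ∈ Nk
  conn : Conn (Cov h2 Nk)
  left : ∃ y, Cov h2 Nk y ∧ y.1 = 0

end UCP
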