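import Pool.Agent.UCP.Route

/-!
[UCP-T1] routes and the ring.
-/

namespace UCP

/-- (indices with leading digit `0`, except `0` and `2`) -/
theorem card_cidx (t : ℕ) (ht : 2 ≤ t) : 2 ^ (t - 1) ≤ (cidx t).card + 2 := by
  obtain ⟨s, rfl⟩ : ∃ s, t = s + 1 := ⟨t - 1, by omega⟩
  have hs : 1 ≤ s := by omega
  have h1 : cantor s ⊆ cidx (s + 1) ∪ {0, 2} := by
    intro c hc
    have hlt : c < 3 ^ s := by
      have := Finset.mem_filter.1 hc
      exact Finset.mem_range.1 this.1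
    have hc1 : c ≠ 1 := by
      rintro rfl
      have := (Finset.mem_filter.1 hc).2 0 hs
      simp at this
    by_cases h2 : 2 < c
    · apply Finset.mem_union_left
      refine Finset.mem_filter.2 ⟨?_, h2, ?_⟩
      · have := cantor_succ (b := 0) hc (Or.inl rfl)
        simpa using this
      · rw [pow_succ]
        omega
    · apply Finset.mem_union_right
      have : c = 0 ∨ c = 2 := by omega
      simpa using this
  have h2 := Finset.card_le_card h1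
  rw [card_cantor] at h2
  have h3 : (cidx (s + 1) ∪ {0, 2}).card ≤ (cidx (s + 1)).card + 2 :=
    (Finset.card_union_le _ _).trans (Nat.add_le_add_left Finset.card_le_two _)
  simpa using h2.trans h3

theorem Route1_row {S : Pt → Prop} {a y m : ℕ} (h : ∀ x < m, S (a + x, y)) :
    ∀ x < m, Reach S (a, y) (a + x, y) := by
  intro x
  induction x with
  | zero => intro h0; exact Reach.refl (by simpa using h 0 h0)
  | succ x ih =>
    intro hx
    refine (ih (by omega)).tail ?_ (h _ hx)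
    exact Or.inr ⟨rfl, Or.inr (by show a + (x + 1) = a + x + 1; omega)⟩

theorem Route1_col {S : Pt → Prop} {a y m : ℕ} (h : ∀ x < m, S (a, y + x)) :
    ∀ x < m, Reach S (a, y) (a, y + x) := by
  intro x
  induction x with
  | zero => intro h0; exact Reach.refl (by simpa using h 0 h0)
  | succ x ih =>
    intro hx
    refine (ih (by omega)).tail ?_ (h _ hx)
    exact Or.inl ⟨rfl, Or.inr (by show y + (x + 1) = y + x + 1; omega)⟩

/-- between two points of a row segment contained in `S` -/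
theorem Route1_row' {S : Pt → Prop} {y lo hi : ℕ} (h : ∀ x, lo ≤ x → x ≤ hi → S (x, y)) {x x' : ℕ}
    (hx : lo ≤ x) (hx' : x ≤ hi) (hy : lo ≤ x') (hy' : x' ≤ hi) : Reach S (x, y) (x', y) := by
  have h1 : ∀ z < hi + 1 - lo, S (lo + z, y) := fun z hz => h _ (by omega) (by omega)
  have h2 := Route1_row h1 (x - lo) (by omega)
  have h3 := Route1_row h1 (x' - lo) (by omega)
  rw [Nat.add_sub_cancel' hx] at h2
  rw [Nat.add_sub_cancel' hy] at h3
  exact h2.symm.trans h3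

theorem Route1_col' {S : Pt → Prop} {y lo hi : ℕ} (h : ∀ x, lo ≤ x → x ≤ hi → S (y, x)) {x x' : ℕ}
    (hx : lo ≤ x) (hx' : x ≤ hi) (hy : lo ≤ x') (hy' : x' ≤ hi) : Reach S (y, x) (y, x') := by
  have h1 : ∀ z < hi + 1 - lo, S (y, lo + z) := fun z hz => h _ (by omega) (by omega)
  have h2 := Route1_col h1 (x - lo) (by omega)
  have h3 := Route1_col h1 (x' - lo) (by omega)
  rw [Nat.add_sub_cancel' hx] at h2
  rw [Nat.add_sub_cancel' hy] at h3
  exact h2.symm.trans h3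

theorem Route1_div (A k r : ℕ) (hr : r < 3 ^ k) : (A * 3 ^ k + r) / 3 ^ k = A := by
  have h : 0 < 3 ^ k := by positivity
  rw [Nat.add_comm, Nat.add_mul_div_right _ _ h, Nat.div_eq_of_lt hr, zero_add]

theorem Route1_mod (A k r : ℕ) (hr : r < 3 ^ k) : (A * 3 ^ k + r) % 3 ^ k = r := by
  rw [Nat.add_comm, Nat.add_mul_mod_self_right, Nat.mod_eq_of_lt hr]

theorem Route1_mf (A t r : ℕ) (hr : r < 3 ^ t) : mf t (A * 3 ^ t + r) = min r (3 ^ t - 1 - r) := by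
  unfold mf
  rw [Route1_mod A t r hr]

/-- facts on admissible route indices -/
theorem Route1_cidx {t c : ℕ} (hc : c ∈ cidx t) : c ∈ cantor t ∧ 2 < c ∧ 2 * c + 1 < 3 ^ t := by
  have := Finset.mem_filter.1 hc
  exact ⟨this.1, this.2.1, this.2.2⟩

/-- the four lines of the `#`-grid of a cell lie in `Rt` -/
theorem Route1_mem {n t : ℕ} {Qc A : Pt} {c : ℕ} (hc : c ∈ cidx t) (hA : Pr n A) (hN : Nr 1 A Qc)
    {r s : ℕ} (hr : r < 3 ^ t) (hs : s < 3 ^ t)
    (h : r = c ∨ r = 3 ^ t - 1 - c ∨ s = c ∨ s = 3 ^ t - 1 - c) :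
    Rt n t Qc c (A.1 * 3 ^ t + r, A.2 * 3 ^ t + s) := by
  obtain ⟨hc1, hc2, hc3⟩ := Route1_cidx hc
  refine ⟨?_, ?_, ?_⟩
  · rcases h with h | h | h | h
    · exact Pr_col hA (h ▸ hc1) hs
    · exact Pr_col hA (h ▸ cantor_flip hc1) hs
    · exact Pr_row hA (h ▸ hc1) hr
    · exact Pr_row hA (h ▸ cantor_flip hc1) hr
  · have : anc t (A.1 * 3 ^ t + r, A.2 * 3 ^ t + s) = A := by
      unfold anc
      exact Prod.ext (Route1_div _ _ _ hr) (Route1_div _ _ _ hs)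
    rw [this]
    exact hN
  · show mf t (A.1 * 3 ^ t + r) = c ∨ mf t (A.2 * 3 ^ t + s) = c
    rw [Route1_mf _ _ _ hr, Route1_mf _ _ _ hs]
    rcases h with h | h | h | h
    · left; omega
    · left; omega
    · right; omega
    · right; omega

/-- every point of `Rt` in the cell `A` has the above form -/
theorem Route1_form {t c : ℕ} (_hc : c ∈ cidx t) (X : Pt) (h : mf t X.1 = c ∨ mf t X.2 = c) :
    ∃ r s, r < 3 ^ t ∧ s < 3 ^ t ∧ X = ((anc t X).1 * 3 ^ t + r, (anc t X).2 * 3 ^ t + s) ∧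
      (r = c ∨ r = 3 ^ t - 1 - c ∨ s = c ∨ s = 3 ^ t - 1 - c) := by
  have hpos : 0 < 3 ^ t := by positivity
  have h1 := Nat.mod_lt X.1 hpos
  have h2 := Nat.mod_lt X.2 hpos
  refine ⟨X.1 % 3 ^ t, X.2 % 3 ^ t, h1, h2, ?_, ?_⟩
  · unfold anc
    exact Prod.ext (Nat.div_add_mod' X.1 (3 ^ t)).symm (Nat.div_add_mod' X.2 (3 ^ t)).symm
  · unfold mf at h
    rcases h with h | h <;> omega

/-- base point of the grid of the cell `A` -/
def Route1_base (t c : ℕ) (A : Pt) : Pt := (A.1 * 3 ^ t + c, A.2 * 3 ^ t + c)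

/-- in a cell everything is joined to the base point -/
theorem Route1_cell {n t : ℕ} {Qc A : Pt} {c : ℕ} (hc : c ∈ cidx t) (hA : Pr n A) (hN : Nr 1 A Qc)
    {r s : ℕ} (hr : r < 3 ^ t) (hs : s < 3 ^ t)
    (h : r = c ∨ r = 3 ^ t - 1 - c ∨ s = c ∨ s = 3 ^ t - 1 - c) :
    Reach (Rt n t Qc c) (Route1_base t c A) (A.1 * 3 ^ t + r, A.2 * 3 ^ t + s) := by
  obtain ⟨hc1, hc2, hc3⟩ := Route1_cidx hc
  have hcl : c < 3 ^ t := by omega
  have hcl' : 3 ^ t - 1 - c < 3 ^ t := by omega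
  -- moves along a row with admissible `s`
  have row : ∀ s', s' < 3 ^ t → (s' = c ∨ s' = 3 ^ t - 1 - c) → ∀ r1 r2, r1 < 3 ^ t → r2 < 3 ^ t →
      Reach (Rt n t Qc c) (A.1 * 3 ^ t + r1, A.2 * 3 ^ t + s') (A.1 * 3 ^ t + r2, A.2 * 3 ^ t + s') := by
    intro s' hs' hs'' r1 r2 hr1 hr2
    refine Route1_row' (lo := A.1 * 3 ^ t) (hi := A.1 * 3 ^ t + (3 ^ t - 1)) ?_ (by omega) (by omega)
      (by omega) (by omega)
    intro x hx hx'
    obtain ⟨z, rfl⟩ := Nat.exists_eq_add_of_le hx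
    exact Route1_mem hc hA hN (by omega) hs' (by tauto)
  have col : ∀ r', r' < 3 ^ t → (r' = c ∨ r' = 3 ^ t - 1 - c) → ∀ s1 s2, s1 < 3 ^ t → s2 < 3 ^ t →
      Reach (Rt n t Qc c) (A.1 * 3 ^ t + r', A.2 * 3 ^ t + s1) (A.1 * 3 ^ t + r', A.2 * 3 ^ t + s2) := by
    intro r' hr' hr'' s1 s2 hs1 hs2
    refine Route1_col' (lo := A.2 * 3 ^ t) (hi := A.2 * 3 ^ t + (3 ^ t - 1)) ?_ (by omega) (by omega)
      (by omega) (by omega)
    intro x hx hx'
    obtain ⟨z, rfl⟩ := Nat.exists_eq_add_of_le hx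
    exact Route1_mem hc hA hN hr' (by omega) (by tauto)
  unfold Route1_base
  rcases h with h | h | h | h
  · rw [h]
    exact col c hcl (Or.inl rfl) _ _ hcl hs
  · exact (row c hcl (Or.inl rfl) c r hcl hr).trans (col r hr (Or.inr h) _ _ hcl hs)
  · rw [h]
    exact row c hcl (Or.inl rfl) _ _ hcl hr
  · exact (col c hcl (Or.inl rfl) c s hcl hs).trans (row s hs (Or.inr h) _ _ hcl hr)

/-- base points of side-adjacent cells are joined -/
theorem Route1_step {n t : ℕ} {Qc A B : Pt} {c : ℕ} (hc : c ∈ cidx t) (hA : Pr n A) (hB : Pr n B)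
    (hNA : Nr 1 A Qc) (hNB : Nr 1 B Qc) (h : Sd A B) :
    Reach (Rt n t Qc c) (Route1_base t c A) (Route1_base t c B) := by
  obtain ⟨hc1, hc2, hc3⟩ := Route1_cidx hc
  have hcl : c < 3 ^ t := by omega
  have key : ∀ A B : Pt, Pr n A → Pr n B → Nr 1 A Qc → Nr 1 B Qc →
      (A.1 = B.1 ∧ B.2 = A.2 + 1 ∨ A.2 = B.2 ∧ B.1 = A.1 + 1) →
      Reach (Rt n t Qc c) (Route1_base t c A) (Route1_base t c B) := by
    intro A B hA hB hNA hNB h
    rcases h with ⟨h1, h2⟩ | ⟨h1, h2⟩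
    · have r1 := Route1_cell (s := 3 ^ t - 1) hc hA hNA hcl (by omega) (Or.inl rfl)
      have r2 := Route1_cell (s := 0) hc hB hNB hcl (by omega) (Or.inl rfl)
      refine (r1.tail ?_ r2.right).trans r2.symm
      refine Or.inl ⟨by show A.1 * 3 ^ t + c = B.1 * 3 ^ t + c; rw [h1], Or.inr ?_⟩
      show B.2 * 3 ^ t + 0 = A.2 * 3 ^ t + (3 ^ t - 1) + 1
      rw [h2, add_mul]
      omega
    · have r1 := Route1_cell (r := 3 ^ t - 1) hc hA hNA (by omega) hcl (Or.inr (Or.inr (Or.inl rfl)))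
      have r2 := Route1_cell (r := 0) hc hB hNB (by omega) hcl (Or.inr (Or.inr (Or.inl rfl)))
      refine (r1.tail ?_ r2.right).trans r2.symm
      refine Or.inr ⟨by show A.2 * 3 ^ t + c = B.2 * 3 ^ t + c; rw [h1], Or.inr ?_⟩
      show B.1 * 3 ^ t + 0 = A.1 * 3 ^ t + (3 ^ t - 1) + 1
      rw [h2, add_mul]
      omega
  rcases h with ⟨h1, h2 | h2⟩ | ⟨h1, h2 | h2⟩
  · exact (key B A hB hA hNB hNA (Or.inl ⟨h1.symm, h2⟩)).symm
  · exact key A B hA hB hNA hNB (Or.inl ⟨h1, h2⟩)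
  · exact (key B A hB hA hNB hNA (Or.inr ⟨h1.symm, h2⟩)).symm
  · exact key A B hA hB hNA hNB (Or.inr ⟨h1, h2⟩)

/-- The `#`-grids: in every cell of level `n` the rows and columns with `mf = c` are complete (Cantor indices `c` and
`3^t-1-c`), they meet; in side-adjacent cells they are joined; and the cells of level `n` touching `Qc` are
side-connected among themselves (`vertex`). -/
theorem conn_Rt {n t : ℕ} {Qc : Pt} (hQ : Pr n Qc) {c : ℕ} (hc : c ∈ cidx t) : Conn (Rt n t Qc c) := by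
  have key : ∀ X, Rt n t Qc c X → Reach (Rt n t Qc c) (Route1_base t c Qc) X := by
    intro X hX
    have hA : Pr n (anc t X) := hX.1.anc
    have hN : Nr 1 (anc t X) Qc := hX.2.1
    obtain ⟨r, s, hr, hs, hXe, h⟩ := Route1_form hc X hX.2.2
    have h1 := Route1_cell hc hA hN hr hs h
    rw [← hXe] at h1
    have h2 : Reach (Rt n t Qc c) (Route1_base t c Qc) (Route1_base t c (anc t X)) := by
      by_cases he : anc t X = Qc
      · rw [he]
        rw [he] at h1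
        exact Reach.refl h1.left
      · by_cases hs : Sd (anc t X) Qc
        · exact (Route1_step hc hA hQ hN Nr.rfl hs).symm
        · obtain ⟨C, hC, hC1, hC2⟩ := vertex hA hQ hN he hs
          have hNC : Nr 1 C Qc := hC2.nr
          exact ((Route1_step hc hA hC hN hNC hC1).trans
            (Route1_step hc hC hQ hNC Nr.rfl hC2)).symm
    exact h2.trans h1
  intro a b ha hb
  exact (key a ha).symm.trans (key b hb)

theorem Route1_two_mem {t : ℕ} (ht : 1 ≤ t) : 2 ∈ cantor t := by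
  refine Finset.mem_filter.2 ⟨Finset.mem_range.2 ?_, ?_⟩
  · calc 2 < 3 ^ 1 := by norm_num
      _ ≤ 3 ^ t := Nat.pow_le_pow_right (by norm_num) ht
  · intro k _
    rcases k with _ | k
    · norm_num
    · have : 2 < 3 ^ (k + 1) := by
        calc 2 < 3 ^ 1 := by norm_num
          _ ≤ 3 ^ (k + 1) := Nat.pow_le_pow_right (by norm_num) (by omega)
      rw [Nat.div_eq_of_lt this]
      norm_num

/-- the four sides of the ring -/
theorem Route1_ring_mem {n t : ℕ} {A : Pt} (hA : Pr n A) (ht : 2 ≤ t) {r s : ℕ} (hr : 2 ≤ r)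
    (hr' : r ≤ 3 ^ t - 3) (hs : 2 ≤ s) (hs' : s ≤ 3 ^ t - 3)
    (h : r = 2 ∨ r = 3 ^ t - 3 ∨ s = 2 ∨ s = 3 ^ t - 3) :
    Rg n t A (A.1 * 3 ^ t + r, A.2 * 3 ^ t + s) := by
  have h9 : 9 ≤ 3 ^ t := by
    calc 9 = 3 ^ 2 := by norm_num
      _ ≤ 3 ^ t := Nat.pow_le_pow_right (by norm_num) ht
  have h2 : 2 ∈ cantor t := Route1_two_mem (by omega)
  have h2' : 3 ^ t - 3 ∈ cantor t := by
    have := cantor_flip h2
    have he : 3 ^ t - 1 - 2 = 3 ^ t - 3 := by omega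
    rwa [he] at this
  have hr3 : r < 3 ^ t := by omega
  have hs3 : s < 3 ^ t := by omega
  refine ⟨?_, ?_, ?_, ?_, ?_⟩
  · rcases h with h | h | h | h
    · exact Pr_col hA (h ▸ h2) hs3
    · exact Pr_col hA (h ▸ h2') hs3
    · exact Pr_row hA (h ▸ h2) hr3
    · exact Pr_row hA (h ▸ h2') hr3
  · unfold anc
    exact Prod.ext (Route1_div _ _ _ hr3) (Route1_div _ _ _ hs3)
  · show 2 ≤ mf t (A.1 * 3 ^ t + r)
    rw [Route1_mf _ _ _ hr3]
    omega
  · show 2 ≤ mf t (A.2 * 3 ^ t + s)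
    rw [Route1_mf _ _ _ hs3]
    omega
  · show mf t (A.1 * 3 ^ t + r) = 2 ∨ mf t (A.2 * 3 ^ t + s) = 2
    rw [Route1_mf _ _ _ hr3, Route1_mf _ _ _ hs3]
    rcases h with h | h | h | h
    · left; omega
    · left; omega
    · right; omega
    · right; omega

theorem conn_Rg {n t : ℕ} {Cc : Pt} (hC : Pr n Cc) (ht : 2 ≤ t) : Conn (Rg n t Cc) := by
  have h9 : 9 ≤ 3 ^ t := by
    calc 9 = 3 ^ 2 := by norm_num
      _ ≤ 3 ^ t := Nat.pow_le_pow_right (by norm_num) ht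
  have row : ∀ s', 2 ≤ s' → s' ≤ 3 ^ t - 3 → (s' = 2 ∨ s' = 3 ^ t - 3) → ∀ r1 r2, 2 ≤ r1 →
      r1 ≤ 3 ^ t - 3 → 2 ≤ r2 → r2 ≤ 3 ^ t - 3 →
      Reach (Rg n t Cc) (Cc.1 * 3 ^ t + r1, Cc.2 * 3 ^ t + s') (Cc.1 * 3 ^ t + r2, Cc.2 * 3 ^ t + s') := by
    intro s' hs1 hs2 hs'' r1 r2 hr1 hr1' hr2 hr2'
    refine Route1_row' (lo := Cc.1 * 3 ^ t + 2) (hi := Cc.1 * 3 ^ t + (3 ^ t - 3)) ?_ (by omega)
      (by omega) (by omega) (by omega)
    intro x hx hx'
    obtain ⟨z, rfl⟩ := Nat.exists_eq_add_of_le hx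
    have he : Cc.1 * 3 ^ t + 2 + z = Cc.1 * 3 ^ t + (2 + z) := by omega
    rw [he]
    exact Route1_ring_mem hC ht (by omega) (by omega) hs1 hs2 (by tauto)
  have col : ∀ r', 2 ≤ r' → r' ≤ 3 ^ t - 3 → (r' = 2 ∨ r' = 3 ^ t - 3) → ∀ s1 s2, 2 ≤ s1 →
      s1 ≤ 3 ^ t - 3 → 2 ≤ s2 → s2 ≤ 3 ^ t - 3 →
      Reach (Rg n t Cc) (Cc.1 * 3 ^ t + r', Cc.2 * 3 ^ t + s1) (Cc.1 * 3 ^ t + r', Cc.2 * 3 ^ t + s2) := by
    intro r' hr1 hr2 hr'' s1 s2 hs1 hs1' hs2 hs2'
    refine Route1_col' (lo := Cc.2 * 3 ^ t + 2) (hi := Cc.2 * 3 ^ t + (3 ^ t - 3)) ?_ (by omega)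
      (by omega) (by omega) (by omega)
    intro x hx hx'
    obtain ⟨z, rfl⟩ := Nat.exists_eq_add_of_le hx
    have he : Cc.2 * 3 ^ t + 2 + z = Cc.2 * 3 ^ t + (2 + z) := by omega
    rw [he]
    exact Route1_ring_mem hC ht hr1 hr2 (by omega) (by omega) (by tauto)
  have key : ∀ X, Rg n t Cc X →
      Reach (Rg n t Cc) (Cc.1 * 3 ^ t + 2, Cc.2 * 3 ^ t + 2) X := by
    intro X hX
    obtain ⟨-, hX1, hX2, hX3, hX4⟩ := hX
    have hpos : 0 < 3 ^ t := by positivity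
    have h1 := Nat.mod_lt X.1 hpos
    have h2 := Nat.mod_lt X.2 hpos
    have hXe : X = (Cc.1 * 3 ^ t + X.1 % 3 ^ t, Cc.2 * 3 ^ t + X.2 % 3 ^ t) := by
      rw [← hX1]
      unfold anc
      exact Prod.ext (Nat.div_add_mod' X.1 (3 ^ t)).symm (Nat.div_add_mod' X.2 (3 ^ t)).symm
    rw [hXe]
    unfold mf at hX2 hX3 hX4
    generalize X.1 % 3 ^ t = r at *
    generalize X.2 % 3 ^ t = s at *
    have hr : 2 ≤ r := by omega
    have hr' : r ≤ 3 ^ t - 3 := by omega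
    have hs : 2 ≤ s := by omega
    have hs' : s ≤ 3 ^ t - 3 := by omega
    have h4 : r = 2 ∨ r = 3 ^ t - 3 ∨ s = 2 ∨ s = 3 ^ t - 3 := by omega
    have h22 : (2 : ℕ) ≤ 3 ^ t - 3 := by omega
    rcases h4 with h | h | h | h
    · rw [h]
      exact col 2 le_rfl h22 (Or.inl rfl) _ _ le_rfl h22 hs hs'
    · exact (row 2 le_rfl h22 (Or.inl rfl) 2 r le_rfl h22 hr hr').trans
        (col r hr hr' (Or.inr h) _ _ le_rfl h22 hs hs')
    · rw [h]
      exact row 2 le_rfl h22 (Or.inl rfl) _ _ le_rfl h22 hr hr'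
    · exact (col 2 le_rfl h22 (Or.inl rfl) 2 s le_rfl h22 hs hs').trans
        (row s hs hs' (Or.inr h) _ _ le_rfl h22 hr hr')
  intro a b ha hb
  exact (key a ha).symm.trans (key b hb)

theorem Rt_Rg {n t : ℕ} {Qc Cc : Pt} (hC : Pr n Cc) (h : Nr 1 Cc Qc) {c : ℕ} (hc : c ∈ cidx t) :
    ∃ X, Rt n t Qc c X ∧ Rg n t Cc X := by
  obtain ⟨hc1, hc2, hc3⟩ := Route1_cidx hc
  have ht : 2 ≤ t := by
    by_contra ht
    have h1 : 3 ^ t ≤ 3 ^ 1 := Nat.pow_le_pow_right (by norm_num) (by omega)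
    omega
  refine ⟨(Cc.1 * 3 ^ t + c, Cc.2 * 3 ^ t + 2), ?_, ?_⟩
  · exact Route1_mem hc hC h (by omega) (by omega) (Or.inl rfl)
  · exact Route1_ring_mem hC ht (by omega) (by omega) le_rfl (by omega)
      (Or.inr (Or.inr (Or.inl rfl)))

theorem card_Rt (n t : ℕ) (Qc : Pt) (c : ℕ) : {X | Rt n t Qc c X}.ncard ≤ 9 ^ (t + 1) := by
  have hfin : {X | Rt n t Qc c X}.Finite := by
    apply Set.Finite.subset
      (Finset.finite_toSet (Finset.range (3 ^ (n + t)) ×ˢ Finset.range (3 ^ (n + t))))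
    intro X hX
    have h1 : Rt n t Qc c X := hX
    simp only [Finset.coe_product, Finset.coe_range, Set.mem_prod, Set.mem_Iio]
    exact ⟨h1.1.1, h1.1.2.1⟩
  rw [Set.ncard_eq_toFinset_card _ hfin]
  have h1 : hfin.toFinset.card ≤ (ball 1 Qc).card * 9 ^ t := by
    apply card_le_of_anc
    intro X hX
    have h1 : Rt n t Qc c X := by simpa using hX
    exact mem_ball.2 h1.2.1
  have h2 : (ball 1 Qc).card ≤ 9 := (card_ball_le 1 Qc).trans (by norm_num)
  calc hfin.toFinset.card ≤ (ball 1 Qc).card * 9 ^ t := h1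
    _ ≤ 9 * 9 ^ t := Nat.mul_le_mul_right _ h2
    _ = 9 ^ (t + 1) := by rw [pow_succ]; ring

end UCP
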