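import Pool.Agent.UCP.CellFacts2

/-!
[UCP-A1] self-similarity at all levels and gluing.
-/

open MeasureTheory Set Topology Filter CAR

namespace UCP

theorem pull_apply {n : ℕ} {c : Pt} (h : Pr n c) (f : C(carpet, ℝ)) (x : carpet) :
    pull n c f x = f (emb n c h x) := by
  unfold pull
  rw [dif_pos h]
  rfl

/-- index of a cell in a cell -/
def sub (k : ℕ) (c d : Pt) : Pt := (c.1 * 3 ^ k + d.1, c.2 * 3 ^ k + d.2)

theorem SelfSim_div {k x r : ℕ} (h : r < 3 ^ k) : (x * 3 ^ k + r) / 3 ^ k = x := by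
  have hpos : 0 < 3 ^ k := by positivity
  rw [mul_comm, Nat.mul_add_div hpos, Nat.div_eq_of_lt h, add_zero]

theorem SelfSim_mod {k x r : ℕ} (h : r < 3 ^ k) : (x * 3 ^ k + r) % 3 ^ k = r := by
  rw [mul_comm, Nat.mul_add_mod, Nat.mod_eq_of_lt h]

theorem Pr_sub {n k : ℕ} {c d : Pt} (hc : Pr n c) (hd : Pr k d) : Pr (n + k) (sub k c d) := by
  have h1 : d.1 < 3 ^ k := hd.1
  have h2 : d.2 < 3 ^ k := hd.2.1
  rw [Pr_iff]
  refine ⟨?_, ?_⟩
  · have : anc k (sub k c d) = c := by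
      ext
      · exact SelfSim_div h1
      · exact SelfSim_div h2
    rw [this]
    exact hc
  · show Pr k ((c.1 * 3 ^ k + d.1) % 3 ^ k, (c.2 * 3 ^ k + d.2) % 3 ^ k)
    rw [SelfSim_mod h1, SelfSim_mod h2]
    exact hd

theorem SelfSim_exists_sub {n k : ℕ} {e : Pt} (he : Pr (n + k) e) :
    Pr n (anc k e) ∧ Pr k (e.1 % 3 ^ k, e.2 % 3 ^ k) ∧
      sub k (anc k e) (e.1 % 3 ^ k, e.2 % 3 ^ k) = e := by
  have h := Pr_iff.1 he
  refine ⟨h.1, h.2, ?_⟩
  ext
  · show e.1 / 3 ^ k * 3 ^ k + e.1 % 3 ^ k = e.1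
    rw [mul_comm]
    exact Nat.div_add_mod _ _
  · show e.2 / 3 ^ k * 3 ^ k + e.2 % 3 ^ k = e.2
    rw [mul_comm]
    exact Nat.div_add_mod _ _

theorem emb_emb {n k : ℕ} {c d : Pt} (hc : Pr n c) (hd : Pr k d) (x : carpet) :
    emb n c hc (emb k d hd x) = emb (n + k) (sub k c d) (Pr_sub hc hd) x := by
  have h3 : (3 : ℝ) ^ n ≠ 0 := by positivity
  have h4 : (3 : ℝ) ^ k ≠ 0 := by positivity
  apply Subtype.ext
  apply Prod.ext
  · show ((x.1.1 + d.1) / 3 ^ k + c.1) / 3 ^ n = (x.1.1 + ((c.1 * 3 ^ k + d.1 : ℕ) : ℝ)) / 3 ^ (n + k)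
    push_cast
    rw [pow_add]
    field_simp
    ring
  · show ((x.1.2 + d.2) / 3 ^ k + c.2) / 3 ^ n = (x.1.2 + ((c.2 * 3 ^ k + d.2 : ℕ) : ℝ)) / 3 ^ (n + k)
    push_cast
    rw [pow_add]
    field_simp
    ring

theorem pull_pull {n k : ℕ} {c d : Pt} (hc : Pr n c) (hd : Pr k d) (f : C(carpet, ℝ)) :
    pull k d (pull n c f) = pull (n + k) (sub k c d) f := by
  ext x
  rw [pull_apply hd, pull_apply hc, pull_apply (Pr_sub hc hd), emb_emb]

theorem pull_add (n : ℕ) (c : Pt) (f g : C(carpet, ℝ)) : pull n c (f + g) = pull n c f + pull n c g := by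
  by_cases h : Pr n c
  · ext x
    rw [pull_apply h, ContinuousMap.add_apply, ContinuousMap.add_apply, pull_apply h, pull_apply h]
  · unfold pull
    simp [h]

theorem pull_smul (n : ℕ) (c : Pt) (a : ℝ) (f : C(carpet, ℝ)) : pull n c (a • f) = a • pull n c f := by
  by_cases h : Pr n c
  · ext x
    rw [pull_apply h, ContinuousMap.smul_apply, ContinuousMap.smul_apply, pull_apply h]
  · unfold pull
    simp [h]

theorem pull_inf {n : ℕ} {c : Pt} (f g : C(carpet, ℝ)) : pull n c (f ⊓ g) = pull n c f ⊓ pull n c g := by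
  by_cases h : Pr n c
  · ext x
    rw [pull_apply h, ContinuousMap.inf_apply, ContinuousMap.inf_apply, pull_apply h, pull_apply h]
  · unfold pull
    simp [h]

/-- a function is determined by its pull-backs -/
theorem eq_of_pull {n : ℕ} {f g : C(carpet, ℝ)} (h : ∀ c, Pr n c → pull n c f = pull n c g) : f = g := by
  ext x
  obtain ⟨c, hc, hx⟩ := exists_cell' x n
  obtain ⟨y, rfl⟩ := exists_emb hc hx
  rw [← pull_apply hc, ← pull_apply hc, h c hc]

theorem SelfSim_Pr_zero {c : Pt} : Pr 0 c ↔ c = (0, 0) := by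
  constructor
  · intro h
    have h1 := h.1
    have h2 := h.2.1
    rw [pow_zero] at h1 h2
    ext
    · show c.1 = 0
      omega
    · show c.2 = 0
      omega
  · rintro rfl
    exact ⟨by norm_num, by norm_num, fun k hk => absurd hk (by omega)⟩

theorem SelfSim_pull_zero (f : C(carpet, ℝ)) : pull 0 ((0, 0) : Pt) f = f := by
  have h : Pr 0 ((0, 0) : Pt) := SelfSim_Pr_zero.2 rfl
  ext x
  rw [pull_apply h]
  congr 1
  apply Subtype.ext
  apply Prod.ext
  · show (x.1.1 + ((0 : ℕ) : ℝ)) / 3 ^ 0 = x.1.1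
    simp
  · show (x.1.2 + ((0 : ℕ) : ℝ)) / 3 ^ 0 = x.1.2
    simp

variable {μ : Measure carpet} (D : CarpetForm μ)

/-- induction on `n` -/
theorem dom_iff_pull (n : ℕ) (f : C(carpet, ℝ)) : f ∈ D.dom ↔ ∀ c, Pr n c → pull n c f ∈ D.dom := by
  induction n with
  | zero =>
    constructor
    · intro hf c hc
      rw [SelfSim_Pr_zero.1 hc, SelfSim_pull_zero]
      exact hf
    · intro h
      have := h (0, 0) (SelfSim_Pr_zero.2 rfl)
      rwa [SelfSim_pull_zero] at this
  | succ n ih =>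
    rw [ih]
    constructor
    · intro h e he
      obtain ⟨h1, h2, h3⟩ := SelfSim_exists_sub he
      rw [← h3, ← pull_pull h1 h2]
      exact (D.dom_iff _).1 (h _ h1) _ h2
    · intro h c hc
      rw [D.dom_iff]
      intro d hd
      rw [pull_pull hc hd]
      exact h _ (Pr_sub hc hd)

theorem self_sim_pull (n : ℕ) {f g : C(carpet, ℝ)} (hf : f ∈ D.dom) (hg : g ∈ D.dom) :
    D.E f g = D.ρ ^ n * ∑ c ∈ cells n, D.E (pull n c f) (pull n c g) := by
  induction n with
  | zero =>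
    have h : cells 0 = {((0, 0) : Pt)} := by
      ext c
      rw [mem_cells, SelfSim_Pr_zero, Finset.mem_singleton]
    rw [h, Finset.sum_singleton, SelfSim_pull_zero, SelfSim_pull_zero, pow_zero, one_mul]
  | succ n ih =>
    rw [ih]
    have h1 : ∀ c ∈ cells n, D.E (pull n c f) (pull n c g) =
        D.ρ * ∑ d ∈ cells 1, D.E (pull (n + 1) (sub 1 c d) f) (pull (n + 1) (sub 1 c d) g) := by
      intro c hc
      have hc' := mem_cells.1 hc
      rw [D.self_sim _ ((dom_iff_pull D n f).1 hf c hc') _ ((dom_iff_pull D n g).1 hg c hc')]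
      congr 1
      refine Finset.sum_congr rfl fun d hd => ?_
      rw [pull_pull hc' (mem_cells.1 hd), pull_pull hc' (mem_cells.1 hd)]
    rw [Finset.sum_congr rfl h1, ← Finset.mul_sum, ← mul_assoc, ← pow_succ]
    congr 1
    rw [← Finset.sum_product']
    refine Finset.sum_bij' (fun p _ => sub 1 p.1 p.2)
      (fun e _ => (anc 1 e, ((e.1 % 3 ^ 1, e.2 % 3 ^ 1) : Pt))) ?_ ?_ ?_ ?_ ?_
    · intro p hp
      rw [Finset.mem_product] at hp
      exact mem_cells.2 (Pr_sub (mem_cells.1 hp.1) (mem_cells.1 hp.2))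
    · intro e he
      obtain ⟨h2, h3, _⟩ := SelfSim_exists_sub (mem_cells.1 he)
      exact Finset.mem_product.2 ⟨mem_cells.2 h2, mem_cells.2 h3⟩
    · intro p hp
      rw [Finset.mem_product] at hp
      have hd := mem_cells.1 hp.2
      have e1 : p.2.1 < 3 ^ 1 := hd.1
      have e2 : p.2.2 < 3 ^ 1 := hd.2.1
      apply Prod.ext
      · apply Prod.ext
        · exact SelfSim_div e1
        · exact SelfSim_div e2
      · apply Prod.ext
        · exact SelfSim_mod e1
        · exact SelfSim_mod e2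
    · intro e he
      exact (SelfSim_exists_sub (mem_cells.1 he)).2.2
    · intro p _
      rfl

/-- every term is at most the sum -/
theorem energy_pull_le {n : ℕ} {c : Pt} (hc : Pr n c) {f : C(carpet, ℝ)} (hf : f ∈ D.dom) :
    D.ρ ^ n * D.E (pull n c f) (pull n c f) ≤ D.E f f := by
  rw [self_sim_pull D n hf hf]
  refine mul_le_mul_of_nonneg_left ?_ (pow_pos D.ρ_pos n).le
  exact Finset.single_le_sum (f := fun c => D.E (pull n c f) (pull n c f))
    (fun d hd => D.nonneg _ ((dom_iff_pull D n f).1 hf d (mem_cells.1 hd))) (mem_cells.2 hc)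

end UCP
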