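import Pool.Agent.UCP.OneStep

/-!
[UCP-S4b] a strand leaves the region along few good cells.
-/

namespace UCP

/-- the base of the potential -/
noncomputable def Strand_th (σ : ℕ) : ℝ := 1 + 1 / (10 * σ)

theorem Strand_th_one {σ : ℕ} (hσ : 1 ≤ σ) : 1 ≤ Strand_th σ := by
  unfold Strand_th
  have : (0 : ℝ) < σ := by exact_mod_cast hσ
  have : (0 : ℝ) ≤ 1 / (10 * σ) := by positivity
  linarith

theorem Strand_th_pow {σ : ℕ} (hσ : 1 ≤ σ) : Strand_th σ ^ σ ≤ 10 / 9 := by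
  unfold Strand_th
  have h0 : (0 : ℝ) < σ := by exact_mod_cast hσ
  have h1 : (1 + 1 / (10 * (σ : ℝ))) ≤ Real.exp (1 / (10 * (σ : ℝ))) := by
    have := Real.add_one_le_exp (1 / (10 * (σ : ℝ)))
    linarith
  have h2 : (1 + 1 / (10 * (σ : ℝ))) ^ σ ≤ Real.exp (1 / (10 * (σ : ℝ))) ^ σ :=
    pow_le_pow_left₀ (by positivity) h1 σ
  rw [← Real.exp_nat_mul] at h2
  have h3 : (σ : ℝ) * (1 / (10 * (σ : ℝ))) = 1 / 10 := by field_simp
  rw [h3] at h2
  have h4 : Real.exp (1 / 10) ≤ 10 / 9 := by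
    have h5 := Real.add_one_le_exp (-(1 / 10 : ℝ))
    have h6 : Real.exp (1 / 10) * Real.exp (-(1 / 10)) = 1 := by
      rw [← Real.exp_add]; norm_num
    have h7 : 0 < Real.exp (1 / 10 : ℝ) := Real.exp_pos _
    nlinarith
  linarith

theorem Strand_th_le {σ : ℕ} (hσ : 1 ≤ σ) : Strand_th σ ≤ 10 / 9 :=
  (le_self_pow₀ (Strand_th_one hσ) (by omega)).trans (Strand_th_pow hσ)

theorem Strand_th_four {σ : ℕ} (hσ : 1 ≤ σ) : 4 ≤ Strand_th σ ^ (20 * σ) := by
  have h0 : (0 : ℝ) < σ := by exact_mod_cast hσ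
  have h1 : (2 : ℝ) ≤ Strand_th σ ^ (10 * σ) := by
    have := one_add_mul_le_pow (a := 1 / (10 * (σ : ℝ))) (by
      have : (0 : ℝ) ≤ 1 / (10 * σ) := by positivity
      linarith) (10 * σ)
    unfold Strand_th
    have h3 : ((10 * σ : ℕ) : ℝ) * (1 / (10 * (σ : ℝ))) = 1 := by
      push_cast
      field_simp
    rw [h3] at this
    linarith
  have h2 : 20 * σ = 10 * σ + 10 * σ := by ring
  rw [h2, pow_add]
  nlinarith

/-- bound of the potential for heights at distance `< s + σ (k + 1)` from the top -/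
theorem Strand_th_bound {σ s d k : ℕ} (hσ : 1 ≤ σ) (hs : s = σ + 4) (hd : d ≤ s + σ * (k + 1)) :
    Strand_th σ ^ d ≤ (10 / 9) ^ (k + 6) := by
  have h1 := Strand_th_one hσ
  calc Strand_th σ ^ d ≤ Strand_th σ ^ (σ * (k + 2) + 4) := by
        apply pow_le_pow_right₀ h1
        rw [hs] at hd
        nlinarith
    _ = (Strand_th σ ^ σ) ^ (k + 2) * Strand_th σ ^ 4 := by rw [pow_add, pow_mul]
    _ ≤ (10 / 9) ^ (k + 2) * (10 / 9) ^ 4 := by
        have h2 : 0 ≤ Strand_th σ := by linarith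
        gcongr
        · exact Strand_th_pow hσ
        · exact Strand_th_le hσ
    _ = (10 / 9) ^ (k + 6) := by rw [← pow_add]

/-- blocks below height `hI + 1` around points of the region are off the boundary -/
theorem Strand_dom {M hI σ H : ℕ} {c zC : Pt} (hreg : Nr 1 (anc hI c) (anc hI zC))
    (hdom : ∀ x, Pr M x → Nr 1 (anc (hI + σ + 2) x) (anc (hI + σ + 2) zC) → ¬ Bd M x)
    (hH : H ≤ hI + 1) : ∀ x, Pr M x → Nr 2 (anc H x) (anc H c) → ¬ Bd M x := by
  intro x hx hn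
  apply hdom x hx
  have h1 : Nr 2 (anc (hI + 1) x) (anc (hI + 1) c) := by
    have := hn.anc (hI + 1 - H)
    rw [anc_anc, anc_anc, Nat.sub_add_cancel hH] at this
    exact this
  have h2 : Nr 1 (anc (hI + 1) c) (anc (hI + 1) zC) := by
    have := hreg.anc 1
    rw [anc_anc, anc_anc, Nat.add_comm 1 hI] at this
    exact this
  have h3 := (h1.trans h2).up
  rw [anc_anc, anc_anc] at h3
  have h4 := h3.anc σ
  rw [anc_anc, anc_anc] at h4
  have e : σ + (1 + (hI + 1)) = hI + σ + 2 := by omega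
  rw [e] at h4
  exact h4

theorem Strand_not_fat {M s h : ℕ} {f : Pt → ℝ} {a : ℝ} {c : Pt} (hn : ¬ Fat M s f a h c) :
    ∃ z, Pr M z ∧ f z ≤ a ∧ Nr 1 (anc (h + s) c) (anc (h + s) z) := by
  unfold Fat at hn
  push Not at hn
  obtain ⟨z, hz, hfz⟩ := hn
  exact ⟨z, hz.1, hfz, hz.2.symm⟩

/-- the bounds for a state -/
theorem Strand_state {σ M s : ℕ} {ε U a v : ℝ} {f : Pt → ℝ} (hσ : 1 ≤ σ) (hs : s = σ + 4)
    (hD : Disc σ M ε U f) {hI N h : ℕ} {c zC : Pt} (hc : Pr M c) (hzC : Pr M zC)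
    (hz0 : f zC ≤ a) (ha : 0 ≤ a) (hreg : Nr 1 (anc hI c) (anc hI zC))
    (hv0 : 0 < v) (hN : 5 * U < (9 / 8 : ℝ) ^ N * v)
    (hdom : ∀ x, Pr M x → Nr 1 (anc (hI + σ + 2) x) (anc (hI + σ + 2) zC) → ¬ Bd M x)
    (hF : Fat M s f a h c) (hn : ¬ Fat M s f a (h + 1) c) (hε : 16 * ε < f c - a)
    (hΨ : v ≤ (f c - a) * Strand_th σ ^ (hI - h)) :
    h + s < hI ∧ (f c - a) * Strand_th σ ^ (hI - h) ≤ 5 * U ∧ hI ≤ h + s + σ * N ∧
      v ≤ 2 ^ (N + 5) * (f c - a) := by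
  have hlt : h + s < hI := by
    by_contra hcon
    exact not_fat hzC hz0 hreg.symm (not_lt.1 hcon) hF
  refine ⟨hlt, ?_⟩
  have hε0 := hD.eps_pos
  have hw0 : 0 < f c - a := by linarith
  obtain ⟨z, hz, hfz, hzn⟩ := Strand_not_fat hn
  obtain ⟨k, hk⟩ : ∃ k, k = (hI - h - s) / σ := ⟨_, rfl⟩
  have hk1 : k * σ ≤ hI - h - s := by rw [hk]; exact Nat.div_mul_le_self _ _
  have hk2 : hI - h - s < σ * (k + 1) := by rw [hk]; exact Nat.lt_mul_div_succ _ hσ
  have hg := growth hD (η := h + 1 + s) (k := k) hc hz hfz ha hzn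
    (v := f c - a) (by ring) hε (Strand_dom hreg hdom (by omega))
  have hth := Strand_th_bound hσ hs (d := hI - h) (k := k) (by omega)
  have hth0 : 0 < Strand_th σ ^ (hI - h) := by
    have := Strand_th_one hσ
    positivity
  have h6 : (0 : ℝ) < 6 ^ k := by positivity
  have hU : 0 < U := by
    have : 0 < 6 ^ k * ((f c - a) / 2) := by positivity
    linarith
  -- the potential times `6 ^ k`
  have hP : 6 ^ k * ((f c - a) * Strand_th σ ^ (hI - h)) ≤ 2 * U * (10 / 9) ^ (k + 6) := by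
    calc 6 ^ k * ((f c - a) * Strand_th σ ^ (hI - h))
        = 2 * (6 ^ k * ((f c - a) / 2)) * Strand_th σ ^ (hI - h) := by ring
      _ ≤ 2 * U * (10 / 9) ^ (k + 6) := by gcongr
  have h10 : (10 / 9 : ℝ) ^ 6 ≤ 2 := by norm_num
  have h910 : (10 / 9 : ℝ) ^ (k + 6) ≤ 2 * (10 / 9) ^ k := by
    rw [pow_add, mul_comm]
    gcongr
  have hP2 : 6 ^ k * ((f c - a) * Strand_th σ ^ (hI - h)) ≤ 4 * U * (10 / 9) ^ k := by
    calc _ ≤ 2 * U * (10 / 9) ^ (k + 6) := hP
      _ ≤ 2 * U * (2 * (10 / 9) ^ k) := by gcongr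
      _ = 4 * U * (10 / 9) ^ k := by ring
  have hkk : (10 / 9 : ℝ) ^ k ≤ 6 ^ k := by gcongr; norm_num
  have hi : (f c - a) * Strand_th σ ^ (hI - h) ≤ 4 * U := by
    have : 6 ^ k * ((f c - a) * Strand_th σ ^ (hI - h)) ≤ 6 ^ k * (4 * U) := by
      calc _ ≤ 4 * U * (10 / 9) ^ k := hP2
        _ ≤ 4 * U * 6 ^ k := by gcongr
        _ = 6 ^ k * (4 * U) := by ring
    exact le_of_mul_le_mul_left this h6
  have hkN : k < N := by
    by_contra hcon
    push Not at hcon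
    have e1 : (5 : ℝ) ^ k * (10 / 9) ^ k ≤ 6 ^ k := by
      rw [← mul_pow]
      gcongr
      norm_num
    have e2 : 6 ^ k * v ≤ 4 * U * (10 / 9) ^ k := by
      calc 6 ^ k * v ≤ 6 ^ k * ((f c - a) * Strand_th σ ^ (hI - h)) := by gcongr
        _ ≤ _ := hP2
    have e3 : (5 : ℝ) ^ k * v * (10 / 9) ^ k ≤ 4 * U * (10 / 9) ^ k := by
      calc (5 : ℝ) ^ k * v * (10 / 9) ^ k = (5 : ℝ) ^ k * (10 / 9) ^ k * v := by ring
        _ ≤ 6 ^ k * v := by gcongr
        _ ≤ _ := e2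
    have e4 : (5 : ℝ) ^ k * v ≤ 4 * U :=
      le_of_mul_le_mul_right e3 (by positivity)
    have e5 : (9 / 8 : ℝ) ^ N ≤ 5 ^ k := by
      calc (9 / 8 : ℝ) ^ N ≤ (9 / 8 : ℝ) ^ k := pow_le_pow_right₀ (by norm_num) hcon
        _ ≤ 5 ^ k := by gcongr; norm_num
    have e6 : (9 / 8 : ℝ) ^ N * v ≤ 5 ^ k * v := by gcongr
    linarith
  refine ⟨by linarith, ?_, ?_⟩
  · have : σ * (k + 1) ≤ σ * N := Nat.mul_le_mul_left _ hkN
    omega
  · calc v ≤ (f c - a) * Strand_th σ ^ (hI - h) := hΨ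
      _ ≤ (f c - a) * (10 / 9) ^ (k + 6) := by gcongr
      _ ≤ (f c - a) * 2 ^ (N + 5) := by
        gcongr
        calc (10 / 9 : ℝ) ^ (k + 6) ≤ 2 ^ (k + 6) := by gcongr; norm_num
          _ ≤ 2 ^ (N + 5) := pow_le_pow_right₀ (by norm_num) (by omega)
      _ = 2 ^ (N + 5) * (f c - a) := by ring

/-- the walk from a state -/
theorem Strand_walk {σ M s : ℕ} {ε U a v : ℝ} {f : Pt → ℝ} (hσ : 1 ≤ σ) (hs : s = σ + 4)
    (hD : Disc σ M ε U f) {hI N E0 : ℕ} {c0 zC : Pt} (hzC : Pr M zC)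
    (hz0 : f zC ≤ a) (ha : 0 ≤ a)
    (hv0 : 0 < v) (hN : 5 * U < (9 / 8 : ℝ) ^ N * v) (hε : 2 ^ (N + 20) * ε < v)
    (hdom : ∀ x, Pr M x → Nr 1 (anc (hI + σ + 2) x) (anc (hI + σ + 2) zC) → ¬ Bd M x)
    (hbig : E0 + K0 σ N ≤ hI) (k : ℕ) : ∀ (c : Pt) (h : ℕ), Pr M c →
      Reach (fun y => Pr M y ∧ a < f y) c0 c → Fat M s f a h c → ¬ Fat M s f a (h + 1) c →
      Nr 1 (anc hI c) (anc hI zC) → 16 * ε < f c - a →
      v ≤ (f c - a) * Strand_th σ ^ (hI - h) →
      5 * U < (9 / 8 : ℝ) ^ k * ((f c - a) * Strand_th σ ^ (hI - h)) →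
      ∃ W : Finset (ℕ × Pt), W.card ≤ m0 σ * k ∧
        (∀ p ∈ W, E0 ≤ p.1 ∧ GoodCell σ M s f a c0 p) ∧
        ∃ q, ReachC (· ∈ W) (h - j0 σ, anc (h - j0 σ) c) q ∧
          ∃ c', Pr M c' ∧ anc q.1 c' = q.2 ∧ ¬ Nr 1 (anc hI c') (anc hI zC) := by
  classical
  have hth1 := Strand_th_one hσ
  have hth0 : 0 < Strand_th σ := by linarith
  induction k with
  | zero =>
    intro c h hc hreach hF hn hreg hcε hΨ hU
    have := (Strand_state hσ hs hD hc hzC hz0 ha hreg hv0 hN hdom hF hn hcε hΨ).2.1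
    rw [pow_zero, one_mul] at hU
    linarith
  | succ k ih =>
    intro c h hc hreach hF hn hreg hcε hΨ hU
    obtain ⟨hlt, hup, hlow, hwv⟩ :=
      Strand_state hσ hs hD hc hzC hz0 ha hreg hv0 hN hdom hF hn hcε hΨ
    have hε0 := hD.eps_pos
    have hw0 : 0 < f c - a := by linarith
    have hK : K0 σ N = σ * N + 60 * σ + 30 := by unfold K0; ring
    have hj : j0 σ = 20 * σ := rfl
    have hh : E0 + 2 * j0 σ + 2 ≤ h := by
      rw [hK] at hbig
      rw [hj]
      omega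
    obtain ⟨W, hW1, hW2, hW3⟩ := one_step hσ hs hD (hI := hI) (c0 := c0) hc hzC hz0 hreach hF hn
      hreg (v := f c - a) (by ring) hcε hdom (by omega)
    have hW2' : ∀ p ∈ W, E0 ≤ p.1 ∧ GoodCell σ M s f a c0 p := fun p hp =>
      ⟨by have := (hW2 p hp).1; omega, (hW2 p hp).2⟩
    rcases hW3 with ⟨q, hq, hq'⟩ | ⟨h', c', hc', hF', hn', hreg', hreach', hR, hcase⟩
    · exact ⟨W, hW1.trans (Nat.le_mul_of_pos_right _ (Nat.succ_pos k)), hW2', q, hq, hq'⟩
    · -- the new state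
      have hlt' : h' + s < hI := by
        by_contra hcon
        exact not_fat hzC hz0 hreg'.symm (not_lt.1 hcon) hF'
      have hw' : (f c - a) / 2 < f c' - a := by
        rcases hcase with ⟨_, _, h3⟩ | ⟨_, h3⟩
        · linarith
        · linarith
      have hΨ' : 9 / 8 * ((f c - a) * Strand_th σ ^ (hI - h)) ≤
          (f c' - a) * Strand_th σ ^ (hI - h') := by
        have hp : 0 < Strand_th σ ^ (hI - h) := by positivity
        have hp' : 0 < Strand_th σ ^ (hI - h') := by positivity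
        rcases hcase with ⟨h1, h2, h3⟩ | ⟨h1, h3⟩
        · have e1 : Strand_th σ ^ (hI - h) ≤ Strand_th σ ^ (hI - h') * Strand_th σ ^ σ := by
            rw [← pow_add]
            exact pow_le_pow_right₀ hth1 (by omega)
          have e2 : Strand_th σ ^ (hI - h) ≤ Strand_th σ ^ (hI - h') * (10 / 9) :=
            e1.trans (mul_le_mul_of_nonneg_left (Strand_th_pow hσ) hp'.le)
          calc 9 / 8 * ((f c - a) * Strand_th σ ^ (hI - h))
              ≤ 9 / 8 * ((f c - a) * (Strand_th σ ^ (hI - h') * (10 / 9))) := by gcongr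
            _ = (5 / 4 * (f c - a)) * Strand_th σ ^ (hI - h') := by ring
            _ ≤ (f c' - a) * Strand_th σ ^ (hI - h') := by
              gcongr
              linarith
        · have e0 : hI - h' = (hI - h) + 20 * σ + 1 := by
            rw [hj] at h1
            omega
          have e1 : 4 * Strand_th σ ^ (hI - h) ≤ Strand_th σ ^ (hI - h') := by
            rw [e0, pow_succ, pow_add]
            have e2 := Strand_th_four hσ
            calc 4 * Strand_th σ ^ (hI - h) = Strand_th σ ^ (hI - h) * 4 * 1 := by ring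
              _ ≤ Strand_th σ ^ (hI - h) * Strand_th σ ^ (20 * σ) * Strand_th σ := by gcongr
          calc 9 / 8 * ((f c - a) * Strand_th σ ^ (hI - h))
              ≤ 2 * ((f c - a) * Strand_th σ ^ (hI - h)) := by
                have : 0 < (f c - a) * Strand_th σ ^ (hI - h) := by positivity
                linarith
            _ = (f c - a) / 2 * (4 * Strand_th σ ^ (hI - h)) := by ring
            _ ≤ (f c' - a) * Strand_th σ ^ (hI - h') :=
              mul_le_mul hw'.le e1 (by positivity) (by linarith)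
      have hΨ0 : 0 < (f c - a) * Strand_th σ ^ (hI - h) := by positivity
      have hε' : 16 * ε < f c' - a := by
        have e1 : v < 2 ^ (N + 6) * (f c' - a) := by
          calc v ≤ 2 ^ (N + 5) * (f c - a) := hwv
            _ = 2 ^ (N + 6) * ((f c - a) / 2) := by ring
            _ < 2 ^ (N + 6) * (f c' - a) := by gcongr
        have e2 : 2 ^ (N + 6) * (16 * ε) < 2 ^ (N + 6) * (f c' - a) := by
          calc 2 ^ (N + 6) * (16 * ε) = 2 ^ (N + 10) * ε := by ring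
            _ ≤ 2 ^ (N + 20) * ε := by
              gcongr
              · norm_num
              · norm_num
            _ < v := hε
            _ < _ := e1
        exact lt_of_mul_lt_mul_left e2 (by positivity)
      obtain ⟨W', hV1, hV2, q, hq, hq'⟩ := ih c' h' hc' hreach' hF' hn' hreg' hε' (by linarith) (by
        calc 5 * U < (9 / 8 : ℝ) ^ (k + 1) * ((f c - a) * Strand_th σ ^ (hI - h)) := hU
          _ = (9 / 8 : ℝ) ^ k * (9 / 8 * ((f c - a) * Strand_th σ ^ (hI - h))) := by ring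
          _ ≤ _ := by gcongr)
      refine ⟨W ∪ W', ?_, ?_, q, ?_, hq'⟩
      · calc (W ∪ W').card ≤ W.card + W'.card := Finset.card_union_le _ _
          _ ≤ m0 σ + m0 σ * k := Nat.add_le_add hW1 hV1
          _ = m0 σ * (k + 1) := by ring
      · intro p hp
        rcases Finset.mem_union.1 hp with hp | hp
        · exact hW2' p hp
        · exact hV2 p hp
      · exact (hR.mono fun x hx => Finset.mem_union_left _ hx).trans
          (hq.mono fun x hx => Finset.mem_union_right _ hx)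

/-- Iterate `one_step`. Potential `Ψ = (f c - a) * θ^(hI - h)`, `θ = 1 + 1/(10 σ)` (real power of a natural
number `hI - h`; `h + s < hI` by `not_fat`, since `zC` is close). `θ^σ ≤ 10/9`, `θ^(20σ) ≥ 4`, so in both cases
of `one_step` `Ψ' ≥ 9/8 Ψ` (`5/4 * 9/10 = 9/8`; `1/2 * 4`).
`growth` with the point `z` of height `h+1+s` (from `¬ Fat (h+1) c`) and `k = (hI - h - s)/σ` (natural division;
all blocks up to height `hI + 1` are off the boundary by `hdom`): `6^k (f c - a)/2 ≤ U`, while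
`hI - h < s + σ (k+1)`, so `θ^(hI-h) ≤ (10/9)^(k+1) (10/9)^5`; hence
* `Ψ ≤ 2 U 6^(-k) (10/9)^(k+6) ≤ 5 U`: after `N` steps `Ψ ≥ (9/8)^N v > 5 U`, contradiction, so there is an exit
  within `N` steps;
* `Ψ ≥ v` gives `6^k v ≤ 2 U (10/9)^(k+6)`, `5^k ≤ (9/8)^N`, `k < N`: so `h ≥ hI - s - σ (N+1)` for every state
  (this gives `hbig` of `one_step` and `E0 ≤ p.1`), and `f c - a ≥ v / 2^(N+10)` (so `16 ε < f c - a`); in the
  induction use first `f c' - a ≥ (f c - a)/2`, so that `growth` applies to `c'`.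
Start: the maximal fat height of `c0` exists: `Fat 0 c0` by the same use of `growth` (if `¬ Fat h c0` then the point
`z` at height `h+s` gives `k < N` as above with `v`), and `¬ Fat (hI - s) c0`. Also `1 ≤ N` as `v ≤ U`. The start cell is
`(h - j0, anc (h-j0) c0)`. -/
theorem strand {σ M s : ℕ} {ε U a v : ℝ} {f : Pt → ℝ} (hσ : 1 ≤ σ) (hs : s = σ + 4)
    (hD : Disc σ M ε U f) {hI N E0 : ℕ} {c0 zC : Pt} (hc0 : Pr M c0) (hzC : Pr M zC)
    (hz0 : f zC ≤ a) (ha : 0 ≤ a) (hnear : Nr 1 (anc hI c0) (anc hI zC)) (hv : f c0 = a + v)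
    (hv0 : 0 < v) (hN : 5 * U < (9 / 8 : ℝ) ^ N * v) (hε : 2 ^ (N + 20) * ε < v)
    (hdom : ∀ x, Pr M x → Nr 1 (anc (hI + σ + 2) x) (anc (hI + σ + 2) zC) → ¬ Bd M x)
    (hbig : E0 + K0 σ N ≤ hI) :
    ∃ W : Finset (ℕ × Pt), W.card ≤ m0 σ * N ∧
      (∀ p ∈ W, E0 ≤ p.1 ∧ GoodCell σ M s f a c0 p) ∧
      ∃ p q, ReachC (· ∈ W) p q ∧ anc p.1 c0 = p.2 ∧ p.1 ≤ hI ∧
        ∃ c', Pr M c' ∧ anc q.1 c' = q.2 ∧ ¬ Nr 1 (anc hI c') (anc hI zC) := by
  classical
  have hε0 := hD.eps_pos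
  have hK : K0 σ N = σ * N + 60 * σ + 30 := by unfold K0; ring
  have hth1 := Strand_th_one hσ
  have hε16 : 16 * ε < v := by
    calc 16 * ε = 2 ^ 4 * ε := by norm_num
      _ ≤ 2 ^ (N + 20) * ε := by
        gcongr
        · norm_num
        · omega
      _ < v := hε
  -- the start cell is fat at height `0`
  have hF0 : Fat M s f a 0 c0 := by
    by_contra hcon
    obtain ⟨z, hz, hfz, hzn⟩ := Strand_not_fat hcon
    have hNs : 0 + s + N * σ ≤ hI + 1 := by
      rw [hK] at hbig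
      have : N * σ = σ * N := Nat.mul_comm _ _
      omega
    have hg := growth hD (η := 0 + s) (k := N) hc0 hz hfz ha hzn hv hε16
      (Strand_dom hnear hdom hNs)
    have e1 : (9 / 8 : ℝ) ^ N ≤ 6 ^ N := by gcongr; norm_num
    have e2 : (9 / 8 : ℝ) ^ N * v ≤ 6 ^ N * v := by gcongr
    have e3 : (0 : ℝ) < 6 ^ N * v := by positivity
    linarith
  have hnf : ∃ h, ¬ Fat M s f a h c0 :=
    ⟨hI, not_fat hzC hz0 hnear.symm (Nat.le_add_right _ _)⟩
  obtain ⟨h, hF, hn⟩ : ∃ h, Fat M s f a h c0 ∧ ¬ Fat M s f a (h + 1) c0 := by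
    have h1 := Nat.find_spec hnf
    have h2 : Nat.find hnf ≠ 0 := by
      intro h0
      rw [h0] at h1
      exact h1 hF0
    obtain ⟨m, hm⟩ := Nat.exists_eq_succ_of_ne_zero h2
    refine ⟨m, ?_, ?_⟩
    · by_contra hcon
      exact Nat.find_min hnf (m := m) (by omega) hcon
    · rw [hm] at h1
      exact h1
  have hlt : h + s < hI := by
    by_contra hcon
    exact not_fat hzC hz0 hnear.symm (not_lt.1 hcon) hF
  have hfc : f c0 - a = v := by linarith
  have hpow : v ≤ (f c0 - a) * Strand_th σ ^ (hI - h) := by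
    rw [hfc]
    exact le_mul_of_one_le_right hv0.le (one_le_pow₀ hth1)
  obtain ⟨W, hW1, hW2, q, hq, hq'⟩ := Strand_walk hσ hs hD hzC hz0 ha hv0 hN hε hdom hbig N c0 h
    hc0 (Reach.refl ⟨hc0, by linarith⟩) hF hn hnear (by linarith) hpow
    (lt_of_lt_of_le hN (by gcongr))
  exact ⟨W, hW1, hW2, _, q, hq, rfl, by simp only; omega, hq'⟩

end UCP
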