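import Pool.Agent.UCP.Fold

/-!
[UCP-F2] symmetrised folded sets of cells.
-/

namespace UCP

/-- `d` lies in the `s'`-block of `q` (unit cells, `q` coarser) -/
def NearU (s' : ℕ) (q d : ℕ × Pt) : Prop :=
  s' ≤ q.1 ∧ q.1 ≤ d.1 ∧ Nr 1 (anc s' q.2) (anc (d.1 - q.1 + s') d.2)

/-- unit cells: same level and (equal or side-adjacent), or parent and child -/
def AdjU (p q : ℕ × Pt) : Prop :=
  (p.1 = q.1 ∧ (p.2 = q.2 ∨ Sd p.2 q.2)) ∨ (q.1 = p.1 + 1 ∧ p.2 = anc 1 q.2) ∨
    (p.1 = q.1 + 1 ∧ q.2 = anc 1 p.2)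

def ReachU (W : ℕ × Pt → Prop) (p q : ℕ × Pt) : Prop :=
  W p ∧ Relation.ReflTransGen (fun x y => AdjU x y ∧ W y) p q

/-- the folded cells of `R` (cells of height `< hi`), with all symmetric images -/
noncomputable def symSet (hi : ℕ) (R : Finset (ℕ × Pt)) : Finset (ℕ × Pt) :=
  open Classical in
  ((Finset.univ : Finset (Bool × Bool × Bool)) ×ˢ R).image
    (fun gp => (hi - gp.2.1, act gp.1 (hi - gp.2.1) (foldP (hi - gp.2.1) gp.2.2)))

theorem card_symSet_le (hi : ℕ) (R : Finset (ℕ × Pt)) : (symSet hi R).card ≤ 8 * R.card := by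
  classical
  unfold symSet
  refine Finset.card_image_le.trans ?_
  rw [Finset.card_product]
  simp

/-- the image of one cell -/
def SymSet_img (g : Bool × Bool × Bool) (hi : ℕ) (p : ℕ × Pt) : ℕ × Pt :=
  (hi - p.1, act g (hi - p.1) (foldP (hi - p.1) p.2))

theorem SymSet_mem {hi : ℕ} {R : Finset (ℕ × Pt)} {q : ℕ × Pt} :
    q ∈ symSet hi R ↔ ∃ g, ∃ p ∈ R, SymSet_img g hi p = q := by
  classical
  unfold symSet SymSet_img
  constructor
  · intro h
    obtain ⟨gp, hgp, rfl⟩ := Finset.mem_image.1 h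
    exact ⟨gp.1, gp.2, (Finset.mem_product.1 hgp).2, rfl⟩
  · rintro ⟨g, p, hp, rfl⟩
    exact Finset.mem_image.2 ⟨(g, p), Finset.mem_product.2 ⟨Finset.mem_univ _, hp⟩, rfl⟩

theorem symSet_act {hi : ℕ} {R : Finset (ℕ × Pt)} {q : ℕ × Pt} (hq : q ∈ symSet hi R)
    (g : Bool × Bool × Bool) : (q.1, act g q.1 q.2) ∈ symSet hi R := by
  obtain ⟨g0, p, hp, rfl⟩ := SymSet_mem.1 hq
  obtain ⟨g', hg'⟩ := act_mul g g0
  refine SymSet_mem.2 ⟨g', p, hp, ?_⟩
  simp only [SymSet_img]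
  rw [hg' _ _ ⟨fold_lt _ _, fold_lt _ _⟩]

theorem SymSet_adj {g : Bool × Bool × Bool} {hi : ℕ} {p q : ℕ × Pt} (hp : p.1 < hi) (hq : q.1 < hi)
    (h : AdjC p q) : AdjU (SymSet_img g hi p) (SymSet_img g hi q) := by
  have key : ∀ p q : ℕ × Pt, p.1 < hi → q.1 < hi → q.1 = p.1 + 1 → q.2 = anc 1 p.2 →
      (SymSet_img g hi p).1 = (SymSet_img g hi q).1 + 1 ∧
        (SymSet_img g hi q).2 = anc 1 (SymSet_img g hi p).2 := by
    intro p q hp hq h1 h2
    have h3 : hi - q.1 = hi - p.1 - 1 := by omega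
    refine ⟨by simp only [SymSet_img]; omega, ?_⟩
    simp only [SymSet_img]
    rw [anc_act (by omega) ⟨fold_lt _ _, fold_lt _ _⟩, anc_foldP (by omega), h3, h2]
  rcases h with ⟨h1, h2⟩ | ⟨h1, h2⟩ | ⟨h1, h2⟩
  · left
    simp only [SymSet_img]
    rw [h1]
    refine ⟨rfl, ?_⟩
    rcases Sd_foldP (l := hi - q.1) h2 with h | h
    · left; rw [h]
    · right; exact Sd_act ⟨fold_lt _ _, fold_lt _ _⟩ ⟨fold_lt _ _, fold_lt _ _⟩ h
  · exact Or.inr (Or.inr (key p q hp hq h1 h2))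
  · exact Or.inr (Or.inl (key q p hq hp h1 h2))

theorem SymSet_fold_left (l X : ℕ) : fold l (X * 3 ^ l) = if X % 2 = 0 then 0 else 3 ^ l - 1 := by
  have h : 0 < 3 ^ l := by positivity
  unfold fold
  rw [Nat.mul_div_cancel _ h, Nat.mul_mod_left]
  split_ifs <;> omega

theorem SymSet_fold_right {l X i : ℕ} (hi : i + 1 = (X + 1) * 3 ^ l) :
    fold l i = if X % 2 = 0 then 3 ^ l - 1 else 0 := by
  have h : 0 < 3 ^ l := by positivity
  unfold fold
  have h1 : i = (3 ^ l - 1) + 3 ^ l * X := by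
    have : (X + 1) * 3 ^ l = 3 ^ l * X + 3 ^ l := by ring
    omega
  have h2 : (3:ℕ) ^ l - 1 < 3 ^ l := by omega
  rw [h1, Nat.add_mul_div_left _ _ h, Nat.div_eq_of_lt h2, Nat.add_mul_mod_self_left,
    Nat.mod_eq_of_lt h2, zero_add]
  split_ifs <;> omega

/-- a column crossing becomes a left-right crossing of the unit cell -/
theorem symSet_LR {hi : ℕ} {R : Finset (ℕ × Pt)} {sw : Bool} {X : ℕ} {p' q' : ℕ × Pt}
    (h : ReachC (fun r => r ∈ R ∧ r.1 < hi ∧ (swp sw (anc (hi - r.1) r.2)).1 = X) p' q')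
    (hp : (swp sw p'.2).1 = X * 3 ^ (hi - p'.1))
    (hq : (swp sw q'.2).1 + 1 = (X + 1) * 3 ^ (hi - q'.1)) :
    ∃ p q, ReachU (· ∈ symSet hi R) p q ∧ p.2.1 = 0 ∧ q.2.1 + 1 = 3 ^ q.1 := by
  obtain ⟨g, hg1, hg2⟩ : ∃ g : Bool × Bool × Bool,
      (∀ p : ℕ × Pt, (swp sw p.2).1 = X * 3 ^ (hi - p.1) → (SymSet_img g hi p).2.1 = 0) ∧
      (∀ q : ℕ × Pt, (swp sw q.2).1 + 1 = (X + 1) * 3 ^ (hi - q.1) →
        (SymSet_img g hi q).2.1 + 1 = 3 ^ (SymSet_img g hi q).1) := by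
    cases sw with
    | false =>
      refine ⟨(decide (X % 2 = 1), false, false), ?_, ?_⟩
      · intro p hp
        simp only [swp, Bool.false_eq_true, if_false] at hp
        simp only [SymSet_img, act, foldP, hp, SymSet_fold_left, Bool.false_eq_true, if_false,
          decide_eq_true_eq]
        split_ifs <;> omega
      · intro q hq
        simp only [swp, Bool.false_eq_true, if_false] at hq
        have h0 : 0 < 3 ^ (hi - q.1) := by positivity
        simp only [SymSet_img, act, foldP, SymSet_fold_right hq, Bool.false_eq_true, if_false,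
          decide_eq_true_eq]
        split_ifs <;> omega
    | true =>
      refine ⟨(false, decide (X % 2 = 1), true), ?_, ?_⟩
      · intro p hp
        simp only [swp, if_true] at hp
        simp only [SymSet_img, act, foldP, hp, SymSet_fold_left, if_true,
          decide_eq_true_eq]
        split_ifs <;> omega
      · intro q hq
        simp only [swp, if_true] at hq
        have h0 : 0 < 3 ^ (hi - q.1) := by positivity
        simp only [SymSet_img, act, foldP, SymSet_fold_right hq, if_true,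
          decide_eq_true_eq]
        split_ifs <;> omega
  refine ⟨SymSet_img g hi p', SymSet_img g hi q', ?_, hg1 p' hp, hg2 q' hq⟩
  have hmem : ∀ r ∈ R, SymSet_img g hi r ∈ symSet hi R := fun r hr => SymSet_mem.2 ⟨g, r, hr, rfl⟩
  refine ⟨hmem _ h.left.1, ?_⟩
  clear hp hq
  obtain ⟨h1, h2⟩ := h
  induction h2 with
  | refl => exact Relation.ReflTransGen.refl
  | @tail b c h3 h4 ih =>
    have hb := ReachC.right ⟨h1, h3⟩
    exact ih.tail ⟨SymSet_adj hb.2.1 h4.2.2.1 h4.1, hmem _ h4.2.1⟩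

end UCP
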