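import Pool.Agent.UCP.Cantor

/-!
[UCP-U2] the weight of the maximal regular cells.
-/

namespace UCP

/-- `d` is regular: no strictly finer cell of `Qs` lies in its `s'`-block -/
def RegU (s' : ℕ) (Qs : Finset (ℕ × Pt)) (d : ℕ × Pt) : Prop :=
  ∀ q' ∈ Qs, ¬ (d.1 < q'.1 ∧ NearU s' d q')

/-- number of strictly finer cells of `Qs` in the `s'`-block of `q` -/
noncomputable def nfin (s' : ℕ) (Qs : Finset (ℕ × Pt)) (q : ℕ × Pt) : ℕ :=
  open Classical in (Qs.filter (fun q' => q.1 < q'.1 ∧ NearU s' q q')).card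

/-- regularity passes to children -/
theorem RegU.child {s' : ℕ} {Qs : Finset (ℕ × Pt)} {l : ℕ} {z : Pt} (hl : s' ≤ l)
    (h : RegU s' Qs (l, anc 1 z)) : RegU s' Qs (l + 1, z) := by
  rintro q' hq' ⟨h1, -, h3, h4⟩
  simp only at h1 h3 h4
  refine h q' hq' ⟨?_, hl, ?_, ?_⟩
  · show l < q'.1
    omega
  · show l ≤ q'.1
    omega
  · show Nr 1 (anc s' (anc 1 z)) (anc (q'.1 - l + s') q'.2)
    have h5 := h4.anc 1
    rw [anc_anc, anc_anc] at h5
    rw [anc_anc]
    have e1 : s' + 1 = 1 + s' := by omega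
    have e2 : q'.1 - l + s' = 1 + (q'.1 - (l + 1) + s') := by omega
    rw [e1, e2]
    exact h5

theorem RegU.of_level {s' L : ℕ} {Qs : Finset (ℕ × Pt)} (hQ : ∀ q ∈ Qs, q.1 ≤ L) {d : ℕ × Pt}
    (hd : L ≤ d.1) : RegU s' Qs d := by
  rintro q' hq' ⟨h1, -⟩
  have := hQ q' hq'
  omega

theorem RegU.act {s' : ℕ} {Qs : Finset (ℕ × Pt)} (hQ : ∀ q ∈ Qs, Pr q.1 q.2)
    (hsym : ∀ g, ∀ q ∈ Qs, (q.1, act g q.1 q.2) ∈ Qs) {d : ℕ × Pt} (hd : Pr d.1 d.2)
    (h : RegU s' Qs d) (g : Bool × Bool × Bool) : RegU s' Qs (d.1, UCP.act g d.1 d.2) := by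
  rintro q' hq' ⟨h1, h2, h3, h4⟩
  simp only at h1 h2 h3 h4
  obtain ⟨g', hg'⟩ := act_inv g
  refine h _ (hsym g' q' hq') ⟨h1, h2, h3, ?_⟩
  show Nr 1 (anc s' d.2) (anc (q'.1 - d.1 + s') (UCP.act g' q'.1 q'.2))
  have hq := hQ q' hq'
  rw [anc_act (by omega) ⟨hq.1, hq.2.1⟩]
  rw [anc_act h2 ⟨hd.1, hd.2.1⟩] at h4
  have e1 : q'.1 - (q'.1 - d.1 + s') = d.1 - s' := by omega
  rw [e1]
  have hb1 : Pr (d.1 - s') (anc s' d.2) := hd.anc'
  have hb2 : Pr (q'.1 - (q'.1 - d.1 + s')) (anc (q'.1 - d.1 + s') q'.2) := hq.anc'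
  rw [e1] at hb2
  have hi := (hg' (d.1 - s') (anc s' d.2) ⟨hb1.1, hb1.2.1⟩).1
  have h5 := Nr_act (g := g') (act_lt (g := g) ⟨hb1.1, hb1.2.1⟩) ⟨hb2.1, hb2.2.1⟩ h4
  rw [hi] at h5
  exact h5

/-- cells of a given level whose parent sees `q'` -/
theorem Weight_card {s' : ℕ} (A : Finset (ℕ × Pt)) (l : ℕ) (c : Pt)
    (hA : ∀ d ∈ A, d.1 = l ∧ Nr 1 (anc (s' + 1) d.2) c) : A.card ≤ 9 ^ (s' + 2) := by
  classical
  have hinj : Set.InjOn Prod.snd (A : Set (ℕ × Pt)) := by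
    intro x hx y hy hxy
    have h1 := (hA x hx).1
    have h2 := (hA y hy).1
    exact Prod.ext (h1.trans h2.symm) hxy
  rw [← Finset.card_image_of_injOn hinj]
  have h := card_le_of_anc (k := s' + 1) (A.image Prod.snd) (ball 1 c) (by
    intro x hx
    obtain ⟨d, hd, rfl⟩ := Finset.mem_image.1 hx
    exact mem_ball.2 (hA d hd).2)
  refine h.trans ?_
  have h2 := card_ball_le 1 c
  calc (ball 1 c).card * 9 ^ (s' + 1) ≤ 9 * 9 ^ (s' + 1) := Nat.mul_le_mul_right _ (by simpa using h2)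
    _ = 9 ^ (s' + 2) := by ring

theorem Weight_geom (a h : ℕ) (hah : a ≤ h) :
    ∑ l ∈ Finset.Ioc a h, 2 ^ (h - l) ≤ 2 ^ (h - a) := by
  obtain ⟨m, rfl⟩ := Nat.exists_eq_add_of_le hah
  clear hah
  induction m generalizing a with
  | zero => simp
  | succ m ih =>
    have h1 : Finset.Ioc a (a + (m + 1)) = insert (a + 1) (Finset.Ioc (a + 1) (a + 1 + m)) := by
      ext x
      simp only [Finset.mem_Ioc, Finset.mem_insert]
      omega
    rw [h1, Finset.sum_insert (by simp)]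
    have h2 := ih (a + 1)
    have e1 : a + (m + 1) = a + 1 + m := by ring
    rw [e1]
    have e2 : a + 1 + m - (a + 1) = m := by omega
    have e3 : a + 1 + m - a = m + 1 := by omega
    rw [e2] at h2 ⊢
    rw [e3, pow_succ]
    omega

/-- [UCP-U2] If `d ∈ MR`, `d.1 ≠ q.1`, then the parent of `d` (level `≥ q.1 ≥ s'+1`) is not regular: there is
`q' ∈ Qs`, `d.1 ≤ q'.1`, in the `s'`-block of the parent of `d`; then also in the `s'`-block of `q`.
For given `q'` and given level `d.1` there are at most `9 * 9^s' * 9` such `d`. The sum over the levels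
`d.1 > q.1` of `2^(h-d.1)` is `≤ 2^(h-q.1)`. -/
theorem weight_le {s' h : ℕ} {Qs : Finset (ℕ × Pt)} {q : ℕ × Pt} (hq : s' + 1 ≤ q.1) (hqh : q.1 ≤ h) :
    ∑ d ∈ MR (RegU s' Qs) h q, 2 ^ (h - d.1) ≤ 2 ^ (h - q.1) * (1 + 9 ^ (s' + 2) * nfin s' Qs q) := by
  classical
  set M := MR (RegU s' Qs) h q with hM
  have hmem : ∀ d ∈ M, d.1 ≤ h ∧ q.1 ≤ d.1 ∧ anc (d.1 - q.1) d.2 = q.2 ∧
      (d.1 = q.1 ∨ ¬ RegU s' Qs (d.1 - 1, anc 1 d.2)) := by
    intro d hd
    rw [hM, MR, Finset.mem_filter] at hd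
    obtain ⟨hd1, hd2, hd3, -, -, hd6⟩ := hd
    have := (Finset.mem_product.1 hd1).1
    rw [Finset.mem_range] at this
    exact ⟨by omega, hd2, hd3, hd6⟩
  set F := Qs.filter (fun q' => q.1 < q'.1 ∧ NearU s' q q') with hF
  have hn : nfin s' Qs q = F.card := by
    unfold nfin
    rw [hF]
  rw [← Finset.sum_filter_add_sum_filter_not M (fun d => d.1 = q.1)]
  have hA : ∑ d ∈ M.filter (fun d => d.1 = q.1), 2 ^ (h - d.1) ≤ 2 ^ (h - q.1) := by
    have hsub : M.filter (fun d => d.1 = q.1) ⊆ {q} := by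
      intro d hd
      rw [Finset.mem_filter] at hd
      obtain ⟨hd1, hd2⟩ := hd
      obtain ⟨-, -, h3, -⟩ := hmem d hd1
      rw [hd2, Nat.sub_self, anc_zero] at h3
      rw [Finset.mem_singleton]
      exact Prod.ext hd2 h3
    refine (Finset.sum_le_sum_of_subset hsub).trans ?_
    simp
  set A := M.filter (fun d => ¬ d.1 = q.1) with hAdef
  let near : ℕ × Pt → ℕ × Pt → Prop := fun d q' =>
    Nr 1 (anc (s' + 1) d.2) (anc (q'.1 - (d.1 - 1) + s') q'.2)
  have hex : ∀ d ∈ A, ∃ q' ∈ F, near d q' := by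
    intro d hd
    rw [hAdef, Finset.mem_filter] at hd
    obtain ⟨hd1, hd2⟩ := hd
    obtain ⟨hdh, hqd, hanc, hor⟩ := hmem d hd1
    have hnr : ¬ RegU s' Qs (d.1 - 1, anc 1 d.2) := by
      rcases hor with h1 | h1
      · exact absurd h1 hd2
      · exact h1
    unfold RegU at hnr
    push Not at hnr
    obtain ⟨q', hq', hlt, h2, h3, h4⟩ := hnr
    simp only at hlt h2 h3 h4
    rw [anc_anc] at h4
    have hlt2 : q.1 < d.1 := lt_of_le_of_ne hqd (Ne.symm hd2)
    refine ⟨q', ?_, h4⟩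
    rw [hF, Finset.mem_filter]
    refine ⟨hq', by omega, by omega, by omega, ?_⟩
    have h5 := h4.anc (d.1 - 1 - q.1)
    rw [anc_anc, anc_anc] at h5
    rw [← hanc, anc_anc]
    have e1 : s' + (d.1 - q.1) = d.1 - 1 - q.1 + (s' + 1) := by omega
    have e2 : q'.1 - q.1 + s' = d.1 - 1 - q.1 + (q'.1 - (d.1 - 1) + s') := by omega
    rw [e1, e2]
    exact h5
  have hAl : ∀ d ∈ A, d.1 ∈ Finset.Ioc q.1 h := by
    intro d hd
    rw [hAdef, Finset.mem_filter] at hd
    obtain ⟨hdh, hqd, -, -⟩ := hmem d hd.1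
    rw [Finset.mem_Ioc]
    exact ⟨lt_of_le_of_ne hqd (Ne.symm hd.2), hdh⟩
  have hB : ∑ d ∈ A, 2 ^ (h - d.1) ≤ F.card * (9 ^ (s' + 2) * 2 ^ (h - q.1)) := by
    calc ∑ d ∈ A, 2 ^ (h - d.1)
        ≤ ∑ d ∈ A, ∑ q' ∈ F, (if near d q' then 2 ^ (h - d.1) else 0) := by
          apply Finset.sum_le_sum
          intro d hd
          obtain ⟨q', hq', hnear⟩ := hex d hd
          calc 2 ^ (h - d.1) = (if near d q' then 2 ^ (h - d.1) else 0) := by rw [if_pos hnear]
            _ ≤ _ := Finset.single_le_sum (f := fun q' => if near d q' then 2 ^ (h - d.1) else 0)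
                (fun _ _ => Nat.zero_le _) hq'
      _ = ∑ q' ∈ F, ∑ d ∈ A.filter (fun d => near d q'), 2 ^ (h - d.1) := by
          rw [Finset.sum_comm]
          apply Finset.sum_congr rfl
          intro q' _
          exact (Finset.sum_filter _ _).symm
      _ ≤ ∑ q' ∈ F, 9 ^ (s' + 2) * 2 ^ (h - q.1) := by
          apply Finset.sum_le_sum
          intro q' _
          rw [← Finset.sum_fiberwise_of_maps_to (s := A.filter (fun d => near d q'))
            (t := Finset.Ioc q.1 h) (g := fun d => d.1)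
            (fun d hd => hAl d (Finset.mem_filter.1 hd).1)]
          calc ∑ l ∈ Finset.Ioc q.1 h,
                ∑ d ∈ (A.filter (fun d => near d q')).filter (fun d => d.1 = l), 2 ^ (h - d.1)
              ≤ ∑ l ∈ Finset.Ioc q.1 h, 9 ^ (s' + 2) * 2 ^ (h - l) := by
                apply Finset.sum_le_sum
                intro l _
                have h1 : ∀ d ∈ (A.filter (fun d => near d q')).filter (fun d => d.1 = l),
                    2 ^ (h - d.1) = 2 ^ (h - l) := by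
                  intro d hd
                  rw [(Finset.mem_filter.1 hd).2]
                rw [Finset.sum_congr rfl h1, Finset.sum_const, smul_eq_mul]
                apply Nat.mul_le_mul_right
                apply Weight_card _ l (anc (q'.1 - (l - 1) + s') q'.2)
                intro d hd
                rw [Finset.mem_filter, Finset.mem_filter] at hd
                obtain ⟨⟨-, h2⟩, h3⟩ := hd
                refine ⟨h3, ?_⟩
                have h4 : Nr 1 (anc (s' + 1) d.2) (anc (q'.1 - (d.1 - 1) + s') q'.2) := h2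
                rw [h3] at h4
                exact h4
            _ = 9 ^ (s' + 2) * ∑ l ∈ Finset.Ioc q.1 h, 2 ^ (h - l) := by rw [Finset.mul_sum]
            _ ≤ 9 ^ (s' + 2) * 2 ^ (h - q.1) := Nat.mul_le_mul_left _ (Weight_geom _ _ hqh)
      _ = F.card * (9 ^ (s' + 2) * 2 ^ (h - q.1)) := by rw [Finset.sum_const, smul_eq_mul]
  rw [hn]
  calc _ ≤ 2 ^ (h - q.1) + F.card * (9 ^ (s' + 2) * 2 ^ (h - q.1)) := Nat.add_le_add hA hB
    _ = 2 ^ (h - q.1) * (1 + 9 ^ (s' + 2) * F.card) := by ring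

end UCP
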